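import Pool.Agent.Helper65.CB.Defs

/-!
# Project CB (MP_65faa7): interface statements between the blocks
-/

set_option autoImplicit false

open scoped BigOperators ENNReal Topology
open Pool.LE Pool.NL Pool.CL Filter MeasureTheory

namespace Pool.CB

/-! ## block K (kernel decay) -/

/-- (K1) -/
def StK1 : Prop := ∃ d₁ : ℕ, ∀ d : ℕ, d₁ ≤ d → ∃ C : ℝ, 1 ≤ C ∧ ∀ (m : ℕ) (w : Zd d), 1 ≤ m →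
  ∑ y ∈ bx d m, tau d (pH d) (y - w) ≤ C * (m : ℝ) ^ 5 / ((m : ℝ) + nrm w) ^ 3

/-- (K2) -/
def StK2 : Prop := ∃ d₁ : ℕ, ∀ d : ℕ, d₁ ≤ d → ∀ t : ℝ, 2 < t → t < 5 → ∃ C : ℝ, 1 ≤ C ∧
  ∀ (n : ℕ) (L : Finset (Zd d)) (x : Zd d), 1 ≤ n →
    (∑ y ∈ L, tau d (pH d) (y - x) * rr n y ^ (-t)) / (n : ℝ) ^ 2 ≤ C * rr n x ^ (-(t - 2))

/-! ## block T0 (truncation) -/

/-- (T0) -/
def StT0f : Prop := ∃ d₁ : ℕ, ∀ d : ℕ, d₁ ≤ d → ∀ ε : ℝ, 0 < ε → ∃ M₀ : ℕ, 1 ≤ M₀ ∧ ∀ M : ℕ, M₀ ≤ M →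
  ∃ n₀ : ℕ, 1 ≤ n₀ ∧ ∀ n : ℕ, n₀ ≤ n → ∀ (L : Finset (Zd d)) (x : Zd d), Lam d n M ⊆ L →
    2 * rr n x ≤ M →
      (∑ y ∈ L, (cp (ES L) (pH d) x y - cp (ES (Lam d n M)) (pH d) x y) *
        rr n y ^ (-(19 / 4) : ℝ)) / (n : ℝ) ^ 2 ≤ ε

/-! ## block BK (tree decomposition and functional BK, helper22) -/

/-- three branches -/
def StBKf : Prop := ∀ (V : Type) [DecidableEq V] (L : Finset V) (E : Finset (Sym2 V)) (D : ℕ) (p : ℝ)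
  (f : V → ℝ), FG L E D → 0 ≤ p → p ≤ 1 → (∀ y, 0 ≤ f y) → ∀ x ∈ L,
    ex E p (fun ω => (ms f (clu L ω x)) ^ 2 * Real.exp (ms f (clu L ω x))) ≤
      ∑ z ∈ L, ex E p (fun ω => ind (con ω x z) * Real.exp (ms f (clu L ω x))) *
        (ex E p (fun ω => ms f (clu L ω z) * Real.exp (ms f (clu L ω z)))) ^ 2

/-! ## block S (simple random walk) -/

/-- the problem with source `1_B` has a finite solution in every box -/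
def SFin (d : ℕ) (V c θ : ℝ) : Prop := ∀ M : ℕ, 1 ≤ M → ∃ n₀ : ℕ, 1 ≤ n₀ ∧ ∀ n : ℕ, n₀ ≤ n →
  ∃ K : ℝ, ∀ (N : ℕ), ∀ x ∈ Lam d n M, Up (TS (Lam d n M) n c) V (sB n) N θ x ≤ K

/-- (S6) uniform decay -/
def StS6 : Prop := ∀ (d : ℕ) (V c θ θ₂ : ℝ), 21 ≤ d → 0 < V → 0 < c → 0 < θ → θ < θ₂ →
  SFin d V c θ₂ → ∀ η₁ : ℝ, 0 < η₁ → ∃ η K : ℝ, 0 < η ∧ η ≤ η₁ ∧ 0 < K ∧ ∀ M : ℕ, 1 ≤ M →
    ∃ n₀ : ℕ, 1 ≤ n₀ ∧ ∀ n : ℕ, n₀ ≤ n → ∀ N : ℕ, ∀ x ∈ Lam d n M,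
      Fp (TS (Lam d n M) n c) V (fe n η) N θ x ≤ K * rr n x ^ (-(11 / 4) : ℝ)

/-- (S7) from the radius of convergence of the limit series to finiteness -/
def StS7 : Prop := ∀ (d M : ℕ) (V c η θ θ' : ℝ) (cl : ℕ → ℝ), 3 ≤ d → 1 ≤ M → 0 < V → 0 < c →
  0 < η → η ≤ 1 → 0 < θ → θ < θ' → (∀ r, Tendsto (fun n : ℕ => (∑ x ∈ Lam d n M,
    co (TS (Lam d n M) n c) V (fun y => sB n y + η) r x) / (n : ℝ) ^ d) atTop (𝓝 (cl r))) →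
  Summable (fun r => cl r * θ' ^ r) → ∃ K : ℝ, ∃ n₀ : ℕ, 1 ≤ n₀ ∧ ∀ n : ℕ, n₀ ≤ n →
    ∀ (N : ℕ), ∀ x ∈ Lam d n M,
      Fp (TS (Lam d n M) n c) V (fun y => sB n y + η) N θ x ≤ K

end Pool.CB
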