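import Pool.Agent.Helper65.CB.StX
import Pool.Agent.Helper84.LE.M_Box

/-! MP_65faa7, project CB: module RR. -/

set_option autoImplicit false
set_option linter.unusedSectionVars false

open scoped BigOperators ENNReal Topology
open Pool.LE Pool.NL Pool.CL Filter MeasureTheory

namespace Pool.CB

namespace RRM

theorem dq_le_iff {d : ℕ} (n : ℕ) (x : Zd d) (k : ℕ) :
    dq n x ≤ k ↔ ∀ i, -(k : ℤ) ≤ x i ∧ x i ≤ (n : ℤ) - 1 + k := by
  unfold dq
  rw [Finset.sup_le_iff]
  constructor
  · intro h i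
    have h1 := h i (Finset.mem_univ i)
    have h2 : max (-x i) (x i - ((n : ℤ) - 1)) ≤ (k : ℤ) := Int.toNat_le.1 h1
    have h3 := (le_max_left (-x i) (x i - ((n : ℤ) - 1))).trans h2
    have h4 := (le_max_right (-x i) (x i - ((n : ℤ) - 1))).trans h2
    constructor
    · linarith
    · linarith
  · intro h i _
    have h1 := h i
    refine Int.toNat_le.2 (max_le ?_ ?_)
    · linarith [h1.1]
    · linarith [h1.2]

theorem mem_Bn_iff {d : ℕ} (n : ℕ) (x : Zd d) : x ∈ Bn d n ↔ dq n x = 0 := by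
  rw [← Nat.le_zero, dq_le_iff]
  unfold Bn
  rw [Fintype.mem_piFinset]
  refine forall_congr' fun i => ?_
  rw [Finset.mem_Ico]
  push_cast
  omega

theorem mem_Lam_iff {d : ℕ} (n M : ℕ) (x : Zd d) : x ∈ Lam d n M ↔ dq n x ≤ M * n := by
  rw [dq_le_iff]
  unfold Lam
  rw [Fintype.mem_piFinset]
  refine forall_congr' fun i => ?_
  rw [Finset.mem_Ico]
  have e : (((M + 1) * n : ℕ) : ℤ) = (M * n : ℕ) + (n : ℤ) := by push_cast; ring
  rw [e]
  constructor
  · rintro ⟨h1, h2⟩
    exact ⟨h1, by linarith⟩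
  · rintro ⟨h1, h2⟩
    exact ⟨h1, by linarith⟩

theorem one_le_rr {d : ℕ} (n : ℕ) (x : Zd d) : 1 ≤ rr n x := by
  unfold rr
  have : 0 ≤ (dq n x : ℝ) / n := by positivity
  linarith

theorem rr_mul {d : ℕ} (n : ℕ) (hn : 1 ≤ n) (x : Zd d) : (n : ℝ) * rr n x = n + dq n x := by
  unfold rr
  have h : (0 : ℝ) < n := by exact_mod_cast hn
  field_simp

theorem rr_eq_one {d : ℕ} (n : ℕ) (hn : 1 ≤ n) (x : Zd d) : rr n x = 1 ↔ dq n x = 0 := by
  have h : (0 : ℝ) < n := by exact_mod_cast hn
  have h1 := rr_mul n hn x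
  constructor
  · intro h2
    rw [h2] at h1
    have h3 : (dq n x : ℝ) = 0 := by linarith
    exact_mod_cast h3
  · intro h2
    rw [h2] at h1
    push_cast at h1
    have h3 : (n : ℝ) * rr n x = n * 1 := by linarith
    exact mul_left_cancel₀ h.ne' h3

theorem dq_nb {d : ℕ} (n : ℕ) (x b : Zd d) (hb : b ∈ nb x) : dq n b ≤ dq n x + 1 := by
  have h := (dq_le_iff n x (dq n x)).1 le_rfl
  rw [dq_le_iff]
  intro i
  have hi := h i
  have hbi : |b i - x i| ≤ 1 := by
    obtain ⟨j, hj | hj⟩ := mem_nb.1 hb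
    · rw [hj, Pi.add_apply, add_sub_cancel_left]
      by_cases hij : i = j
      · subst hij
        rw [Pi.single_eq_same]
        simp
      · rw [Pi.single_eq_of_ne hij]
        simp
    · rw [hj, Pi.sub_apply]
      by_cases hij : i = j
      · subst hij
        rw [Pi.single_eq_same]
        have : x i - 1 - x i = -1 := by ring
        rw [this]
        simp
      · rw [Pi.single_eq_of_ne hij]
        simp
  have hb2 := abs_le.1 hbi
  push_cast
  constructor
  · linarith [hb2.1, hi.1]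
  · linarith [hb2.2, hi.2]

theorem rr_nb {d : ℕ} (n : ℕ) (hn : 1 ≤ n) (x b : Zd d) (hb : b ∈ nb x) :
    rr n b ≤ 2 * rr n x := by
  have h : (1 : ℝ) ≤ n := by exact_mod_cast hn
  have h0 : (0 : ℝ) < n := by linarith
  have h1 := rr_mul n hn x
  have h2 := rr_mul n hn b
  have h3 : (dq n b : ℝ) ≤ dq n x + 1 := by exact_mod_cast dq_nb n x b hb
  have h4 : (0 : ℝ) ≤ dq n x := Nat.cast_nonneg _
  have h5 : (n : ℝ) * rr n b ≤ n * (2 * rr n x) := by
    have e : (n : ℝ) * (2 * rr n x) = 2 * (n * rr n x) := by ring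
    rw [e, h1, h2]
    linarith
  exact le_of_mul_le_mul_left h5 h0

theorem sB_nonneg {d : ℕ} (n : ℕ) (x : Zd d) : 0 ≤ sB n x := by
  unfold sB ind
  split_ifs <;> norm_num

theorem sB_le_one {d : ℕ} (n : ℕ) (x : Zd d) : sB n x ≤ 1 := by
  unfold sB ind
  split_ifs <;> norm_num

theorem sB_le {d : ℕ} (n : ℕ) (hn : 1 ≤ n) (x : Zd d) : sB n x ≤ rr n x ^ (-(19 / 4) : ℝ) := by
  by_cases hx : x ∈ Bn d n
  · have h1 : rr n x = 1 := (rr_eq_one n hn x).2 ((mem_Bn_iff n x).1 hx)
    rw [h1, Real.one_rpow]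
    exact sB_le_one n x
  · have h1 : sB n x = 0 := by
      unfold sB ind
      rw [if_neg hx]
    rw [h1]
    exact Real.rpow_nonneg (by linarith [one_le_rr n x]) _

end RRM

open RRM in
theorem hRR : StRR := by
  intro d n hd hn
  have hn0 : (0 : ℝ) < n := by exact_mod_cast hn
  refine ⟨fun x => ⟨one_le_rr n x, fun hx => (rr_eq_one n hn x).2 ((mem_Bn_iff n x).1 hx),
    fun hx => (mem_Bn_iff n x).2 ((rr_eq_one n hn x).1 hx)⟩, fun x b hb => rr_nb n hn x b hb,
    ?_, ?_, ?_⟩
  · intro η x hη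
    have h1 := one_le_rr n x
    have h2 : 0 ≤ rr n x ^ (-(19 / 4) : ℝ) := Real.rpow_nonneg (by linarith) _
    have h3 := sB_nonneg n x
    have h4 := sB_le n hn x
    have h5 : 0 ≤ η * rr n x ^ (-(19 / 4) : ℝ) := mul_nonneg hη h2
    unfold fe
    refine ⟨by linarith, by linarith, by linarith, ?_⟩
    rw [add_mul, one_mul]
    linarith
  · intro N a x hnN ha
    have hN : 1 ≤ N := hn.trans hnN
    have hN0 : (0 : ℝ) < N := by exact_mod_cast hN
    have hx := (dq_le_iff n x (dq n x)).1 le_rfl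
    have hxa := (dq_le_iff N (x + a) (dq N (x + a))).1 le_rfl
    have hnN' : (n : ℤ) ≤ N := by exact_mod_cast hnN
    have k1 : dq N (x + a) ≤ dq n x := by
      rw [dq_le_iff]
      intro i
      have h1 := hx i
      have h2 := ha i
      rw [Pi.add_apply]
      constructor
      · linarith [h1.1, h2.1]
      · linarith [h1.2, h2.2]
    have k2 : dq n x ≤ dq N (x + a) + (N - n) := by
      rw [dq_le_iff]
      intro i
      have h1 := hxa i
      have h2 := ha i
      rw [Pi.add_apply] at h1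
      push_cast [Nat.cast_sub hnN]
      constructor
      · linarith [h1.1, h2.2]
      · linarith [h1.2, h2.1]
    have k1' : (dq N (x + a) : ℝ) ≤ dq n x := by exact_mod_cast k1
    have hnNr : (n : ℝ) ≤ N := by exact_mod_cast hnN
    have r1 : rr N (x + a) ≤ rr n x := by
      unfold rr
      have : (dq N (x + a) : ℝ) / N ≤ (dq n x : ℝ) / n :=
        div_le_div₀ (Nat.cast_nonneg _) k1' hn0 hnNr
      linarith
    have s1 : sB n x ≤ sB N (x + a) := by
      by_cases hxB : x ∈ Bn d n
      · have h1 : dq n x = 0 := (mem_Bn_iff n x).1 hxB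
        have h2 : x + a ∈ Bn d N := (mem_Bn_iff N (x + a)).2 (by omega)
        unfold sB ind
        rw [if_pos hxB, if_pos h2]
      · have h1 : sB n x = 0 := by
          unfold sB ind
          rw [if_neg hxB]
        rw [h1]
        exact sB_nonneg _ _
    refine ⟨r1, ?_, s1, ?_, ?_⟩
    · rw [rr_mul n hn x, rr_mul N hN (x + a)]
      have k2' : n + dq n x ≤ N + dq N (x + a) := by omega
      exact_mod_cast k2'
    · intro η hη
      unfold fe
      have h1 : rr n x ^ (-(19 / 4) : ℝ) ≤ rr N (x + a) ^ (-(19 / 4) : ℝ) :=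
        Real.rpow_le_rpow_of_nonpos (by linarith [one_le_rr N (x + a)]) r1 (by norm_num)
      have h2 := mul_le_mul_of_nonneg_left h1 hη
      linarith
    · intro M hM
      rw [mem_Lam_iff] at hM ⊢
      exact k1.trans (hM.trans (Nat.mul_le_mul_left M hnN))
  · intro M x
    constructor
    · rw [mem_Lam_iff]
      have h1 := rr_mul n hn x
      constructor
      · intro h
        have h2 : (dq n x : ℝ) ≤ M * n := by exact_mod_cast h
        have h3 : (n : ℝ) * rr n x ≤ n * (M + 1) := by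
          rw [h1]
          linarith
        exact le_of_mul_le_mul_left h3 hn0
      · intro h
        have h3 : (n : ℝ) * rr n x ≤ n * (M + 1) := mul_le_mul_of_nonneg_left h hn0.le
        rw [h1] at h3
        have h2 : (dq n x : ℝ) ≤ M * n := by linarith
        exact_mod_cast h2
    · unfold Lam
      rw [Fintype.card_piFinset, Finset.prod_const, Int.card_Ico, Finset.card_univ,
        Fintype.card_fin]
      congr 1
      have : ((((M + 1) * n : ℕ)) : ℤ) - -((M * n : ℕ) : ℤ) = (((2 * M + 1) * n : ℕ) : ℤ) := by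
        push_cast
        ring
      rw [this, Int.toNat_natCast]

end Pool.CB
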