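import Pool.Agent.Helper65.CB.StX

/-!
# Project CB (MP_65faa7), module Avg: local averages
-/

set_option autoImplicit false

open scoped BigOperators ENNReal Topology
open Pool.LE Pool.NL Pool.CL Filter MeasureTheory

namespace Pool.CB

/-- local averages -/
theorem hAvg (hRR : StRR) : StAvg := by
  classical
  intro d n N M f g x hd hn hnN hx
  obtain ⟨-, -, -, h4, -⟩ := hRR d n hd hn
  by_contra hcon
  simp only [not_exists, not_and, not_le] at hcon
  set T := ∑ y ∈ Lam d N M, |f y - g y| with hT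
  have hT0 : 0 ≤ T := Finset.sum_nonneg fun y _ => abs_nonneg _
  have hpos : (0 : ℝ) < (N : ℝ) - n := by
    have : (n : ℝ) < N := by exact_mod_cast hnN
    linarith
  have hpd : (0 : ℝ) < ((N : ℝ) - n) ^ d := by positivity
  set S : Finset (Zd d) := Fintype.piFinset fun _ => Finset.Icc (0 : ℤ) ((N : ℤ) - n) with hS
  have hmem : ∀ a ∈ S, ∀ i, 0 ≤ a i ∧ a i ≤ (N : ℤ) - n := by
    intro a ha i
    exact Finset.mem_Icc.1 (Fintype.mem_piFinset.1 ha i)
  have hcard : (S.card : ℝ) = ((N : ℝ) - n + 1) ^ d := by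
    rw [hS, Fintype.card_piFinset]
    simp only [Int.card_Icc, Finset.prod_const, Finset.card_univ, Fintype.card_fin]
    push_cast
    congr 1
    have h1 : ((((N : ℤ) - n + 1 - 0).toNat : ℕ) : ℤ) = (N : ℤ) - n + 1 := by
      rw [Int.toNat_of_nonneg (by omega)]
      ring
    have h2 : ((((N : ℤ) - n + 1 - 0).toNat : ℕ) : ℝ) = (((((N : ℤ) - n + 1 - 0).toNat : ℕ) : ℤ) : ℝ) := by
      push_cast
      rfl
    rw [h2, h1]
    push_cast
    ring
  have hSne : S.Nonempty := ⟨0, Fintype.mem_piFinset.2 fun i => Finset.mem_Icc.2 ⟨le_refl _, by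
    show (0 : ℤ) ≤ (N : ℤ) - n
    omega⟩⟩
  have hlow : T < ∑ a ∈ S, |f (x + a) - g (x + a)| := by
    calc T = ((N : ℝ) - n) ^ d * (T / ((N : ℝ) - n) ^ d) := by field_simp
      _ ≤ (S.card : ℝ) * (T / ((N : ℝ) - n) ^ d) := by
          apply mul_le_mul_of_nonneg_right _ (by positivity)
          rw [hcard]
          exact pow_le_pow_left₀ hpos.le (by linarith) d
      _ = ∑ a ∈ S, (T / ((N : ℝ) - n) ^ d) := by rw [Finset.sum_const, nsmul_eq_mul]
      _ < ∑ a ∈ S, |f (x + a) - g (x + a)| := by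
          apply Finset.sum_lt_sum_of_nonempty hSne
          intro a ha
          have h := hcon a (hmem a ha)
          refine lt_of_lt_of_le ?_ (le_abs_self _)
          linarith
  have hup : ∑ a ∈ S, |f (x + a) - g (x + a)| ≤ T := by
    have hinj : Set.InjOn (fun a : Zd d => x + a) S := fun a _ b _ h => add_left_cancel h
    have h1 : ∑ a ∈ S, |f (x + a) - g (x + a)| = ∑ y ∈ S.image (fun a => x + a), |f y - g y| := by
      rw [Finset.sum_image hinj]
    rw [h1, hT]
    apply Finset.sum_le_sum_of_subset_of_nonneg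
    · intro y hy
      obtain ⟨a, ha, rfl⟩ := Finset.mem_image.1 hy
      exact (h4 N a x hnN.le (hmem a ha)).2.2.2.2 M hx
    · intro y _ _
      exact abs_nonneg _
  exact absurd hlow (not_lt.2 hup)

end Pool.CB

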