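import Pool.Agent.Helper65.CB.StI
import Pool.Agent.Helper22.CM.St
import Pool.Agent.Helper22.NL.M_Basic

/-!
# Project CB (MP_65faa7), module BKf: three branches
-/

set_option autoImplicit false
set_option linter.unusedSectionVars false

open scoped BigOperators ENNReal Topology
open Pool.LE Pool.NL Pool.CL Filter MeasureTheory

namespace Pool.CB

namespace BKf

variable {V : Type} [DecidableEq V]

/-- the mass of the cluster as a sum over all points -/
theorem ms_clu (L : Finset V) (f : V → ℝ) (ω : Finset (Sym2 V)) (x : V) :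
    ms f (clu L ω x) = ∑ y ∈ L, f y * ind (con ω x y) := by
  classical
  unfold ms clu
  rw [Finset.sum_filter]
  refine Finset.sum_congr rfl fun y _ => ?_
  unfold ind
  split_ifs <;> simp

/-- expectation of the mass times a function -/
theorem ex_ms (E : Finset (Sym2 V)) {p : ℝ} (hp0 : 0 ≤ p) (hp1 : p ≤ 1) (L : Finset V) (f : V → ℝ) (x : V)
    (g : Finset (Sym2 V) → ℝ) : ex E p (fun ω => ms f (clu L ω x) * g ω) =
      ∑ y ∈ L, f y * ex E p (fun ω => ind (con ω x y) * g ω) := by
  obtain ⟨-, -, -, -, hsmul, hsum, -⟩ := hBasic V E p hp0 hp1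
  rw [Finset.sum_congr rfl fun y _ => (hsmul (f y) (fun ω => ind (con ω x y) * g ω)).symm,
    ← hsum V L (fun y ω => f y * (ind (con ω x y) * g ω))]
  congr 1
  funext ω
  rw [ms_clu, Finset.sum_mul]
  exact Finset.sum_congr rfl fun y _ => by ring

end BKf

open BKf in
theorem hBKf (hTGh : Pool.CM.StTGh) : StBKf := by
  intro V _ L E D p f hFG hp0 hp1 hf x hx
  have h1 : ∀ v, ex E p (fun ω => ms f (clu L ω v) * Real.exp (ms f (clu L ω v))) =
      Pool.CM.cH L E p 1 f v := by
    intro v
    unfold Pool.CM.cH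
    simp only [one_mul]
  have h2 : ∀ v w, ex E p (fun ω => ind (con ω v w) * Real.exp (ms f (clu L ω v))) =
      Pool.CM.tH L E p 1 f v w := by
    intro v w
    unfold Pool.CM.tH
    simp only [one_mul]
  have h3 : ∀ v, ∑ y ∈ L, f y * Pool.CM.tH L E p 1 f v y = Pool.CM.cH L E p 1 f v := by
    intro v
    rw [← h1, ex_ms E hp0 hp1]
    exact Finset.sum_congr rfl fun y _ => by rw [h2]
  have h4 : ex E p (fun ω => (ms f (clu L ω x)) ^ 2 * Real.exp (ms f (clu L ω x))) =
      ∑ y ∈ L, f y * ex E p (fun ω => ind (con ω x y) *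
        (ms f (clu L ω x) * Real.exp (1 * ms f (clu L ω x)))) := by
    rw [← ex_ms E hp0 hp1]
    congr 1
    funext ω
    rw [one_mul]
    ring
  rw [h4]
  calc _ ≤ ∑ y ∈ L, f y * ∑ z ∈ L, Pool.CM.tH L E p 1 f x z *
        (Pool.CM.tH L E p 1 f z y * Pool.CM.cH L E p 1 f z) :=
        Finset.sum_le_sum fun y hy => mul_le_mul_of_nonneg_left
          (hTGh V L E D p 1 f hFG hp0 hp1 zero_le_one hf x hx y hy) (hf y)
    _ = ∑ z ∈ L, Pool.CM.tH L E p 1 f x z * (Pool.CM.cH L E p 1 f z) ^ 2 := by
        simp only [Finset.mul_sum]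
        rw [Finset.sum_comm]
        refine Finset.sum_congr rfl fun z _ => ?_
        have h5 : Pool.CM.tH L E p 1 f x z * (Pool.CM.cH L E p 1 f z) ^ 2 =
            (Pool.CM.tH L E p 1 f x z * Pool.CM.cH L E p 1 f z) *
              ∑ y ∈ L, f y * Pool.CM.tH L E p 1 f z y := by
          rw [h3 z]
          ring
        rw [h5, Finset.mul_sum]
        exact Finset.sum_congr rfl fun y _ => by ring
    _ = _ := Finset.sum_congr rfl fun z _ => by rw [h1, h2]

end Pool.CB
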