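import Pool.Agent.Helper65.CB.StX

/-! MP_65faa7, project CB: module Bbox. -/

set_option autoImplicit false
set_option linter.unusedSectionVars false

open scoped BigOperators ENNReal Topology
open Pool.LE Pool.NL Pool.CL Filter MeasureTheory

namespace Pool.CB

theorem bbox_gs {d : ℕ} (n : ℕ) : (gs n 1 0 0 : Zd d → ℝ) = sB n := by
  funext x
  unfold gs
  ring

theorem hBbox (hUB : StUB) (hLB : StLB) (hRb : StRb) (hL3 : StL3) (hVf : StVf) (hD1 : StD1)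
    (hCs : StCs) : StBbox := by
  obtain ⟨dU, hU⟩ := hUB
  obtain ⟨dL, hL⟩ := hLB
  obtain ⟨dR, hR⟩ := hRb
  refine ⟨dU + dL + dR + 7, ?_⟩
  intro d hd C₁ B c₀ CL hE
  have hd6 : (0 : ℝ) < (d : ℝ) - 6 := by
    have h : (7 : ℝ) ≤ (d : ℝ) := by
      have : 7 ≤ d := by omega
      exact_mod_cast this
    linarith
  obtain ⟨R, hR0, hR1, hR2⟩ := hR d (by omega) C₁ B c₀ CL hE
  have ha : 0 < ((d : ℝ) - 6) / R := div_pos hd6 hR0
  refine ⟨((d : ℝ) - 6) / R, ha, ?_⟩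
  intro ε hε
  constructor
  · intro ε' hε'
    have hlt : ((d : ℝ) - 6) / (((d : ℝ) - 6) / R + ε) < R := by
      rw [div_lt_iff₀ (by linarith)]
      have h1 : R * (((d : ℝ) - 6) / R + ε) = ((d : ℝ) - 6) + R * ε := by
        field_simp
      rw [h1]
      have := mul_pos hR0 hε
      linarith
    have hs0 : 0 < ((d : ℝ) - 6) / (((d : ℝ) - 6) / R + ε) := div_pos hd6 (by linarith)
    obtain ⟨θ, hθ1, hθ2⟩ := exists_between hlt
    obtain ⟨θ₂, hθ3, hθ4⟩ := exists_between hθ2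
    have hθ0 : 0 < θ := hs0.trans hθ1
    have hda : ((d : ℝ) - 6) / θ < ((d : ℝ) - 6) / R + ε := by
      rw [div_lt_iff₀ hθ0]
      rw [div_lt_iff₀ (by linarith)] at hθ1
      linarith
    exact hU d (by omega) C₁ B c₀ CL hE θ θ₂ hθ0 hθ3 (hR1 θ₂ (hθ0.trans hθ3) hθ4) _ hda ε' hε'
  · have hb0 : 0 < max (((d : ℝ) - 6) / R - ε) (((d : ℝ) - 6) / R / 2) :=
      lt_max_of_lt_right (by linarith)
    have hb1 : max (((d : ℝ) - 6) / R - ε) (((d : ℝ) - 6) / R / 2) < ((d : ℝ) - 6) / R :=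
      max_lt (by linarith) (by linarith)
    obtain ⟨b, hb⟩ : ∃ b, b = max (((d : ℝ) - 6) / R - ε) (((d : ℝ) - 6) / R / 2) := ⟨_, rfl⟩
    have hb2 : ((d : ℝ) - 6) / R - ε ≤ b := by
      rw [hb]
      exact le_max_left _ _
    rw [← hb] at hb0 hb1
    have hlt : R < ((d : ℝ) - 6) / b := by
      rw [lt_div_iff₀ hb0]
      rw [lt_div_iff₀ hR0] at hb1
      linarith
    obtain ⟨θ, hθ1, hθ2⟩ := exists_between hlt
    obtain ⟨θ', hθ3, hθ4⟩ := exists_between hθ1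
    have hθ0 : 0 < θ := hR0.trans hθ1
    have hda : ((d : ℝ) - 6) / R - ε < ((d : ℝ) - 6) / θ := by
      refine lt_of_le_of_lt hb2 ?_
      rw [lt_div_iff₀ hθ0]
      rw [lt_div_iff₀ hb0] at hθ2
      linarith
    have hn := hR2 θ' hθ3
    unfold RadC at hn
    push Not at hn
    obtain ⟨M, hM, hns⟩ := hn
    obtain ⟨V, hV⟩ := hVf d C₁ B c₀ CL hE
    obtain ⟨c, hc⟩ := hCs d C₁ B c₀ CL hE
    have hEq := hD1 d C₁ B c₀ CL hE V hV
    have hex : ∀ r : ℕ, ∃ cl : ℝ, Tendsto (fun n : ℕ => (∑ x ∈ Lam d n M,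
        Fr (Lam d n M) n r (sB n) x) / (n : ℝ) ^ d) atTop (𝓝 cl) := by
      intro r
      obtain ⟨-, cl, -, hcl⟩ := hL3 d C₁ B c₀ CL hE V c hEq hc M r 1 0 0 hM (by norm_num) le_rfl
        le_rfl
      refine ⟨cl, ?_⟩
      simp only [bbox_gs] at hcl
      exact hcl
    choose cl hcl using hex
    exact ⟨M, hL d (by omega) C₁ B c₀ CL hE M cl θ hM hθ0 hcl (hns θ cl hθ4 hcl) _ hda⟩

end Pool.CB
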