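import Pool.Agent.Helper65.CB.StX2
import Pool.Agent.Helper65.CB.M_Bbox2
import Pool.Agent.Helper84.LE.BWT

/-! MP_65faa7, project CB: module Bbox, third version (with `StLB3`). -/

set_option autoImplicit false
set_option linter.unusedSectionVars false

open scoped BigOperators ENNReal Topology
open Pool.LE Pool.NL Pool.CL Filter MeasureTheory

namespace Pool.CB

theorem hBbox3 (hUB : StUB) (hLB : StLB3) (hRb : StRb) (hL3 : StL3) (hX7 : StX7) (hSF : StSF)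
    (hVf : StVf) (hD1 : StD1) (hCs : StCs) : StBbox := by
  obtain ⟨dU, hU⟩ := hUB
  obtain ⟨dL, hL⟩ := hLB
  obtain ⟨dR, hR⟩ := hRb
  obtain ⟨dX, hX⟩ := hX7
  refine ⟨dU + dL + dR + dX + 7, ?_⟩
  intro d hd C₁ B c₀ CL hE
  have hd6 : (0 : ℝ) < (d : ℝ) - 6 := by
    have h : (7 : ℝ) ≤ (d : ℝ) := by
      have : 7 ≤ d := by omega
      exact_mod_cast this
    linarith
  have hp0 : 0 ≤ pH d := hE.env.p0.le
  have hp1 : pH d ≤ 1 := hE.env.p1.trans (by norm_num)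
  obtain ⟨R, hR0, hR1, hR2⟩ := hR d (by omega) C₁ B c₀ CL hE
  have ha : 0 < ((d : ℝ) - 6) / R := div_pos hd6 hR0
  refine ⟨((d : ℝ) - 6) / R, ha, ?_⟩
  intro ε hε
  constructor
  · intro ε' hε'
    have hlt : ((d : ℝ) - 6) / (((d : ℝ) - 6) / R + ε) < R := by
      rw [div_lt_iff₀ (by linarith)]
      have h1 : R * (((d : ℝ) - 6) / R + ε) = ((d : ℝ) - 6) + R * ε := by
        field_simp
      rw [h1]
      have := mul_pos hR0 hε
      linarith
    have hs0 : 0 < ((d : ℝ) - 6) / (((d : ℝ) - 6) / R + ε) := div_pos hd6 (by linarith)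
    obtain ⟨θ, hθ1, hθ2⟩ := exists_between hlt
    obtain ⟨θ₂, hθ3, hθ4⟩ := exists_between hθ2
    have hθ0 : 0 < θ := hs0.trans hθ1
    have hda : ((d : ℝ) - 6) / θ < ((d : ℝ) - 6) / R + ε := by
      rw [div_lt_iff₀ hθ0]
      rw [div_lt_iff₀ (by linarith)] at hθ1
      linarith
    exact hU d (by omega) C₁ B c₀ CL hE θ θ₂ hθ0 hθ3 (hR1 θ₂ (hθ0.trans hθ3) hθ4) _ hda ε' hε'
  · have hb0 : 0 < max (((d : ℝ) - 6) / R - ε) (((d : ℝ) - 6) / R / 2) :=
      lt_max_of_lt_right (by linarith)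
    have hb1 : max (((d : ℝ) - 6) / R - ε) (((d : ℝ) - 6) / R / 2) < ((d : ℝ) - 6) / R :=
      max_lt (by linarith) (by linarith)
    obtain ⟨b, hb⟩ : ∃ b, b = max (((d : ℝ) - 6) / R - ε) (((d : ℝ) - 6) / R / 2) := ⟨_, rfl⟩
    have hb2 : ((d : ℝ) - 6) / R - ε ≤ b := by
      rw [hb]
      exact le_max_left _ _
    rw [← hb] at hb0 hb1
    have hbR : b * R < (d : ℝ) - 6 := by
      rwa [lt_div_iff₀ hR0] at hb1
    obtain ⟨V, hV⟩ := hVf d C₁ B c₀ CL hE
    obtain ⟨c, hc⟩ := hCs d C₁ B c₀ CL hE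
    have hEq := hD1 d C₁ B c₀ CL hE V hV
    have hmain := hL d (by omega) C₁ B c₀ CL hE
    -- the second threshold
    obtain ⟨δ, hδ⟩ : ∃ δ, δ = min (((d : ℝ) - 6 - b * R) / (2 * b * (1 + 71))) R := ⟨_, rfl⟩
    have hden : 0 < 2 * b * (1 + 71) := by positivity
    have hδ0 : 0 < δ := by
      rw [hδ]
      exact lt_min (div_pos (by linarith) hden) hR0
    have hδR : δ ≤ R := by
      rw [hδ]
      exact min_le_right _ _
    have hδ1 : b * ((1 + 71) * δ) ≤ ((d : ℝ) - 6 - b * R) / 2 := by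
      have h1 : δ ≤ ((d : ℝ) - 6 - b * R) / (2 * b * (1 + 71)) := by
        rw [hδ]
        exact min_le_left _ _
      rw [le_div_iff₀ hden] at h1
      linarith
    have hthr : b * (R + δ + 71 * (R + δ - R)) < (d : ℝ) - 6 := by
      have e : b * (R + δ + 71 * (R + δ - R)) = b * R + b * ((1 + 71) * δ) := by ring
      rw [e]
      linarith
    obtain ⟨θ', hθ3, hθ4⟩ := exists_between (show R < R + δ by linarith)
    have hn := hR2 θ' hθ3
    unfold RadC at hn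
    push Not at hn
    obtain ⟨M, hM, hns⟩ := hn
    have hex : ∀ r : ℕ, ∃ cl : ℝ, Tendsto (fun n : ℕ => (∑ x ∈ Lam d n M,
        Fr (Lam d n M) n r (sB n) x) / (n : ℝ) ^ d) atTop (𝓝 cl) := by
      intro r
      obtain ⟨-, cl, -, hcl⟩ := hL3 d C₁ B c₀ CL hE V c hEq hc M r 1 0 0 hM (by norm_num) le_rfl
        le_rfl
      refine ⟨cl, ?_⟩
      simp only [bbox_gs] at hcl
      exact hcl
    choose cl hcl using hex
    have hexp : ∀ θ : ℝ, 0 < θ → θ < R → ∃ K : ℝ, ∃ n₀ : ℕ, 1 ≤ n₀ ∧ ∀ n : ℕ, n₀ ≤ n →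
        ∀ x ∈ Lam d n M, Fe (Lam d n M) n θ (sB n) x ≤ K := by
      intro θ hθ hθR
      obtain ⟨θ₂, h1, h2⟩ := exists_between hθR
      have h3 := hSF d C₁ B c₀ CL hE V c θ₂ hEq hc (hθ.trans h1) (hR1 θ₂ (hθ.trans h1) h2)
      obtain ⟨K, -, n₀, hn₀, hK⟩ := hX d (by omega) C₁ B c₀ CL hE V c θ θ₂ hEq hc hθ h1 h3
      exact ⟨K, n₀, hn₀, fun n hn x hx => hK n hn M x hx⟩
    have hlim := hmain M cl R (R + δ) hM hR0 (by linarith) (by linarith) hcl hexp
      (fun θ hθ => hns θ cl (hθ4.trans hθ) hcl) b hb0 hthr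
    refine ⟨M, ?_⟩
    refine tendsto_of_tendsto_of_tendsto_of_le_of_le' hlim tendsto_const_nhds ?_ ?_
    · filter_upwards [eventually_ge_atTop 1] with n hn
      refine bbox_pr_mono hp0 hp1 ?_
      rintro ω ⟨x, hx, h1⟩
      refine ⟨x, hx, le_trans ?_ h1⟩
      have hlog : 0 ≤ Real.log n := Real.log_natCast_nonneg n
      exact mul_le_mul_of_nonneg_right (mul_le_mul_of_nonneg_right hb2 (by positivity)) hlog
    · exact Eventually.of_forall fun n => bbox_pr_le_one hp0 hp1 _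

end Pool.CB
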