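import Pool.Agent.Helper65.CB.StX
import Pool.Agent.Helper22.NL.Asm

/-!
# Project CB, module Bfin: from finite boxes to the bulk clusters
-/

set_option autoImplicit false

open scoped BigOperators ENNReal Topology
open Pool.LE Pool.NL Pool.CL Filter MeasureTheory

namespace Pool.CB

namespace Bfin

variable {d : ℕ}

theorem mem_ES {S : Finset (Zd d)} {e : Sym2 (Zd d)} : e ∈ ES S ↔ ∃ (a : Zd d) (i : Fin d),
    a ∈ S ∧ a + Pi.single i (1 : ℤ) ∈ S ∧ e = s(a, a + Pi.single i (1 : ℤ)) := by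
  unfold ES
  rw [Finset.mem_image]
  constructor
  · rintro ⟨⟨a, i⟩, h1, h2⟩
    rw [Finset.mem_filter, Finset.mem_product] at h1
    exact ⟨a, i, h1.1.1, h1.2, h2.symm⟩
  · rintro ⟨a, i, h1, h2, h3⟩
    exact ⟨(a, i), Finset.mem_filter.2 ⟨Finset.mem_product.2 ⟨h1, Finset.mem_univ _⟩, h2⟩, h3.symm⟩

theorem ES_lat (S : Finset (Zd d)) : ((ES S : Finset (Sym2 (Zd d))) : Set (Sym2 (Zd d))) ⊆ latE d := by
  intro e he
  obtain ⟨a, i, -, -, h⟩ := mem_ES.1 (Finset.mem_coe.1 he)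
  exact ⟨a, i, h⟩

theorem ES_mono {S S' : Finset (Zd d)} (h : S ⊆ S') : ES S ⊆ ES S' := by
  intro e he
  obtain ⟨a, i, h1, h2, h3⟩ := mem_ES.1 he
  exact mem_ES.2 ⟨a, i, h h1, h h2, h3⟩

theorem opE_mono {E E' : Finset (Sym2 (Zd d))} (h : E ⊆ E') (p : ℝ)
    (ω : ((Fin d → ℤ) × Fin d) → unitInterval) : opE E p ω ⊆ opE E' p ω := by
  classical
  intro e he
  unfold opE at he ⊢
  rw [Finset.mem_filter] at he ⊢
  exact ⟨h he.1, he.2⟩

theorem con_mono {ω ω' : Finset (Sym2 (Zd d))} (h : ω ⊆ ω') {x y : Zd d} (hc : con ω x y) :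
    con ω' x y := by
  unfold con gr at hc ⊢
  exact hc.mono (SimpleGraph.fromEdgeSet_mono (Finset.coe_subset.2 h))

theorem con_GU {E : Finset (Sym2 (Zd d))} {p : ℝ} {ω : ((Fin d → ℤ) × Fin d) → unitInterval}
    {x y : Zd d} (hc : con (opE E p ω) x y) : (GU d p ω).Reachable x y := by
  classical
  unfold con gr at hc
  refine hc.mono ?_
  intro a b hab
  rw [SimpleGraph.fromEdgeSet_adj] at hab
  obtain ⟨h1, h2⟩ := hab
  rw [Finset.mem_coe] at h1
  unfold opE at h1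
  rw [Finset.mem_filter] at h1
  obtain ⟨-, x', i, h3, h4⟩ := h1
  unfold GU
  rw [SimpleGraph.fromRel_adj]
  refine ⟨h2, ?_⟩
  rcases Sym2.eq_iff.1 h3 with ⟨rfl, rfl⟩ | ⟨rfl, rfl⟩
  · exact Or.inl ⟨i, rfl, h4⟩
  · exact Or.inr ⟨i, rfl, h4⟩

section boxes

variable {n : ℕ} (hL : ∀ (M : ℕ) (x : Zd d), x ∈ Lam d n M ↔ rr n x ≤ M + 1)

include hL

theorem Lam_mono {M M' : ℕ} (h : M ≤ M') : Lam d n M ⊆ Lam d n M' := by
  intro x hx
  rw [hL] at hx ⊢
  have h1 : (M : ℝ) ≤ M' := by exact_mod_cast h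
  linarith

theorem exists_Lam (x : Zd d) : ∃ M : ℕ, x ∈ Lam d n M := by
  obtain ⟨M, hM⟩ := exists_nat_ge (rr n x)
  refine ⟨M, ?_⟩
  rw [hL]
  linarith

theorem conL_mono {p : ℝ} {ω : ((Fin d → ℤ) × Fin d) → unitInterval} {M M' : ℕ} (h : M ≤ M')
    {x y : Zd d} (hc : con (opE (ES (Lam d n M)) p ω) x y) :
    con (opE (ES (Lam d n M')) p ω) x y :=
  con_mono (opE_mono (ES_mono (Lam_mono hL h)) p ω) hc

theorem adj_con {p : ℝ} {ω : ((Fin d → ℤ) × Fin d) → unitInterval} {a b : Zd d}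
    (h : (GU d p ω).Adj a b) : ∃ M : ℕ, con (opE (ES (Lam d n M)) p ω) a b := by
  classical
  obtain ⟨M1, h1⟩ := exists_Lam hL a
  obtain ⟨M2, h2⟩ := exists_Lam hL b
  have ha : a ∈ Lam d n (max M1 M2) := Lam_mono hL (le_max_left _ _) h1
  have hb : b ∈ Lam d n (max M1 M2) := Lam_mono hL (le_max_right _ _) h2
  refine ⟨max M1 M2, ?_⟩
  unfold GU at h
  rw [SimpleGraph.fromRel_adj] at h
  obtain ⟨hne, h⟩ := h
  unfold con gr
  apply SimpleGraph.Adj.reachable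
  rw [SimpleGraph.fromEdgeSet_adj]
  refine ⟨?_, hne⟩
  rw [Finset.mem_coe]
  unfold opE
  rw [Finset.mem_filter]
  rcases h with ⟨i, rfl, hp⟩ | ⟨i, rfl, hp⟩
  · exact ⟨mem_ES.2 ⟨a, i, ha, hb, rfl⟩, a, i, rfl, hp⟩
  · exact ⟨mem_ES.2 ⟨b, i, hb, ha, Sym2.eq_swap⟩, b, i, Sym2.eq_swap, hp⟩

theorem reach_con {p : ℝ} {ω : ((Fin d → ℤ) × Fin d) → unitInterval} {x y : Zd d}
    (h : (GU d p ω).Reachable x y) : ∃ M : ℕ, con (opE (ES (Lam d n M)) p ω) x y := by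
  obtain ⟨w⟩ := h
  induction w with
  | nil => exact ⟨0, SimpleGraph.Reachable.refl _⟩
  | cons hadj _ ih =>
    obtain ⟨M1, h1⟩ := adj_con hL hadj
    obtain ⟨M2, h2⟩ := ih
    exact ⟨max M1 M2, (conL_mono hL (le_max_left _ _) h1).trans (conL_mono hL (le_max_right _ _) h2)⟩

end boxes

/-- the mass of a finite set with respect to the source -/
theorem ms_sB (n : ℕ) (C : Finset (Zd d)) :
    ms (sB n) C = ((C.filter (fun y => y ∈ Bn d n)).card : ℝ) := by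
  classical
  unfold ms sB ind
  rw [Finset.card_filter]
  push_cast
  refine Finset.sum_congr rfl fun y _ => ?_
  by_cases h : y ∈ Bn d n <;> simp [h]

/-- the number of points of the cluster in a big box which lie in the small box -/
theorem ms_le (n M : ℕ) (p : ℝ) (ω : ((Fin d → ℤ) × Fin d) → unitInterval) (x : Zd d) :
    ms (sB n) (clu (Lam d n M) (opE (ES (Lam d n M)) p ω) x) ≤ cBk d n p ω x := by
  classical
  rw [ms_sB]
  unfold cBk
  rw [← Set.ncard_coe_finset]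
  have h : (((clu (Lam d n M) (opE (ES (Lam d n M)) p ω) x).filter (fun y => y ∈ Bn d n) :
      Finset (Zd d)) : Set (Zd d)) ⊆ {y | y ∈ BU d n ∧ (GU d p ω).Reachable x y} := by
    intro y hy
    rw [Finset.mem_coe, Finset.mem_filter] at hy
    obtain ⟨h1, h2⟩ := hy
    unfold clu at h1
    rw [Finset.mem_filter] at h1
    exact ⟨h2, con_GU h1.2⟩
  exact_mod_cast Set.ncard_le_ncard h ((BU d n).finite_toSet.subset fun y hy => hy.1)

/-- the whole cluster is seen in a big box -/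
theorem exists_le {n : ℕ} (hL : ∀ (M : ℕ) (x : Zd d), x ∈ Lam d n M ↔ rr n x ≤ M + 1)
    (hB : ∀ x : Zd d, x ∈ Bn d n → rr n x = 1) (p : ℝ)
    (ω : ((Fin d → ℤ) × Fin d) → unitInterval) (x : Zd d) :
    ∃ M : ℕ, (cBk d n p ω x : ℝ) ≤ ms (sB n) (clu (Lam d n M) (opE (ES (Lam d n M)) p ω) x) := by
  classical
  have h1 : ∀ y : Zd d, ∃ M : ℕ, (GU d p ω).Reachable x y →
      con (opE (ES (Lam d n M)) p ω) x y := by
    intro y
    by_cases h : (GU d p ω).Reachable x y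
    · obtain ⟨M, hM⟩ := reach_con hL h
      exact ⟨M, fun _ => hM⟩
    · exact ⟨0, fun h' => absurd h' h⟩
  choose M hM using h1
  refine ⟨(Bn d n).sup M, ?_⟩
  rw [ms_sB]
  unfold cBk
  rw [← Set.ncard_coe_finset]
  have h : {y | y ∈ BU d n ∧ (GU d p ω).Reachable x y} ⊆
      (((clu (Lam d n ((Bn d n).sup M)) (opE (ES (Lam d n ((Bn d n).sup M))) p ω) x).filter
        (fun y => y ∈ Bn d n) : Finset (Zd d)) : Set (Zd d)) := by
    rintro y ⟨hy, hr⟩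
    have hy' : y ∈ Bn d n := hy
    rw [Finset.mem_coe, Finset.mem_filter]
    refine ⟨?_, hy'⟩
    unfold clu
    rw [Finset.mem_filter]
    refine ⟨?_, conL_mono hL (Finset.le_sup hy') (hM y hr)⟩
    rw [hL, hB y hy']
    have : (0 : ℝ) ≤ ((Bn d n).sup M : ℕ) := Nat.cast_nonneg _
    linarith
  exact_mod_cast Set.ncard_le_ncard h (Finset.finite_toSet _)

end Bfin

/-- **the bulk limit** -/
theorem hBfin (hEnvC : StEnvC) (hB : StBbox) (hLawE : Pool.NL.StLawE) (hPc : Pool.LE.StPc)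
    (hRR : StRR) : StBfin := by
  obtain ⟨d₀, h0⟩ := hEnvC
  obtain ⟨d₁, h1⟩ := hB
  refine ⟨max d₀ d₁, fun d hd => ?_⟩
  obtain ⟨C₁, B, c₀, CL, E⟩ := h0 d (le_trans (le_max_left _ _) hd)
  obtain ⟨a, ha, hab⟩ := h1 d (le_trans (le_max_right _ _) hd) C₁ B c₀ CL E
  have hd1 : 1 ≤ d := le_trans (by norm_num) E.env.hd
  have hpc : pcU d = pH d := pcU_eq hPc hd1 E.half
  have hp0 : 0 ≤ pH d := E.env.p0.le
  have hp1 : pH d ≤ 1 := E.env.p1.trans (by norm_num)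
  refine ⟨a, ha, fun ε hε => ?_⟩
  rw [hpc]
  obtain ⟨hup, M, hlow⟩ := hab (ε / 2) (by positivity)
  set ev : ℕ → ℕ → ℝ → Set (((Fin d → ℤ) × Fin d) → unitInterval) := fun n M t =>
    {ω | ∃ x ∈ Bn d n, t ≤ ms (sB n) (clu (Lam d n M) (opE (ES (Lam d n M)) (pH d) ω) x)} with hev
  have hlaw : ∀ n M t, PU d (ev n M t) = ENNReal.ofReal (pr (ES (Lam d n M)) (pH d)
      (fun ω => ∃ x ∈ Bn d n, t ≤ ms (sB n) (clu (Lam d n M) ω x))) := fun n M t =>
    (hLawE d (ES (Lam d n M)) (pH d)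
      (fun ω => ∃ x ∈ Bn d n, t ≤ ms (sB n) (clu (Lam d n M) ω x)) (Bfin.ES_lat _) hp0 hp1).1
  -- the upper events
  have hUmono : ∀ n : ℕ, 1 ≤ n → ∀ t : ℝ, Monotone (fun M => ev n M t) := by
    classical
    intro n hn t M M' hM ω hω
    obtain ⟨x, hx, hxt⟩ := hω
    refine ⟨x, hx, hxt.trans ?_⟩
    have hL := fun (M : ℕ) (x : Zd d) => (((hRR d n hd1 hn).2.2.2.2) M x).1
    rw [Bfin.ms_sB, Bfin.ms_sB]
    have hsub : (clu (Lam d n M) (opE (ES (Lam d n M)) (pH d) ω) x).filter (fun y => y ∈ Bn d n) ⊆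
        (clu (Lam d n M') (opE (ES (Lam d n M')) (pH d) ω) x).filter (fun y => y ∈ Bn d n) := by
      intro y hy
      rw [Finset.mem_filter] at hy ⊢
      refine ⟨?_, hy.2⟩
      have h2 := hy.1
      unfold clu at h2 ⊢
      rw [Finset.mem_filter] at h2 ⊢
      exact ⟨Bfin.Lam_mono hL hM h2.1, Bfin.conL_mono hL hM h2.2⟩
    exact_mod_cast Finset.card_le_card hsub
  have hU0 : Tendsto (fun n : ℕ => PU d (⋃ M, ev n M ((a + ε / 2) * (n : ℝ) ^ 4 * Real.log n)))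
      atTop (𝓝 0) := by
    rw [ENNReal.tendsto_nhds_zero]
    intro δ hδ
    obtain ⟨δ', hδ', hδδ⟩ : ∃ δ' : ℝ, 0 < δ' ∧ ENNReal.ofReal δ' ≤ δ := by
      by_cases htop : δ = ⊤
      · exact ⟨1, one_pos, by rw [htop]; exact le_top⟩
      · exact ⟨δ.toReal, ENNReal.toReal_pos hδ.ne' htop, ENNReal.ofReal_toReal_le⟩
    obtain ⟨n₀, hn₀⟩ := hup δ' hδ'
    filter_upwards [eventually_ge_atTop n₀, eventually_ge_atTop 1] with n hn hn1
    rw [(hUmono n hn1 _).measure_iUnion]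
    refine iSup_le fun M => ?_
    rw [hlaw]
    exact (ENNReal.ofReal_le_ofReal (hn₀ n hn M)).trans hδδ
  have hL1 : Tendsto (fun n : ℕ => PU d (ev n M ((a - ε / 2) * (n : ℝ) ^ 4 * Real.log n)))
      atTop (𝓝 1) := by
    have h2 := (ENNReal.continuous_ofReal.tendsto 1).comp hlow
    rw [ENNReal.ofReal_one] at h2
    refine h2.congr fun n => ?_
    rw [hlaw]
    rfl
  have hdiff := ENNReal.Tendsto.sub hL1 hU0 (Or.inl ENNReal.one_ne_top)
  rw [tsub_zero] at hdiff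
  refine tendsto_of_tendsto_of_tendsto_of_le_of_le' hdiff tendsto_const_nhds ?_
    (Eventually.of_forall fun n => prob_le_one)
  filter_upwards [eventually_ge_atTop 2] with n hn
  refine le_measure_sdiff.trans (measure_mono ?_)
  rintro ω ⟨⟨x, hx, hxl⟩, hnot⟩
  have hn1 : 1 ≤ n := by omega
  obtain ⟨hr1, -, -, -, hr5⟩ := hRR d n hd1 hn1
  have hL := fun (M : ℕ) (x : Zd d) => (hr5 M x).1
  have hn' : (2 : ℝ) ≤ n := by exact_mod_cast hn
  have hlog : 0 < Real.log n := Real.log_pos (by linarith)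
  have hN : 0 < (n : ℝ) ^ 4 * Real.log n := mul_pos (by positivity) hlog
  have hlo : (a - ε / 2) * ((n : ℝ) ^ 4 * Real.log n) ≤ maxB d n (pH d) ω := by
    have h2 := Bfin.ms_le n M (pH d) ω x
    have h3 : cBk d n (pH d) ω x ≤ maxB d n (pH d) ω :=
      Finset.le_sup (f := cBk d n (pH d) ω) hx
    have h4 : (cBk d n (pH d) ω x : ℝ) ≤ maxB d n (pH d) ω := by exact_mod_cast h3
    calc (a - ε / 2) * ((n : ℝ) ^ 4 * Real.log n) = (a - ε / 2) * (n : ℝ) ^ 4 * Real.log n := by ring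
      _ ≤ _ := hxl.trans (h2.trans h4)
  have hhi : (maxB d n (pH d) ω : ℝ) < (a + ε / 2) * ((n : ℝ) ^ 4 * Real.log n) := by
    by_contra hcon
    rw [not_lt] at hcon
    apply hnot
    have hne : (BU d n).Nonempty := ⟨x, hx⟩
    obtain ⟨y, hy, hmy⟩ := Finset.exists_mem_eq_sup (BU d n) hne (cBk d n (pH d) ω)
    obtain ⟨M', hM'⟩ := Bfin.exists_le hL (fun x hx => (hr1 x).2.1 hx) (pH d) ω y
    rw [Set.mem_iUnion]
    refine ⟨M', y, hy, ?_⟩
    refine le_trans ?_ hM'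
    have h5 : maxB d n (pH d) ω = cBk d n (pH d) ω y := hmy
    rw [h5] at hcon
    calc (a + ε / 2) * (n : ℝ) ^ 4 * Real.log n = (a + ε / 2) * ((n : ℝ) ^ 4 * Real.log n) := by ring
      _ ≤ _ := hcon
  show |(maxB d n (pH d) ω : ℝ) / ((n : ℝ) ^ 4 * Real.log n) - a| < ε
  have h6 : a - ε / 2 ≤ (maxB d n (pH d) ω : ℝ) / ((n : ℝ) ^ 4 * Real.log n) := by
    rw [le_div_iff₀ hN]
    exact hlo
  have h7 : (maxB d n (pH d) ω : ℝ) / ((n : ℝ) ^ 4 * Real.log n) < a + ε / 2 := by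
    rw [div_lt_iff₀ hN]
    exact hhi
  rw [abs_lt]
  constructor <;> linarith

end Pool.CB
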