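import Pool.Agent.Helper65.CB.StC

set_option autoImplicit false

open scoped BigOperators ENNReal Topology
open Pool.LE Pool.NL Pool.CL Filter MeasureTheory

namespace Pool.CB

namespace Cmp2

lemma av_mono {d n : ℕ} {f g : Zd d → ℝ} (h : ∀ x ∈ Bn d n, f x ≤ g x) : av d n f ≤ av d n g := by
  unfold av
  exact div_le_div_of_nonneg_right (Finset.sum_le_sum h) (by positivity)

lemma av_add {d n : ℕ} (f g : Zd d → ℝ) : av d n (fun x => f x + g x) = av d n f + av d n g := by
  unfold av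
  rw [Finset.sum_add_distrib, add_div]

lemma av_smul {d n : ℕ} (c : ℝ) (f : Zd d → ℝ) : av d n (fun x => c * f x) = c * av d n f := by
  unfold av
  rw [← Finset.mul_sum, mul_div_assoc]

lemma av_nonneg {d n : ℕ} {f : Zd d → ℝ} (h : ∀ x, 0 ≤ f x) : 0 ≤ av d n f := by
  unfold av
  exact div_nonneg (Finset.sum_nonneg fun x _ => h x) (by positivity)

/-- closeness in average -/
def cl (d : ℕ) (f g : ℕ → Zd d → ℝ) : Prop :=
  Tendsto (fun n : ℕ => av d n (fun x => |f n x - g n x|)) atTop (𝓝 0)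

lemma cl_trans {d : ℕ} {f g h : ℕ → Zd d → ℝ} (h1 : cl d f g) (h2 : cl d g h) : cl d f h := by
  unfold cl at *
  have h3 := h1.add h2
  rw [add_zero] at h3
  refine squeeze_zero (fun n => av_nonneg fun x => abs_nonneg _) (fun n => ?_) h3
  rw [← av_add]
  exact av_mono fun x _ => abs_sub_le _ _ _

lemma cl_smul {d : ℕ} {f g : ℕ → Zd d → ℝ} (c : ℝ) (h1 : cl d f g) :
    cl d (fun n x => c * f n x) (fun n x => c * g n x) := by
  unfold cl at *
  have h3 := h1.const_mul |c|
  rw [mul_zero] at h3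
  refine h3.congr fun n => ?_
  rw [← av_smul]
  congr 1
  funext x
  rw [← mul_sub, abs_mul]

lemma cl_add {d : ℕ} {f g f' g' : ℕ → Zd d → ℝ} (h1 : cl d f g) (h2 : cl d f' g') :
    cl d (fun n x => f n x + f' n x) (fun n x => g n x + g' n x) := by
  unfold cl at *
  have h3 := h1.add h2
  rw [add_zero] at h3
  refine squeeze_zero (fun n => av_nonneg fun x => abs_nonneg _) (fun n => ?_) h3
  rw [← av_add]
  refine av_mono fun x _ => ?_
  have e : f n x + f' n x - (g n x + g' n x) = (f n x - g n x) + (f' n x - g' n x) := by ring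
  rw [e]
  exact abs_add_le _ _

lemma cl_refl {d : ℕ} (f : ℕ → Zd d → ℝ) : cl d f f := by
  unfold cl
  have : (fun n : ℕ => av d n (fun x => |f n x - f n x|)) = fun _ => 0 := by
    funext n
    simp [av]
  rw [this]
  exact tendsto_const_nhds

lemma cl_mul {d : ℕ} {f g f' g' : ℕ → Zd d → ℝ} (M M' : ℝ) (hg : ∀ n x, |g n x| ≤ M)
    (hf' : ∀ n x, |f' n x| ≤ M') (h1 : cl d f g) (h2 : cl d f' g') :
    cl d (fun n x => f n x * f' n x) (fun n x => g n x * g' n x) := by
  unfold cl at *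
  have h3 := (h1.const_mul M').add (h2.const_mul M)
  rw [mul_zero, mul_zero, add_zero] at h3
  refine squeeze_zero (fun n => av_nonneg fun x => abs_nonneg _) (fun n => ?_) h3
  rw [← av_smul, ← av_smul, ← av_add]
  refine av_mono fun x _ => ?_
  have e : f n x * f' n x - g n x * g' n x =
      f' n x * (f n x - g n x) + g n x * (f' n x - g' n x) := by ring
  rw [e]
  refine (abs_add_le _ _).trans ?_
  rw [abs_mul, abs_mul]
  exact add_le_add (mul_le_mul_of_nonneg_right (hf' n x) (abs_nonneg _))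
    (mul_le_mul_of_nonneg_right (hg n x) (abs_nonneg _))

lemma cl_sum {d : ℕ} {ι : Type} (s : Finset ι) (f g : ι → ℕ → Zd d → ℝ)
    (h : ∀ i ∈ s, cl d (f i) (g i)) :
    cl d (fun n x => ∑ i ∈ s, f i n x) (fun n x => ∑ i ∈ s, g i n x) := by
  classical
  induction s using Finset.induction_on with
  | empty => simpa using cl_refl (fun _ _ => (0 : ℝ))
  | insert a s ha ih =>
    simp only [Finset.sum_insert ha]
    exact cl_add (h a (Finset.mem_insert_self _ _))
      (ih fun i hi => h i (Finset.mem_insert_of_mem hi))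

lemma CC_sum {d : ℕ} {C₁ B c₀ CL : ℝ} (hCC : StCC) (hE : EnvC d C₁ B c₀ CL) {ι : Type}
    (s : Finset ι) (f : ι → ℕ → Zd d → ℝ) (h : ∀ i ∈ s, CC d (f i)) :
    CC d (fun n x => ∑ i ∈ s, f i n x) := by
  classical
  induction s using Finset.induction_on with
  | empty => simpa using (hCC d C₁ B c₀ CL hE).1 0
  | insert a s ha ih =>
    simp only [Finset.sum_insert ha]
    exact (hCC d C₁ B c₀ CL hE).2.1 _ _ (h a (Finset.mem_insert_self _ _))
      (ih fun i hi => h i (Finset.mem_insert_of_mem hi))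

lemma TS_bd (hGS : StGS) (hGSn : StGSn) {d n : ℕ} (hd : 1 ≤ d) (c M : ℝ) (hc : 0 < c)
    (f : Zd d → ℝ) (hf : ∀ x, |f x| ≤ M) (x : Zd d) : |TS (Bn d n) n c f x| ≤ 4 * c * M := by
  have hM : 0 ≤ M := (abs_nonneg _).trans (hf x)
  rcases Nat.eq_zero_or_pos n with h0 | h0
  · subst h0
    have : TS (Bn d 0) 0 c f x = 0 := by
      unfold TS
      simp
    rw [this, abs_zero]
    positivity
  have hn1 : (1 : ℝ) ≤ n := by exact_mod_cast h0
  unfold TS ap
  rw [abs_mul, abs_of_nonneg (by positivity : (0 : ℝ) ≤ c / (n : ℝ) ^ 2)]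
  have h1 : |∑ v ∈ Bn d n, GS (Bn d n) x v * f v| ≤ ((n : ℝ) + 1) ^ 2 * M := by
    refine (Finset.abs_sum_le_sum_abs _ _).trans ?_
    have h2 : ∀ v ∈ Bn d n, |GS (Bn d n) x v * f v| ≤ GS (Bn d n) x v * M := by
      intro v _
      have h3 := (hGS d hd (Bn d n)).1 x v
      rw [abs_mul, abs_of_nonneg h3]
      exact mul_le_mul_of_nonneg_left (hf v) h3
    refine (Finset.sum_le_sum h2).trans ?_
    rw [← Finset.sum_mul]
    exact mul_le_mul_of_nonneg_right (hGSn d n hd x) hM
  refine (mul_le_mul_of_nonneg_left h1 (by positivity)).trans ?_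
  have h4 : ((n : ℝ) + 1) ^ 2 ≤ 4 * (n : ℝ) ^ 2 := by nlinarith
  have h5 : c / (n : ℝ) ^ 2 * (((n : ℝ) + 1) ^ 2 * M) = c * M * (((n : ℝ) + 1) ^ 2 / (n : ℝ) ^ 2) := by
    ring
  rw [h5]
  have h6 : ((n : ℝ) + 1) ^ 2 / (n : ℝ) ^ 2 ≤ 4 := by
    rw [div_le_iff₀ (by positivity)]
    exact h4
  have := mul_le_mul_of_nonneg_left h6 (by positivity : (0 : ℝ) ≤ c * M)
  linarith

lemma TS_CC (hCC : StCC) (hGS : StGS) (hGSn : StGSn) {d : ℕ} {C₁ B c₀ CL : ℝ}
    (hE : EnvC d C₁ B c₀ CL) (c : ℝ) (hc : isCs d c) (f : ℕ → Zd d → ℝ) (hf : CC d f) :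
    CC d (fun n => TS (Bn d n) n c (f n)) := by
  have hd : 1 ≤ d := by have := hE.env.hd; omega
  obtain ⟨⟨M, hM⟩, -⟩ := id hf
  refine ⟨⟨4 * c * M, fun n x => TS_bd hGS hGSn hd c M hc.1 (f n) (hM n) x⟩, ?_⟩
  intro ε hε
  obtain ⟨-, h2⟩ := (hCC d C₁ B c₀ CL hE).2.2.2.1 f hf
  obtain ⟨g, hg, n₀, hn₀⟩ := h2 (ε / 2) (by positivity)
  have h3 := hc.2 f hf
  obtain ⟨n₁, hn₁⟩ := ((h3.eventually (ge_mem_nhds (by positivity : (0 : ℝ) < ε / 2))).exists_forall_of_atTop)
  refine ⟨g, hg, max n₀ n₁, fun n hn => ?_⟩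
  have h4 := hn₀ n (le_trans (le_max_left _ _) hn)
  have h5 := hn₁ n (le_trans (le_max_right _ _) hn)
  have h6 : av d n (fun x => |TS (Bn d n) n c (f n) x -
      g (fun i => ((x i : ℝ) + 1) / ((n : ℝ) + 1))|) ≤
      av d n (fun x => |T0 d n (f n) x - TS (Bn d n) n c (f n) x|) +
      av d n (fun x => |T0 d n (f n) x - g (fun i => ((x i : ℝ) + 1) / ((n : ℝ) + 1))|) := by
    rw [← av_add]
    refine av_mono fun x _ => ?_
    have := abs_sub_le (TS (Bn d n) n c (f n) x) (T0 d n (f n) x)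
      (g (fun i => ((x i : ℝ) + 1) / ((n : ℝ) + 1)))
    rwa [abs_sub_comm (TS (Bn d n) n c (f n) x) (T0 d n (f n) x)] at this
  have h7 : av d n (fun x => |T0 d n (f n) x - TS (Bn d n) n c (f n) x|) ≤ ε / 2 := h5
  linarith

/-- the argument of the recursion -/
noncomputable def arg {d : ℕ} (T : (Zd d → ℝ) → Zd d → ℝ) (V : ℝ) (f : Zd d → ℝ) (r : ℕ) (v : Zd d) : ℝ :=
  ∑ i : Fin (r + 1), co T V f i v * co T V f (r - i) v / (((r - i : ℕ) : ℝ) + 1)

lemma co_succ {d : ℕ} (T : (Zd d → ℝ) → Zd d → ℝ) (V : ℝ) (f : Zd d → ℝ) (r : ℕ) :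
    co T V f (r + 1) = fun x => V * T (arg T V f r) x := by
  rw [co]
  rfl

lemma arg_eq {d : ℕ} (T : (Zd d → ℝ) → Zd d → ℝ) (V : ℝ) (f : Zd d → ℝ) (r : ℕ) (v : Zd d) :
    arg T V f r v = ∑ i : Fin (r + 1), (1 / (((r - i : ℕ) : ℝ) + 1)) *
      (co T V f i v * co T V f (r - i) v) := by
  unfold arg
  refine Finset.sum_congr rfl fun i _ => ?_
  ring

end Cmp2

open Cmp2 in
theorem hCmp2 (hCC : StCC) (hT0 : StT0) (hGS : StGS) (hGSn : StGSn) : StCmp2 := by
  intro d C₁ B c₀ CL hE V c hc ψ hψ r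
  have hE' := hCC d C₁ B c₀ CL hE
  induction r using Nat.strong_induction_on with
  | _ r ih =>
    rcases r with _ | r
    · refine ⟨?_, ?_, ?_⟩
      · have := hE'.2.2.2.1 ψ hψ
        simpa [co] using this
      · have := TS_CC hCC hGS hGSn hE c hc ψ hψ
        simpa [co] using this
      · have := hc.2 ψ hψ
        simpa [co] using this
    · have hA : CC d (fun n => arg (T0 d n) V (ψ n) r) := by
        have e : (fun n => arg (T0 d n) V (ψ n) r) = fun n v => ∑ i : Fin (r + 1),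
            (1 / (((r - i : ℕ) : ℝ) + 1)) *
              (co (T0 d n) V (ψ n) i v * co (T0 d n) V (ψ n) (r - i) v) := by
          funext n v
          exact arg_eq _ _ _ _ _
        rw [e]
        refine CC_sum hCC hE Finset.univ _ fun i _ => ?_
        exact hE'.2.2.1 _ _ (hE'.1 _) (hE'.2.2.1 _ _ (ih i (by omega)).1 (ih (r - i) (by omega)).1)
      have hA' : CC d (fun n => arg (TS (Bn d n) n c) V (ψ n) r) := by
        have e : (fun n => arg (TS (Bn d n) n c) V (ψ n) r) = fun n v => ∑ i : Fin (r + 1),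
            (1 / (((r - i : ℕ) : ℝ) + 1)) *
              (co (TS (Bn d n) n c) V (ψ n) i v * co (TS (Bn d n) n c) V (ψ n) (r - i) v) := by
          funext n v
          exact arg_eq _ _ _ _ _
        rw [e]
        refine CC_sum hCC hE Finset.univ _ fun i _ => ?_
        exact hE'.2.2.1 _ _ (hE'.1 _) (hE'.2.2.1 _ _ (ih i (by omega)).2.1
          (ih (r - i) (by omega)).2.1)
      have hcl : cl d (fun n => arg (T0 d n) V (ψ n) r)
          (fun n => arg (TS (Bn d n) n c) V (ψ n) r) := by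
        have e : (fun n => arg (T0 d n) V (ψ n) r) = fun n v => ∑ i : Fin (r + 1),
            (1 / (((r - i : ℕ) : ℝ) + 1)) *
              (co (T0 d n) V (ψ n) i v * co (T0 d n) V (ψ n) (r - i) v) := by
          funext n v
          exact arg_eq _ _ _ _ _
        have e' : (fun n => arg (TS (Bn d n) n c) V (ψ n) r) = fun n v => ∑ i : Fin (r + 1),
            (1 / (((r - i : ℕ) : ℝ) + 1)) *
              (co (TS (Bn d n) n c) V (ψ n) i v * co (TS (Bn d n) n c) V (ψ n) (r - i) v) := by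
          funext n v
          exact arg_eq _ _ _ _ _
        rw [e, e']
        refine cl_sum Finset.univ _ _ fun i _ => ?_
        refine cl_smul _ ?_
        obtain ⟨⟨M, hM⟩, -⟩ := (ih i (by omega)).2.1
        obtain ⟨⟨M', hM'⟩, -⟩ := (ih (r - i) (by omega)).1
        exact cl_mul M M' hM hM' (ih i (by omega)).2.2 (ih (r - i) (by omega)).2.2
      refine ⟨?_, ?_, ?_⟩
      · have h1 := hE'.2.2.1 _ _ (hE'.1 V) (hE'.2.2.2.1 _ hA)
        have e : (fun n => co (T0 d n) V (ψ n) (r + 1)) =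
            fun n x => V * T0 d n (arg (T0 d n) V (ψ n) r) x := by
          funext n
          rw [co_succ]
        rw [e]
        exact h1
      · have h1 := hE'.2.2.1 _ _ (hE'.1 V) (TS_CC hCC hGS hGSn hE c hc _ hA')
        have e : (fun n => co (TS (Bn d n) n c) V (ψ n) (r + 1)) =
            fun n x => V * TS (Bn d n) n c (arg (TS (Bn d n) n c) V (ψ n) r) x := by
          funext n
          rw [co_succ]
        rw [e]
        exact h1
      · have h2 : cl d (fun n => T0 d n (arg (T0 d n) V (ψ n) r))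
            (fun n => T0 d n (arg (TS (Bn d n) n c) V (ψ n) r)) := by
          unfold Cmp2.cl at hcl ⊢
          have h3 := hcl.const_mul C₁
          rw [mul_zero] at h3
          refine squeeze_zero' (Eventually.of_forall fun n => av_nonneg fun x => abs_nonneg _)
            (eventually_atTop.2 ⟨1, fun n hn => ?_⟩) h3
          exact (hT0 d C₁ B c₀ CL hE n _ _ hn).2.2
        have h4 : cl d (fun n => T0 d n (arg (TS (Bn d n) n c) V (ψ n) r))
            (fun n => TS (Bn d n) n c (arg (TS (Bn d n) n c) V (ψ n) r)) := hc.2 _ hA'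
        have h5 := cl_smul V (cl_trans h2 h4)
        unfold Cmp2.cl at h5
        refine h5.congr fun n => ?_
        rw [co_succ, co_succ]

end Pool.CB
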