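import Pool.Agent.Helper65.CB.StC

/-!
# Project CB, module CoM: monotonicity of the coefficient functions
-/

set_option autoImplicit false

open scoped BigOperators ENNReal Topology
open Pool.LE Pool.NL Pool.CL Filter MeasureTheory

namespace Pool.CB

/-- monotonicity of the coefficient functions in the source -/
theorem hCoM (hGS : StGS) : StCoM := by
  intro d L n r c V f g hd hc hV hf hfg
  obtain ⟨hG, -⟩ := hGS d hd L
  have hT : ∀ (f g : Zd d → ℝ), (∀ y, 0 ≤ f y) → (∀ y, f y ≤ g y) → ∀ x,
      0 ≤ TS L n c f x ∧ TS L n c f x ≤ TS L n c g x := by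
    intro f g hf hfg x
    have hcn : 0 ≤ c / (n : ℝ) ^ 2 := by positivity
    unfold TS ap
    constructor
    · exact mul_nonneg hcn (Finset.sum_nonneg fun v _ => mul_nonneg (hG x v) (hf v))
    · exact mul_le_mul_of_nonneg_left
        (Finset.sum_le_sum fun v _ => mul_le_mul_of_nonneg_left (hfg v) (hG x v)) hcn
  induction r using Nat.strong_induction_on with
  | _ r ih =>
    cases r with
    | zero =>
      intro x
      rw [co, co]
      exact hT f g hf hfg x
    | succ r =>
      intro x
      rw [co, co]
      have h0 : ∀ v, 0 ≤ ∑ i : Fin (r + 1), co (TS L n c) V f i v * co (TS L n c) V f (r - i) v /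
          (((r - i : ℕ) : ℝ) + 1) := by
        intro v
        refine Finset.sum_nonneg fun i _ => div_nonneg (mul_nonneg ?_ ?_) (by positivity)
        · exact (ih i i.isLt v).1
        · exact (ih (r - i) (by omega) v).1
      have h1 : ∀ v, ∑ i : Fin (r + 1), co (TS L n c) V f i v * co (TS L n c) V f (r - i) v /
          (((r - i : ℕ) : ℝ) + 1) ≤
          ∑ i : Fin (r + 1), co (TS L n c) V g i v * co (TS L n c) V g (r - i) v /
          (((r - i : ℕ) : ℝ) + 1) := by
        intro v
        refine Finset.sum_le_sum fun i _ => div_le_div_of_nonneg_right ?_ (by positivity)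
        exact mul_le_mul (ih i i.isLt v).2 (ih (r - i) (by omega) v).2
          (ih (r - i) (by omega) v).1 ((ih i i.isLt v).1.trans (ih i i.isLt v).2)
      obtain ⟨h2, h3⟩ := hT _ _ h0 h1 x
      exact ⟨mul_nonneg hV.le h2, mul_le_mul_of_nonneg_left h3 hV.le⟩

end Pool.CB
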