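import Pool.Agent.Helper65.CB.StC

/-!
# Project CB (MP_65faa7), module Cs: comparison of the two Green operators
-/

set_option autoImplicit false

open scoped BigOperators ENNReal Topology
open Pool.LE Pool.NL Pool.CL Filter MeasureTheory

namespace Pool.CB

namespace CsM

theorem av_mono {d n : ℕ} {f g : Zd d → ℝ} (h : ∀ x ∈ Bn d n, f x ≤ g x) : av d n f ≤ av d n g := by
  unfold av
  exact div_le_div_of_nonneg_right (Finset.sum_le_sum h) (by positivity)

theorem av_nonneg {d n : ℕ} {f : Zd d → ℝ} (h : ∀ x ∈ Bn d n, 0 ≤ f x) : 0 ≤ av d n f := by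
  unfold av
  exact div_nonneg (Finset.sum_nonneg h) (by positivity)

theorem av_add {d n : ℕ} (f g : Zd d → ℝ) : av d n (fun x => f x + g x) = av d n f + av d n g := by
  unfold av
  rw [Finset.sum_add_distrib, add_div]

theorem av_mul {d n : ℕ} (c : ℝ) (f : Zd d → ℝ) : av d n (fun x => c * f x) = c * av d n f := by
  unfold av
  rw [← Finset.mul_sum, mul_div_assoc]

theorem av_sum {ι : Type} {d n : ℕ} (K : Finset ι) (F : ι → Zd d → ℝ) :
    av d n (fun x => ∑ k ∈ K, F k x) = ∑ k ∈ K, av d n (F k) := by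
  unfold av
  rw [Finset.sum_comm, Finset.sum_div]

theorem nsin (a : ℝ) (ha : a ≠ 0) :
    Tendsto (fun n : ℕ => (n : ℝ) * Real.sin (a / ((n : ℝ) + 1))) atTop (𝓝 a) := by
  have h1 : Tendsto (fun t : ℝ => t⁻¹ • (Real.sin (0 + t) - Real.sin 0)) (𝓝[≠] 0) (𝓝 (Real.cos 0)) :=
    hasDerivAt_iff_tendsto_slope_zero.1 (Real.hasDerivAt_sin 0)
  rw [Real.cos_zero] at h1
  have h2 : Tendsto (fun n : ℕ => a / ((n : ℝ) + 1)) atTop (𝓝 0) := by
    have h3 := (tendsto_one_div_add_atTop_nhds_zero_nat (𝕜 := ℝ)).const_mul a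
    rw [mul_zero] at h3
    refine h3.congr fun n => ?_
    ring
  have h3 : Tendsto (fun n : ℕ => a / ((n : ℝ) + 1)) atTop (𝓝[≠] 0) := by
    refine tendsto_nhdsWithin_iff.2 ⟨h2, Eventually.of_forall fun n => ?_⟩
    have : (n : ℝ) + 1 ≠ 0 := by positivity
    exact div_ne_zero ha this
  have h4 := h1.comp h3
  have h5 : Tendsto (fun n : ℕ => (n : ℝ) / ((n : ℝ) + 1)) atTop (𝓝 1) :=
    tendsto_natCast_div_add_atTop 1
  have h6 := (h4.mul h5).mul_const a
  rw [one_mul, one_mul] at h6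
  refine h6.congr fun n => ?_
  have hn : (n : ℝ) + 1 ≠ 0 := by positivity
  simp only [Function.comp_apply, zero_add, Real.sin_zero, sub_zero, smul_eq_mul]
  field_simp

theorem lim_k (d : ℕ) (hd : 1 ≤ d) (k : Fin d → ℕ) (hk : ∀ i, 1 ≤ k i) :
    Tendsto (fun n : ℕ => (n : ℝ) ^ 2 * (2 * d * (1 - Dh (fun i => Real.pi * (k i : ℝ) /
      ((n : ℝ) + 1))))) atTop (𝓝 (Real.pi ^ 2 * ∑ i, (k i : ℝ) ^ 2)) := by
  have hd0 : (d : ℝ) ≠ 0 := by
    have : (0 : ℝ) < d := by exact_mod_cast hd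
    exact this.ne'
  have h1 : ∀ i, Tendsto (fun n : ℕ => (2 * ((n : ℝ) * Real.sin ((Real.pi * (k i : ℝ) / 2) /
      ((n : ℝ) + 1)))) ^ 2) atTop (𝓝 (Real.pi ^ 2 * (k i : ℝ) ^ 2)) := by
    intro i
    have hki : (k i : ℝ) ≠ 0 := by
      have : (0 : ℝ) < k i := by exact_mod_cast hk i
      exact this.ne'
    have h2 := ((nsin (Real.pi * (k i : ℝ) / 2) (by
      have := Real.pi_ne_zero
      positivity)).const_mul 2).pow 2
    have e : (2 * (Real.pi * (k i : ℝ) / 2)) ^ 2 = Real.pi ^ 2 * (k i : ℝ) ^ 2 := by ring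
    rw [e] at h2
    exact h2
  have h2 := tendsto_finsetSum (Finset.univ : Finset (Fin d)) fun i _ => h1 i
  rw [← Finset.mul_sum] at h2
  refine h2.congr fun n => ?_
  have hn : (n : ℝ) + 1 ≠ 0 := by positivity
  have e1 : 2 * (d : ℝ) * (1 - Dh (fun i => Real.pi * (k i : ℝ) / ((n : ℝ) + 1))) =
      ∑ i, 2 * (1 - Real.cos (Real.pi * (k i : ℝ) / ((n : ℝ) + 1))) := by
    unfold Dh
    rw [← Finset.mul_sum, Finset.sum_sub_distrib, Finset.sum_const, Finset.card_univ,
      Fintype.card_fin, nsmul_eq_mul, mul_one]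
    field_simp
  rw [e1, Finset.mul_sum]
  refine Finset.sum_congr rfl fun i _ => ?_
  have e2 : Real.cos (Real.pi * (k i : ℝ) / ((n : ℝ) + 1)) =
      1 - 2 * Real.sin ((Real.pi * (k i : ℝ) / 2) / ((n : ℝ) + 1)) ^ 2 := by
    have h3 : Real.pi * (k i : ℝ) / ((n : ℝ) + 1) =
        2 * ((Real.pi * (k i : ℝ) / 2) / ((n : ℝ) + 1)) := by field_simp
    rw [h3, Real.cos_two_mul, Real.cos_sq']
    ring
  rw [e2]
  ring

theorem phk_le (d n : ℕ) (k : Fin d → ℕ) (x : Zd d) : |phk d n k x| ≤ 1 := by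
  unfold phk
  rw [Finset.abs_prod]
  exact Finset.prod_le_one (fun i _ => abs_nonneg _) fun i _ => Real.abs_sin_le_one _

theorem TS_sub {d : ℕ} (L : Finset (Zd d)) (n : ℕ) (c : ℝ) (f g : Zd d → ℝ) (x : Zd d) :
    TS L n c f x - TS L n c g x = c / (n : ℝ) ^ 2 * ∑ v ∈ L, GS L x v * (f v - g v) := by
  unfold TS ap
  rw [← mul_sub, ← Finset.sum_sub_distrib]
  simp only [mul_sub]

theorem TS_bound (hGS : StGS) (hGSn : StGSn) (d n : ℕ) (hd : 1 ≤ d) (hn : 1 ≤ n) (c : ℝ) (hc : 0 < c)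
    (f g : Zd d → ℝ) : av d n (fun x => |TS (Bn d n) n c f x - TS (Bn d n) n c g x|) ≤
      4 * c * av d n (fun x => |f x - g x|) := by
  obtain ⟨g0, gs, -, -, -⟩ := hGS d hd (Bn d n)
  have hn0 : (0 : ℝ) < n := by exact_mod_cast hn
  have hn1 : (1 : ℝ) ≤ n := by exact_mod_cast hn
  have h1 : ∀ x ∈ Bn d n, |TS (Bn d n) n c f x - TS (Bn d n) n c g x| ≤
      c / (n : ℝ) ^ 2 * ∑ v ∈ Bn d n, GS (Bn d n) x v * |f v - g v| := by
    intro x _
    rw [TS_sub, abs_mul, abs_of_pos (by positivity : 0 < c / (n : ℝ) ^ 2)]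
    refine mul_le_mul_of_nonneg_left ?_ (by positivity)
    refine (Finset.abs_sum_le_sum_abs _ _).trans (Finset.sum_le_sum fun v _ => ?_)
    rw [abs_mul, abs_of_nonneg (g0 x v)]
  unfold av
  rw [← mul_div_assoc]
  refine div_le_div_of_nonneg_right ?_ (by positivity)
  refine (Finset.sum_le_sum h1).trans ?_
  rw [← Finset.mul_sum, Finset.sum_comm]
  have h2 : ∀ v ∈ Bn d n, ∑ x ∈ Bn d n, GS (Bn d n) x v * |f v - g v| ≤
      4 * (n : ℝ) ^ 2 * |f v - g v| := by
    intro v _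
    rw [← Finset.sum_mul]
    refine mul_le_mul_of_nonneg_right ?_ (abs_nonneg _)
    have h3 : ∑ x ∈ Bn d n, GS (Bn d n) x v = ∑ x ∈ Bn d n, GS (Bn d n) v x :=
      Finset.sum_congr rfl fun x _ => gs x v
    rw [h3]
    refine (hGSn d n hd v).trans ?_
    nlinarith
  refine (mul_le_mul_of_nonneg_left (Finset.sum_le_sum h2) (by positivity)).trans (le_of_eq ?_)
  rw [← Finset.mul_sum]
  field_simp

theorem sum_lin {d : ℕ} (L : Finset (Zd d)) (G : Zd d → Zd d → ℝ) (s : ℝ) (K : Finset (Fin d → ℕ))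
    (a : (Fin d → ℕ) → ℝ) (F : (Fin d → ℕ) → Zd d → ℝ) (x : Zd d) :
    s * ap L G (fun v => ∑ k ∈ K, a k * F k v) x = ∑ k ∈ K, a k * (s * ap L G (F k) x) := by
  unfold ap
  simp only [Finset.mul_sum]
  rw [Finset.sum_comm]
  refine Finset.sum_congr rfl fun k _ => Finset.sum_congr rfl fun v _ => ?_
  ring

end CsM

open CsM in
/-- comparison of the two Green operators -/
theorem hCs (hSin : StSin) (hDens : Pool.CN.StDens) (hT0 : StT0) (hGS : StGS) (hGSn : StGSn)
    (hGSk : StGSk) : StCs := by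
  intro d C₁ B c₀ CL hE
  obtain ⟨cs, hcs, hsin⟩ := hSin d C₁ B c₀ CL hE
  have hd : 1 ≤ d := le_trans (by norm_num) hE.env.hd
  have hd0 : (0 : ℝ) < d := by exact_mod_cast hd
  have hC : 1 ≤ C₁ := hE.env.hC
  set c : ℝ := Real.pi ^ 2 / cs with hcdef
  have hc : 0 < c := by have := Real.pi_pos; positivity
  refine ⟨c, hc, ?_⟩
  -- the two operators on a sine
  have hk1 : ∀ k : Fin d → ℕ, (∀ i, 1 ≤ k i) → Tendsto (fun n : ℕ => av d n (fun x =>
      |T0 d n (phk d n k) x - TS (Bn d n) n c (phk d n k) x|)) atTop (𝓝 0) := by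
    intro k hk
    have hsum : (0 : ℝ) < ∑ i, (k i : ℝ) ^ 2 := by
      refine Finset.sum_pos (fun i _ => ?_) ⟨⟨0, hd⟩, Finset.mem_univ _⟩
      have : (0 : ℝ) < k i := by exact_mod_cast hk i
      positivity
    have h1 := lim_k d hd k hk
    set D : ℕ → ℝ := fun n => (n : ℝ) ^ 2 * (2 * d * (1 - Dh (fun i => Real.pi * (k i : ℝ) /
      ((n : ℝ) + 1)))) with hD
    have hpi := Real.pi_pos
    have h2 : Tendsto (fun n => |c / D n - 1 / (cs * ∑ i, (k i : ℝ) ^ 2)|) atTop (𝓝 0) := by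
      have h3 : Tendsto (fun n => c / D n) atTop (𝓝 (c / (Real.pi ^ 2 * ∑ i, (k i : ℝ) ^ 2))) :=
        tendsto_const_nhds.div h1 (by positivity)
      have e : c / (Real.pi ^ 2 * ∑ i, (k i : ℝ) ^ 2) = 1 / (cs * ∑ i, (k i : ℝ) ^ 2) := by
        rw [hcdef]; field_simp
      rw [e] at h3
      have h4 := (h3.sub_const (1 / (cs * ∑ i, (k i : ℝ) ^ 2))).abs
      rw [sub_self, abs_zero] at h4
      exact h4
    have h5 := (hsin k hk).add h2
    rw [add_zero] at h5
    refine squeeze_zero' (Eventually.of_forall fun n => av_nonneg fun x _ => abs_nonneg _) ?_ h5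
    have hev : ∀ᶠ n : ℕ in atTop, 1 ≤ n ∧ ∀ i, k i ≤ n := by
      refine (eventually_ge_atTop 1).and ?_
      rw [eventually_all]
      exact fun i => eventually_ge_atTop (k i)
    filter_upwards [hev] with n hn
    have hn0 : (0 : ℝ) < n := by exact_mod_cast hn.1
    have hBcard : av d n (fun _ => |c / D n - 1 / (cs * ∑ i, (k i : ℝ) ^ 2)|) ≤
        |c / D n - 1 / (cs * ∑ i, (k i : ℝ) ^ 2)| := by
      unfold av
      rw [Finset.sum_const, nsmul_eq_mul]
      have hcard : ((Bn d n).card : ℝ) = (n : ℝ) ^ d := by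
        unfold Bn
        rw [Fintype.card_piFinset_const, Int.card_Ico]
        simp
      have hnd : (n : ℝ) ^ d ≠ 0 := by positivity
      rw [hcard, mul_div_cancel_left₀ _ hnd]
    refine le_trans ?_ (add_le_add le_rfl hBcard)
    rw [← av_add]
    refine av_mono fun x hx => ?_
    have e1 : TS (Bn d n) n c (phk d n k) x = (c / D n) * phk d n k x := by
      unfold TS
      rw [hGSk d n k hd hn.1 (fun i => ⟨hk i, hn.2 i⟩) x hx, hD]
      simp only []
      rw [div_mul_div_comm]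
      exact mul_div_right_comm _ _ _
    have e2 : T0 d n (phk d n k) x - TS (Bn d n) n c (phk d n k) x =
        (T0 d n (phk d n k) x - phk d n k x / (cs * ∑ i, (k i : ℝ) ^ 2)) -
          (c / D n - 1 / (cs * ∑ i, (k i : ℝ) ^ 2)) * phk d n k x := by
      rw [e1]; ring
    rw [e2]
    refine (abs_sub _ _).trans (add_le_add le_rfl ?_)
    rw [abs_mul]
    exact mul_le_of_le_one_right (abs_nonneg _) (phk_le d n k x)
  intro f hf
  obtain ⟨-, hf2⟩ := hf
  rw [Metric.tendsto_atTop]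
  intro δ hδ
  -- the approximation
  set ε : ℝ := δ / (4 * (C₁ + 4 * c) + 1) with hε
  have hden : (0 : ℝ) < 4 * (C₁ + 4 * c) + 1 := by positivity
  have hε0 : 0 < ε := by positivity
  obtain ⟨g, hg, n₁, hn₁⟩ := hf2 ε hε0
  obtain ⟨K, a, hK, n₂, hn₂⟩ := hDens d g hg ε hε0
  have h3 : Tendsto (fun n : ℕ => ∑ k ∈ K, |a k| * av d n (fun x =>
      |T0 d n (phk d n k) x - TS (Bn d n) n c (phk d n k) x|)) atTop (𝓝 0) := by
    have h4 := tendsto_finsetSum K fun k hk => (hk1 k (hK k hk)).const_mul |a k|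
    simpa using h4
  obtain ⟨n₃, hn₃⟩ := (Metric.tendsto_atTop.1 h3) ε hε0
  refine ⟨max (max 1 n₁) (max n₂ n₃), fun n hn => ?_⟩
  have hn1 : 1 ≤ n := (le_max_left _ _).trans ((le_max_left _ _).trans hn)
  have hnn1 : n₁ ≤ n := (le_max_right _ _).trans ((le_max_left _ _).trans hn)
  have hnn2 : n₂ ≤ n := (le_max_left _ _).trans ((le_max_right _ _).trans hn)
  have hnn3 : n₃ ≤ n := (le_max_right _ _).trans ((le_max_right _ _).trans hn)
  have hn0 : (0 : ℝ) < n := by exact_mod_cast hn1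
  rw [Real.dist_eq, sub_zero, abs_of_nonneg (av_nonneg fun x _ => abs_nonneg _)]
  set h : Zd d → ℝ := fun x => ∑ k ∈ K, a k * phk d n k x with hh
  have h5 : av d n (fun x => |f n x - h x|) ≤ 2 * ε := by
    have e1 : av d n (fun x => |g (fun i => ((x i : ℝ) + 1) / ((n : ℝ) + 1)) - h x|) ≤ ε := by
      have h6 := hn₂ n hnn2
      unfold av
      rw [div_le_iff₀ (by positivity)]
      refine le_trans (le_of_eq ?_) h6
      refine Finset.sum_congr rfl fun x _ => ?_
      rw [hh]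
      have e2 : ∑ k ∈ K, a k * phk d n k x = ∑ k ∈ K, a k * Pool.CN.sk n k x :=
        Finset.sum_congr rfl fun k _ => by rw [OutM.phk_eq]
      simp only [e2]
      rfl
    have e3 := hn₁ n hnn1
    have e4 : av d n (fun x => |f n x - h x|) ≤
        av d n (fun x => |f n x - g (fun i => ((x i : ℝ) + 1) / ((n : ℝ) + 1))| +
          |g (fun i => ((x i : ℝ) + 1) / ((n : ℝ) + 1)) - h x|) :=
      av_mono fun x _ => abs_sub_le _ _ _
    rw [av_add] at e4
    linarith
  have h6 := (hT0 d C₁ B c₀ CL hE n (f n) h hn1).2.2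
  have h7 := TS_bound hGS hGSn d n hd hn1 c hc h (f n)
  have h7' : av d n (fun x => |h x - f n x|) = av d n (fun x => |f n x - h x|) := by
    congr 1; funext x; rw [abs_sub_comm]
  rw [h7'] at h7
  have h8 : av d n (fun x => |T0 d n h x - TS (Bn d n) n c h x|) < ε := by
    have h9 := hn₃ n hnn3
    rw [Real.dist_eq, sub_zero, abs_of_nonneg (Finset.sum_nonneg fun k _ =>
      mul_nonneg (abs_nonneg _) (av_nonneg fun x _ => abs_nonneg _))] at h9
    refine lt_of_le_of_lt ?_ h9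
    have e1 : ∀ x, T0 d n h x = ∑ k ∈ K, a k * T0 d n (phk d n k) x := by
      intro x
      have := sum_lin (Bn d n) (G0 d n) (1 / (n : ℝ) ^ 2) K a (phk d n) x
      unfold T0
      rw [← hh] at this
      rw [div_eq_mul_one_div, mul_comm, this]
      refine Finset.sum_congr rfl fun k _ => ?_
      ring
    have e2 : ∀ x, TS (Bn d n) n c h x = ∑ k ∈ K, a k * TS (Bn d n) n c (phk d n k) x := by
      intro x
      exact sum_lin (Bn d n) (GS (Bn d n)) (c / (n : ℝ) ^ 2) K a (phk d n) x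
    have e3 : av d n (fun x => |T0 d n h x - TS (Bn d n) n c h x|) ≤
        av d n (fun x => ∑ k ∈ K, |a k| *
          |T0 d n (phk d n k) x - TS (Bn d n) n c (phk d n k) x|) := by
      refine av_mono fun x _ => ?_
      rw [e1, e2, ← Finset.sum_sub_distrib]
      refine (Finset.abs_sum_le_sum_abs _ _).trans (Finset.sum_le_sum fun k _ => ?_)
      rw [← mul_sub, abs_mul]
    refine e3.trans (le_of_eq ?_)
    rw [av_sum]
    exact Finset.sum_congr rfl fun k _ => av_mul _ _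
  have h10 : av d n (fun x => |T0 d n (f n) x - TS (Bn d n) n c (f n) x|) ≤
      av d n (fun x => (|T0 d n (f n) x - T0 d n h x| + |T0 d n h x - TS (Bn d n) n c h x|) +
        |TS (Bn d n) n c h x - TS (Bn d n) n c (f n) x|) := by
    refine av_mono fun x _ => ?_
    refine (abs_sub_le _ (TS (Bn d n) n c h x) _).trans (add_le_add ?_ le_rfl)
    exact abs_sub_le _ _ _
  rw [av_add, av_add] at h10
  have h11 : C₁ * av d n (fun x => |f n x - h x|) ≤ C₁ * (2 * ε) :=
    mul_le_mul_of_nonneg_left h5 (by linarith)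
  have h12 : 4 * c * av d n (fun x => |f n x - h x|) ≤ 4 * c * (2 * ε) :=
    mul_le_mul_of_nonneg_left h5 (by positivity)
  have h13 : (4 * (C₁ + 4 * c) + 1) * ε = δ := by
    rw [hε]; field_simp
  nlinarith

end Pool.CB
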