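import Pool.Agent.Helper65.CB.StC
import Pool.Agent.Helper65.CL.StD
import Pool.Agent.Helper22.NL.M_Basic

/-!
# Project CB (MP_65faa7), module FrY: pointwise expansion of the rescaled exponential moment
-/

set_option autoImplicit false

open scoped BigOperators ENNReal Topology
open Pool.LE Pool.NL Pool.CL Filter MeasureTheory

namespace Pool.CB

namespace FrY

noncomputable def tp (N : ℕ) (t : ℝ) : ℝ :=
  ∑ r ∈ Finset.range N, (-t) ^ r / (r.factorial : ℝ)

theorem tp_deriv (N : ℕ) (t : ℝ) : HasDerivAt (tp (N + 1)) (-tp N t) t := by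
  induction N with
  | zero =>
    have h : tp (0 + 1) = fun _ => (1 : ℝ) := by
      funext s; simp [tp]
    rw [h]
    have : -tp 0 t = 0 := by simp [tp]
    rw [this]
    exact hasDerivAt_const t 1
  | succ N ih =>
    have h : tp (N + 1 + 1) = fun s => tp (N + 1) s + (-s) ^ (N + 1) / ((N + 1).factorial : ℝ) := by
      funext s; simp only [tp]; rw [Finset.sum_range_succ]
    rw [h]
    have h2 : -tp (N + 1) t = -tp N t + -((-t) ^ N / (N.factorial : ℝ)) := by
      simp only [tp]; rw [Finset.sum_range_succ]; ring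
    rw [h2]
    refine ih.add ?_
    have h3 := ((hasDerivAt_neg t).pow (N + 1)).div_const ((N + 1).factorial : ℝ)
    refine h3.congr_deriv ?_
    have hf : ((N + 1).factorial : ℝ) = ((N : ℝ) + 1) * (N.factorial : ℝ) := by
      rw [Nat.factorial_succ]; push_cast; ring
    have h4 : (N.factorial : ℝ) ≠ 0 := by exact_mod_cast N.factorial_ne_zero
    have h5 : (N : ℝ) + 1 ≠ 0 := by positivity
    rw [hf]
    simp only [Nat.add_sub_cancel]
    push_cast
    field_simp

theorem tay (N : ℕ) : ∀ t : ℝ, 0 ≤ t → |Real.exp (-t) - tp N t| ≤ t ^ N / (N.factorial : ℝ) := by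
  induction N with
  | zero =>
    intro t ht
    simp only [tp, Finset.range_zero, Finset.sum_empty, sub_zero, pow_zero, Nat.factorial_zero,
      Nat.cast_one, div_one]
    rw [abs_of_pos (Real.exp_pos _)]
    exact Real.exp_le_one_iff.2 (by linarith)
  | succ N ih =>
    have hf : ((N + 1).factorial : ℝ) = ((N : ℝ) + 1) * (N.factorial : ℝ) := by
      rw [Nat.factorial_succ]; push_cast; ring
    have h4 : (N.factorial : ℝ) ≠ 0 := by exact_mod_cast N.factorial_ne_zero
    have h5 : (N : ℝ) + 1 ≠ 0 := by positivity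
    have hR : ∀ t : ℝ, HasDerivAt (fun s => Real.exp (-s) - tp (N + 1) s)
        (-(Real.exp (-t) - tp N t)) t := by
      intro t
      have h1 := (Real.hasDerivAt_exp (-t)).comp t (hasDerivAt_neg t)
      refine (h1.sub (tp_deriv N t)).congr_deriv ?_
      ring
    have hP : ∀ t : ℝ, HasDerivAt (fun s => s ^ (N + 1) / ((N + 1).factorial : ℝ))
        (t ^ N / (N.factorial : ℝ)) t := by
      intro t
      have h1 := (hasDerivAt_pow (N + 1) t).div_const ((N + 1).factorial : ℝ)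
      refine h1.congr_deriv ?_
      rw [hf]
      simp only [Nat.add_sub_cancel]
      push_cast
      field_simp
    have hzero : tp (N + 1) 0 = 1 := by
      simp only [tp, neg_zero]
      rw [Finset.sum_range_succ']
      simp
    have hA : MonotoneOn (fun s => s ^ (N + 1) / ((N + 1).factorial : ℝ) -
        (Real.exp (-s) - tp (N + 1) s)) (Set.Ici 0) := by
      refine monotoneOn_of_deriv_nonneg (convex_Ici 0) ?_ ?_ ?_
      · exact fun s _ => ((hP s).sub (hR s)).continuousAt.continuousWithinAt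
      · exact fun s _ => ((hP s).sub (hR s)).differentiableAt.differentiableWithinAt
      · intro s hs
        rw [interior_Ici, Set.mem_Ioi] at hs
        have e := ((hP s).sub (hR s)).deriv
        have e' : deriv (fun s => s ^ (N + 1) / ((N + 1).factorial : ℝ) -
          (Real.exp (-s) - tp (N + 1) s)) s = s ^ N / (N.factorial : ℝ) -
            -(Real.exp (-s) - tp N s) := e
        rw [e']
        have := (abs_le.1 (ih s hs.le)).1
        linarith
    have hB : MonotoneOn (fun s => s ^ (N + 1) / ((N + 1).factorial : ℝ) +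
        (Real.exp (-s) - tp (N + 1) s)) (Set.Ici 0) := by
      refine monotoneOn_of_deriv_nonneg (convex_Ici 0) ?_ ?_ ?_
      · exact fun s _ => ((hP s).add (hR s)).continuousAt.continuousWithinAt
      · exact fun s _ => ((hP s).add (hR s)).differentiableAt.differentiableWithinAt
      · intro s hs
        rw [interior_Ici, Set.mem_Ioi] at hs
        have e := ((hP s).add (hR s)).deriv
        have e' : deriv (fun s => s ^ (N + 1) / ((N + 1).factorial : ℝ) +
          (Real.exp (-s) - tp (N + 1) s)) s = s ^ N / (N.factorial : ℝ) +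
            -(Real.exp (-s) - tp N s) := e
        rw [e']
        have := (abs_le.1 (ih s hs.le)).2
        linarith
    intro t ht
    have a1 := hA (Set.mem_Ici.2 le_rfl) (Set.mem_Ici.2 ht) ht
    have a2 := hB (Set.mem_Ici.2 le_rfl) (Set.mem_Ici.2 ht) ht
    simp only [hzero, neg_zero, Real.exp_zero, sub_self, sub_zero, add_zero,
      zero_pow (Nat.succ_ne_zero N), zero_div] at a1 a2
    rw [abs_le]
    constructor <;> linarith

end FrY

open FrY in
/-- pointwise expansion of `y_θ` -/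
theorem hFrY (hY : StY) (hMom : StMom) : StFrY := by
  classical
  intro d C₁ B c₀ CL hE
  obtain ⟨K, hK, hKM⟩ := hMom d C₁ B c₀ CL hE
  refine ⟨K, hK, ?_⟩
  intro n ψ hn hψ x hx
  obtain ⟨-, hMm', -⟩ := hKM n ψ hn hψ
  have hMm : ∀ r : ℕ, eb d n (fun ω => (ms ψ (cb d n ω x)) ^ (r + 1)) ≤
      K ^ (r + 1) * ((n : ℝ) ^ (2 + 4 * r) * (r.factorial : ℝ)) := fun r => hMm' x r hx
  have hp0 : 0 ≤ pH d := hE.env.p0.le
  have hp1 : pH d ≤ 1 := hE.env.p1.trans (by norm_num)
  have hn1 : (1 : ℝ) ≤ n := by exact_mod_cast hn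
  have hn0 : (0 : ℝ) < n := by linarith
  have hK0 : 0 ≤ K := by linarith
  obtain ⟨hmono, hconst, hadd, hsub, hmul, hsum, -⟩ :=
    Pool.NL.hBasic (Zd d) (ES (Bn d n)) (pH d) hp0 hp1
  have hM0 : ∀ ω, 0 ≤ ms ψ (cb d n ω x) := fun ω => Finset.sum_nonneg fun y _ => (hψ y).1
  have hMn : ∀ r : ℕ, 0 ≤ eb d n (fun ω => (ms ψ (cb d n ω x)) ^ (r + 1)) := by
    intro r
    have h := hmono (fun _ => 0) (fun ω => (ms ψ (cb d n ω x)) ^ (r + 1))
      fun ω _ => pow_nonneg (hM0 ω) _
    rw [hconst] at h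
    exact h
  have hden : ∀ r : ℕ, (0 : ℝ) < (n : ℝ) ^ (2 + 4 * r) * (r.factorial : ℝ) := by
    intro r
    have : (0 : ℝ) < (r.factorial : ℝ) := by exact_mod_cast r.factorial_pos
    positivity
  have hFr : ∀ r : ℕ, Fr (Bn d n) n r ψ x = eb d n (fun ω => (ms ψ (cb d n ω x)) ^ (r + 1)) /
      ((n : ℝ) ^ (2 + 4 * r) * (r.factorial : ℝ)) := fun r => rfl
  refine ⟨fun r => ⟨?_, ?_⟩, ?_⟩
  · rw [hFr]
    exact div_nonneg (hMn r) (hden r).le
  · rw [hFr, div_le_iff₀ (hden r)]
    exact hMm r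
  · intro N θ hθ0 hθ1
    obtain ⟨-, hY2⟩ := hY d C₁ B c₀ CL hE n ψ hn hψ
    simp only [hFr]
    rw [(hY2 θ x hθ0 hθ1 hx).2.2]
    have e1 : eb d n (fun ω => Real.exp (-(θ * ms ψ (cb d n ω x) / (n : ℝ) ^ 4)) *
        ms ψ (cb d n ω x)) / (n : ℝ) ^ 2 = eb d n (fun ω => (1 / (n : ℝ) ^ 2) *
        (Real.exp (-(θ * ms ψ (cb d n ω x) / (n : ℝ) ^ 4)) * ms ψ (cb d n ω x))) := by
      unfold eb; rw [hmul]; ring
    have e2 : ∑ r ∈ Finset.range N, (-θ) ^ r *
        (eb d n (fun ω => (ms ψ (cb d n ω x)) ^ (r + 1)) /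
        ((n : ℝ) ^ (2 + 4 * r) * (r.factorial : ℝ))) = eb d n (fun ω =>
          ∑ r ∈ Finset.range N, ((-θ) ^ r / ((n : ℝ) ^ (2 + 4 * r) * (r.factorial : ℝ))) *
            (ms ψ (cb d n ω x)) ^ (r + 1)) := by
      unfold eb
      rw [hsum ℕ (Finset.range N) (fun r ω => ((-θ) ^ r / ((n : ℝ) ^ (2 + 4 * r) *
        (r.factorial : ℝ))) * (ms ψ (cb d n ω x)) ^ (r + 1))]
      refine Finset.sum_congr rfl fun r _ => ?_
      rw [hmul]; ring
    rw [e1, e2]
    unfold eb
    rw [← hsub]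
    set D : ℝ := θ ^ N / ((n : ℝ) ^ (2 + 4 * N) * (N.factorial : ℝ)) with hD
    have hD0 : 0 ≤ D := div_nonneg (pow_nonneg hθ0 N) (hden N).le
    have hbd : ∀ ω, |1 / (n : ℝ) ^ 2 * (Real.exp (-(θ * ms ψ (cb d n ω x) / (n : ℝ) ^ 4)) *
        ms ψ (cb d n ω x)) - ∑ r ∈ Finset.range N, ((-θ) ^ r / ((n : ℝ) ^ (2 + 4 * r) *
        (r.factorial : ℝ))) * (ms ψ (cb d n ω x)) ^ (r + 1)| ≤
          D * (ms ψ (cb d n ω x)) ^ (N + 1) := by
      intro ω
      set m : ℝ := ms ψ (cb d n ω x) with hm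
      have hm0 : 0 ≤ m := hM0 ω
      have ht : 0 ≤ θ * m / (n : ℝ) ^ 4 := by positivity
      have hT := tay N (θ * m / (n : ℝ) ^ 4) ht
      have e3 : ∑ r ∈ Finset.range N, ((-θ) ^ r / ((n : ℝ) ^ (2 + 4 * r) *
          (r.factorial : ℝ))) * m ^ (r + 1) = m / (n : ℝ) ^ 2 * tp N (θ * m / (n : ℝ) ^ 4) := by
        unfold tp
        rw [Finset.mul_sum]
        refine Finset.sum_congr rfl fun r _ => ?_
        have hf : (r.factorial : ℝ) ≠ 0 := by exact_mod_cast r.factorial_ne_zero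
        rw [show -(θ * m / (n : ℝ) ^ 4) = (-θ) * m / (n : ℝ) ^ 4 by ring, div_pow, mul_pow,
          pow_add, pow_mul, pow_succ]
        field_simp
        ring
      rw [e3, show 1 / (n : ℝ) ^ 2 * (Real.exp (-(θ * m / (n : ℝ) ^ 4)) * m) -
        m / (n : ℝ) ^ 2 * tp N (θ * m / (n : ℝ) ^ 4) = m / (n : ℝ) ^ 2 *
          (Real.exp (-(θ * m / (n : ℝ) ^ 4)) - tp N (θ * m / (n : ℝ) ^ 4)) by ring, abs_mul,
        abs_of_nonneg (by positivity : 0 ≤ m / (n : ℝ) ^ 2)]
      refine (mul_le_mul_of_nonneg_left hT (by positivity)).trans (le_of_eq ?_)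
      have hf : (N.factorial : ℝ) ≠ 0 := by exact_mod_cast N.factorial_ne_zero
      rw [hD, div_pow, mul_pow, pow_add, pow_mul, pow_succ]
      field_simp
      ring
    have hup : ex (ES (Bn d n)) (pH d) (fun ω => D * (ms ψ (cb d n ω x)) ^ (N + 1)) ≤
        K * (K * θ) ^ N := by
      rw [hmul]
      refine (mul_le_mul_of_nonneg_left (hMm N) hD0).trans (le_of_eq ?_)
      have hden' := (hden N).ne'
      rw [hD, div_mul_eq_mul_div, div_eq_iff hden', mul_pow, pow_succ]
      ring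
    have hlo : ex (ES (Bn d n)) (pH d) (fun ω => (-1) * (D * (ms ψ (cb d n ω x)) ^ (N + 1))) =
        -ex (ES (Bn d n)) (pH d) (fun ω => D * (ms ψ (cb d n ω x)) ^ (N + 1)) := by
      rw [hmul]; ring
    rw [abs_le]
    constructor
    · rw [neg_le_iff_add_nonneg]
      have h := hmono (fun ω => (-1) * (D * (ms ψ (cb d n ω x)) ^ (N + 1)))
        (fun ω => 1 / (n : ℝ) ^ 2 * (Real.exp (-(θ * ms ψ (cb d n ω x) / (n : ℝ) ^ 4)) *
        ms ψ (cb d n ω x)) - ∑ r ∈ Finset.range N, ((-θ) ^ r / ((n : ℝ) ^ (2 + 4 * r) *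
        (r.factorial : ℝ))) * (ms ψ (cb d n ω x)) ^ (r + 1))
        (fun ω _ => by
          have h7 := (abs_le.1 (hbd ω)).1
          linarith)
      rw [hlo] at h
      linarith
    · have h := hmono _ (fun ω => D * (ms ψ (cb d n ω x)) ^ (N + 1))
        (fun ω _ => (abs_le.1 (hbd ω)).2)
      linarith

end Pool.CB
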