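import Pool.Agent.Helper65.CB.StC
import Pool.Agent.Helper84.LE.M_Box
import Pool.Agent.Helper22.NL.M_Basic

/-!
# Project CB, module GS: the Green kernel of the walk
-/

set_option autoImplicit false

open scoped BigOperators ENNReal Topology
open Pool.LE Pool.NL Pool.CL Filter MeasureTheory

namespace Pool.CB

namespace GSm

theorem ind_true' {A : Prop} (h : A) : ind A = 1 := by
  unfold ind
  rw [if_pos h]

theorem ind_false' {A : Prop} (h : ¬ A) : ind A = 0 := by
  unfold ind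
  rw [if_neg h]

theorem ind_nn (A : Prop) : 0 ≤ ind A := by
  by_cases h : A
  · rw [ind_true' h]; exact zero_le_one
  · rw [ind_false' h]

theorem ind_iff {A B : Prop} (h : A ↔ B) : ind A = ind B := by
  rw [propext h]

/-- the step in direction `0` -/
theorem exists_step (d : ℕ) (hd : 1 ≤ d) : ∃ i : Fin d, ∀ u : Zd d, u + Pi.single i (1 : ℤ) ∈ nb u ∧
    u i < ((u + Pi.single i (1 : ℤ) : Zd d) i) := by
  refine ⟨⟨0, hd⟩, fun u => ⟨mem_nb.2 ⟨_, Or.inl rfl⟩, ?_⟩⟩
  rw [Pi.add_apply, Pi.single_eq_same]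
  omega

theorem sum_ind_eq {d : ℕ} (L : Finset (Zd d)) (g : Zd d → ℝ) {u : Zd d} (hu : u ∈ L) :
    ∑ w ∈ L, ind (u = w) * g w = g u := by
  rw [Finset.sum_eq_single u]
  · rw [ind_true' rfl, one_mul]
  · intro b _ hb
    rw [ind_false' (fun h => hb h.symm), zero_mul]
  · intro h
    exact absurd hu h

theorem sum_ind_nb {d : ℕ} (L : Finset (Zd d)) (g : Zd d → ℝ) (u : Zd d) (hg : ∀ b, b ∉ L → g b = 0) :
    ∑ w ∈ L, ind (w ∈ nb u) * g w = ∑ b ∈ nb u, g b := by
  classical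
  have h1 : ∑ w ∈ L, ind (w ∈ nb u) * g w = ∑ w ∈ L.filter (fun w => w ∈ nb u), g w := by
    rw [Finset.sum_filter]
    refine Finset.sum_congr rfl fun w _ => ?_
    by_cases h : w ∈ nb u
    · rw [ind_true' h, one_mul, if_pos h]
    · rw [ind_false' h, zero_mul, if_neg h]
  have h2 : ∑ b ∈ nb u, g b = ∑ b ∈ (nb u).filter (fun b => b ∈ L), g b := by
    rw [Finset.sum_filter]
    refine Finset.sum_congr rfl fun b _ => ?_
    by_cases h : b ∈ L
    · rw [if_pos h]
    · rw [if_neg h, hg b h]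
  rw [h1, h2]
  refine Finset.sum_congr ?_ fun _ _ => rfl
  ext b
  rw [Finset.mem_filter, Finset.mem_filter]
  exact and_comm

/-- the number of neighbours in `L` -/
theorem sum_ind_card {d : ℕ} (L : Finset (Zd d)) (u : Zd d) :
    ∑ w ∈ L, ind (w ∈ nb u) ≤ 2 * d ∧ ((∃ b ∈ nb u, b ∉ L) → ∑ w ∈ L, ind (w ∈ nb u) < 2 * d) := by
  classical
  have h1 : ∑ w ∈ L, ind (w ∈ nb u) = (((nb u).filter (fun b => b ∈ L)).card : ℝ) := by
    have h2 : ∑ w ∈ L, ind (w ∈ nb u) = ∑ w ∈ L.filter (fun w => w ∈ nb u), (1 : ℝ) := by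
      rw [Finset.sum_filter]
      refine Finset.sum_congr rfl fun w _ => ?_
      by_cases h : w ∈ nb u
      · rw [ind_true' h, if_pos h]
      · rw [ind_false' h, if_neg h]
    rw [h2, Finset.sum_const, nsmul_eq_mul, mul_one]
    have h3 : L.filter (fun w => w ∈ nb u) = (nb u).filter (fun b => b ∈ L) := by
      ext b
      rw [Finset.mem_filter, Finset.mem_filter]
      exact and_comm
    rw [h3]
  have hc := card_nb u
  rw [h1]
  refine ⟨?_, fun ⟨b, hb, hbL⟩ => ?_⟩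
  · have h4 : ((nb u).filter (fun b => b ∈ L)).card ≤ 2 * d := by
      rw [← hc]
      exact Finset.card_filter_le _ _
    exact_mod_cast h4
  · have h4 : ((nb u).filter (fun b => b ∈ L)).card < 2 * d := by
      rw [← hc]
      refine Finset.card_lt_card ?_
      rw [Finset.ssubset_iff_of_subset (Finset.filter_subset _ _)]
      exact ⟨b, hb, fun h => hbL (Finset.mem_filter.1 h).2⟩
    exact_mod_cast h4

/-- positive definiteness -/
theorem pd (d : ℕ) (hd : 1 ≤ d) (L : Finset (Zd d)) : PD L (AS d) := by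
  classical
  refine ⟨?_, ?_⟩
  · intro u _ v _
    unfold AS
    rw [ind_iff (show u = v ↔ v = u from eq_comm), ind_iff (show v ∈ nb u ↔ u ∈ nb v from nb_symm)]
  · rintro f ⟨u₀, hu₀, hf₀⟩
    have hI : ∀ u v : Zd d, ind (v ∈ nb u) = ind (u ∈ nb v) := fun u v => ind_iff nb_symm
    have hswap : ∑ u ∈ L, ∑ v ∈ L, ind (v ∈ nb u) * f v ^ 2 = ∑ u ∈ L, ∑ v ∈ L, ind (v ∈ nb u) * f u ^ 2 := by
      rw [Finset.sum_comm]
      refine Finset.sum_congr rfl fun v _ => Finset.sum_congr rfl fun u _ => ?_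
      rw [hI]
    have hQ : ∑ u ∈ L, ∑ v ∈ L, f u * AS d u v * f v =
        ∑ u ∈ L, (f u ^ 2 * (2 * d - ∑ v ∈ L, ind (v ∈ nb u))) +
          (∑ u ∈ L, ∑ v ∈ L, ind (v ∈ nb u) * (f u - f v) ^ 2) / 2 := by
      have e1 : ∑ u ∈ L, ∑ v ∈ L, f u * AS d u v * f v =
          ∑ u ∈ L, (2 * d * f u ^ 2 - ∑ v ∈ L, ind (v ∈ nb u) * (f u * f v)) := by
        refine Finset.sum_congr rfl fun u hu => ?_
        have e2 : ∀ v ∈ L, f u * AS d u v * f v = 2 * d * f u * (ind (u = v) * f v) -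
            ind (v ∈ nb u) * (f u * f v) := by
          intro v _
          unfold AS
          ring
        rw [Finset.sum_congr rfl e2, Finset.sum_sub_distrib, ← Finset.mul_sum, sum_ind_eq L f hu]
        ring
      have e3 : ∑ u ∈ L, ∑ v ∈ L, ind (v ∈ nb u) * (f u - f v) ^ 2 =
          2 * ∑ u ∈ L, ∑ v ∈ L, ind (v ∈ nb u) * f u ^ 2 - 2 * ∑ u ∈ L, ∑ v ∈ L, ind (v ∈ nb u) * (f u * f v) := by
        have e4 : ∑ u ∈ L, ∑ v ∈ L, ind (v ∈ nb u) * (f u - f v) ^ 2 =
            ∑ u ∈ L, ∑ v ∈ L, ind (v ∈ nb u) * f u ^ 2 + ∑ u ∈ L, ∑ v ∈ L, ind (v ∈ nb u) * f v ^ 2 -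
              2 * ∑ u ∈ L, ∑ v ∈ L, ind (v ∈ nb u) * (f u * f v) := by
          rw [← Finset.sum_add_distrib, Finset.mul_sum, ← Finset.sum_sub_distrib]
          refine Finset.sum_congr rfl fun u _ => ?_
          rw [← Finset.sum_add_distrib, Finset.mul_sum, ← Finset.sum_sub_distrib]
          refine Finset.sum_congr rfl fun v _ => ?_
          ring
        rw [e4, hswap]
        ring
      have e5 : ∑ u ∈ L, (f u ^ 2 * (2 * d - ∑ v ∈ L, ind (v ∈ nb u))) =
          ∑ u ∈ L, 2 * d * f u ^ 2 - ∑ u ∈ L, ∑ v ∈ L, ind (v ∈ nb u) * f u ^ 2 := by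
        rw [← Finset.sum_sub_distrib]
        refine Finset.sum_congr rfl fun u _ => ?_
        rw [← Finset.sum_mul]
        ring
      rw [e1, e3, e5, Finset.sum_sub_distrib]
      ring
    rw [hQ]
    -- the point with nonzero value and largest coordinate
    obtain ⟨i, hi⟩ := exists_step d hd
    obtain ⟨u, hu, hmax⟩ := Finset.exists_max_image (L.filter (fun u => f u ≠ 0)) (fun u => u i)
      ⟨u₀, Finset.mem_filter.2 ⟨hu₀, hf₀⟩⟩
    obtain ⟨huL, hfu⟩ := Finset.mem_filter.1 hu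
    have hn1 : ∀ u ∈ L, 0 ≤ f u ^ 2 * (2 * d - ∑ v ∈ L, ind (v ∈ nb u)) := fun u _ =>
      mul_nonneg (sq_nonneg _) (sub_nonneg.2 (sum_ind_card L u).1)
    have hn2 : ∀ u ∈ L, 0 ≤ ∑ v ∈ L, ind (v ∈ nb u) * (f u - f v) ^ 2 := fun u _ =>
      Finset.sum_nonneg fun v _ => mul_nonneg (ind_nn _) (sq_nonneg _)
    have hs1 := Finset.sum_nonneg hn1
    have hs2 := Finset.sum_nonneg hn2
    obtain ⟨hnb, hlt⟩ := hi u
    by_cases hL : u + Pi.single i (1 : ℤ) ∈ L
    · have hf0 : f (u + Pi.single i (1 : ℤ)) = 0 := by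
        by_contra hne
        have := hmax _ (Finset.mem_filter.2 ⟨hL, hne⟩)
        omega
      have h1 : f u ^ 2 ≤ ∑ v ∈ L, ind (v ∈ nb u) * (f u - f v) ^ 2 := by
        have h2 := Finset.single_le_sum (f := fun v => ind (v ∈ nb u) * (f u - f v) ^ 2)
          (fun v _ => mul_nonneg (ind_nn _) (sq_nonneg _)) hL
        rw [ind_true' hnb, hf0, sub_zero, one_mul] at h2
        exact h2
      have h3 := Finset.single_le_sum hn2 huL
      have h4 : 0 < f u ^ 2 := by positivity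
      linarith
    · have h1 := (sum_ind_card L u).2 ⟨_, hnb, hL⟩
      have h4 : 0 < f u ^ 2 := by positivity
      have h5 : 0 < f u ^ 2 * (2 * d - ∑ v ∈ L, ind (v ∈ nb u)) := mul_pos h4 (sub_pos.2 h1)
      have h3 := Finset.single_le_sum hn1 huL
      linarith

/-- minimum principle -/
theorem minp (d : ℕ) (hd : 1 ≤ d) (L : Finset (Zd d)) (h : Zd d → ℝ) (h0 : ∀ u, u ∉ L → 0 ≤ h u)
    (h1 : ∀ u ∈ L, ∑ b ∈ nb u, h b ≤ 2 * d * h u) : ∀ u ∈ L, 0 ≤ h u := by
  classical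
  intro v hv
  by_contra hneg
  rw [not_le] at hneg
  obtain ⟨u₁, hu₁, hmin⟩ := Finset.exists_min_image L h ⟨v, hv⟩
  have hm : h u₁ < 0 := lt_of_le_of_lt (hmin v hv) hneg
  obtain ⟨i, hi⟩ := exists_step d hd
  obtain ⟨u, hu, hmax⟩ := Finset.exists_max_image (L.filter (fun u => h u = h u₁)) (fun u => u i)
    ⟨u₁, Finset.mem_filter.2 ⟨hu₁, rfl⟩⟩
  obtain ⟨huL, hhu⟩ := Finset.mem_filter.1 hu
  have hge : ∀ b ∈ nb u, h u₁ ≤ h b := by
    intro b _
    by_cases hb : b ∈ L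
    · exact hmin b hb
    · exact hm.le.trans (h0 b hb)
  obtain ⟨hnb, hlt⟩ := hi u
  have hgt : h u₁ < h (u + Pi.single i (1 : ℤ)) := by
    by_cases hb : u + Pi.single i (1 : ℤ) ∈ L
    · refine lt_of_le_of_ne (hmin _ hb) fun he => ?_
      have := hmax _ (Finset.mem_filter.2 ⟨hb, he.symm⟩)
      omega
    · exact lt_of_lt_of_le hm (h0 _ hb)
  have h2 : ∑ b ∈ nb u, h u₁ < ∑ b ∈ nb u, h b := Finset.sum_lt_sum hge ⟨_, hnb, hgt⟩
  rw [Finset.sum_const, card_nb, nsmul_eq_mul] at h2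
  have h3 := h1 u huL
  rw [hhu] at h3
  push_cast at h2
  linarith

end GSm

open GSm in
/-- basic facts on the Green kernel of the walk -/
theorem hGS (hHinv : StHinv) : StGS := by
  classical
  intro d hd L
  obtain ⟨hinv, hsym, hzero, -⟩ := hHinv (Zd d) L (AS d) (pd d hd L)
  have hsym' : ∀ u v, GS L u v = GS L v u := hsym
  have hzero' : ∀ u v, u ∉ L ∨ v ∉ L → GS L u v = 0 := hzero
  have heq : ∀ (f : Zd d → ℝ), ∀ u ∈ L,
      2 * d * ap L (GS L) f u - ∑ b ∈ nb u, ap L (GS L) f b = f u := by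
    intro f u hu
    have hk : ∀ v ∈ L, 2 * d * GS L u v - ∑ b ∈ nb u, GS L b v = ind (u = v) := by
      intro v hv
      have h1 := (hinv u hu v hv).1
      unfold kk at h1
      have h2 : ∑ w ∈ L, AS d u w * kinv L (AS d) w v = 2 * d * GS L u v - ∑ b ∈ nb u, GS L b v := by
        rw [← sum_ind_nb L (fun b => GS L b v) u (fun b hb => hzero' b v (Or.inl hb)),
          ← sum_ind_eq L (fun b => GS L b v) hu, Finset.mul_sum, ← Finset.sum_sub_distrib]
        refine Finset.sum_congr rfl fun w _ => ?_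
        unfold AS GS
        unfold AS
        ring
      rw [← h2, h1]
    unfold ap
    rw [Finset.sum_comm, Finset.mul_sum, ← Finset.sum_sub_distrib]
    have h3 : ∑ v ∈ L, (2 * d * (GS L u v * f v) - ∑ b ∈ nb u, GS L b v * f v) = ∑ v ∈ L, ind (u = v) * f v := by
      refine Finset.sum_congr rfl fun v hv => ?_
      rw [← hk v hv, ← Finset.sum_mul]
      ring
    rw [h3, sum_ind_eq L f hu]
  have hcmp : ∀ (w f : Zd d → ℝ), (∀ u, u ∉ L → 0 ≤ w u) → (∀ u ∈ L, f u ≤ 2 * d * w u - ∑ b ∈ nb u, w b) →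
      ∀ u ∈ L, ap L (GS L) f u ≤ w u := by
    intro w f hw hf u hu
    have hout : ∀ u, u ∉ L → ap L (GS L) f u = 0 := by
      intro u hu
      unfold ap
      refine Finset.sum_eq_zero fun v _ => ?_
      rw [hzero' u v (Or.inl hu), zero_mul]
    have h1 := minp d hd L (fun u => w u - ap L (GS L) f u) (fun u hu => by
      rw [hout u hu, sub_zero]
      exact hw u hu) (fun u hu => by
      rw [Finset.sum_sub_distrib]
      have h2 := heq f u hu
      have h3 := hf u hu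
      linarith) u hu
    exact sub_nonneg.1 h1
  refine ⟨?_, hsym', hzero', heq, hcmp⟩
  intro u v
  by_cases hu : u ∈ L
  · by_cases hv : v ∈ L
    · have h1 := hcmp (fun _ => 0) (fun x => -ind (v = x)) (fun _ _ => le_refl _) (fun x _ => by
        rw [Finset.sum_const_zero, mul_zero, sub_zero]
        exact neg_nonpos.2 (ind_nn _)) u hu
      have h2 : ap L (GS L) (fun x => -ind (v = x)) u = - GS L u v := by
        unfold ap
        have h3 : ∑ x ∈ L, GS L u x * -ind (v = x) = -∑ x ∈ L, ind (v = x) * GS L u x := by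
          rw [← Finset.sum_neg_distrib]
          refine Finset.sum_congr rfl fun x _ => ?_
          ring
        rw [h3, sum_ind_eq L (fun x => GS L u x) hv]
      rw [h2] at h1
      linarith
    · rw [hzero' u v (Or.inr hv)]
  · rw [hzero' u v (Or.inl hu)]

end Pool.CB
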