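import Pool.Agent.Helper65.CB.StC
import Pool.Agent.Helper73.CL.M_C1b

/-!
# Project CB, module GSk: sines are eigenfunctions of the Green operator of the walk
-/

set_option autoImplicit false

open scoped BigOperators ENNReal Topology
open Pool.LE Pool.NL Pool.CL Filter MeasureTheory

namespace Pool.CB

namespace GSkm

theorem ap_neg {V : Type} [DecidableEq V] (L : Finset V) (S : V → V → ℝ) (f : V → ℝ) (u : V) :
    ap L S (fun x => -f x) u = -ap L S f u := by
  unfold ap
  rw [← Finset.sum_neg_distrib]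
  exact Finset.sum_congr rfl fun x _ => by ring

/-- uniqueness of the solution of the Dirichlet problem -/
theorem uniq (hGS : StGS) {d : ℕ} (hd : 1 ≤ d) (L : Finset (Zd d)) (w f : Zd d → ℝ)
    (h0 : ∀ u, u ∉ L → w u = 0) (h1 : ∀ u ∈ L, 2 * d * w u - ∑ b ∈ nb u, w b = f u) :
    ∀ u ∈ L, ap L (GS L) f u = w u := by
  intro u hu
  obtain ⟨-, -, -, -, hc⟩ := hGS d hd L
  have a1 := hc w f (fun v hv => (h0 v hv).ge) (fun v hv => (h1 v hv).ge) u hu
  have a2 := hc (fun x => -w x) (fun x => -f x) (fun v hv => by rw [h0 v hv, neg_zero])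
    (fun v hv => by
      have h := h1 v hv
      rw [Finset.sum_neg_distrib]
      linarith) u hu
  rw [ap_neg] at a2
  linarith

end GSkm

open GSkm

theorem hGSk (hGS : StGS) : StGSk := by
  intro d n k hd hn hk x hx
  obtain ⟨c1, -, c3, -⟩ := Pool.CN.hC1b Pool.LE.hBox d n k
  have hkap : (fun i => Real.pi * (k i : ℝ) / ((n : ℝ) + 1)) = Pool.CN.kap n k := rfl
  have hphk : phk d n k = Pool.CN.sk n k := funext fun y => OutM.phk_eq d n k y
  rw [hkap, hphk]
  have hdR : (0 : ℝ) < d := by exact_mod_cast hd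
  have hnR : (0 : ℝ) < (n : ℝ) + 1 := by positivity
  -- the denominator is positive
  have hD : Dh (Pool.CN.kap n k) < 1 := by
    unfold Dh
    rw [div_lt_one hdR]
    have h1 : ∀ i : Fin d, Real.cos (Pool.CN.kap n k i) < 1 := by
      intro i
      have hk1 : (1 : ℝ) ≤ k i := by exact_mod_cast (hk i).1
      have hk2 : (k i : ℝ) ≤ n := by exact_mod_cast (hk i).2
      have hp := Real.pi_pos
      have h2 : 0 < Pool.CN.kap n k i := by
        unfold Pool.CN.kap
        positivity
      have h3 : Pool.CN.kap n k i ≤ Real.pi := by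
        unfold Pool.CN.kap
        rw [div_le_iff₀ hnR]
        nlinarith
      have h4 := Real.strictAntiOn_cos (Set.left_mem_Icc.2 hp.le) ⟨h2.le, h3⟩ h2
      rwa [Real.cos_zero] at h4
    have h5 : ∑ i : Fin d, Real.cos (Pool.CN.kap n k i) < ∑ _i : Fin d, (1 : ℝ) :=
      Finset.sum_lt_sum_of_nonempty ⟨⟨0, hd⟩, Finset.mem_univ _⟩ fun i _ => h1 i
    simpa using h5
  set lam : ℝ := 2 * d * (1 - Dh (Pool.CN.kap n k)) with hlam
  have hlam0 : 0 < lam := by
    have : 0 < 1 - Dh (Pool.CN.kap n k) := by linarith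
    positivity
  classical
  have hw := uniq hGS hd (Bn d n)
    (fun u => if u ∈ Bn d n then Pool.CN.sk n k u / lam else 0) (Pool.CN.sk n k)
    (fun u hu => if_neg hu) (fun u hu => ?_) x hx
  · rw [hw]
    exact if_pos hx
  · have h1 : ∑ b ∈ nb u, (if b ∈ Bn d n then Pool.CN.sk n k b / lam else 0) =
        ∑ b ∈ nb u, Pool.CN.sk n k b / lam := by
      refine Finset.sum_congr rfl fun b hb => ?_
      by_cases hbB : b ∈ Bn d n
      · exact if_pos hbB
      · rw [if_neg hbB, c3 u hu b hb hbB, zero_div]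
    rw [h1, if_pos hu, ← Finset.sum_div, c1 u]
    field_simp
    rw [hlam]
    ring

end Pool.CB
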