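import Pool.Agent.Helper65.CB.StC
import Pool.Agent.Helper84.LE.M_KpInt

/-! MP_65faa7, project CB: module GSn (row sums of the Green kernel of the box). -/

set_option autoImplicit false

open scoped BigOperators ENNReal Topology
open Pool.LE Pool.NL Pool.CL Filter MeasureTheory

namespace Pool.CB

namespace GSnM

/-- the barrier -/
noncomputable def wf {d : ℕ} (n : ℕ) (i₀ : Fin d) (u : Zd d) : ℝ :=
  if -1 ≤ u i₀ ∧ u i₀ ≤ n then ((u i₀ : ℝ) + 1) * ((n : ℝ) - u i₀) / 2 else 0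

theorem wf_nonneg {d : ℕ} (n : ℕ) (i₀ : Fin d) (u : Zd d) : 0 ≤ wf n i₀ u := by
  unfold wf
  split_ifs with h
  · have h1 : (-1 : ℝ) ≤ u i₀ := by exact_mod_cast h.1
    have h2 : (u i₀ : ℝ) ≤ n := by exact_mod_cast h.2
    have h3 : 0 ≤ ((u i₀ : ℝ) + 1) * ((n : ℝ) - u i₀) :=
      mul_nonneg (by linarith) (by linarith)
    linarith
  · exact le_rfl

theorem wf_congr {d : ℕ} (n : ℕ) (i₀ : Fin d) {u v : Zd d} (h : u i₀ = v i₀) :
    wf n i₀ u = wf n i₀ v := by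
  unfold wf
  rw [h]

theorem wf_lap {d : ℕ} (n : ℕ) (i₀ : Fin d) (u : Zd d) (hu : u ∈ Bn d n) :
    2 * d * wf n i₀ u - ∑ b ∈ nb u, wf n i₀ b = 1 := by
  have hu' := Finset.mem_Ico.1 (Fintype.mem_piFinset.1 hu i₀)
  rw [KpIntaux.sum_nb]
  have h0 : wf n i₀ u = ((u i₀ : ℝ) + 1) * ((n : ℝ) - u i₀) / 2 := by
    unfold wf
    rw [if_pos ⟨by omega, by omega⟩]
  have h1 : wf n i₀ (u + Pi.single i₀ 1) = ((u i₀ : ℝ) + 1 + 1) * ((n : ℝ) - (u i₀ + 1)) / 2 := by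
    have e : (u + Pi.single i₀ (1 : ℤ) : Zd d) i₀ = u i₀ + 1 := by
      rw [Pi.add_apply, Pi.single_eq_same]
    unfold wf
    rw [e, if_pos ⟨by omega, by omega⟩]
    push_cast
    ring
  have h2 : wf n i₀ (u - Pi.single i₀ 1) = ((u i₀ : ℝ) - 1 + 1) * ((n : ℝ) - (u i₀ - 1)) / 2 := by
    have e : (u - Pi.single i₀ (1 : ℤ) : Zd d) i₀ = u i₀ - 1 := by
      rw [Pi.sub_apply, Pi.single_eq_same]
    unfold wf
    rw [e, if_pos ⟨by omega, by omega⟩]
    push_cast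
    ring
  have hsum : ∑ i : Fin d, (wf n i₀ (u + Pi.single i 1) + wf n i₀ (u - Pi.single i 1)) =
      ∑ i : Fin d, (2 * wf n i₀ u + if i = i₀ then (-1 : ℝ) else 0) := by
    refine Finset.sum_congr rfl fun i _ => ?_
    by_cases hi : i = i₀
    · subst hi
      rw [h1, h2, h0, if_pos rfl]
      ring
    · rw [if_neg hi, wf_congr n i₀ (u := u + Pi.single i 1) (v := u) (by
        rw [Pi.add_apply, Pi.single_eq_of_ne (Ne.symm hi), add_zero]),
        wf_congr n i₀ (u := u - Pi.single i 1) (v := u) (by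
        rw [Pi.sub_apply, Pi.single_eq_of_ne (Ne.symm hi), sub_zero])]
      ring
  rw [hsum, Finset.sum_add_distrib, Finset.sum_const, Finset.card_univ, Fintype.card_fin,
    Finset.sum_ite_eq' Finset.univ i₀ (fun _ => (-1 : ℝ)), if_pos (Finset.mem_univ i₀),
    nsmul_eq_mul]
  ring

end GSnM

open GSnM in
theorem hGSn (hGS : StGS) : StGSn := by
  intro d n hd u
  obtain ⟨-, -, h0, -, hcmp⟩ := hGS d hd (Bn d n)
  by_cases hu : u ∈ Bn d n
  · have h1 := hcmp (wf n ⟨0, hd⟩) (fun _ => 1) (fun u _ => wf_nonneg n _ u)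
      (fun u hu => (wf_lap n ⟨0, hd⟩ u hu).ge) u hu
    have e1 : ap (Bn d n) (GS (Bn d n)) (fun _ => 1) u = ∑ v ∈ Bn d n, GS (Bn d n) u v := by
      unfold ap
      exact Finset.sum_congr rfl fun v _ => mul_one _
    rw [← e1]
    refine h1.trans ?_
    have hu' := Finset.mem_Ico.1 (Fintype.mem_piFinset.1 hu ⟨0, hd⟩)
    unfold wf
    rw [if_pos ⟨by omega, by omega⟩]
    nlinarith [sq_nonneg (((u ⟨0, hd⟩ : ℝ) + 1) - ((n : ℝ) - u ⟨0, hd⟩)),
      sq_nonneg ((n : ℝ) + 1)]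
  · rw [Finset.sum_eq_zero fun v _ => h0 u v (Or.inl hu)]
    positivity

end Pool.CB
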