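import Pool.Agent.Helper65.CB.StC

/-! # Project CB: translations and monotonicity of the Green kernel of the walk -/

set_option autoImplicit false

open scoped BigOperators ENNReal Topology
open Pool.LE Pool.NL Pool.CL Filter MeasureTheory

namespace Pool.CB
namespace GSt

theorem nb_sub {d : ℕ} (x b a : Zd d) : b ∈ nb x ↔ b - a ∈ nb (x - a) := by
  unfold nb
  simp only [Finset.mem_union, Finset.mem_image, Finset.mem_univ, true_and]
  constructor
  · rintro (⟨i, rfl⟩ | ⟨i, rfl⟩)
    · exact Or.inl ⟨i, by abel⟩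
    · exact Or.inr ⟨i, by abel⟩
  · rintro (⟨i, hi⟩ | ⟨i, hi⟩)
    · refine Or.inl ⟨i, ?_⟩
      have : x - a + Pi.single i (1 : ℤ) + a = b - a + a := by rw [hi]
      rw [sub_add_cancel] at this
      rw [← this]; abel
    · refine Or.inr ⟨i, ?_⟩
      have : x - a - Pi.single i (1 : ℤ) + a = b - a + a := by rw [hi]
      rw [sub_add_cancel] at this
      rw [← this]; abel

theorem sum_nb_sub {d : ℕ} (x a : Zd d) (g : Zd d → ℝ) :
    ∑ b ∈ nb x, g (b - a) = ∑ b ∈ nb (x - a), g b := by
  apply Finset.sum_nbij' (fun b => b - a) (fun b => b + a)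
  · intro b hb
    exact (nb_sub x b a).1 hb
  · intro b hb
    rw [nb_sub x (b + a) a, add_sub_cancel_right]
    exact hb
  · intro b _
    exact sub_add_cancel b a
  · intro b _
    exact add_sub_cancel_right b a
  · intro b _
    rfl

theorem ap_ind {d : ℕ} (L : Finset (Zd d)) (S : Zd d → Zd d → ℝ) (u v : Zd d) (hv : v ∈ L) :
    ap L S (fun y => ind (y = v)) u = S u v := by
  unfold ap ind
  simp only [mul_ite, mul_one, mul_zero]
  rw [Finset.sum_ite_eq' L v (fun y => S u y), if_pos hv]

theorem cmp (hGS : StGS) {d : ℕ} (hd : 1 ≤ d) (K L : Finset (Zd d)) (a : Zd d)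
    (hK : ∀ x ∈ K, x - a ∈ L) (u v : Zd d) : GS K (u + a) (v + a) ≤ GS L u v := by
  obtain ⟨_, _, z1, _, c1⟩ := hGS d hd K
  obtain ⟨n2, _, _, e2, _⟩ := hGS d hd L
  by_cases hu : u + a ∈ K
  · by_cases hv : v + a ∈ K
    · have hvL : v ∈ L := by simpa using hK _ hv
      have huL : u ∈ L := by simpa using hK _ hu
      have h := c1 (fun x => ap L (GS L) (fun y => ind (y = v)) (x - a))
        (fun y => ind (y = v + a)) (by
          intro x _
          rw [ap_ind L (GS L) _ v hvL]
          exact n2 _ _) (by
          intro x hx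
          have e := e2 (fun y => ind (y = v)) (x - a) (hK x hx)
          have s := sum_nb_sub x a (fun b => ap L (GS L) (fun y => ind (y = v)) b)
          beta_reduce
          rw [s, e]
          exact le_of_eq (congrArg ind (propext sub_eq_iff_eq_add.symm))) (u + a) hu
      rw [ap_ind K (GS K) (u + a) (v + a) hv] at h
      simp only [add_sub_cancel_right] at h
      rw [ap_ind L (GS L) u v hvL] at h
      exact h
    · rw [z1 _ _ (Or.inr hv)]
      exact n2 _ _
  · rw [z1 _ _ (Or.inl hu)]
    exact n2 _ _

end GSt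

theorem hGSt (hGS : StGS) (_hHinv : StHinv) : StGSt := by
  intro d hd L
  refine ⟨?_, ?_⟩
  · intro a u v
    apply le_antisymm
    · apply GSt.cmp hGS hd
      intro x hx
      obtain ⟨y, hy, rfl⟩ := Finset.mem_image.1 hx
      simpa using hy
    · have h := GSt.cmp hGS hd L (L.image (fun x => x + a)) (-a) (by
        intro x hx
        rw [sub_neg_eq_add]
        exact Finset.mem_image_of_mem (fun x => x + a) hx) (u + a) (v + a)
      simpa using h
  · intro L' hLL u v
    have h := GSt.cmp hGS hd L L' 0 (by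
      intro x hx
      rw [sub_zero]
      exact hLL hx) u v
    simpa using h

end Pool.CB
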