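import Pool.Agent.Helper65.CB.StC
import Pool.Agent.Helper65.CL.M_Coe

/-!
# Project CB (MP_65faa7): module L1, the moment functions are asymptotically the coefficient functions
-/

set_option autoImplicit false
set_option linter.unusedSectionVars false

open scoped BigOperators ENNReal Topology
open Pool.LE Pool.NL Pool.CL Filter MeasureTheory

namespace Pool.CB

namespace L1

theorem T0_smul (d n : ℕ) (c : ℝ) (f : Zd d → ℝ) (x : Zd d) :
    T0 d n (fun v => c * f v) x = c * T0 d n f x := by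
  unfold T0 ap
  rw [← mul_div_assoc, Finset.mul_sum]
  congr 1
  exact Finset.sum_congr rfl fun v _ => by ring

theorem co_ar (d n : ℕ) (V : ℝ) (ψ : Zd d → ℝ) (r : ℕ) : ∀ x : Zd d,
    co (T0 d n) V ψ r x = (-1) ^ r * ar d n V ψ r x := by
  induction r using Nat.strong_induction_on with
  | _ r ih =>
    intro x
    rcases r with _ | r
    · rw [co, ar, pow_zero, one_mul]
    · have h1 : co (T0 d n) V ψ (r + 1) x = V * T0 d n (fun v => ∑ i : Fin (r + 1),
          co (T0 d n) V ψ i v * co (T0 d n) V ψ (r - i) v / (((r - i : ℕ) : ℝ) + 1)) x := by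
        rw [co]
      have h2 : ar d n V ψ (r + 1) x = -V * T0 d n (fun v => ∑ i : Fin (r + 1),
          ar d n V ψ i v * ar d n V ψ (r - i) v / (((r - i : ℕ) : ℝ) + 1)) x := by
        rw [ar]
      have h3 : (fun v => ∑ i : Fin (r + 1),
          co (T0 d n) V ψ i v * co (T0 d n) V ψ (r - i) v / (((r - i : ℕ) : ℝ) + 1)) =
          fun v => (-1 : ℝ) ^ r * ∑ i : Fin (r + 1),
            ar d n V ψ i v * ar d n V ψ (r - i) v / (((r - i : ℕ) : ℝ) + 1) := by
        funext v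
        rw [Finset.mul_sum]
        refine Finset.sum_congr rfl fun i _ => ?_
        have hi : (i : ℕ) ≤ r := Nat.lt_succ_iff.1 i.2
        rw [ih i (by omega) v, ih (r - i) (by omega) v]
        have h4 : (-1 : ℝ) ^ r = (-1) ^ (i : ℕ) * (-1) ^ (r - i) := by
          rw [← pow_add]
          congr 1
          omega
        rw [h4]
        ring
      rw [h1, h3, T0_smul, h2, pow_succ]
      ring

theorem av_nonneg {d n : ℕ} {f : Zd d → ℝ} (h : ∀ x, 0 ≤ f x) : 0 ≤ av d n f := by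
  unfold av
  exact div_nonneg (Finset.sum_nonneg fun x _ => h x) (by positivity)

theorem av_add {d n : ℕ} (f g : Zd d → ℝ) :
    av d n (fun x => f x + g x) = av d n f + av d n g := by
  unfold av
  rw [Finset.sum_add_distrib, add_div]

end L1

open L1 in
theorem hL1 (hFrY : StFrY) (hPolV : StPolV) (hCmp : StCmp) (hAr : StAr) : StL1 := by
  intro d C₁ B c₀ CL hE V hV ψ hψ r
  have hd : d ≠ 0 := by
    have := hE.env.hd
    omega
  obtain ⟨K₁, hK₁, hC⟩ := hCmp d C₁ B c₀ CL hE V hV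
  obtain ⟨K₂, hK₂, hM⟩ := hFrY d C₁ B c₀ CL hE
  have hC₁ : 1 ≤ C₁ := hE.env.hC
  have hQ : 0 ≤ 4 * |V| * C₁ ^ 2 := by positivity
  obtain ⟨K, hK⟩ : ∃ K : ℝ, K = K₁ + K₂ + C₁ + 4 * |V| * C₁ ^ 2 := ⟨_, rfl⟩
  have hK1 : 1 ≤ K := by rw [hK]; linarith
  have key := hPolV d (fun r n x => (-1) ^ r * Fr (Bn d n) n r (ψ n) x - ar d n V (ψ n) r x)
    K hK1 ?_ ?_ r
  · refine key.congr fun n => ?_
    congr 1
    funext x
    rw [co_ar]
    have h1 : (-1 : ℝ) ^ r * (-1) ^ r = 1 := by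
      rw [← mul_pow]
      norm_num
    have h2 : (-1 : ℝ) ^ r * Fr (Bn d n) n r (ψ n) x - ar d n V (ψ n) r x =
        (-1) ^ r * (Fr (Bn d n) n r (ψ n) x - (-1) ^ r * ar d n V (ψ n) r x) := by
      linear_combination (ar d n V (ψ n) r x) * h1
    show |(-1 : ℝ) ^ r * Fr (Bn d n) n r (ψ n) x - ar d n V (ψ n) r x| = _
    rw [h2, abs_mul, abs_pow, abs_neg, abs_one, one_pow, one_mul]
  · intro r n
    rcases Nat.eq_zero_or_pos n with rfl | hn
    · rw [CoeM.av_zero hd]
      positivity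
    · have hb : ∀ x ∈ Bn d n,
          |(|(-1 : ℝ) ^ r * Fr (Bn d n) n r (ψ n) x - ar d n V (ψ n) r x|)| ≤ K ^ (r + 1) := by
        intro x hx
        rw [abs_abs]
        have h0 := ((hM n (ψ n) hn (hψ n) x hx).1 r)
        have h3 : |(-1 : ℝ) ^ r * Fr (Bn d n) n r (ψ n) x| ≤ K₂ ^ (r + 1) := by
          rw [abs_mul, abs_pow, abs_neg, abs_one, one_pow, one_mul, abs_of_nonneg h0.1]
          exact h0.2
        have h2 : |ar d n V (ψ n) r x| ≤ C₁ * (4 * |V| * C₁ ^ 2) ^ r :=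
          hAr d C₁ B c₀ CL hE n V (ψ n) hn (hψ n) r x hx
        have h4 : K₂ ^ r ≤ K ^ r := pow_le_pow_left₀ (by linarith) (by rw [hK]; linarith) r
        have h5 : (4 * |V| * C₁ ^ 2) ^ r ≤ K ^ r := pow_le_pow_left₀ hQ (by rw [hK]; linarith) r
        have h6 : 0 ≤ K ^ r := by positivity
        calc |(-1 : ℝ) ^ r * Fr (Bn d n) n r (ψ n) x - ar d n V (ψ n) r x|
            ≤ K₂ ^ (r + 1) + C₁ * (4 * |V| * C₁ ^ 2) ^ r := (abs_sub _ _).trans (add_le_add h3 h2)
          _ ≤ K₂ * K ^ r + C₁ * K ^ r := by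
              refine add_le_add ?_ (mul_le_mul_of_nonneg_left h5 (by linarith))
              rw [pow_succ, mul_comm]
              exact mul_le_mul_of_nonneg_left h4 (by linarith)
          _ = (K₂ + C₁) * K ^ r := by ring
          _ ≤ K * K ^ r := mul_le_mul_of_nonneg_right (by rw [hK]; linarith) h6
          _ = K ^ (r + 1) := by rw [pow_succ, mul_comm]
      exact (le_abs_self _).trans (CoeM.av_abs hn hb)
  · intro N hN ε hε
    obtain ⟨n₀, hn₀, h⟩ := hC N hN ε hε
    refine ⟨n₀, fun n hn θ hθ hKθ => ?_⟩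
    have hn1 : 1 ≤ n := hn₀.trans hn
    have hθ1 : θ ≤ 1 := by nlinarith
    have hK₁θ : K₁ * θ ≤ 1 := by
      refine le_trans (mul_le_mul_of_nonneg_right ?_ hθ) hKθ
      rw [hK]; linarith
    have e : ∀ x, ∑ r ∈ Finset.range N, θ ^ r * ((-1) ^ r * Fr (Bn d n) n r (ψ n) x -
        ar d n V (ψ n) r x) =
        ∑ r ∈ Finset.range N, (-θ) ^ r * Fr (Bn d n) n r (ψ n) x -
          arp d n V (ψ n) N θ x := by
      intro x
      unfold arp
      rw [← Finset.sum_sub_distrib]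
      refine Finset.sum_congr rfl fun r _ => ?_
      rw [neg_pow θ r]
      ring
    have h1 : av d n (fun x => |yx d n θ (ψ n) x -
        ∑ r ∈ Finset.range N, (-θ) ^ r * Fr (Bn d n) n r (ψ n) x|) ≤ K₂ * (K₂ * θ) ^ N := by
      refine (le_abs_self _).trans (CoeM.av_abs hn1 fun x hx => ?_)
      rw [abs_abs]
      exact (hM n (ψ n) hn1 (hψ n) x hx).2 N θ hθ hθ1
    have h2 := h n hn θ (ψ n) hθ hK₁θ (hψ n)
    have h3 : K₂ * (K₂ * θ) ^ N ≤ K₂ * (K * θ) ^ N := by
      refine mul_le_mul_of_nonneg_left (pow_le_pow_left₀ (by positivity) ?_ N) (by linarith)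
      exact mul_le_mul_of_nonneg_right (by rw [hK]; linarith) hθ
    have h4 : K₁ * (K₁ * θ) ^ N ≤ K₁ * (K * θ) ^ N := by
      refine mul_le_mul_of_nonneg_left (pow_le_pow_left₀ (by positivity) ?_ N) (by linarith)
      exact mul_le_mul_of_nonneg_right (by rw [hK]; linarith) hθ
    have h5 : 0 ≤ (K * θ) ^ N := by positivity
    have h6 : (K₁ + K₂) * (K * θ) ^ N ≤ K * (K * θ) ^ N :=
      mul_le_mul_of_nonneg_right (by rw [hK]; linarith) h5
    have h7 : av d n (fun x => |∑ r ∈ Finset.range N, θ ^ r *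
        ((-1) ^ r * Fr (Bn d n) n r (ψ n) x - ar d n V (ψ n) r x)|) ≤
        av d n (fun x => |yx d n θ (ψ n) x -
          ∑ r ∈ Finset.range N, (-θ) ^ r * Fr (Bn d n) n r (ψ n) x|) +
        av d n (fun x => |yx d n θ (ψ n) x - arp d n V (ψ n) N θ x|) := by
      rw [← av_add]
      refine CoeM.av_mono fun x _ => ?_
      rw [e x, abs_sub_comm (yx d n θ (ψ n) x)
        (∑ r ∈ Finset.range N, (-θ) ^ r * Fr (Bn d n) n r (ψ n) x)]
      exact abs_sub_le _ _ _
    exact h7.trans ((add_le_add h1 h2).trans (by linarith))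

end Pool.CB
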