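import Pool.Agent.Helper65.CB.StC

/-!
# Project CB (MP_65faa7): module L3
Comparison of the moment functions with the walk in the big boxes.
-/

set_option autoImplicit false

open scoped BigOperators ENNReal Topology
open Pool.LE Pool.NL Pool.CL Filter MeasureTheory

namespace Pool.CB

namespace L3

theorem Fr_nonneg (hB : StBasic) {d : ℕ} (h0 : 0 ≤ pH d) (h1 : pH d ≤ 1) (L : Finset (Zd d))
    (n r : ℕ) (f : Zd d → ℝ) (hf : ∀ y, 0 ≤ f y) (x : Zd d) : 0 ≤ Fr L n r f x := by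
  unfold Fr
  obtain ⟨hmono, hconst, -⟩ := hB (Zd d) (ES L) (pH d) h0 h1
  refine div_nonneg ?_ (by positivity)
  have h2 := hmono (fun _ => (0 : ℝ)) (fun ω => (ms f (clu L ω x)) ^ (r + 1))
    (fun ω _ => pow_nonneg (Finset.sum_nonneg fun y _ => hf y) _)
  rw [hconst 0] at h2
  exact h2

/-- the sum over the big box -/
theorem sum_Lam (hLamT : StLamT) {d n M : ℕ} (hn : 1 ≤ n) (F : Zd d → ℝ) :
    ∑ x ∈ Lam d n M, F (fun i => x i + (M * n : ℕ)) = ∑ y ∈ Bn d ((2 * M + 1) * n), F y := by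
  have h1 := (hLamT d n M hn).1
  refine Finset.sum_nbij' (fun x i => x i + ((M * n : ℕ) : ℤ)) (fun y i => y i - ((M * n : ℕ) : ℤ))
    ?_ ?_ ?_ ?_ ?_
  · intro x hx
    exact (h1 x).1 hx
  · intro y hy
    rw [h1]
    have h2 : (fun i => (fun i => y i - ((M * n : ℕ) : ℤ)) i + ((M * n : ℕ) : ℤ)) = y := by
      funext i
      simp only [sub_add_cancel]
    rw [h2]
    exact hy
  · intro x _
    funext i
    simp only [add_sub_cancel_right]
  · intro y _
    funext i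
    simp only [sub_add_cancel]
  · intro x _
    rfl

theorem gs_scale {d : ℕ} (n : ℕ) (α β γ s : ℝ) (hs : s ≠ 0) :
    (gs n α β γ : Zd d → ℝ) = fun y => s * gs n (α / s) (β / s) (γ / s) y := by
  funext y
  unfold gs
  field_simp

theorem av_abs {d : ℕ} (n : ℕ) (f g : Zd d → ℝ) :
    |av d n f - av d n g| ≤ av d n (fun x => |f x - g x|) := by
  unfold av
  rw [← sub_div, ← Finset.sum_sub_distrib, abs_div, abs_of_nonneg (show (0 : ℝ) ≤ (n : ℝ) ^ d by
    positivity)]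
  exact div_le_div_of_nonneg_right (Finset.abs_sum_le_sum_abs _ _) (by positivity)

theorem av_tri {d : ℕ} (n : ℕ) (f g h : Zd d → ℝ) :
    av d n (fun x => |f x - h x|) ≤
      av d n (fun x => |f x - g x|) + av d n (fun x => |g x - h x|) := by
  unfold av
  rw [← add_div, ← Finset.sum_add_distrib]
  refine div_le_div_of_nonneg_right (Finset.sum_le_sum fun x _ => ?_) (by positivity)
  exact abs_sub_le _ _ _

theorem av_nonneg {d : ℕ} (n : ℕ) (f : Zd d → ℝ) (h : ∀ x, 0 ≤ f x) : 0 ≤ av d n f :=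
  div_nonneg (Finset.sum_nonneg fun x _ => h x) (by positivity)

end L3

open L3 in
theorem hL3 (hL1 : StL1) (hCmp2 : StCmp2) (hLamT : StLamT) (hgsC : StgsC) (hScl : StScl)
    (hCC : StCC) (hB : StBasic) : StL3 := by
  intro d C₁ B c₀ CL hE V c hV hc M r α β γ hM hα hβ hγ
  have h0 := hE.env.p0.le
  have h1 : pH d ≤ 1 := hE.env.p1.trans (by norm_num)
  have hd : 1 ≤ d := le_trans (by norm_num) hE.env.hd
  obtain ⟨s, hs⟩ : ∃ s : ℝ, s = 1 + α + β + γ := ⟨_, rfl⟩
  have hs0 : 0 < s := by rw [hs]; positivity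
  obtain ⟨ψ, hψ1, hψ2, hψ3⟩ := hgsC d M (α / s) (β / s) (γ / s) hd hM (by positivity)
    (by positivity) (by positivity) (by
      rw [← add_div, ← add_div, div_le_one hs0, hs]
      linarith)
  have l1 := hL1 d C₁ B c₀ CL hE V hV ψ hψ1 r
  obtain ⟨-, l2, l3⟩ := hCmp2 d C₁ B c₀ CL hE V c hc ψ hψ2 r
  -- the average over `Bn`
  have l4 : Tendsto (fun N : ℕ => av d N (fun x =>
      |Fr (Bn d N) N r (ψ N) x - co (TS (Bn d N) N c) V (ψ N) r x|)) atTop (𝓝 0) := by
    have l5 := l1.add l3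
    rw [add_zero] at l5
    refine squeeze_zero (fun N => av_nonneg N _ fun x => abs_nonneg _) (fun N => ?_) l5
    exact av_tri N _ _ _
  obtain ⟨c1, hc1⟩ := (hCC d C₁ B c₀ CL hE).2.2.2.2 _ l2
  have l6 : Tendsto (fun N : ℕ => av d N (fun x => Fr (Bn d N) N r (ψ N) x)) atTop (𝓝 c1) := by
    have l7 : Tendsto (fun N : ℕ => av d N (fun x => Fr (Bn d N) N r (ψ N) x) -
        av d N (co (TS (Bn d N) N c) V (ψ N) r)) atTop (𝓝 0) :=
      squeeze_zero_norm (fun N => by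
        rw [Real.norm_eq_abs]
        exact av_abs N _ _) l4
    have l8 := l7.add hc1
    simpa using l8
  have hc1n : 0 ≤ c1 := ge_of_tendsto' l6 fun N =>
    av_nonneg N _ fun x => Fr_nonneg hB h0 h1 _ _ _ _ (fun y => (hψ1 N y).1) x
  have hsub : Tendsto (fun n : ℕ => (2 * M + 1) * n) atTop atTop :=
    tendsto_id.const_mul_atTop' (by omega)
  obtain ⟨K, hK⟩ : ∃ K : ℝ, K = s ^ (r + 1) * ((2 * M + 1 : ℕ) : ℝ) ^ (2 + 4 * r) *
      ((2 * M + 1 : ℕ) : ℝ) ^ d := ⟨_, rfl⟩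
  have hK0 : 0 ≤ K := by rw [hK]; positivity
  -- the translation
  have t1 : ∀ n : ℕ, 1 ≤ n → ∀ x : Zd d, Fr (Lam d n M) n r (gs n α β γ) x =
      s ^ (r + 1) * ((2 * M + 1 : ℕ) : ℝ) ^ (2 + 4 * r) *
        Fr (Bn d ((2 * M + 1) * n)) ((2 * M + 1) * n) r (ψ ((2 * M + 1) * n))
          (fun i => x i + (M * n : ℕ)) := by
    intro n hn x
    rw [gs_scale n α β γ s hs0.ne', (hScl d _ n r s _ x).1, (hLamT d n M hn).2.1, mul_assoc]
    have h2 : (fun y : Zd d => gs n (α / s) (β / s) (γ / s) fun i => y i - (M * n : ℕ)) =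
        ψ ((2 * M + 1) * n) := by
      funext y
      exact (hψ3 n hn y).symm
    rw [h2]
  have t2 : ∀ n : ℕ, 1 ≤ n → ∀ x ∈ Lam d n M, co (TS (Lam d n M) n c) V (gs n α β γ) r x =
      s ^ (r + 1) * ((2 * M + 1 : ℕ) : ℝ) ^ (2 + 4 * r) *
        co (TS (Bn d ((2 * M + 1) * n)) ((2 * M + 1) * n) c) V (ψ ((2 * M + 1) * n)) r
          (fun i => x i + (M * n : ℕ)) := by
    intro n hn x hx
    rw [gs_scale n α β γ s hs0.ne', (hScl d _ n r s _ x).2 c V,
      (hLamT d n M hn).2.2 c V _ r x hd hx, mul_assoc]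
    have h2 : (fun y : Zd d => gs n (α / s) (β / s) (γ / s) fun i => y i - (M * n : ℕ)) =
        ψ ((2 * M + 1) * n) := by
      funext y
      exact (hψ3 n hn y).symm
    rw [h2]
  have hav : ∀ (n : ℕ) (F : Zd d → ℝ), 1 ≤ n →
      (∑ x ∈ Lam d n M, s ^ (r + 1) * ((2 * M + 1 : ℕ) : ℝ) ^ (2 + 4 * r) *
        F (fun i => x i + (M * n : ℕ))) / (n : ℝ) ^ d = K * av d ((2 * M + 1) * n) F := by
    intro n F hn
    have hn0 : (0 : ℝ) < n := by exact_mod_cast hn
    rw [← Finset.mul_sum, sum_Lam hLamT hn F]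
    unfold av
    rw [hK, Nat.cast_mul, mul_pow]
    have h2 : (0 : ℝ) < ((2 * M + 1 : ℕ) : ℝ) := by positivity
    field_simp
  constructor
  · have l9 := (l4.comp hsub).const_mul K
    rw [mul_zero] at l9
    refine l9.congr' ?_
    filter_upwards [eventually_ge_atTop 1] with n hn
    simp only [Function.comp]
    rw [← hav n _ hn]
    congr 1
    refine Finset.sum_congr rfl fun x hx => ?_
    rw [t1 n hn x, t2 n hn x hx, ← mul_sub, abs_mul, abs_of_nonneg (show 0 ≤ s ^ (r + 1) *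
      ((2 * M + 1 : ℕ) : ℝ) ^ (2 + 4 * r) by positivity)]
  · refine ⟨K * c1, mul_nonneg hK0 hc1n, ?_⟩
    have l9 := (l6.comp hsub).const_mul K
    refine l9.congr' ?_
    filter_upwards [eventually_ge_atTop 1] with n hn
    simp only [Function.comp]
    rw [← hav n _ hn]
    congr 1
    refine Finset.sum_congr rfl fun x hx => ?_
    rw [t1 n hn x]

end Pool.CB
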