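import Pool.Agent.Helper65.CB.StC

/-! # Project CB, module LamT: translation of the big box -/

set_option autoImplicit false

open scoped BigOperators ENNReal Topology
open Pool.LE Pool.NL Pool.CL Filter MeasureTheory

namespace Pool.CB

namespace LamT

theorem pH01 (d : ℕ) : 0 ≤ pH d ∧ pH d ≤ 1 := by
  have hbdd : ∀ p ∈ {p : ℝ | 0 ≤ p ∧ p ≤ 1 / 2 ∧ ∃ S : Finset (Zd d), 0 ∈ S ∧ phiS d p S < 1},
      p ≤ 1 / 2 := fun p hp => hp.2.1
  have h0 : (0 : ℝ) ∈ {p : ℝ | 0 ≤ p ∧ p ≤ 1 / 2 ∧ ∃ S : Finset (Zd d), 0 ∈ S ∧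
      phiS d p S < 1} := by
    refine ⟨le_refl _, by norm_num, {0}, Finset.mem_singleton_self _, ?_⟩
    unfold phiS
    rw [zero_mul]
    exact one_pos
  constructor
  · exact le_csSup ⟨1 / 2, hbdd⟩ h0
  · refine le_trans (csSup_le ⟨0, h0⟩ hbdd) (by norm_num)

variable {d : ℕ}

theorem clu_shift (hTr : StTr) (L : Finset (Zd d)) (v : Zd d) (ω : Finset (Sym2 (Zd d)))
    (x : Zd d) :
    clu (L.image (fun y => y + v)) (trE v ω) (x + v) = (clu L ω x).image (fun y => y + v) := by
  classical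
  have hcon := (hTr d 0 le_rfl zero_le_one).2.1
  ext y
  unfold clu
  rw [Finset.mem_filter, Finset.mem_image, Finset.mem_image]
  constructor
  · rintro ⟨⟨z, hz, rfl⟩, hy⟩
    refine ⟨z, ?_, rfl⟩
    rw [Finset.mem_filter]
    refine ⟨hz, ?_⟩
    rw [add_comm x v, add_comm z v] at hy
    exact (hcon ω v x z).1 hy
  · rintro ⟨z, hz, rfl⟩
    rw [Finset.mem_filter] at hz
    refine ⟨⟨z, hz.1, rfl⟩, ?_⟩
    rw [add_comm x v, add_comm z v]
    exact (hcon ω v x z).2 hz.2

theorem ms_shift (C : Finset (Zd d)) (v : Zd d) (f : Zd d → ℝ) :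
    ms (fun y => f (y - v)) (C.image (fun y => y + v)) = ms f C := by
  unfold ms
  rw [Finset.sum_image (fun a _ b _ h => add_right_cancel h)]
  apply Finset.sum_congr rfl
  intro y _
  rw [add_sub_cancel_right]

theorem ES_shift (hTr : StTr) (L : Finset (Zd d)) (v : Zd d) :
    ES (L.image (fun y => y + v)) = trE v (ES L) := by
  classical
  rw [(hTr d 0 le_rfl zero_le_one).2.2.2 L v]
  apply congrArg
  ext y
  rw [Finset.mem_image, Finset.mem_map]
  constructor
  · rintro ⟨z, hz, rfl⟩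
    exact ⟨z, hz, add_comm v z⟩
  · rintro ⟨z, hz, rfl⟩
    exact ⟨z, hz, add_comm z v⟩

theorem Fr_shift (hTr : StTr) (L : Finset (Zd d)) (v : Zd d) (n r : ℕ) (f : Zd d → ℝ)
    (x : Zd d) :
    Fr (L.image (fun y => y + v)) n r (fun y => f (y - v)) (x + v) = Fr L n r f x := by
  unfold Fr
  have hp := pH01 d
  rw [ES_shift hTr L v, (hTr d (pH d) hp.1 hp.2).1 (ES L) v]
  have h : (fun ω : Finset (Sym2 (Zd d)) =>
      ms (fun y => f (y - v)) (clu (L.image (fun y => y + v)) (trE v ω) (x + v)) ^ (r + 1)) =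
      fun ω => ms f (clu L ω x) ^ (r + 1) := by
    funext ω
    rw [clu_shift hTr L v ω x, ms_shift]
  rw [h]

theorem ap_shift (hGSt : StGSt) (hd : 1 ≤ d) (L : Finset (Zd d)) (v : Zd d) (g : Zd d → ℝ)
    (x : Zd d) :
    ap (L.image (fun y => y + v)) (GS (L.image (fun y => y + v))) (fun y => g (y - v)) (x + v) =
      ap L (GS L) g x := by
  unfold ap
  rw [Finset.sum_image (fun a _ b _ h => add_right_cancel h)]
  apply Finset.sum_congr rfl
  intro y _
  beta_reduce
  rw [(hGSt d hd L).1 v x y, add_sub_cancel_right]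

theorem TS_shift (hGSt : StGSt) (hd : 1 ≤ d) (L : Finset (Zd d)) (v : Zd d) (n m : ℕ)
    (hn : 1 ≤ n) (hm : 1 ≤ m) (c : ℝ) (g : Zd d → ℝ) (x : Zd d) :
    TS L n c g x = ((m : ℕ) : ℝ) ^ 2 * TS (L.image (fun y => y + v)) (m * n) c
      (fun y => g (y - v)) (x + v) := by
  unfold TS
  rw [ap_shift hGSt hd L v g x]
  have hn0 : (n : ℝ) ≠ 0 := by
    have : (0 : ℝ) < n := by exact_mod_cast hn
    exact this.ne'
  have hm0 : (m : ℝ) ≠ 0 := by
    have : (0 : ℝ) < m := by exact_mod_cast hm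
    exact this.ne'
  push_cast
  field_simp

theorem TS_mul (L : Finset (Zd d)) (n : ℕ) (c s : ℝ) (g : Zd d → ℝ) (x : Zd d) :
    TS L n c (fun y => s * g y) x = s * TS L n c g x := by
  unfold TS ap
  rw [Finset.mul_sum, Finset.mul_sum, Finset.mul_sum]
  apply Finset.sum_congr rfl
  intro v _
  ring

theorem co_shift (hGSt : StGSt) (hd : 1 ≤ d) (L : Finset (Zd d)) (v : Zd d) (n m : ℕ)
    (hn : 1 ≤ n) (hm : 1 ≤ m) (c V : ℝ) (f : Zd d → ℝ) :
    ∀ (r : ℕ) (x : Zd d), co (TS L n c) V f r x = ((m : ℕ) : ℝ) ^ (2 + 4 * r) *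
      co (TS (L.image (fun y => y + v)) (m * n) c) V (fun y => f (y - v)) r (x + v) := by
  intro r
  induction r using Nat.strong_induction_on with
  | _ r ih =>
    intro x
    cases r with
    | zero =>
      rw [co, co, TS_shift hGSt hd L v n m hn hm c f x]
    | succ r =>
      rw [co, co]
      beta_reduce
      rw [TS_shift hGSt hd L v n m hn hm c _ x]
      have h : (fun y => (fun w => ∑ i : Fin (r + 1), co (TS L n c) V f i w *
          co (TS L n c) V f (r - i) w / (((r - i : ℕ) : ℝ) + 1)) (y - v)) =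
          fun y => ((m : ℕ) : ℝ) ^ (4 + 4 * r) * ∑ i : Fin (r + 1),
            co (TS (L.image (fun y => y + v)) (m * n) c) V (fun y => f (y - v)) i y *
            co (TS (L.image (fun y => y + v)) (m * n) c) V (fun y => f (y - v)) (r - i) y /
              (((r - i : ℕ) : ℝ) + 1) := by
        funext y
        beta_reduce
        rw [Finset.mul_sum]
        apply Finset.sum_congr rfl
        intro i _
        have hi : (i : ℕ) ≤ r := Nat.lt_succ_iff.1 i.2
        rw [ih i (by omega) (y - v), ih (r - i) (by omega) (y - v), sub_add_cancel]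
        have e : ((m : ℕ) : ℝ) ^ (4 + 4 * r) =
            ((m : ℕ) : ℝ) ^ (2 + 4 * (i : ℕ)) * ((m : ℕ) : ℝ) ^ (2 + 4 * (r - (i : ℕ))) := by
          rw [← pow_add]
          congr 1
          omega
        rw [e]
        ring
      beta_reduce at h
      rw [h, TS_mul]
      have e2 : ((m : ℕ) : ℝ) ^ (2 + 4 * (r + 1)) =
          ((m : ℕ) : ℝ) ^ 2 * ((m : ℕ) : ℝ) ^ (4 + 4 * r) := by
        rw [← pow_add]
        congr 1
        ring
      rw [e2]
      ring

end LamT

theorem hLamT (hTr : StTr) (hGSt : StGSt) : StLamT := by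
  classical
  intro d n M hn
  have h1 : ∀ x : Zd d, x ∈ Lam d n M ↔
      (fun i => x i + ((M * n : ℕ) : ℤ)) ∈ Bn d ((2 * M + 1) * n) := by
    intro x
    unfold Lam Bn
    rw [Fintype.mem_piFinset, Fintype.mem_piFinset]
    apply forall_congr'
    intro i
    rw [Finset.mem_Ico, Finset.mem_Ico]
    push_cast
    constructor
    · rintro ⟨a, b⟩
      constructor
      · linarith
      · linarith
    · rintro ⟨a, b⟩
      constructor
      · linarith
      · linarith
  obtain ⟨v, hv⟩ : ∃ v : Zd d, v = fun _ => ((M * n : ℕ) : ℤ) := ⟨_, rfl⟩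
  have hadd : ∀ x : Zd d, (fun i => x i + ((M * n : ℕ) : ℤ)) = x + v := by
    intro x
    rw [hv]
    rfl
  have hsub : ∀ x : Zd d, (fun i => x i - ((M * n : ℕ) : ℤ)) = x - v := by
    intro x
    rw [hv]
    rfl
  have himg : Bn d ((2 * M + 1) * n) = (Lam d n M).image (fun y => y + v) := by
    ext y
    rw [Finset.mem_image]
    constructor
    · intro hy
      refine ⟨y - v, ?_, sub_add_cancel y v⟩
      rw [h1, hadd, sub_add_cancel]
      exact hy
    · rintro ⟨z, hz, rfl⟩
      rw [h1, hadd] at hz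
      exact hz
  refine ⟨h1, ?_, ?_⟩
  · intro f r x
    have hf : (fun y : Zd d => f (fun i => y i - ((M * n : ℕ) : ℤ))) = fun y => f (y - v) := by
      funext y
      rw [hsub y]
    rw [hf, hadd x, himg]
    have h2 := LamT.Fr_shift hTr (Lam d n M) v n r f x
    rw [← h2]
    unfold Fr
    have hn0 : (n : ℝ) ≠ 0 := by
      have : (0 : ℝ) < n := by exact_mod_cast hn
      exact this.ne'
    have hm0 : (2 * (M : ℝ) + 1) ≠ 0 := by positivity
    have hr0 : (r.factorial : ℝ) ≠ 0 := by exact_mod_cast r.factorial_ne_zero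
    push_cast
    rw [mul_pow]
    field_simp
  · intro c V f r x hd _
    have hf : (fun y : Zd d => f (fun i => y i - ((M * n : ℕ) : ℤ))) = fun y => f (y - v) := by
      funext y
      rw [hsub y]
    rw [hf, hadd x, himg]
    exact LamT.co_shift hGSt hd (Lam d n M) v n (2 * M + 1) hn (by omega) c V f r x

end Pool.CB
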