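import Pool.Agent.Helper65.CB.StX2
import Pool.Agent.Helper65.CB.M_LamT
import Pool.Agent.Helper65.CB.M_Bbox2
import Pool.Agent.Helper22.CM.St2

/-!
# Project CB (MP_65faa7): the lower bound in a fixed big box from the lower bound for source sets
-/

set_option autoImplicit false

open scoped BigOperators ENNReal Topology
open Pool.LE Pool.NL Pool.CL Filter MeasureTheory

namespace Pool.CB

namespace LB3

theorem Xc_filter {V : Type} [DecidableEq V] (B : Finset V) (P : V → Prop) [DecidablePred P]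
    (ω : Finset (Sym2 V)) (y : V) :
    (Xc (B.filter P) ω y : ℝ) = ms (fun z => ind (P z)) (clu B ω y) := by
  classical
  have e : ∀ z : V, ind (P z) = if P z then (1 : ℝ) else 0 := by
    intro z
    unfold ind
    by_cases h : P z
    · rw [if_pos h, if_pos h]
    · rw [if_neg h, if_neg h]
  unfold Xc ms clu
  simp only [e]
  rw [← Finset.sum_filter, Finset.sum_const, nsmul_eq_mul, mul_one]
  congr 2
  ext z
  simp only [Finset.mem_filter]
  tauto

/-- the translation -/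
def vv (d M n : ℕ) : Zd d := fun _ => ((M * n : ℕ) : ℤ)

theorem img (d M n : ℕ) :
    Bn d ((2 * M + 1) * n) = (Lam d n M).image (fun y => y + vv d M n) := by
  classical
  have h1 : ∀ x : Zd d, x ∈ Lam d n M ↔ x + vv d M n ∈ Bn d ((2 * M + 1) * n) := by
    intro x
    unfold Lam Bn vv
    rw [Fintype.mem_piFinset, Fintype.mem_piFinset]
    apply forall_congr'
    intro i
    rw [Finset.mem_Ico, Finset.mem_Ico, Pi.add_apply]
    push_cast
    constructor
    · rintro ⟨a, b⟩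
      constructor
      · linarith
      · linarith
    · rintro ⟨a, b⟩
      constructor
      · linarith
      · linarith
  ext y
  rw [Finset.mem_image]
  constructor
  · intro hy
    refine ⟨y - vv d M n, ?_, sub_add_cancel y _⟩
    rw [h1, sub_add_cancel]
    exact hy
  · rintro ⟨z, hz, rfl⟩
    exact (h1 z).1 hz

theorem sub_Lam (d M n : ℕ) : Bn d n ⊆ Lam d n M := by
  intro x hx
  unfold Bn at hx
  unfold Lam
  rw [Fintype.mem_piFinset] at hx ⊢
  intro i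
  have := hx i
  rw [Finset.mem_Ico] at this ⊢
  refine ⟨?_, ?_⟩
  · have h0 : (0 : ℤ) ≤ ((M * n : ℕ) : ℤ) := Int.natCast_nonneg _
    linarith [this.1]
  · have h1 : ((n : ℕ) : ℤ) ≤ (((M + 1) * n : ℕ) : ℤ) := by
      exact_mod_cast Nat.le_mul_of_pos_left n (Nat.succ_pos M)
    linarith [this.2]

open Classical in
/-- the source sets -/
noncomputable def SS (d M N : ℕ) : Finset (Zd d) :=
  (Bn d N).filter (fun y => y - vv d M (N / (2 * M + 1)) ∈ Bn d (N / (2 * M + 1)))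

theorem div_q (M n : ℕ) : ((2 * M + 1) * n) / (2 * M + 1) = n :=
  Nat.mul_div_cancel_left n (Nat.succ_pos _)

theorem mem_SS (d M n : ℕ) (y : Zd d) :
    y ∈ SS d M ((2 * M + 1) * n) ↔ y - vv d M n ∈ Bn d n := by
  classical
  unfold SS
  rw [Finset.mem_filter, div_q]
  constructor
  · rintro ⟨-, h⟩
    exact h
  · intro h
    refine ⟨?_, h⟩
    rw [img, Finset.mem_image]
    exact ⟨y - vv d M n, sub_Lam d M n h, sub_add_cancel y _⟩

theorem Xc_SS (hTr : StTr) (d M n : ℕ) (ω : Finset (Sym2 (Zd d))) (x : Zd d) :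
    (Xc (SS d M ((2 * M + 1) * n)) (trE (vv d M n) ω) (x + vv d M n) : ℝ) =
      ms (sB n) (clu (Lam d n M) ω x) := by
  classical
  unfold SS
  rw [Xc_filter, div_q, img, LamT.clu_shift hTr]
  have h : (fun z : Zd d => ind (z - vv d M n ∈ Bn d n)) = fun z => sB n (z - vv d M n) := rfl
  rw [h, LamT.ms_shift]

theorem ex_shift (hTr : StTr) (d M n : ℕ) (F : Finset (Sym2 (Zd d)) → ℝ) :
    ex (ES (Bn d ((2 * M + 1) * n))) (pH d) F =
      ex (ES (Lam d n M)) (pH d) (fun ω => F (trE (vv d M n) ω)) := by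
  have hp := LamT.pH01 d
  rw [img, LamT.ES_shift hTr, (hTr d (pH d) hp.1 hp.2).1]

theorem mrS_eq (hTr : StTr) (d M n r : ℕ) (x : Zd d) :
    Pool.CM.mrS d ((2 * M + 1) * n) (SS d M ((2 * M + 1) * n)) r (x + vv d M n) =
      Fr (Lam d n M) n r (sB n) x / ((2 * M + 1 : ℕ) : ℝ) ^ (2 + 4 * r) := by
  unfold Pool.CM.mrS eb
  rw [ex_shift hTr]
  simp only [Xc_SS hTr]
  unfold Fr
  push_cast
  rw [mul_pow, div_div]
  congr 1
  ring

theorem snS_eq (hTr : StTr) (d M n : ℕ) (θ : ℝ) (x : Zd d) :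
    Pool.CM.snS d ((2 * M + 1) * n) (SS d M ((2 * M + 1) * n)) θ (x + vv d M n) =
      Fe (Lam d n M) n (θ / ((2 * M + 1 : ℕ) : ℝ) ^ 4) (sB n) x / ((2 * M + 1 : ℕ) : ℝ) ^ 2 := by
  unfold Pool.CM.snS eb
  rw [ex_shift hTr]
  simp only [Xc_SS hTr]
  unfold Fe
  have e : ∀ t : ℝ, θ * t / (((2 * M + 1) * n : ℕ) : ℝ) ^ 4 =
      θ / ((2 * M + 1 : ℕ) : ℝ) ^ 4 * t / (n : ℝ) ^ 4 := by
    intro t
    push_cast
    rw [mul_pow]
    field_simp
  simp only [e]
  push_cast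
  rw [mul_pow, div_div]
  congr 1
  ring

theorem av_eq (hTr : StTr) (d M n r : ℕ) :
    av d ((2 * M + 1) * n) (Pool.CM.mrS d ((2 * M + 1) * n) (SS d M ((2 * M + 1) * n)) r) =
      (∑ x ∈ Lam d n M, Fr (Lam d n M) n r (sB n) x) / (n : ℝ) ^ d /
        ((2 * M + 1 : ℕ) : ℝ) ^ (2 + 4 * r + d) := by
  unfold av
  have h : ∑ y ∈ Bn d ((2 * M + 1) * n),
      Pool.CM.mrS d ((2 * M + 1) * n) (SS d M ((2 * M + 1) * n)) r y =
      ∑ x ∈ Lam d n M, Fr (Lam d n M) n r (sB n) x / ((2 * M + 1 : ℕ) : ℝ) ^ (2 + 4 * r) := by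
    classical
    have h1 : ∑ y ∈ Bn d ((2 * M + 1) * n),
        Pool.CM.mrS d ((2 * M + 1) * n) (SS d M ((2 * M + 1) * n)) r y =
        ∑ y ∈ (Lam d n M).image (fun y => y + vv d M n),
        Pool.CM.mrS d ((2 * M + 1) * n) (SS d M ((2 * M + 1) * n)) r y := by
      rw [← img]
    rw [h1, Finset.sum_image (fun a _ b _ h => add_right_cancel h)]
    exact Finset.sum_congr rfl fun x _ => mrS_eq hTr d M n r x
  rw [h, ← Finset.sum_div]
  push_cast
  rw [mul_pow, div_div, div_div]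
  congr 1
  ring

theorem pr_eq (hTr : StTr) (d M n : ℕ) (A : ℝ) :
    pB d ((2 * M + 1) * n) (pH d) (fun ω => ∃ y ∈ SS d M ((2 * M + 1) * n),
      A ≤ Xc (SS d M ((2 * M + 1) * n)) ω y) =
    pr (ES (Lam d n M)) (pH d) (fun ω => ∃ x ∈ Bn d n, A ≤ ms (sB n) (clu (Lam d n M) ω x)) := by
  have h0 := ex_shift hTr d M n (fun ω => ind (∃ y ∈ SS d M ((2 * M + 1) * n),
      A ≤ (Xc (SS d M ((2 * M + 1) * n)) ω y : ℝ)))
  have h1 : pB d ((2 * M + 1) * n) (pH d) (fun ω => ∃ y ∈ SS d M ((2 * M + 1) * n),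
      A ≤ Xc (SS d M ((2 * M + 1) * n)) ω y) =
      ex (ES (Bn d ((2 * M + 1) * n))) (pH d) (fun ω => ind (∃ y ∈ SS d M ((2 * M + 1) * n),
      A ≤ (Xc (SS d M ((2 * M + 1) * n)) ω y : ℝ))) := rfl
  rw [h1, h0]
  have h2 : ∀ ω : Finset (Sym2 (Zd d)), (∃ y ∈ SS d M ((2 * M + 1) * n),
      A ≤ (Xc (SS d M ((2 * M + 1) * n)) (trE (vv d M n) ω) y : ℝ)) ↔
      ∃ x ∈ Bn d n, A ≤ ms (sB n) (clu (Lam d n M) ω x) := by
    intro ω
    constructor
    · rintro ⟨y, hy, h⟩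
      refine ⟨y - vv d M n, (mem_SS d M n y).1 hy, ?_⟩
      rw [← Xc_SS hTr d M n ω (y - vv d M n), sub_add_cancel]
      exact h
    · rintro ⟨x, hx, h⟩
      refine ⟨x + vv d M n, (mem_SS d M n _).2 (by rw [add_sub_cancel_right]; exact hx), ?_⟩
      rw [Xc_SS hTr d M n ω x]
      exact h
  have h3 : (fun ω : Finset (Sym2 (Zd d)) => ind (∃ y ∈ SS d M ((2 * M + 1) * n),
      A ≤ (Xc (SS d M ((2 * M + 1) * n)) (trE (vv d M n) ω) y : ℝ))) =
      fun ω => ind (∃ x ∈ Bn d n, A ≤ ms (sB n) (clu (Lam d n M) ω x)) := by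
    funext ω
    rw [propext (h2 ω)]
  rw [h3]
  rfl

theorem ms_nonneg {d : ℕ} (n : ℕ) (C : Finset (Zd d)) : 0 ≤ ms (sB n) C := by
  unfold ms sB ind
  refine Finset.sum_nonneg fun y _ => ?_
  split_ifs <;> norm_num

theorem Fe_mono {d : ℕ} (L : Finset (Zd d)) (n : ℕ) {θ θ' : ℝ} (h : θ ≤ θ') (x : Zd d) :
    Fe L n θ (sB n) x ≤ Fe L n θ' (sB n) x := by
  have hp := LamT.pH01 d
  unfold Fe
  refine div_le_div_of_nonneg_right ?_ (by positivity)
  unfold ex Ex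
  refine Finset.sum_le_sum fun ω _ => ?_
  rw [smul_eq_mul, smul_eq_mul]
  refine mul_le_mul_of_nonneg_left ?_ (wt_nonneg hp.1 hp.2 _ ω)
  have h0 := ms_nonneg n (clu L ω x)
  refine mul_le_mul_of_nonneg_left ?_ h0
  refine Real.exp_le_exp.2 (div_le_div_of_nonneg_right ?_ (by positivity))
  exact mul_le_mul_of_nonneg_right h h0

end LB3

theorem hLB3 (hLowS : Pool.CM.StLowS) (hTr : StTr) (_hRR : StRR) : Pool.CB.StLB3 := by
  refine ⟨0, fun d _ C₁ B c₀ CL hE M cl R1 R2 hM hR1 hR12 hnear hcl hexp hdv a ha haR => ?_⟩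
  have hp := LamT.pH01 d
  obtain ⟨q, hq⟩ : ∃ q : ℕ, q = 2 * M + 1 := ⟨_, rfl⟩
  have hq1 : 1 ≤ q := by omega
  have hq0 : (0 : ℝ) < (q : ℝ) := by exact_mod_cast hq1
  have hq1' : (1 : ℝ) ≤ (q : ℝ) := by exact_mod_cast hq1
  have hqt : Tendsto (fun n : ℕ => q * n) atTop atTop :=
    tendsto_atTop_mono (fun n => Nat.le_mul_of_pos_left n hq1) tendsto_id
  have hq4 : (0 : ℝ) < (q : ℝ) ^ 4 := by positivity
  have hRad : Pool.CM.RadS d (map (fun n : ℕ => q * n) atTop) (LB3.SS d M)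
      (fun r => cl r / (q : ℝ) ^ (2 + 4 * r + d)) ((q : ℝ) ^ 4 * R1) ((q : ℝ) ^ 4 * R2) := by
    refine ⟨by positivity, mul_le_mul_of_nonneg_left hR12 hq4.le, ?_, hqt, ?_, ?_, ?_, ?_⟩
    · have := mul_le_mul_of_nonneg_left hnear hq4.le
      linarith
    · intro n
      exact Finset.filter_subset _ _
    · intro r
      rw [tendsto_map'_iff]
      have h1 : ((fun n : ℕ => av d n (Pool.CM.mrS d n (LB3.SS d M n) r)) ∘ fun n : ℕ => q * n) =
          fun n : ℕ => (∑ x ∈ Lam d n M, Fr (Lam d n M) n r (sB n) x) / (n : ℝ) ^ d /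
            (q : ℝ) ^ (2 + 4 * r + d) := by
        funext n
        simp only [Function.comp_apply]
        rw [hq]
        exact LB3.av_eq hTr d M n r
      rw [h1]
      exact (hcl r).div_const _
    · intro θ hθ0 hθ
      have hm1 : max (θ / (q : ℝ) ^ 4) (R1 / 2) < R1 := by
        refine max_lt ?_ (by linarith)
        rw [div_lt_iff₀ hq4]
        linarith
      obtain ⟨K, n₀, hn₀, hK⟩ := hexp (max (θ / (q : ℝ) ^ 4) (R1 / 2))
        (lt_of_lt_of_le (by linarith) (le_max_right _ _)) hm1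
      refine ⟨max K 1, le_max_right _ _, ?_⟩
      rw [eventually_map]
      filter_upwards [eventually_ge_atTop n₀] with n hn y hy
      rw [hq, LB3.img, Finset.mem_image] at hy
      obtain ⟨x, hx, rfl⟩ := hy
      rw [hq, LB3.snS_eq hTr, ← hq]
      have h2 := LB3.Fe_mono (Lam d n M) n (le_max_left (θ / (q : ℝ) ^ 4) (R1 / 2)) x
      have h3 := hK n hn x hx
      have h4 : Fe (Lam d n M) n (θ / (q : ℝ) ^ 4) (sB n) x ≤ max K 1 :=
        le_trans (le_trans h2 h3) (le_max_left _ _)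
      have hq2 : 1 ≤ (q : ℝ) ^ 2 := one_le_pow₀ hq1'
      have h5 : (0 : ℝ) ≤ max K 1 := le_trans zero_le_one (le_max_right _ _)
      rw [div_le_iff₀ (by positivity)]
      calc Fe (Lam d n M) n (θ / (q : ℝ) ^ 4) (sB n) x ≤ max K 1 * 1 := by rw [mul_one]; exact h4
        _ ≤ max K 1 * (q : ℝ) ^ 2 := mul_le_mul_of_nonneg_left hq2 h5
    · intro θ hθ hs
      have hlt : R2 < θ / (q : ℝ) ^ 4 := by
        rw [lt_div_iff₀ hq4]
        linarith
      refine hdv _ hlt ?_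
      have h1 : (fun r : ℕ => cl r * (θ / (q : ℝ) ^ 4) ^ r) =
          fun r : ℕ => (q : ℝ) ^ (2 + d) * (cl r / (q : ℝ) ^ (2 + 4 * r + d) * θ ^ r) := by
        funext r
        have e : (q : ℝ) ^ (2 + 4 * r + d) = (q : ℝ) ^ (2 + d) * ((q : ℝ) ^ 4) ^ r := by
          rw [← pow_mul, ← pow_add]
          congr 1
          ring
        rw [e, div_pow]
        field_simp
      rw [h1]
      exact hs.mul_left _
  have hA : 0 < a / (q : ℝ) ^ 4 := by positivity
  have hAR : a / (q : ℝ) ^ 4 * ((q : ℝ) ^ 4 * R2 + 71 * ((q : ℝ) ^ 4 * R2 - (q : ℝ) ^ 4 * R1)) <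
      (d : ℝ) - 6 := by
    have e : a / (q : ℝ) ^ 4 * ((q : ℝ) ^ 4 * R2 + 71 * ((q : ℝ) ^ 4 * R2 - (q : ℝ) ^ 4 * R1)) =
        a * (R2 + 71 * (R2 - R1)) := by
      field_simp
    rw [e]
    exact haR
  have hlim := hLowS d C₁ B c₀ CL hE _ _ _ _ _ hRad (a / (q : ℝ) ^ 4) hA hAR
  rw [tendsto_map'_iff] at hlim
  refine tendsto_of_tendsto_of_tendsto_of_le_of_le' hlim tendsto_const_nhds ?_ ?_
  · filter_upwards [eventually_ge_atTop 1] with n hn
    simp only [Function.comp_apply]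
    have h1 := LB3.pr_eq hTr d M n (a / (q : ℝ) ^ 4 * ((q * n : ℕ) : ℝ) ^ 4 * Real.log ((q * n : ℕ) : ℝ))
    rw [← hq] at h1
    rw [h1]
    refine bbox_pr_mono hp.1 hp.2 ?_
    rintro ω ⟨x, hx, h2⟩
    refine ⟨x, hx, le_trans ?_ h2⟩
    have hn0 : (0 : ℝ) < (n : ℝ) := by exact_mod_cast hn
    have e : a / (q : ℝ) ^ 4 * ((q * n : ℕ) : ℝ) ^ 4 * Real.log ((q * n : ℕ) : ℝ) =
        a * (n : ℝ) ^ 4 * Real.log ((q * n : ℕ) : ℝ) := by
      push_cast
      field_simp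
    rw [e]
    refine mul_le_mul_of_nonneg_left ?_ (by positivity)
    refine Real.log_le_log hn0 ?_
    push_cast
    nlinarith
  · exact Eventually.of_forall fun n => bbox_pr_le_one hp.1 hp.2 _

end Pool.CB
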