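import Pool.Agent.Helper65.CB.StC

/-!
# Project CB, module Mink: Minkowski inequality for the moments
-/

set_option autoImplicit false

open scoped BigOperators ENNReal Topology
open Pool.LE Pool.NL Pool.CL Filter MeasureTheory

namespace Pool.CB

namespace Mink

/-- the weighted mass -/
noncomputable def aa {d : ℕ} (L : Finset (Zd d)) (n r : ℕ) (h : Zd d → ℝ)
    (i : Zd d × Finset (Sym2 (Zd d))) : ℝ :=
  (wt (ES L) (pH d) i.2 / ((n : ℝ) ^ (2 + 4 * r) * (r.factorial : ℝ))) ^ (1 / ((r : ℝ) + 1)) *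
    ms h (clu L i.2 i.1)

theorem wt_nonneg {V : Type} [DecidableEq V] (E ω : Finset (Sym2 V)) {p : ℝ} (h0 : 0 ≤ p)
    (h1 : p ≤ 1) : 0 ≤ wt E p ω := by
  have h2 : 0 ≤ 1 - p := by linarith
  unfold wt
  positivity

theorem ms_nonneg {V : Type} [DecidableEq V] {h : V → ℝ} (hh : ∀ y, 0 ≤ h y) (C : Finset V) :
    0 ≤ ms h C := Finset.sum_nonneg fun y _ => hh y

theorem aa_nonneg {d : ℕ} (L : Finset (Zd d)) (n r : ℕ) {h : Zd d → ℝ} (hh : ∀ y, 0 ≤ h y)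
    (h0 : 0 ≤ pH d) (h1 : pH d ≤ 1) (i : Zd d × Finset (Sym2 (Zd d))) : 0 ≤ aa L n r h i := by
  unfold aa
  refine mul_nonneg (Real.rpow_nonneg (div_nonneg (wt_nonneg _ _ h0 h1) (by positivity)) _)
    (ms_nonneg hh _)

theorem sumFr {d : ℕ} (L : Finset (Zd d)) (n r : ℕ) {h : Zd d → ℝ} (hh : ∀ y, 0 ≤ h y)
    (h0 : 0 ≤ pH d) (h1 : pH d ≤ 1) :
    ∑ x ∈ L, Fr L n r h x =
      ∑ i ∈ L ×ˢ (ES L).powerset, (aa L n r h i) ^ ((r : ℝ) + 1) := by
  rw [Finset.sum_product]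
  refine Finset.sum_congr rfl fun x _ => ?_
  unfold Fr ex Ex
  rw [Finset.sum_div]
  refine Finset.sum_congr rfl fun ω _ => ?_
  unfold aa
  have hw : 0 ≤ wt (ES L) (pH d) ω / ((n : ℝ) ^ (2 + 4 * r) * (r.factorial : ℝ)) :=
    div_nonneg (wt_nonneg _ _ h0 h1) (by positivity)
  have hr : (0 : ℝ) < (r : ℝ) + 1 := by positivity
  rw [Real.mul_rpow (Real.rpow_nonneg hw _) (ms_nonneg hh _), ← Real.rpow_mul hw,
    one_div_mul_cancel hr.ne', Real.rpow_one]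
  have e1 : (r : ℝ) + 1 = ((r + 1 : ℕ) : ℝ) := by push_cast; ring
  rw [e1, Real.rpow_natCast, smul_eq_mul]
  ring

end Mink

/-- Minkowski inequality for the moments -/
theorem hMink : StMink := by
  intro d L n r η f g hn h0 h1 hη hf hg
  have hr : (0 : ℝ) < (r : ℝ) + 1 := by positivity
  have hfg : ∀ y, 0 ≤ f y + η * g y := fun y => add_nonneg (hf y) (mul_nonneg hη (hg y))
  rw [Mink.sumFr L n r hf h0 h1, Mink.sumFr L n r hg h0 h1, Mink.sumFr L n r hfg h0 h1]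
  have e1 : ∀ i : Zd d × Finset (Sym2 (Zd d)), Mink.aa L n r (fun y => f y + η * g y) i =
      Mink.aa L n r f i + η * Mink.aa L n r g i := by
    intro i
    unfold Mink.aa ms
    rw [Finset.sum_add_distrib, ← Finset.mul_sum]
    ring
  have h2 := Real.Lp_add_le_of_nonneg (s := L ×ˢ (ES L).powerset)
    (f := fun i => Mink.aa L n r f i) (g := fun i => η * Mink.aa L n r g i) (p := (r : ℝ) + 1)
    (by linarith [hr, (Nat.cast_nonneg r : (0 : ℝ) ≤ r)])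
    (fun i _ => Mink.aa_nonneg L n r hf h0 h1 i)
    (fun i _ => mul_nonneg hη (Mink.aa_nonneg L n r hg h0 h1 i))
  have e2 : (∑ i ∈ L ×ˢ (ES L).powerset, (η * Mink.aa L n r g i) ^ ((r : ℝ) + 1)) ^
      (1 / ((r : ℝ) + 1)) = η * (∑ i ∈ L ×ˢ (ES L).powerset,
        (Mink.aa L n r g i) ^ ((r : ℝ) + 1)) ^ (1 / ((r : ℝ) + 1)) := by
    have e3 : ∑ i ∈ L ×ˢ (ES L).powerset, (η * Mink.aa L n r g i) ^ ((r : ℝ) + 1) =
        η ^ ((r : ℝ) + 1) * ∑ i ∈ L ×ˢ (ES L).powerset, (Mink.aa L n r g i) ^ ((r : ℝ) + 1) := by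
      rw [Finset.mul_sum]
      refine Finset.sum_congr rfl fun i _ => ?_
      rw [Real.mul_rpow hη (Mink.aa_nonneg L n r hg h0 h1 i)]
    rw [e3, Real.mul_rpow (Real.rpow_nonneg hη _) (Finset.sum_nonneg fun i _ =>
      Real.rpow_nonneg (Mink.aa_nonneg L n r hg h0 h1 i) _), ← Real.rpow_mul hη,
      mul_one_div_cancel hr.ne', Real.rpow_one]
  rw [e2] at h2
  have e4 : ∑ i ∈ L ×ˢ (ES L).powerset, (Mink.aa L n r (fun y => f y + η * g y) i) ^
      ((r : ℝ) + 1) = ∑ i ∈ L ×ˢ (ES L).powerset,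
        (Mink.aa L n r f i + η * Mink.aa L n r g i) ^ ((r : ℝ) + 1) :=
    Finset.sum_congr rfl fun i _ => by rw [e1]
  rw [e4]
  exact h2

end Pool.CB
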