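import Pool.Agent.Helper65.CB.StC

/-! MP_65faa7, project CB: module PolV. -/

set_option autoImplicit false
set_option linter.unusedSectionVars false

open scoped BigOperators ENNReal Topology
open Pool.LE Pool.NL Pool.CL Filter MeasureTheory

namespace Pool.CB

namespace PolVM

theorem av_nonneg (d n : ℕ) (f : Zd d → ℝ) : 0 ≤ av d n (fun x => |f x|) := by
  unfold av
  exact div_nonneg (Finset.sum_nonneg fun x _ => abs_nonneg _) (pow_nonneg (Nat.cast_nonneg n) d)

theorem av_mono (d n : ℕ) (f g : Zd d → ℝ) (h : ∀ x, f x ≤ g x) : av d n f ≤ av d n g := by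
  unfold av
  exact div_le_div_of_nonneg_right (Finset.sum_le_sum fun x _ => h x)
    (pow_nonneg (Nat.cast_nonneg n) d)

theorem av_add (d n : ℕ) (f g : Zd d → ℝ) :
    av d n (fun x => f x + g x) = av d n f + av d n g := by
  unfold av
  rw [Finset.sum_add_distrib, add_div]

theorem av_mul (d n : ℕ) (c : ℝ) (f : Zd d → ℝ) :
    av d n (fun x => c * f x) = c * av d n f := by
  unfold av
  rw [← Finset.mul_sum, mul_div_assoc]

theorem av_sum (d n r : ℕ) (f : ℕ → Zd d → ℝ) :
    av d n (fun x => ∑ s ∈ Finset.range r, f s x) = ∑ s ∈ Finset.range r, av d n (f s) := by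
  unfold av
  rw [Finset.sum_comm, Finset.sum_div]

end PolVM

theorem hPolV : StPolV := by
  intro d b K hK _ hN r
  induction r using Nat.strong_induction_on with
  | _ r ih =>
    have hK0 : 0 < K := by linarith
    rw [Metric.tendsto_atTop]
    intro δ hδ
    set θ : ℝ := min (1 / K) (δ / (4 * K ^ (r + 2))) with hθ
    have hθ0 : 0 < θ := lt_min (by positivity) (by positivity)
    have hθ1 : K * θ ≤ 1 := by
      calc K * θ ≤ K * (1 / K) := mul_le_mul_of_nonneg_left (min_le_left _ _) hK0.le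
        _ = 1 := by field_simp
    have hθ2 : K ^ (r + 2) * θ ≤ δ / 4 := by
      calc K ^ (r + 2) * θ ≤ K ^ (r + 2) * (δ / (4 * K ^ (r + 2))) :=
            mul_le_mul_of_nonneg_left (min_le_right _ _) (by positivity)
        _ = δ / 4 := by field_simp
    have hθr : 0 < θ ^ r := pow_pos hθ0 r
    obtain ⟨n₀, h₀⟩ := hN (r + 1) (by omega) (θ ^ r * (δ / 4)) (by positivity)
    have hlim : Tendsto (fun n => ∑ s ∈ Finset.range r, θ ^ s * av d n (fun x => |b s n x|))
        atTop (𝓝 0) := by
      have h : Tendsto (fun n => ∑ s ∈ Finset.range r, θ ^ s * av d n (fun x => |b s n x|)) atTop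
          (𝓝 (∑ s ∈ Finset.range r, θ ^ s * (0 : ℝ))) :=
        tendsto_finsetSum _ fun s hs =>
          (ih s (Finset.mem_range.1 hs)).const_mul (θ ^ s)
      simpa using h
    obtain ⟨n₁, h₁⟩ := (Metric.tendsto_atTop.1 hlim) (θ ^ r * (δ / 4)) (by positivity)
    refine ⟨max n₀ n₁, fun n hn => ?_⟩
    have a0 := h₀ n ((le_max_left _ _).trans hn) θ hθ0.le hθ1
    have a1 := h₁ n ((le_max_right _ _).trans hn)
    rw [Real.dist_eq, sub_zero] at a1 ⊢
    have a2 : ∑ s ∈ Finset.range r, θ ^ s * av d n (fun x => |b s n x|) < θ ^ r * (δ / 4) :=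
      lt_of_le_of_lt (le_abs_self _) a1
    have a3 : av d n (fun x => |∑ s ∈ Finset.range r, θ ^ s * b s n x|) ≤
        ∑ s ∈ Finset.range r, θ ^ s * av d n (fun x => |b s n x|) := by
      have e : ∑ s ∈ Finset.range r, θ ^ s * av d n (fun x => |b s n x|) =
          av d n (fun x => ∑ s ∈ Finset.range r, θ ^ s * |b s n x|) := by
        rw [PolVM.av_sum]
        exact Finset.sum_congr rfl fun s _ => (PolVM.av_mul d n (θ ^ s) _).symm
      rw [e]
      refine PolVM.av_mono d n _ _ fun x => ?_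
      refine (Finset.abs_sum_le_sum_abs _ _).trans (le_of_eq ?_)
      refine Finset.sum_congr rfl fun s _ => ?_
      rw [abs_mul, abs_of_nonneg (pow_nonneg hθ0.le s)]
    have a4 : K * (K * θ) ^ (r + 1) ≤ θ ^ r * (δ / 4) := by
      calc K * (K * θ) ^ (r + 1) = θ ^ r * (K ^ (r + 2) * θ) := by ring
        _ ≤ θ ^ r * (δ / 4) := mul_le_mul_of_nonneg_left hθ2 hθr.le
    have a5 : θ ^ r * av d n (fun x => |b r n x|) = av d n (fun x => |θ ^ r * b r n x|) := by
      rw [← PolVM.av_mul]
      refine congrArg (av d n) (funext fun x => ?_)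
      rw [abs_mul, abs_of_pos hθr]
    have a6 : av d n (fun x => |θ ^ r * b r n x|) ≤
        av d n (fun x => |∑ s ∈ Finset.range (r + 1), θ ^ s * b s n x|) +
        av d n (fun x => |∑ s ∈ Finset.range r, θ ^ s * b s n x|) := by
      rw [← PolVM.av_add]
      refine PolVM.av_mono d n _ _ fun x => ?_
      have e : θ ^ r * b r n x = (∑ s ∈ Finset.range (r + 1), θ ^ s * b s n x) -
          ∑ s ∈ Finset.range r, θ ^ s * b s n x := by
        rw [Finset.sum_range_succ]; ring
      calc |θ ^ r * b r n x| = |(∑ s ∈ Finset.range (r + 1), θ ^ s * b s n x) -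
          ∑ s ∈ Finset.range r, θ ^ s * b s n x| := by rw [← e]
        _ ≤ _ := abs_sub _ _
    have a7 : θ ^ r * av d n (fun x => |b r n x|) < θ ^ r * δ := by
      rw [a5]
      have : 0 < θ ^ r * δ := by positivity
      linarith
    rw [abs_of_nonneg (PolVM.av_nonneg d n (b r n))]
    exact lt_of_mul_lt_mul_left a7 hθr.le

end Pool.CB
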