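import Pool.Agent.Helper65.CB.StC

/-!
# Project CB (MP_65faa7), module RadP: perturbation of the radius of convergence
-/

set_option autoImplicit false

open scoped BigOperators ENNReal Topology
open Pool.LE Pool.NL Pool.CL Filter MeasureTheory

namespace Pool.CB

namespace RadP

theorem root_le {x c : ℝ} (r : ℕ) (hx : 0 ≤ x) (hc : 0 ≤ c) (h : x ≤ c ^ (r + 1)) :
    x ^ (1 / ((r : ℝ) + 1)) ≤ c := by
  have e : 1 / ((r : ℝ) + 1) = (((r + 1 : ℕ) : ℝ))⁻¹ := by push_cast; rw [one_div]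
  rw [e]
  have h1 := Real.rpow_le_rpow hx h (by positivity : (0 : ℝ) ≤ (((r + 1 : ℕ) : ℝ))⁻¹)
  rwa [Real.pow_rpow_inv_natCast hc (Nat.succ_ne_zero r)] at h1

theorem le_of_root {x c : ℝ} (r : ℕ) (hx : 0 ≤ x) (h : x ^ (1 / ((r : ℝ) + 1)) ≤ c) :
    x ≤ c ^ (r + 1) := by
  have e : 1 / ((r : ℝ) + 1) = (((r + 1 : ℕ) : ℝ))⁻¹ := by push_cast; rw [one_div]
  rw [e] at h
  have h1 := pow_le_pow_left₀ (Real.rpow_nonneg hx _) h (r + 1)
  rwa [Real.rpow_inv_natCast_pow hx (Nat.succ_ne_zero r)] at h1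

end RadP

open RadP in
/-- perturbation of the radius of convergence -/
theorem hRadP : StRadP := by
  intro a b K θ θ' hθ hθθ' ha hb hsum
  have hK : 0 ≤ K := by
    have h := (hb 0).1.trans (hb 0).2
    simpa using h
  have hθ' : 0 < θ' := hθ.trans hθθ'
  obtain ⟨A, hA1, hA⟩ : ∃ A : ℝ, 1 ≤ A ∧ ∀ r, a r * θ' ^ r ≤ A := by
    refine ⟨max 1 (∑' r, a r * θ' ^ r), le_max_left _ _, fun r => ?_⟩
    exact (hsum.le_tsum r (fun j _ => mul_nonneg (ha j) (pow_nonneg hθ'.le _))).trans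
      (le_max_right _ _)
  have h1 : 1 / θ' < 1 / θ := one_div_lt_one_div_of_lt hθ hθθ'
  obtain ⟨μ, hμ1, hμ2⟩ : ∃ μ : ℝ, 1 / θ' < μ ∧ μ < 1 / θ := exists_between h1
  have hμ0 : 0 < μ := lt_trans (by positivity) hμ1
  have hρ : 1 < μ * θ' := (div_lt_iff₀ hθ').1 hμ1
  obtain ⟨r0, hr0⟩ := pow_unbounded_of_one_lt (A * θ') hρ
  have har : ∀ r, r0 ≤ r → a r ≤ μ ^ (r + 1) := by
    intro r hr
    have h2 : A * θ' ≤ (μ * θ') ^ (r + 1) :=
      hr0.le.trans (pow_le_pow_right₀ hρ.le (by omega))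
    have h3 : a r * θ' ^ (r + 1) ≤ μ ^ (r + 1) * θ' ^ (r + 1) := by
      calc a r * θ' ^ (r + 1) = (a r * θ' ^ r) * θ' := by ring
        _ ≤ A * θ' := mul_le_mul_of_nonneg_right (hA r) hθ'.le
        _ ≤ (μ * θ') ^ (r + 1) := h2
        _ = μ ^ (r + 1) * θ' ^ (r + 1) := mul_pow _ _ _
    exact le_of_mul_le_mul_right h3 (by positivity)
  refine ⟨(1 / θ - μ) / (2 * (K + 1)), by have := sub_pos.2 hμ2; positivity, ?_⟩
  intro η e hη hη1 he hroot
  set ν : ℝ := μ + η * K with hν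
  have hν0 : 0 < ν := by have := mul_nonneg hη.le hK; linarith
  have hν1 : ν < 1 / θ := by
    have h2 : η * K ≤ (1 / θ - μ) / (2 * (K + 1)) * (K + 1) := by
      have h3 : (0 : ℝ) ≤ (1 / θ - μ) / (2 * (K + 1)) := by
        have := sub_pos.2 hμ2; positivity
      exact mul_le_mul hη1 (by linarith) hK h3
    have h4 : (1 / θ - μ) / (2 * (K + 1)) * (K + 1) = (1 / θ - μ) / 2 := by
      field_simp
    rw [h4] at h2
    have := sub_pos.2 hμ2
    linarith
  have hνθ : ν * θ < 1 := by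
    have := (lt_div_iff₀ hθ).1 hν1
    linarith
  have hbd : ∀ r, r0 ≤ r → e r * θ ^ r ≤ ν * (ν * θ) ^ r := by
    intro r hr
    have h2 : e r ≤ ν ^ (r + 1) := by
      refine le_of_root r (he r) ((hroot r).trans ?_)
      have h3 := root_le r (ha r) hμ0.le (har r hr)
      have h4 := root_le r (hb r).1 hK (hb r).2
      have h5 := mul_le_mul_of_nonneg_left h4 hη.le
      linarith
    calc e r * θ ^ r ≤ ν ^ (r + 1) * θ ^ r := mul_le_mul_of_nonneg_right h2 (by positivity)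
      _ = ν * (ν * θ) ^ r := by rw [mul_pow, pow_succ]; ring
  have hg : Summable (fun r : ℕ => ν * (ν * θ) ^ r) :=
    (summable_geometric_of_lt_one (by positivity) hνθ).mul_left ν
  rw [← summable_nat_add_iff r0] at hg ⊢
  refine Summable.of_nonneg_of_le (fun r => ?_) (fun r => hbd (r + r0) (by omega)) hg
  exact mul_nonneg (he _) (by positivity)

end Pool.CB
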