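import Pool.Agent.Helper65.CB.StX

/-!
# Project CB (MP_65faa7): module Rb, the threshold of the bulk problem
-/

set_option autoImplicit false

open scoped BigOperators ENNReal Topology
open Pool.LE Pool.NL Pool.CL Filter MeasureTheory

namespace Pool.CB

namespace Rb

lemma radC_mono {d : ℕ} {θ₁ θ₂ : ℝ} (h : RadC d θ₂) (h12 : θ₁ ≤ θ₂) : RadC d θ₁ := by
  intro M hM
  obtain ⟨θ', cl, h1, h2, h3⟩ := h M hM
  exact ⟨θ', cl, h12.trans_lt h1, h2, h3⟩

lemma lam_zero (d n : ℕ) : Lam d n 0 = Bn d n := by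
  unfold Lam Bn
  simp

lemma ms_sB {d : ℕ} (n : ℕ) (ω : Finset (Sym2 (Zd d))) (x : Zd d) :
    ms (sB n) (clu (Bn d n) ω x) = (XB d n ω x : ℝ) := by
  classical
  unfold ms sB XB Xc
  rw [Finset.sum_congr rfl (g := fun _ => (1 : ℝ))]
  · simp
  · intro y hy
    have : y ∈ Bn d n := by
      unfold clu at hy
      exact (Finset.mem_filter.1 hy).1
    simp [ind, this]

lemma sB_nonneg {d : ℕ} (n : ℕ) (x : Zd d) : 0 ≤ sB n x := by
  classical
  unfold sB ind
  split <;> norm_num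

lemma gs_one {d : ℕ} (n : ℕ) : (gs n 1 0 0 : Zd d → ℝ) = sB n := by
  funext x
  unfold gs
  ring

end Rb

open Rb

theorem hRb (hUB : StUB) (hX3 : StX3) (hL3 : StL3) (hX4 : StX4) (hRR : StRR)
    (hVf : Pool.CL.StVf) (hD1 : Pool.CL.StD1) (hCs : StCs) (hLow : Pool.NL.StLow) : StRb := by
  obtain ⟨d₁, hUB⟩ := hUB
  obtain ⟨d₂, hX3⟩ := hX3
  refine ⟨max d₁ d₂, ?_⟩
  intro d hd C₁ B c₀ CL hE
  have hd1 := hE.env.hd
  have hp0 : 0 ≤ pH d := hE.env.p0.le
  have hp1 : pH d ≤ 1 := hE.env.p1.trans (by norm_num)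
  -- small parameters are good
  obtain ⟨V, hV⟩ := hVf d C₁ B c₀ CL hE
  have hV' := hD1 d C₁ B c₀ CL hE V hV
  obtain ⟨c, hc⟩ := hCs d C₁ B c₀ CL hE
  obtain ⟨C, hC1, hC⟩ := hX3 d ((le_max_right _ _).trans hd) 1 one_pos le_rfl
  have hC0 : 0 < C := by linarith
  have hsmall : RadC d (1 / (4 * C)) := by
    intro M hM
    have hlim : ∀ r : ℕ, ∃ cl : ℝ, 0 ≤ cl ∧ Tendsto (fun n : ℕ => (∑ x ∈ Lam d n M,
        Fr (Lam d n M) n r (sB n) x) / (n : ℝ) ^ d) atTop (𝓝 cl) := by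
      intro r
      obtain ⟨-, cl, h0, h1⟩ := hL3 d C₁ B c₀ CL hE V c hV' hc M r 1 0 0 hM zero_le_one le_rfl
        le_rfl
      refine ⟨cl, h0, ?_⟩
      simpa only [gs_one] using h1
    choose cl hcl0 hcl using hlim
    have hb : ∀ r, cl r ≤ (2 * M + 1 : ℝ) ^ d * C ^ (r + 1) := by
      intro r
      refine le_of_tendsto (hcl r) ?_
      filter_upwards [eventually_ge_atTop 1] with n hn
      obtain ⟨hr1, -, hr3, -, hr5⟩ := hRR d n (by omega) hn
      have hx : (0 : ℝ) < n := by exact_mod_cast hn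
      have h1 : ∀ x ∈ Lam d n M, Fr (Lam d n M) n r (sB n) x ≤ C ^ (r + 1) := by
        intro x hx
        refine ((hX4 d hp0 hp1).1 n r (Lam d n M) (Lam d n M) (sB n) (fe n 1) le_rfl
          (sB_nonneg n) (fun y => (hr3 1 y zero_le_one).2.1) x).trans ?_
        refine ((hC n (Lam d n M) hn x hx).2 r).trans ?_
        have h2 : rr n x ^ (-(11 / 4) : ℝ) ≤ 1 :=
          Real.rpow_le_one_of_one_le_of_nonpos (hr1 x).1 (by norm_num)
        calc C ^ (r + 1) * rr n x ^ (-(11 / 4) : ℝ) ≤ C ^ (r + 1) * 1 :=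
              mul_le_mul_of_nonneg_left h2 (by positivity)
          _ = _ := mul_one _
      rw [div_le_iff₀ (by positivity)]
      calc ∑ x ∈ Lam d n M, Fr (Lam d n M) n r (sB n) x ≤ ∑ x ∈ Lam d n M, C ^ (r + 1) :=
            Finset.sum_le_sum h1
        _ = (2 * M + 1 : ℝ) ^ d * C ^ (r + 1) * (n : ℝ) ^ d := by
            rw [Finset.sum_const, nsmul_eq_mul, (hr5 M 0).2]
            push_cast
            rw [mul_pow]
            ring
    refine ⟨1 / (2 * C), cl, ?_, hcl, ?_⟩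
    · exact one_div_lt_one_div_of_lt (by positivity) (by linarith)
    · refine Summable.of_nonneg_of_le (fun r => mul_nonneg (hcl0 r) (by positivity))
        (fun r => ?_) ((summable_geometric_of_lt_one (by norm_num : (0 : ℝ) ≤ 1 / 2)
          (by norm_num)).mul_left ((2 * M + 1 : ℝ) ^ d * C))
      calc cl r * (1 / (2 * C)) ^ r ≤ ((2 * M + 1 : ℝ) ^ d * C ^ (r + 1)) * (1 / (2 * C)) ^ r :=
            mul_le_mul_of_nonneg_right (hb r) (by positivity)
        _ = (2 * M + 1 : ℝ) ^ d * C * (1 / 2) ^ r := by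
            rw [pow_succ, div_pow, div_pow, one_pow, mul_pow]
            field_simp
  -- large parameters are bad
  have hlarge : ∃ θ₀ : ℝ, ¬ RadC d θ₀ := by
    by_contra hcon
    push Not at hcon
    obtain ⟨ε, hε, hT⟩ := hLow d C₁ B c₀ hE.env
    have hd6 : (0 : ℝ) < (d : ℝ) - 6 := by
      have : (21 : ℝ) ≤ d := by exact_mod_cast hd1
      linarith
    have hθ : 0 < ((d : ℝ) - 6) / ε + 1 := by positivity
    obtain ⟨n₀, hn₀⟩ := hUB d ((le_max_left _ _).trans hd) C₁ B c₀ CL hE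
      (((d : ℝ) - 6) / ε + 1) (((d : ℝ) - 6) / ε + 2) hθ (by linarith) (hcon _) ε (by
        rw [div_lt_iff₀ hθ, mul_add, mul_div_cancel₀ _ hε.ne']
        linarith) (1 / 2) (by norm_num)
    have h1 : ∀ᶠ n : ℕ in atTop, pB d n (pH d) (fun ω => ∃ x ∈ Bn d n,
        ε * (n : ℝ) ^ 4 * Real.log n ≤ XB d n ω x) ≤ 1 / 2 := by
      filter_upwards [eventually_ge_atTop n₀] with n hn
      have := hn₀ n hn 0
      rw [lam_zero] at this
      simp only [ms_sB] at this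
      exact this
    have h2 := le_of_tendsto hT h1
    norm_num at h2
  obtain ⟨θ₀, hθ₀⟩ := hlarge
  have hbdd : BddAbove {θ : ℝ | RadC d θ} := by
    refine ⟨θ₀, fun θ hθ => ?_⟩
    by_contra hlt
    exact hθ₀ (radC_mono hθ (not_le.1 hlt).le)
  refine ⟨sSup {θ : ℝ | RadC d θ}, ?_, ?_, ?_⟩
  · exact lt_of_lt_of_le (by positivity : (0 : ℝ) < 1 / (4 * C)) (le_csSup hbdd hsmall)
  · intro θ _ hθ
    obtain ⟨s, hs, hs'⟩ := exists_lt_of_lt_csSup ⟨_, hsmall⟩ hθ
    exact radC_mono hs hs'.le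
  · intro θ hθ hR
    exact absurd (le_csSup hbdd hR) (not_le.2 hθ)

end Pool.CB
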