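import Pool.Agent.Helper65.CB.StC

/-! # Project CB, module SF: below all radii the problem for the walk has finite solutions -/

set_option autoImplicit false

open scoped BigOperators ENNReal Topology
open Pool.LE Pool.NL Pool.CL Filter MeasureTheory

namespace Pool.CB

namespace SF

theorem card_Lam (d n M : ℕ) : (Lam d n M).card = ((2 * M + 1) * n) ^ d := by
  unfold Lam
  rw [Fintype.card_piFinset]
  rw [Finset.prod_const, Finset.card_univ, Fintype.card_fin, Int.card_Ico]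
  congr 1
  have h : (((M + 1) * n : ℕ) : ℤ) - (-((M * n : ℕ) : ℤ)) = (((2 * M + 1) * n : ℕ) : ℤ) := by
    push_cast
    ring
  rw [h]
  exact Int.toNat_natCast _

theorem gs010 {d : ℕ} (n : ℕ) : (gs n 0 1 0 : Zd d → ℝ) = fun _ => 1 := by
  funext x
  simp [gs]

theorem gs100 {d : ℕ} (n : ℕ) : (gs n 1 0 0 : Zd d → ℝ) = sB n := by
  funext x
  simp [gs]

theorem gs1e0 {d : ℕ} (n : ℕ) (η : ℝ) : (gs n 1 η 0 : Zd d → ℝ) = fun y => sB n y + η := by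
  funext x
  simp [gs]

theorem sB_nonneg {d : ℕ} (n : ℕ) (x : Zd d) : 0 ≤ sB n x := by
  unfold sB
  unfold ind
  split_ifs
  · exact zero_le_one
  · exact le_rfl

theorem exnn {V : Type} [DecidableEq V] (E : Finset (Sym2 V)) {p : ℝ} (h0 : 0 ≤ p) (h1 : p ≤ 1)
    (f : Finset (Sym2 V) → ℝ) (hf : ∀ ω, 0 ≤ f ω) : 0 ≤ ex E p f := by
  unfold ex Ex
  refine Finset.sum_nonneg fun ω _ => ?_
  rw [smul_eq_mul]
  refine mul_nonneg ?_ (hf ω)
  unfold wt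
  have h2 : 0 ≤ 1 - p := by linarith
  positivity

/-- limit form of the Minkowski inequality -/
theorem rp_lim (S T U : ℕ → ℝ) (a b c η : ℝ) (d r : ℕ) (hS : ∀ n, 1 ≤ n → 0 ≤ S n)
    (hT : ∀ n, 1 ≤ n → 0 ≤ T n) (hU : ∀ n, 1 ≤ n → 0 ≤ U n)
    (h : ∀ n, 1 ≤ n → (U n) ^ (1 / ((r : ℝ) + 1)) ≤
      (S n) ^ (1 / ((r : ℝ) + 1)) + η * (T n) ^ (1 / ((r : ℝ) + 1)))
    (ha : Tendsto (fun n : ℕ => S n / (n : ℝ) ^ d) atTop (𝓝 a))
    (hb : Tendsto (fun n : ℕ => T n / (n : ℝ) ^ d) atTop (𝓝 b))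
    (hc : Tendsto (fun n : ℕ => U n / (n : ℝ) ^ d) atTop (𝓝 c)) :
    c ^ (1 / ((r : ℝ) + 1)) ≤ a ^ (1 / ((r : ℝ) + 1)) + η * b ^ (1 / ((r : ℝ) + 1)) := by
  have hp : (0 : ℝ) ≤ 1 / ((r : ℝ) + 1) := by positivity
  have h1 := hc.rpow_const (p := 1 / ((r : ℝ) + 1)) (Or.inr hp)
  have h2 := ha.rpow_const (p := 1 / ((r : ℝ) + 1)) (Or.inr hp)
  have h3 := hb.rpow_const (p := 1 / ((r : ℝ) + 1)) (Or.inr hp)
  refine le_of_tendsto_of_tendsto h1 (h2.add (h3.const_mul η)) ?_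
  filter_upwards [eventually_ge_atTop 1] with n hn
  have hn0 : (0 : ℝ) < (n : ℝ) ^ d := pow_pos (by exact_mod_cast hn) d
  rw [Real.div_rpow (hU n hn) hn0.le, Real.div_rpow (hS n hn) hn0.le,
    Real.div_rpow (hT n hn) hn0.le]
  have hq : 0 < ((n : ℝ) ^ d) ^ (1 / ((r : ℝ) + 1)) := Real.rpow_pos_of_pos hn0 _
  rw [← mul_div_assoc, ← add_div]
  exact div_le_div_of_nonneg_right (h n hn) hq.le

theorem Fr_bd (hFrY : StFrY) (hLamT : StLamT) (d : ℕ) (C₁ B c₀ CL : ℝ) (hE : EnvC d C₁ B c₀ CL)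
    (M : ℕ) : ∃ K : ℝ, 1 ≤ K ∧ ∀ (n r : ℕ) (f : Zd d → ℝ), 1 ≤ n → U01 f → ∀ x ∈ Lam d n M,
      0 ≤ Fr (Lam d n M) n r f x ∧
      Fr (Lam d n M) n r f x ≤ ((2 * M + 1 : ℕ) : ℝ) ^ (2 + 4 * r) * K ^ (r + 1) := by
  obtain ⟨K, hK, hFr⟩ := hFrY d C₁ B c₀ CL hE
  refine ⟨K, hK, fun n r f hn hf x hx => ?_⟩
  obtain ⟨hmem, hF, -⟩ := hLamT d n M hn
  have hN : 1 ≤ (2 * M + 1) * n := Nat.mul_pos (Nat.succ_pos _) hn
  have h := (hFr ((2 * M + 1) * n) (fun y => f (fun i => y i - (M * n : ℕ))) hN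
    (fun y => hf _) _ ((hmem x).1 hx)).1 r
  rw [hF f r x]
  have hp : (0 : ℝ) ≤ ((2 * M + 1 : ℕ) : ℝ) ^ (2 + 4 * r) := by positivity
  exact ⟨mul_nonneg hp h.1, mul_le_mul_of_nonneg_left h.2 hp⟩

theorem sum_bd (hFrY : StFrY) (hLamT : StLamT) (d : ℕ) (C₁ B c₀ CL : ℝ)
    (hE : EnvC d C₁ B c₀ CL) (M : ℕ) : ∃ K : ℝ, 1 ≤ K ∧ ∀ (n r : ℕ) (f : Zd d → ℝ), 1 ≤ n →
      U01 f → (∑ x ∈ Lam d n M, Fr (Lam d n M) n r f x) / (n : ℝ) ^ d ≤ K ^ (r + 1) := by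
  obtain ⟨K, hK, hFr⟩ := Fr_bd hFrY hLamT d C₁ B c₀ CL hE M
  set q : ℝ := ((2 * M + 1 : ℕ) : ℝ) with hq
  have hq1 : 1 ≤ q := by
    rw [hq]
    exact_mod_cast Nat.succ_le_succ (Nat.zero_le _)
  have hq0 : 0 ≤ q := zero_le_one.trans hq1
  have hK0 : 0 ≤ K := zero_le_one.trans hK
  refine ⟨q ^ (d + 4) * K, ?_, fun n r f hn hf => ?_⟩
  · exact one_le_mul_of_one_le_of_one_le (one_le_pow₀ hq1) hK
  have hn0 : (0 : ℝ) < (n : ℝ) ^ d := pow_pos (by exact_mod_cast hn) d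
  rw [div_le_iff₀ hn0]
  have h1 : ∑ x ∈ Lam d n M, Fr (Lam d n M) n r f x ≤
      ∑ _x ∈ Lam d n M, q ^ (2 + 4 * r) * K ^ (r + 1) :=
    Finset.sum_le_sum fun x hx => (hFr n r f hn hf x hx).2
  refine h1.trans ?_
  rw [Finset.sum_const, card_Lam, nsmul_eq_mul, Nat.cast_pow, Nat.cast_mul, ← hq, mul_pow,
    mul_pow, ← pow_mul]
  have h2 : q ^ d * q ^ (2 + 4 * r) ≤ q ^ ((d + 4) * (r + 1)) := by
    rw [← pow_add]
    apply pow_le_pow_right₀ hq1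
    nlinarith [Nat.zero_le (d * r)]
  have h3 : 0 ≤ K ^ (r + 1) * (n : ℝ) ^ d := mul_nonneg (pow_nonneg hK0 _) hn0.le
  calc q ^ d * (n : ℝ) ^ d * (q ^ (2 + 4 * r) * K ^ (r + 1))
      = (q ^ d * q ^ (2 + 4 * r)) * (K ^ (r + 1) * (n : ℝ) ^ d) := by ring
    _ ≤ q ^ ((d + 4) * (r + 1)) * (K ^ (r + 1) * (n : ℝ) ^ d) :=
        mul_le_mul_of_nonneg_right h2 h3
    _ = q ^ ((d + 4) * (r + 1)) * K ^ (r + 1) * (n : ℝ) ^ d := by ring

end SF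

open SF in
theorem hSF (hL3 : StL3) (hMink : StMink) (hRadP : StRadP) (hCoM : StCoM) (hS7 : StS7)
    (hVpos : StVpos) (hFrY : StFrY) (hLamT : StLamT) : StSF := by
  intro d C₁ B c₀ CL hE V c θ hV hc hθ hR M hM
  obtain ⟨θ', cl, hθ', hcl, hsum⟩ := hR M hM
  have hd21 := hE.env.hd
  have hV0 : 0 < V := hVpos d C₁ B c₀ CL hE V hV
  have hp0 := hE.env.p0
  have hp1 := hE.env.p1
  obtain ⟨K, hK1, hK⟩ := sum_bd hFrY hLamT d C₁ B c₀ CL hE M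
  obtain ⟨K₂, hK₂, hFr⟩ := Fr_bd hFrY hLamT d C₁ B c₀ CL hE M
  have hL := hL3 d C₁ B c₀ CL hE V c hV hc M
  set θ₁ : ℝ := (θ + θ') / 2 with hθ₁
  have h01 : θ < θ₁ := by rw [hθ₁]; linarith
  have h11 : θ₁ < θ' := by rw [hθ₁]; linarith
  have h00 : 0 < θ₁ := hθ.trans h01
  -- the limits
  have hb : ∀ r, ∃ b : ℝ, 0 ≤ b ∧ Tendsto (fun n : ℕ => (∑ x ∈ Lam d n M,
      Fr (Lam d n M) n r (fun _ => (1 : ℝ)) x) / (n : ℝ) ^ d) atTop (𝓝 b) := by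
    intro r
    obtain ⟨b, hb0, hb⟩ := (hL r 0 1 0 hM le_rfl zero_le_one le_rfl).2
    refine ⟨b, hb0, ?_⟩
    simpa only [gs010] using hb
  choose b hb0 hb using hb
  have hU1 : U01 (fun _ : Zd d => (1 : ℝ)) := fun _ => ⟨zero_le_one, le_rfl⟩
  have hbK : ∀ r, b r ≤ K ^ (r + 1) := by
    intro r
    refine le_of_tendsto (hb r) ?_
    filter_upwards [eventually_ge_atTop 1] with n hn
    exact hK n r _ hn hU1
  have ha0 : ∀ r, 0 ≤ cl r := by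
    intro r
    obtain ⟨a, ha0, ha⟩ := (hL r 1 0 0 hM zero_le_one le_rfl le_rfl).2
    simp only [gs100] at ha
    rw [tendsto_nhds_unique (hcl r) ha]
    exact ha0
  obtain ⟨η₁, hη₁, hRP⟩ := hRadP cl b K θ₁ θ' h00 h11 ha0 (fun r => ⟨hb0 r, hbK r⟩) hsum
  set η : ℝ := min η₁ 1 with hη
  have hη0 : 0 < η := lt_min hη₁ one_pos
  have hη1 : η ≤ 1 := min_le_right _ _
  have he : ∀ r, ∃ e : ℝ, 0 ≤ e ∧ Tendsto (fun n : ℕ => (∑ x ∈ Lam d n M,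
      Fr (Lam d n M) n r (fun y => sB n y + η) x) / (n : ℝ) ^ d) atTop (𝓝 e) ∧
      Tendsto (fun n : ℕ => (∑ x ∈ Lam d n M,
      co (TS (Lam d n M) n c) V (fun y => sB n y + η) r x) / (n : ℝ) ^ d) atTop (𝓝 e) := by
    intro r
    obtain ⟨hdiff, e, he0, he⟩ := hL r 1 η 0 hM zero_le_one hη0.le le_rfl
    simp only [gs1e0] at hdiff he
    refine ⟨e, he0, he, ?_⟩
    have h2 : Tendsto (fun n : ℕ => (∑ x ∈ Lam d n M,
        co (TS (Lam d n M) n c) V (fun y => sB n y + η) r x) / (n : ℝ) ^ d -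
        (∑ x ∈ Lam d n M, Fr (Lam d n M) n r (fun y => sB n y + η) x) / (n : ℝ) ^ d)
        atTop (𝓝 0) := by
      refine squeeze_zero_norm (fun n => ?_) hdiff
      rw [← sub_div, ← Finset.sum_sub_distrib, norm_div, Real.norm_eq_abs, Real.norm_eq_abs,
        abs_of_nonneg (by positivity : (0 : ℝ) ≤ (n : ℝ) ^ d)]
      refine div_le_div_of_nonneg_right ?_ (by positivity)
      refine (Finset.abs_sum_le_sum_abs _ _).trans (Finset.sum_le_sum fun x _ => ?_)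
      rw [abs_sub_comm]
    have h3 := h2.add he
    rw [zero_add] at h3
    refine h3.congr fun n => ?_
    ring
  choose e he0 heF heC using he
  have hMk : ∀ r : ℕ, (e r) ^ (1 / ((r : ℝ) + 1)) ≤ (cl r) ^ (1 / ((r : ℝ) + 1)) +
      η * (b r) ^ (1 / ((r : ℝ) + 1)) := by
    intro r
    refine rp_lim (fun n => ∑ x ∈ Lam d n M, Fr (Lam d n M) n r (sB n) x)
      (fun n => ∑ x ∈ Lam d n M, Fr (Lam d n M) n r (fun _ => (1 : ℝ)) x)
      (fun n => ∑ x ∈ Lam d n M, Fr (Lam d n M) n r (fun y => sB n y + η) x)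
      (cl r) (b r) (e r) η d r ?_ ?_ ?_ ?_ (hcl r) (hb r) (heF r)
    · intro n hn
      refine Finset.sum_nonneg fun x hx => (hFr n r _ hn ?_ x hx).1
      intro y
      refine ⟨sB_nonneg n y, ?_⟩
      unfold sB ind
      split_ifs
      · exact le_rfl
      · exact zero_le_one
    · intro n hn
      exact Finset.sum_nonneg fun x hx => (hFr n r _ hn hU1 x hx).1
    · intro n hn
      refine Finset.sum_nonneg fun x hx => ?_
      unfold Fr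
      refine div_nonneg ?_ (by positivity)
      exact exnn (ES (Lam d n M)) hp0.le (by linarith) _ fun ω => pow_nonneg
        (Finset.sum_nonneg fun y _ => add_nonneg (sB_nonneg n y) hη0.le) _
    · intro n hn
      have h := hMink d (Lam d n M) n r η (sB n) (fun _ => (1 : ℝ)) hn hp0.le (by linarith)
        hη0.le (sB_nonneg n) (fun _ => zero_le_one)
      simpa only [mul_one] using h
  have hes := hRP η e hη0 (min_le_left _ _) he0 hMk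
  obtain ⟨K₃, n₀, hn₀, hK₃⟩ := hS7 d M V c η θ θ₁ e (by omega) hM hV0 hc.1 hη0 hη1 hθ h01 heC hes
  refine ⟨n₀, hn₀, fun n hn => ⟨θ * K₃, fun N x hx => ?_⟩⟩
  refine le_trans ?_ (mul_le_mul_of_nonneg_left (hK₃ n hn N x hx) hθ.le)
  unfold Up Fp
  rw [Finset.mul_sum]
  refine Finset.sum_le_sum fun r _ => ?_
  have h := hCoM d (Lam d n M) n r c V (sB n) (fun y => sB n y + η) (by omega) hc.1 hV0
    (sB_nonneg n) (fun y => by linarith) x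
  have hr : (1 : ℝ) ≤ (r : ℝ) + 1 := by linarith [Nat.cast_nonneg (α := ℝ) r]
  have hθr : 0 ≤ θ ^ (r + 1) := pow_nonneg hθ.le _
  refine (div_le_self (mul_nonneg h.1 hθr) hr).trans ?_
  calc co (TS (Lam d n M) n c) V (sB n) r x * θ ^ (r + 1)
      ≤ co (TS (Lam d n M) n c) V (fun y => sB n y + η) r x * θ ^ (r + 1) :=
        mul_le_mul_of_nonneg_right h.2 hθr
    _ = θ * (co (TS (Lam d n M) n c) V (fun y => sB n y + η) r x * θ ^ r) := by ring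

end Pool.CB
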