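import Pool.Agent.Helper65.CB.StC

/-! # Project CB, module Scl: scaling of the source -/

set_option autoImplicit false

open scoped BigOperators ENNReal Topology
open Pool.LE Pool.NL Pool.CL Filter MeasureTheory

namespace Pool.CB

namespace Scl

theorem ex_mul {V : Type} [DecidableEq V] (E : Finset (Sym2 V)) (p c : ℝ)
    (f : Finset (Sym2 V) → ℝ) : ex E p (fun ω => c * f ω) = c * ex E p f := by
  unfold ex Ex
  rw [Finset.mul_sum]
  apply Finset.sum_congr rfl
  intro ω _
  rw [smul_eq_mul, smul_eq_mul]
  ring

theorem ms_mul {V : Type} (t : ℝ) (f : V → ℝ) (C : Finset V) :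
    ms (fun y => t * f y) C = t * ms f C := by
  unfold ms
  rw [Finset.mul_sum]

theorem TS_mul {d : ℕ} (L : Finset (Zd d)) (n : ℕ) (c s : ℝ) (g : Zd d → ℝ) (x : Zd d) :
    TS L n c (fun y => s * g y) x = s * TS L n c g x := by
  unfold TS ap
  rw [Finset.mul_sum, Finset.mul_sum, Finset.mul_sum]
  apply Finset.sum_congr rfl
  intro v _
  ring

theorem co_scale {d : ℕ} (L : Finset (Zd d)) (n : ℕ) (c V t : ℝ) (f : Zd d → ℝ) :
    ∀ (r : ℕ) (x : Zd d), co (TS L n c) V (fun y => t * f y) r x =
      t ^ (r + 1) * co (TS L n c) V f r x := by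
  intro r
  induction r using Nat.strong_induction_on with
  | _ r ih =>
    intro x
    cases r with
    | zero =>
      rw [co, co, TS_mul, zero_add, pow_one]
    | succ r =>
      rw [co, co]
      have h : (fun v => ∑ i : Fin (r + 1), co (TS L n c) V (fun y => t * f y) i v *
          co (TS L n c) V (fun y => t * f y) (r - i) v / (((r - i : ℕ) : ℝ) + 1)) =
          fun v => t ^ (r + 2) * ∑ i : Fin (r + 1), co (TS L n c) V f i v *
            co (TS L n c) V f (r - i) v / (((r - i : ℕ) : ℝ) + 1) := by
        funext v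
        rw [Finset.mul_sum]
        apply Finset.sum_congr rfl
        intro i _
        have hi : (i : ℕ) ≤ r := Nat.lt_succ_iff.1 i.2
        rw [ih i (by omega) v, ih (r - i) (by omega) v]
        have e : t ^ (r + 2) = t ^ ((i : ℕ) + 1) * t ^ (r - (i : ℕ) + 1) := by
          rw [← pow_add]
          congr 1
          omega
        rw [e]
        ring
      rw [h]
      beta_reduce
      rw [TS_mul]
      ring

end Scl

theorem hScl : StScl := by
  intro d L n r t f x
  refine ⟨?_, fun c V => Scl.co_scale L n c V t f r x⟩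
  unfold Fr
  have h : (fun ω : Finset (Sym2 (Zd d)) => ms (fun y => t * f y) (clu L ω x) ^ (r + 1)) =
      fun ω => t ^ (r + 1) * ms f (clu L ω x) ^ (r + 1) := by
    funext ω
    rw [Scl.ms_mul, mul_pow]
  rw [h, Scl.ex_mul]
  ring

end Pool.CB
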