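import Pool.Agent.Helper65.CB.StX
import Pool.Agent.Helper22.NL.M_Basic

/-! # Project CB, module UB: the upper bound -/

set_option autoImplicit false

open scoped BigOperators ENNReal Topology
open Pool.LE Pool.NL Pool.CL Filter MeasureTheory

namespace Pool.CB

namespace UB

private theorem ind01 (A : Prop) : 0 ≤ ind A ∧ ind A ≤ 1 := by
  unfold ind
  split_ifs <;> norm_num

private theorem indT {A : Prop} (h : A) : ind A = 1 := by
  unfold ind
  rw [if_pos h]

private theorem indF {A : Prop} (h : ¬ A) : ind A = 0 := by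
  unfold ind
  rw [if_neg h]

private theorem card_Bn (d n : ℕ) : (Bn d n).card = n ^ d := by
  unfold Bn
  rw [Fintype.card_piFinset]
  simp

private theorem Bn_sub (d n M : ℕ) : Bn d n ⊆ Lam d n M := by
  intro x hx
  unfold Bn at hx
  unfold Lam
  rw [Fintype.mem_piFinset] at hx ⊢
  intro i
  have h := Finset.mem_Ico.1 (hx i)
  rw [Finset.mem_Ico]
  have h1 : (n : ℤ) ≤ (((M + 1) * n : ℕ) : ℤ) := by
    exact_mod_cast Nat.le_mul_of_pos_left n (Nat.succ_pos M)
  have h2 : (0 : ℤ) ≤ ((M * n : ℕ) : ℤ) := Int.natCast_nonneg _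
  constructor
  · omega
  · omega

/-- clusters of connected points coincide -/
private theorem clu_eq {V : Type} [DecidableEq V] {L : Finset V} {ω : Finset (Sym2 V)} {x y : V}
    (h : con ω x y) : clu L ω x = clu L ω y := by
  classical
  unfold clu
  apply Finset.filter_congr
  intro z _
  constructor
  · intro h1
    exact SimpleGraph.Reachable.trans (SimpleGraph.Reachable.symm h) h1
  · intro h1
    exact SimpleGraph.Reachable.trans h h1

/-- the bound for one box -/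
private theorem one {d n M : ℕ} {K θ a : ℝ} (hn : 3 ≤ n) (hp0 : 0 ≤ pH d) (hp1 : pH d ≤ 1)
    (hθ : 0 < θ) (ha : 0 < a) (hK0 : 0 ≤ K) (hθa : (d : ℝ) - 6 ≤ θ * a)
    (hK : ∀ x ∈ Lam d n M, Fe (Lam d n M) n θ (sB n) x ≤ K) :
    pr (ES (Lam d n M)) (pH d) (fun ω => ∃ x ∈ Bn d n,
        a * (n : ℝ) ^ 4 * Real.log n ≤ ms (sB n) (clu (Lam d n M) ω x)) ≤
      K / (a ^ 2 * Real.log n ^ 2) := by
  classical
  obtain ⟨hmono, hconst, hadd, hsub, hmul, hsum, hpr, hprm, hcs, hmk⟩ :=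
    Pool.NL.hBasic (Zd d) (ES (Lam d n M)) (pH d) hp0 hp1
  have hn3 : (3 : ℝ) ≤ n := by exact_mod_cast hn
  have hn0 : (0 : ℝ) < n := by linarith
  have hlog : 0 < Real.log n := Real.log_pos (by linarith)
  obtain ⟨s, hs⟩ : ∃ s : ℝ, s = a * (n : ℝ) ^ 4 * Real.log n := ⟨_, rfl⟩
  have hs0 : 0 < s := by
    rw [hs]
    positivity
  rw [← hs]
  have hms0 : ∀ (ω : Finset (Sym2 (Zd d))) (x : Zd d), 0 ≤ ms (sB n) (clu (Lam d n M) ω x) := by
    intro ω x
    unfold ms sB
    exact Finset.sum_nonneg fun y _ => (ind01 _).1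
  -- pointwise
  have hpt : ∀ ω, ω ⊆ ES (Lam d n M) →
      ind (∃ x ∈ Bn d n, s ≤ ms (sB n) (clu (Lam d n M) ω x)) ≤
        (1 / s) * ∑ x ∈ Bn d n, ind (s ≤ ms (sB n) (clu (Lam d n M) ω x)) := by
    intro ω _
    have hsn : 0 ≤ ∑ x ∈ Bn d n, ind (s ≤ ms (sB n) (clu (Lam d n M) ω x)) :=
      Finset.sum_nonneg fun x _ => (ind01 _).1
    by_cases hc : ∃ x ∈ Bn d n, s ≤ ms (sB n) (clu (Lam d n M) ω x)
    · rw [indT hc]
      obtain ⟨x, hx, hx2⟩ := hc
      have h1 : ms (sB n) (clu (Lam d n M) ω x) ≤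
          ∑ y ∈ Bn d n, ind (s ≤ ms (sB n) (clu (Lam d n M) ω y)) := by
        have h2 : ms (sB n) (clu (Lam d n M) ω x) =
            ∑ y ∈ (clu (Lam d n M) ω x).filter (fun y => y ∈ Bn d n),
              ind (s ≤ ms (sB n) (clu (Lam d n M) ω y)) := by
          unfold ms
          rw [Finset.sum_filter]
          apply Finset.sum_congr rfl
          intro y hy
          have hy2 : con ω x y := (Finset.mem_filter.1 hy).2
          unfold sB
          by_cases hyB : y ∈ Bn d n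
          · rw [if_pos hyB, indT hyB]
            have h3 : s ≤ ∑ z ∈ clu (Lam d n M) ω y, ind (z ∈ Bn d n) := by
              rw [← clu_eq hy2]
              exact hx2
            rw [indT h3]
          · rw [if_neg hyB, indF hyB]
        rw [h2]
        apply Finset.sum_le_sum_of_subset_of_nonneg
        · intro y hy
          exact (Finset.mem_filter.1 hy).2
        · intro y _ _
          exact (ind01 _).1
      have h3 : s ≤ ∑ y ∈ Bn d n, ind (s ≤ ms (sB n) (clu (Lam d n M) ω y)) := by linarith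
      calc (1 : ℝ) = (1 / s) * s := by
            field_simp
        _ ≤ (1 / s) * ∑ y ∈ Bn d n, ind (s ≤ ms (sB n) (clu (Lam d n M) ω y)) :=
            mul_le_mul_of_nonneg_left h3 (by positivity)
    · rw [indF hc]
      positivity
  have h := hmono _ _ hpt
  rw [hmul, hsum] at h
  -- one point
  have key : ∀ x ∈ Bn d n, ex (ES (Lam d n M)) (pH d)
      (fun ω => ind (s ≤ ms (sB n) (clu (Lam d n M) ω x))) ≤
      K * (n : ℝ) ^ 2 * Real.exp (-(((d : ℝ) - 6) * Real.log n)) / s := by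
    intro x hx
    have hKx := hK x (Bn_sub d n M hx)
    unfold Fe at hKx
    rw [div_le_iff₀ (by positivity)] at hKx
    have hmk1 := hmk (fun ω => ms (sB n) (clu (Lam d n M) ω x) *
      Real.exp (θ * ms (sB n) (clu (Lam d n M) ω x) / (n : ℝ) ^ 4))
      (s * Real.exp (θ * s / (n : ℝ) ^ 4))
      (fun ω _ => mul_nonneg (hms0 ω x) (Real.exp_pos _).le) (by positivity)
    have h1 : pr (ES (Lam d n M)) (pH d) (fun ω => s ≤ ms (sB n) (clu (Lam d n M) ω x)) ≤
        pr (ES (Lam d n M)) (pH d) (fun ω => s * Real.exp (θ * s / (n : ℝ) ^ 4) ≤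
          ms (sB n) (clu (Lam d n M) ω x) *
            Real.exp (θ * ms (sB n) (clu (Lam d n M) ω x) / (n : ℝ) ^ 4)) := by
      apply hprm
      intro ω _ hω
      have h2 : θ * s / (n : ℝ) ^ 4 ≤
          θ * ms (sB n) (clu (Lam d n M) ω x) / (n : ℝ) ^ 4 := by
        apply div_le_div_of_nonneg_right _ (by positivity)
        exact mul_le_mul_of_nonneg_left hω hθ.le
      exact mul_le_mul hω (Real.exp_le_exp.2 h2) (Real.exp_pos _).le (hms0 ω x)
    have h2 : ex (ES (Lam d n M)) (pH d)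
      (fun ω => ind (s ≤ ms (sB n) (clu (Lam d n M) ω x))) =
      pr (ES (Lam d n M)) (pH d) (fun ω => s ≤ ms (sB n) (clu (Lam d n M) ω x)) := rfl
    rw [h2]
    refine h1.trans (hmk1.trans ?_)
    have h3 : ex (ES (Lam d n M)) (pH d) (fun ω => ms (sB n) (clu (Lam d n M) ω x) *
      Real.exp (θ * ms (sB n) (clu (Lam d n M) ω x) / (n : ℝ) ^ 4)) /
      (s * Real.exp (θ * s / (n : ℝ) ^ 4)) ≤ K * (n : ℝ) ^ 2 / (s * Real.exp (θ * s / (n : ℝ) ^ 4)) :=
      div_le_div_of_nonneg_right hKx (by positivity)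
    refine h3.trans ?_
    have e1 : θ * s / (n : ℝ) ^ 4 = θ * a * Real.log n := by
      rw [hs]
      field_simp
    have e2 : K * (n : ℝ) ^ 2 / (s * Real.exp (θ * s / (n : ℝ) ^ 4)) =
        K * (n : ℝ) ^ 2 * Real.exp (-(θ * s / (n : ℝ) ^ 4)) / s := by
      rw [Real.exp_neg]
      field_simp
    rw [e2, e1]
    apply div_le_div_of_nonneg_right _ hs0.le
    apply mul_le_mul_of_nonneg_left _ (by positivity)
    apply Real.exp_le_exp.2
    have h4 := mul_le_mul_of_nonneg_right hθa hlog.le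
    linarith
  have h2 : ∑ x ∈ Bn d n, ex (ES (Lam d n M)) (pH d)
      (fun ω => ind (s ≤ ms (sB n) (clu (Lam d n M) ω x))) ≤
      ∑ _x ∈ Bn d n, K * (n : ℝ) ^ 2 * Real.exp (-(((d : ℝ) - 6) * Real.log n)) / s :=
    Finset.sum_le_sum key
  have h3 : (1 / s) * ∑ _x ∈ Bn d n,
      K * (n : ℝ) ^ 2 * Real.exp (-(((d : ℝ) - 6) * Real.log n)) / s =
      K / (a ^ 2 * Real.log n ^ 2) := by
    have hexp : Real.exp (-(((d : ℝ) - 6) * Real.log n)) = (n : ℝ) ^ 6 / (n : ℝ) ^ d := by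
      have e1 : -(((d : ℝ) - 6) * Real.log n) =
          ((6 : ℕ) : ℝ) * Real.log n - (d : ℝ) * Real.log n := by
        push_cast
        ring
      rw [e1, Real.exp_sub, Real.exp_nat_mul, Real.exp_nat_mul, Real.exp_log hn0]
    rw [Finset.sum_const, card_Bn, nsmul_eq_mul, hexp, hs]
    push_cast
    field_simp
  refine h.trans ?_
  rw [← h3]
  exact mul_le_mul_of_nonneg_left h2 (by positivity)

end UB

open UB

theorem hUB (hX7 : StX7) (hSF : StSF) (hVf : StVf) (hD1 : StD1) (hCs : StCs) : StUB := by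
  obtain ⟨d₁, h7⟩ := hX7
  refine ⟨d₁, ?_⟩
  intro d hd C₁ B c₀ CL hE θ θ₂ hθ hθ2 hR a ha ε hε
  obtain ⟨V, hV⟩ := hVf d C₁ B c₀ CL hE
  have hV' := hD1 d C₁ B c₀ CL hE V hV
  obtain ⟨c, hc⟩ := hCs d C₁ B c₀ CL hE
  have hθ20 : 0 < θ₂ := hθ.trans hθ2
  have hF := hSF d C₁ B c₀ CL hE V c θ₂ hV' hc hθ20 hR
  obtain ⟨K, hK1, n₀, hn₀, hK⟩ := h7 d hd C₁ B c₀ CL hE V c θ θ₂ hV' hc hθ hθ2 hF
  have hp0 : 0 ≤ pH d := hE.env.p0.le
  have hp1 : pH d ≤ 1 := by linarith [hE.env.p1]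
  have hd21 : (21 : ℝ) ≤ d := by exact_mod_cast hE.env.hd
  have ha0 : 0 < a := lt_of_le_of_lt (div_nonneg (by linarith) hθ.le) ha
  have hθa : (d : ℝ) - 6 ≤ θ * a := by
    rw [div_lt_iff₀ hθ] at ha
    linarith
  have hlim : Tendsto (fun n : ℕ => K / (a ^ 2 * Real.log (n : ℝ) ^ 2)) atTop (𝓝 0) := by
    have h1 : Tendsto (fun n : ℕ => Real.log (n : ℝ)) atTop atTop :=
      Real.tendsto_log_atTop.comp tendsto_natCast_atTop_atTop
    have h2 : Tendsto (fun n : ℕ => Real.log (n : ℝ) ^ 2) atTop atTop :=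
      (tendsto_pow_atTop two_ne_zero).comp h1
    have h3 : Tendsto (fun n : ℕ => a ^ 2 * Real.log (n : ℝ) ^ 2) atTop atTop :=
      h2.const_mul_atTop (by positivity)
    exact h3.const_div_atTop K
  obtain ⟨n₁, hn₁⟩ := eventually_atTop.1 (hlim.eventually (gt_mem_nhds hε))
  refine ⟨max 3 (max n₀ n₁), ?_⟩
  intro n hn M
  have h3 : 3 ≤ n := (le_max_left _ _).trans hn
  have h4 : n₀ ≤ n := (le_max_left _ _).trans ((le_max_right _ _).trans hn)
  have h5 : n₁ ≤ n := (le_max_right _ _).trans ((le_max_right _ _).trans hn)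
  exact (one h3 hp0 hp1 hθ ha0 (by linarith) hθa (hK n h4 M)).trans (hn₁ n h5).le

end Pool.CB
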