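import Pool.Agent.Helper65.CB.StC

/-!
# Project CB (MP_65faa7), module Vpos: the vertex factor is positive
-/

set_option autoImplicit false

open scoped BigOperators ENNReal Topology
open Pool.LE Pool.NL Pool.CL Filter MeasureTheory

namespace Pool.CB

namespace Vpos

theorem ex_nonneg {V : Type} [DecidableEq V] (E : Finset (Sym2 V)) {p : ℝ} (h0 : 0 ≤ p) (h1 : p ≤ 1)
    (f : Finset (Sym2 V) → ℝ) (hf : ∀ ω, 0 ≤ f ω) : 0 ≤ ex E p f := by
  unfold ex Ex
  apply Finset.sum_nonneg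
  intro ω _
  apply mul_nonneg _ (hf ω)
  unfold wt
  have : 0 ≤ 1 - p := by linarith
  positivity

theorem ap_nonneg {d n : ℕ} (h0 : 0 ≤ pH d) (h1 : pH d ≤ 1) (f : Zd d → ℝ) (hf : ∀ v, 0 ≤ f v) (x : Zd d) :
    0 ≤ T0 d n f x := by
  classical
  unfold T0 ap
  apply div_nonneg _ (by positivity)
  apply Finset.sum_nonneg
  intro v _
  apply mul_nonneg _ (hf v)
  unfold G0 cp pr
  apply ex_nonneg _ h0 h1
  intro ω
  unfold ind
  split_ifs <;> norm_num

theorem ms_one {V : Type} (C : Finset V) : ms (fun _ : V => (1 : ℝ)) C = C.card := by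
  unfold ms
  rw [Finset.sum_const, nsmul_eq_mul, mul_one]

end Vpos

open Vpos in
/-- the vertex factor is positive -/
theorem hVpos (hL1 : StL1) (_hT0 : StT0) (hX2 : StX2) : StVpos := by
  intro d C₁ B c₀ CL hE V hV
  by_contra hVn
  have hV0 : V ≤ 0 := not_lt.1 hVn
  have hp0 : 0 ≤ pH d := hE.env.p0.le
  have hp1 : pH d ≤ 1 := by linarith [hE.env.p1]
  have hU : ∀ n : ℕ, U01 ((fun (_ : ℕ) (_ : Zd d) => (1 : ℝ)) n) := fun n y => ⟨zero_le_one, le_refl _⟩
  have hlim := hL1 d C₁ B c₀ CL hE V hV (fun _ _ => 1) hU 1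
  obtain ⟨c, hc, n₀, hn₀⟩ := hX2 d C₁ B c₀ hE.env
  have hev := (hlim.eventually (gt_mem_nhds hc)).and (eventually_ge_atTop (max 1 n₀))
  obtain ⟨n, hn, hn1⟩ := hev.exists
  have hn1' : 1 ≤ n := le_trans (le_max_left _ _) hn1
  have hn0' : n₀ ≤ n := le_trans (le_max_right _ _) hn1
  have hnpos : (0 : ℝ) < n := by exact_mod_cast hn1'
  have hnd : (0 : ℝ) < (n : ℝ) ^ d := by positivity
  -- the coefficient function is not positive
  have hco : ∀ x, co (T0 d n) V (fun _ => (1 : ℝ)) 1 x ≤ 0 := by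
    intro x
    have h1 : co (T0 d n) V (fun _ => (1 : ℝ)) 1 x = V * T0 d n (fun v => ∑ i : Fin (0 + 1),
      co (T0 d n) V (fun _ => (1 : ℝ)) i v * co (T0 d n) V (fun _ => (1 : ℝ)) (0 - i) v /
        (((0 - i : ℕ) : ℝ) + 1)) x := by
      rw [co]
    rw [h1]
    apply mul_nonpos_of_nonpos_of_nonneg hV0
    apply ap_nonneg hp0 hp1
    intro v
    rw [Fin.sum_univ_one]
    apply div_nonneg _ (by positivity)
    exact mul_self_nonneg _
  have hFr : ∀ x, Fr (Bn d n) n 1 (fun _ => (1 : ℝ)) x =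
      eB d n (pH d) (fun ω => (XB d n ω x : ℝ) ^ 2) / (n : ℝ) ^ 6 := by
    intro x
    unfold Fr eB XB Xc
    simp only [ms_one]
    norm_num
  have hle : c ≤ av d n (fun x => |Fr (Bn d n) n 1 (fun _ => (1 : ℝ)) x -
      co (T0 d n) V (fun _ => (1 : ℝ)) 1 x|) := by
    unfold av
    rw [le_div_iff₀ hnd]
    calc c * (n : ℝ) ^ d = c * (n : ℝ) ^ (d + 6) / (n : ℝ) ^ 6 := by
          rw [pow_add]
          field_simp
      _ ≤ (∑ x ∈ Bn d n, eB d n (pH d) (fun ω => (XB d n ω x : ℝ) ^ 2)) / (n : ℝ) ^ 6 := by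
          apply div_le_div_of_nonneg_right (hn₀ n hn0') (by positivity)
      _ = ∑ x ∈ Bn d n, Fr (Bn d n) n 1 (fun _ => (1 : ℝ)) x := by
          rw [Finset.sum_div]
          exact Finset.sum_congr rfl fun x _ => (hFr x).symm
      _ ≤ _ := by
          apply Finset.sum_le_sum
          intro x _
          refine le_trans ?_ (le_abs_self _)
          have := hco x
          linarith
  exact absurd hn (not_lt.2 hle)

end Pool.CB

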