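import Pool.Agent.Helper65.CB.StX
import Pool.Agent.Helper56.WF.M_FG
import Pool.Agent.Helper84.LE.M_Box

/-!
# Project CB (MP_65faa7), module X1: one step of the extension in `θ`
-/

set_option autoImplicit false

open scoped BigOperators ENNReal Topology
open Pool.LE Pool.NL Pool.CL Filter MeasureTheory

namespace Pool.CB

/-- derivative of a finite sum of `X exp(θ X / c)` -/
theorem x1_deriv {ι : Type} (S : Finset ι) (w X : ι → ℝ) (c m : ℝ) (θ : ℝ) :
    HasDerivAt (fun θ : ℝ => (∑ i ∈ S, w i * (X i * Real.exp (θ * X i / c))) / m)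
      ((∑ i ∈ S, w i * (X i * (Real.exp (θ * X i / c) * (X i / c)))) / m) θ := by
  refine HasDerivAt.div_const ?_ m
  refine HasDerivAt.fun_sum fun i _ => ?_
  refine HasDerivAt.const_mul _ ?_
  refine HasDerivAt.const_mul _ ?_
  refine HasDerivAt.exp ?_
  have h := ((hasDerivAt_id θ).mul_const (X i)).div_const c
  simpa using h

/-- the comparison with the explosion time -/
theorem x1_comp {V : Type} (L : Finset V) (F F' : V → ℝ → ℝ) (g : V → ℝ) (κ A θ₀ : ℝ)
    (hκ : 0 < κ) (hA : 0 < A) (hg : ∀ x, 0 < g x)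
    (hd : ∀ x ∈ L, ∀ θ, HasDerivAt (F x) (F' x θ) θ)
    (hmono : ∀ x ∈ L, Monotone (F x))
    (hode : ∀ θ : ℝ, θ₀ < θ → (∀ z ∈ L, F z θ ≤ 2 * A * g z) → ∀ x ∈ L,
      F' x θ ≤ 4 * A ^ 2 / κ * F x θ)
    (h0 : ∀ x ∈ L, F x θ₀ ≤ A * g x) :
    ∀ θ : ℝ, θ₀ ≤ θ → θ ≤ θ₀ + κ / (8 * A ^ 2) → ∀ x ∈ L, F x θ ≤ 2 * A * g x := by
  have hA2 : 0 < A ^ 2 := by positivity
  set K : ℝ := 4 * A ^ 2 / κ with hK
  have hKpos : 0 < K := by positivity
  set θ₁ : ℝ := θ₀ + κ / (8 * A ^ 2) with hθ₁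
  have hcont : ∀ x ∈ L, Continuous (F x) := fun x hx =>
    continuous_iff_continuousAt.2 fun θ => (hd x hx θ).continuousAt
  have hexp : Real.exp (1 / 2 : ℝ) < 2 := by
    have h1 : Real.exp (1 / 2 : ℝ) * Real.exp (1 / 2 : ℝ) = Real.exp 1 := by
      rw [← Real.exp_add]
      norm_num
    have h2 : Real.exp 1 < 4 := lt_trans Real.exp_one_lt_d9 (by norm_num)
    nlinarith [Real.exp_pos (1 / 2 : ℝ)]
  -- the strict bound at a point up to which the bound holds
  have key : ∀ t : ℝ, θ₀ ≤ t → t ≤ θ₁ → (∀ x ∈ L, F x t ≤ 2 * A * g x) →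
      ∀ x ∈ L, F x t < 2 * A * g x := by
    intro t ht0 ht1 hb x hx
    set h : ℝ → ℝ := fun θ => F x θ * Real.exp (-(K * (θ - θ₀))) with hh
    have hder : ∀ θ : ℝ, HasDerivAt h
        (F' x θ * Real.exp (-(K * (θ - θ₀))) +
          F x θ * (Real.exp (-(K * (θ - θ₀))) * (-(K * 1)))) θ := by
      intro θ
      have h1 : HasDerivAt (fun θ : ℝ => -(K * (θ - θ₀))) (-(K * 1)) θ :=
        (((hasDerivAt_id θ).sub_const θ₀).const_mul K).neg
      exact (hd x hx θ).mul h1.exp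
    have hanti : AntitoneOn h (Set.Icc θ₀ t) := by
      refine antitoneOn_of_deriv_nonpos (convex_Icc _ _)
        (fun θ _ => (hder θ).continuousAt.continuousWithinAt)
        (fun θ _ => (hder θ).differentiableAt.differentiableWithinAt) ?_
      intro θ hθ
      rw [interior_Icc] at hθ
      rw [(hder θ).deriv]
      have hle : F' x θ ≤ K * F x θ :=
        hode θ hθ.1 (fun z hz => (hmono z hz hθ.2.le).trans (hb z hz)) x hx
      have he := Real.exp_pos (-(K * (θ - θ₀)))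
      nlinarith
    have h2 := hanti (Set.left_mem_Icc.2 ht0) (Set.right_mem_Icc.2 ht0) ht0
    simp only [hh, sub_self, mul_zero, neg_zero, Real.exp_zero, mul_one] at h2
    have h3 : F x t ≤ F x θ₀ * Real.exp (K * (t - θ₀)) := by
      have h4 : F x t = (F x t * Real.exp (-(K * (t - θ₀)))) * Real.exp (K * (t - θ₀)) := by
        rw [mul_assoc, ← Real.exp_add]
        simp
      rw [h4]
      exact mul_le_mul_of_nonneg_right h2 (Real.exp_pos _).le
    have h5 : K * (t - θ₀) ≤ 1 / 2 := by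
      have h6 : t - θ₀ ≤ κ / (8 * A ^ 2) := by linarith
      calc K * (t - θ₀) ≤ K * (κ / (8 * A ^ 2)) := mul_le_mul_of_nonneg_left h6 hKpos.le
        _ = 1 / 2 := by
            rw [hK]
            field_simp
            norm_num
    have h7 : Real.exp (K * (t - θ₀)) ≤ Real.exp (1 / 2) := Real.exp_le_exp.2 h5
    have h8 : 0 < A * g x := mul_pos hA (hg x)
    calc F x t ≤ F x θ₀ * Real.exp (K * (t - θ₀)) := h3
      _ ≤ (A * g x) * Real.exp (K * (t - θ₀)) :=
          mul_le_mul_of_nonneg_right (h0 x hx) (Real.exp_pos _).le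
      _ ≤ (A * g x) * Real.exp (1 / 2) := mul_le_mul_of_nonneg_left h7 h8.le
      _ < (A * g x) * 2 := mul_lt_mul_of_pos_left hexp h8
      _ = 2 * A * g x := by ring
  set s : Set ℝ := {θ | ∀ x ∈ L, F x θ ≤ 2 * A * g x} with hs
  have hsub : Set.Icc θ₀ θ₁ ⊆ s := by
    refine IsClosed.Icc_subset_of_forall_exists_gt ?_ ?_ ?_
    · refine IsClosed.inter ?_ isClosed_Icc
      have : s = ⋂ x ∈ L, {θ | F x θ ≤ 2 * A * g x} := by
        ext θ
        simp [hs]
      rw [this]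
      exact isClosed_biInter fun x hx => isClosed_le (hcont x hx) continuous_const
    · intro x hx
      have h8 : 0 < A * g x := mul_pos hA (hg x)
      have := h0 x hx
      linarith
    · rintro t ⟨hts, ht⟩ y hy
      have h1 := key t ht.1 ht.2.le hts
      have h2 : ∀ᶠ θ in 𝓝 t, ∀ x ∈ L, F x θ < 2 * A * g x := by
        rw [Filter.eventually_all_finset]
        intro x hx
        exact (hcont x hx).continuousAt.eventually_lt continuousAt_const (h1 x hx)
      have h3 : ∀ᶠ θ in 𝓝[>] t, ∀ x ∈ L, F x θ < 2 * A * g x := h2.filter_mono nhdsWithin_le_nhds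
      have h4 : ∀ᶠ θ in 𝓝[>] t, θ ∈ Set.Ioc t y := Ioc_mem_nhdsGT hy
      obtain ⟨θ, hθ1, hθ2⟩ := (h3.and h4).exists
      exact ⟨θ, fun x hx => (hθ1 x hx).le, hθ2⟩
  intro θ h1 h2
  exact hsub ⟨h1, h2⟩

theorem hX1 (hBKf : StBKf) (_hRR : StRR) : StX1 := by
  classical
  intro d n L f g κ A θ₀ hn hp0 hp1 hκ hA hθ₀ hf hg hgf h0
  have hn0 : (0 : ℝ) < n := by exact_mod_cast hn
  have hFG : FG L (ES L) (2 * d) := (Pool.WF.hFG Pool.LE.hBox d L).1
  set p : ℝ := pH d with hp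
  set E : Finset (Sym2 (Zd d)) := ES L with hE
  set X : Zd d → Finset (Sym2 (Zd d)) → ℝ := fun x ω => ms f (clu L ω x) with hX
  have hw : ∀ ω, 0 ≤ wt E p ω := fun ω => by
    unfold wt
    exact mul_nonneg (pow_nonneg hp0 _) (pow_nonneg (by linarith) _)
  have hX0 : ∀ x ω, 0 ≤ X x ω := fun x ω => Finset.sum_nonneg fun y _ => (hf y).le
  have hFe : ∀ x θ, Fe L n θ f x =
      (∑ ω ∈ E.powerset, wt E p ω * (X x ω * Real.exp (θ * X x ω / (n : ℝ) ^ 4))) /
        (n : ℝ) ^ 2 := by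
    intro x θ
    simp only [Fe, ex, Ex, smul_eq_mul, hX, hE, hp]
  set F' : Zd d → ℝ → ℝ := fun x θ => (∑ ω ∈ E.powerset, wt E p ω * (X x ω *
      (Real.exp (θ * X x ω / (n : ℝ) ^ 4) * (X x ω / (n : ℝ) ^ 4)))) / (n : ℝ) ^ 2 with hF'
  have hd : ∀ x, ∀ θ, HasDerivAt (fun θ => Fe L n θ f x) (F' x θ) θ := by
    intro x θ
    have h1 : (fun θ => Fe L n θ f x) = fun θ : ℝ =>
        (∑ ω ∈ E.powerset, wt E p ω * (X x ω * Real.exp (θ * X x ω / (n : ℝ) ^ 4))) /
        (n : ℝ) ^ 2 := funext fun θ => hFe x θ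
    rw [h1]
    exact x1_deriv _ _ _ _ _ _
  have hF'0 : ∀ x θ, 0 ≤ F' x θ := by
    intro x θ
    refine div_nonneg (Finset.sum_nonneg fun ω _ => ?_) (by positivity)
    have h1 := hw ω
    have h2 := hX0 x ω
    positivity
  have hmono : ∀ x, Monotone (fun θ => Fe L n θ f x) := by
    intro x
    refine monotone_of_deriv_nonneg (fun θ => (hd x θ).differentiableAt) fun θ => ?_
    rw [(hd x θ).deriv]
    exact hF'0 x θ
  have hF0 : ∀ x θ, 0 ≤ Fe L n θ f x := by
    intro x θ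
    rw [hFe]
    refine div_nonneg (Finset.sum_nonneg fun ω _ => ?_) (by positivity)
    have h1 := hw ω
    have h2 := hX0 x ω
    positivity
  refine x1_comp L (fun x θ => Fe L n θ f x) F' g κ A θ₀ hκ hA hg (fun x _ => hd x)
    (fun x _ => hmono x) ?_ h0
  intro θ hθ hb x hx
  have hθ0 : 0 < θ := lt_of_le_of_lt hθ₀ hθ
  set t : ℝ := θ / (n : ℝ) ^ 4 with ht
  have ht0 : 0 < t := by positivity
  have hms : ∀ C : Finset (Zd d), ms (fun y => t * f y) C = t * ms f C := by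
    intro C
    simp only [ms, Finset.mul_sum]
  have hBK := hBKf (Zd d) L E (2 * d) p (fun y => t * f y) hFG hp0 hp1
    (fun y => (mul_pos ht0 (hf y)).le) x hx
  simp only [hms] at hBK
  -- rewrite everything with sums
  have hexpo : ∀ z ω, t * X z ω = θ * X z ω / (n : ℝ) ^ 4 := by
    intro z ω
    rw [ht]
    ring
  have e1 : ex E p (fun ω => (t * ms f (clu L ω x)) ^ 2 * Real.exp (t * ms f (clu L ω x))) =
      t ^ 2 * ((n : ℝ) ^ 6 * F' x θ) := by
    have h1 : ex E p (fun ω => (t * ms f (clu L ω x)) ^ 2 * Real.exp (t * ms f (clu L ω x))) =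
        ∑ ω ∈ E.powerset, wt E p ω * ((t * X x ω) ^ 2 * Real.exp (t * X x ω)) := by
      simp only [ex, Ex, smul_eq_mul, hX]
    rw [h1, hF']
    simp only [Finset.sum_div, Finset.mul_sum]
    refine Finset.sum_congr rfl fun ω _ => ?_
    rw [hexpo x ω]
    rw [← hexpo x ω]
    field_simp
  have e2 : ∀ z, ex E p (fun ω => t * ms f (clu L ω z) * Real.exp (t * ms f (clu L ω z))) =
      t * ((n : ℝ) ^ 2 * Fe L n θ f z) := by
    intro z
    have h1 : ex E p (fun ω => t * ms f (clu L ω z) * Real.exp (t * ms f (clu L ω z))) =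
        ∑ ω ∈ E.powerset, wt E p ω * (t * X z ω * Real.exp (t * X z ω)) := by
      simp only [ex, Ex, smul_eq_mul, hX]
    rw [h1, hFe]
    simp only [Finset.sum_div, Finset.mul_sum]
    refine Finset.sum_congr rfl fun ω _ => ?_
    rw [hexpo z ω]
    rw [← hexpo z ω]
    field_simp
  have e3 : ∑ z ∈ L, ex E p (fun ω => ind (con ω x z) * Real.exp (t * ms f (clu L ω x))) * f z =
      (n : ℝ) ^ 2 * Fe L n θ f x := by
    have h1 : ∀ z, ex E p (fun ω => ind (con ω x z) * Real.exp (t * ms f (clu L ω x))) =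
        ∑ ω ∈ E.powerset, wt E p ω * (ind (con ω x z) * Real.exp (t * X x ω)) := by
      intro z
      simp only [ex, Ex, smul_eq_mul, hX]
    have h2 : ∀ ω, X x ω = ∑ z ∈ L, ind (con ω x z) * f z := by
      intro ω
      simp only [hX, ms, clu, ind]
      rw [Finset.sum_filter]
      refine Finset.sum_congr rfl fun z _ => ?_
      split_ifs <;> simp
    simp only [h1, Finset.sum_mul]
    rw [Finset.sum_comm, hFe, mul_div_cancel₀ _ (by positivity)]
    refine Finset.sum_congr rfl fun ω _ => ?_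
    rw [← hexpo x ω]
    have h3 : X x ω * Real.exp (t * X x ω) =
        (∑ z ∈ L, ind (con ω x z) * f z) * Real.exp (t * X x ω) := by rw [← h2 ω]
    rw [h3, Finset.sum_mul, Finset.mul_sum]
    refine Finset.sum_congr rfl fun z _ => ?_
    ring
  rw [e1] at hBK
  simp only [e2] at hBK
  have hq : ∀ z ∈ L, ex E p (fun ω => ind (con ω x z) * Real.exp (t * ms f (clu L ω x))) *
      (t * ((n : ℝ) ^ 2 * Fe L n θ f z)) ^ 2 ≤
      t ^ 2 * (n : ℝ) ^ 4 * (4 * A ^ 2 / κ) *
        (ex E p (fun ω => ind (con ω x z) * Real.exp (t * ms f (clu L ω x))) * f z) := by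
    intro z hz
    have h1 : 0 ≤ ex E p (fun ω => ind (con ω x z) * Real.exp (t * ms f (clu L ω x))) := by
      simp only [ex, Ex, smul_eq_mul]
      refine Finset.sum_nonneg fun ω _ => mul_nonneg (hw ω) (mul_nonneg ?_ (Real.exp_pos _).le)
      unfold ind
      split_ifs <;> norm_num
    have h2 : (Fe L n θ f z) ^ 2 ≤ 4 * A ^ 2 / κ * f z := by
      calc (Fe L n θ f z) ^ 2 ≤ (2 * A * g z) ^ 2 := pow_le_pow_left₀ (hF0 z θ) (hb z hz) 2
        _ = 4 * A ^ 2 * (g z) ^ 2 := by ring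
        _ ≤ 4 * A ^ 2 * (f z / κ) := mul_le_mul_of_nonneg_left (hgf z) (by positivity)
        _ = 4 * A ^ 2 / κ * f z := by ring
    calc ex E p (fun ω => ind (con ω x z) * Real.exp (t * ms f (clu L ω x))) *
          (t * ((n : ℝ) ^ 2 * Fe L n θ f z)) ^ 2
        = (ex E p (fun ω => ind (con ω x z) * Real.exp (t * ms f (clu L ω x))) *
            (t ^ 2 * (n : ℝ) ^ 4)) * (Fe L n θ f z) ^ 2 := by ring
      _ ≤ (ex E p (fun ω => ind (con ω x z) * Real.exp (t * ms f (clu L ω x))) *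
            (t ^ 2 * (n : ℝ) ^ 4)) * (4 * A ^ 2 / κ * f z) :=
          mul_le_mul_of_nonneg_left h2 (mul_nonneg h1 (by positivity))
      _ = _ := by ring
  have hfin := hBK.trans (Finset.sum_le_sum hq)
  rw [← Finset.mul_sum, e3] at hfin
  have h5 : (t ^ 2 * (n : ℝ) ^ 6) * F' x θ ≤
      (t ^ 2 * (n : ℝ) ^ 6) * (4 * A ^ 2 / κ * Fe L n θ f x) := by
    calc (t ^ 2 * (n : ℝ) ^ 6) * F' x θ = t ^ 2 * ((n : ℝ) ^ 6 * F' x θ) := by ring
      _ ≤ _ := hfin
      _ = (t ^ 2 * (n : ℝ) ^ 6) * (4 * A ^ 2 / κ * Fe L n θ f x) := by ring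
  exact le_of_mul_le_mul_left h5 (by positivity)

end Pool.CB
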