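import Pool.Agent.Helper65.CB.StX

/-!
# Project CB (MP_65faa7): module X2
Expansion of the exponential moment.
-/

set_option autoImplicit false

open scoped BigOperators ENNReal Topology
open Pool.LE Pool.NL Pool.CL Filter MeasureTheory

namespace Pool.CB

namespace X2

theorem wt_nonneg {V : Type} [DecidableEq V] (E : Finset (Sym2 V)) (p : ℝ) (h0 : 0 ≤ p)
    (h1 : p ≤ 1) (ω : Finset (Sym2 V)) : 0 ≤ wt E p ω :=
  mul_nonneg (pow_nonneg h0 _) (pow_nonneg (by linarith) _)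

theorem ex_nonneg {V : Type} [DecidableEq V] (E : Finset (Sym2 V)) (p : ℝ) (h0 : 0 ≤ p)
    (h1 : p ≤ 1) (f : Finset (Sym2 V) → ℝ) (hf : ∀ ω, 0 ≤ f ω) : 0 ≤ ex E p f :=
  Finset.sum_nonneg fun ω _ => smul_nonneg (wt_nonneg E p h0 h1 ω) (hf ω)

theorem hasSum_exp' (t : ℝ) : HasSum (fun r : ℕ => t ^ r / (r.factorial : ℝ)) (Real.exp t) := by
  rw [Real.exp_eq_exp_ℝ]
  exact NormedSpace.expSeries_div_hasSum_exp t

end X2

open X2 in
theorem hX2 : StX2 := by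
  intro d n L f x hn h0 h1 hf
  have hn0 : (0 : ℝ) < n := by exact_mod_cast hn
  constructor
  · intro r
    unfold Fr
    exact div_nonneg (ex_nonneg _ _ h0 h1 _ fun ω =>
      pow_nonneg (Finset.sum_nonneg fun y _ => hf y) _) (by positivity)
  intro θ _
  have h2 : ∀ ω : Finset (Sym2 (Zd d)), HasSum (fun r : ℕ => wt (ES L) (pH d) ω *
      ((ms f (clu L ω x)) ^ (r + 1)) / ((n : ℝ) ^ (2 + 4 * r) * (r.factorial : ℝ)) * θ ^ r)
      (wt (ES L) (pH d) ω * (ms f (clu L ω x) *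
        Real.exp (θ * ms f (clu L ω x) / (n : ℝ) ^ 4)) / (n : ℝ) ^ 2) := by
    intro ω
    have h3 := ((hasSum_exp' (θ * ms f (clu L ω x) / (n : ℝ) ^ 4)).mul_left
      (wt (ES L) (pH d) ω * ms f (clu L ω x))).div_const ((n : ℝ) ^ 2)
    have h4 : (fun r : ℕ => wt (ES L) (pH d) ω *
      ((ms f (clu L ω x)) ^ (r + 1)) / ((n : ℝ) ^ (2 + 4 * r) * (r.factorial : ℝ)) * θ ^ r) =
      fun r : ℕ => wt (ES L) (pH d) ω * ms f (clu L ω x) *
        ((θ * ms f (clu L ω x) / (n : ℝ) ^ 4) ^ r / (r.factorial : ℝ)) / (n : ℝ) ^ 2 := by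
      funext r
      have h5 : (r.factorial : ℝ) ≠ 0 := by exact_mod_cast r.factorial_ne_zero
      rw [div_pow, mul_pow, ← pow_mul, pow_add (n : ℝ) 2 (4 * r), pow_succ]
      field_simp
    rw [h4, ← mul_assoc]
    exact h3
  have h6 := hasSum_sum (s := (ES L).powerset) (fun ω _ => h2 ω)
  have h7 : Fe L n θ f x = ∑ ω ∈ (ES L).powerset, wt (ES L) (pH d) ω * (ms f (clu L ω x) *
      Real.exp (θ * ms f (clu L ω x) / (n : ℝ) ^ 4)) / (n : ℝ) ^ 2 := by
    unfold Fe ex Ex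
    rw [Finset.sum_div]
    rfl
  have h8 : (fun r : ℕ => Fr L n r f x * θ ^ r) = fun r : ℕ => ∑ ω ∈ (ES L).powerset,
      wt (ES L) (pH d) ω * ((ms f (clu L ω x)) ^ (r + 1)) /
        ((n : ℝ) ^ (2 + 4 * r) * (r.factorial : ℝ)) * θ ^ r := by
    funext r
    unfold Fr ex Ex
    rw [Finset.sum_div, Finset.sum_mul]
    rfl
  rw [h7, h8]
  exact h6

end Pool.CB
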