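import Pool.Agent.Helper65.CB.StX
import Pool.Agent.Helper56.WF.St

/-!
# Project CB (MP_65faa7): uniform bounds for small `θ`
-/

set_option autoImplicit false

open scoped BigOperators ENNReal Topology
open Pool.LE Pool.NL Pool.CL Filter MeasureTheory

namespace Pool.CB

namespace X3

theorem pH01 (d : ℕ) : 0 ≤ pH d ∧ pH d ≤ 1 := by
  refine ⟨Real.sSup_nonneg ?_, le_trans (Real.sSup_le (a := 1 / 2) ?_ (by norm_num)) (by norm_num)⟩
  · rintro p ⟨h, -⟩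
    exact h
  · rintro p ⟨-, h, -⟩
    exact h

theorem ms_clu {V : Type} [DecidableEq V] (L : Finset V) (f : V → ℝ) (ω : Finset (Sym2 V)) (x : V) :
    ms f (clu L ω x) = ∑ y ∈ L, ind (con ω x y) * f y := by
  classical
  unfold ms clu
  rw [Finset.sum_filter]
  refine Finset.sum_congr rfl fun y _ => ?_
  unfold ind
  by_cases h : con ω x y
  · rw [if_pos h, if_pos h, one_mul]
  · rw [if_neg h, if_neg h, zero_mul]

theorem ex_ms {V : Type} [DecidableEq V] (L : Finset V) (E : Finset (Sym2 V)) (p : ℝ) (f : V → ℝ) (x : V) :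
    ex E p (fun ω => ms f (clu L ω x)) = ∑ y ∈ L, cp E p x y * f y := by
  unfold cp pr ex Ex
  simp only [ms_clu, smul_eq_mul, Finset.mul_sum, Finset.sum_mul]
  rw [Finset.sum_comm]
  refine Finset.sum_congr rfl fun y _ => Finset.sum_congr rfl fun ω _ => ?_
  ring

end X3

theorem hX3 (hX1 : StX1) (hX2 : StX2) (hRR : StRR) (hK2 : StK2) (hCp : Pool.WF.StCp) : StX3 := by
  obtain ⟨d₁, hK⟩ := hK2
  refine ⟨max d₁ 1, fun d hd η hη hη1 => ?_⟩
  have hd1 : 1 ≤ d := le_trans (le_max_right _ _) hd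
  obtain ⟨K, hK1, hKb⟩ := hK d (le_trans (le_max_left _ _) hd) (19 / 4) (by norm_num) (by norm_num)
  obtain ⟨hp0, hp1⟩ := X3.pH01 d
  set A : ℝ := 2 * K with hA
  have hA0 : 0 < A := by linarith
  have hA2 : 2 ≤ A := by linarith
  set θ : ℝ := η / (8 * A ^ 2) with hθ
  have hθ0 : 0 < θ := by positivity
  have hC1 : 1 ≤ max (2 * A) (θ⁻¹) := le_trans (by linarith) (le_max_left _ _)
  refine ⟨max (2 * A) (θ⁻¹), hC1, fun n L hn x hx => ?_⟩
  obtain ⟨hr1, -, hfe, -, -⟩ := hRR d n hd1 hn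
  have hn0 : (0 : ℝ) < (n : ℝ) := by exact_mod_cast hn
  have hrr1 : ∀ y : Zd d, 1 ≤ rr n y := fun y => (hr1 y).1
  have hrr0 : ∀ y : Zd d, 0 < rr n y := fun y => lt_of_lt_of_le one_pos (hrr1 y)
  have hg0 : ∀ y : Zd d, 0 < rr n y ^ (-(11 / 4) : ℝ) := fun y => Real.rpow_pos_of_pos (hrr0 y) _
  have hg4 : ∀ y : Zd d, 0 < rr n y ^ (-(19 / 4) : ℝ) := fun y => Real.rpow_pos_of_pos (hrr0 y) _
  have hfe0 : ∀ y : Zd d, 0 ≤ fe n η y := fun y => (hfe η y hη.le).1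
  -- the first moment
  have h0 : ∀ z ∈ L, Fe L n 0 (fe n η) z ≤ A * rr n z ^ (-(11 / 4) : ℝ) := by
    intro z _
    have e1 : Fe L n 0 (fe n η) z = (∑ y ∈ L, cp (ES L) (pH d) z y * fe n η y) / (n : ℝ) ^ 2 := by
      unfold Fe
      rw [← X3.ex_ms L (ES L) (pH d) (fe n η) z]
      simp only [zero_mul, zero_div, Real.exp_zero, mul_one]
    have e2 : (∑ y ∈ L, cp (ES L) (pH d) z y * fe n η y) ≤
        2 * ∑ y ∈ L, tau d (pH d) (y - z) * rr n y ^ (-(19 / 4) : ℝ) := by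
      rw [Finset.mul_sum]
      refine Finset.sum_le_sum fun y _ => ?_
      have a1 := hCp d L (pH d) z y hp0 hp1
      have a2 : fe n η y ≤ 2 * rr n y ^ (-(19 / 4) : ℝ) := by
        refine le_trans (hfe η y hη.le).2.2.2 ?_
        exact mul_le_mul_of_nonneg_right (by linarith) (hg4 y).le
      have a3 : 0 ≤ tau d (pH d) (y - z) := ENNReal.toReal_nonneg
      calc cp (ES L) (pH d) z y * fe n η y ≤ tau d (pH d) (y - z) * fe n η y :=
            mul_le_mul_of_nonneg_right a1 (hfe0 y)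
        _ ≤ tau d (pH d) (y - z) * (2 * rr n y ^ (-(19 / 4) : ℝ)) :=
            mul_le_mul_of_nonneg_left a2 a3
        _ = 2 * (tau d (pH d) (y - z) * rr n y ^ (-(19 / 4) : ℝ)) := by ring
    have e3 := hKb n L z hn
    have e4 : (-((19 / 4 : ℝ) - 2)) = (-(11 / 4) : ℝ) := by norm_num
    rw [e4] at e3
    rw [e1]
    calc (∑ y ∈ L, cp (ES L) (pH d) z y * fe n η y) / (n : ℝ) ^ 2
        ≤ (2 * ∑ y ∈ L, tau d (pH d) (y - z) * rr n y ^ (-(19 / 4) : ℝ)) / (n : ℝ) ^ 2 :=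
          div_le_div_of_nonneg_right e2 (by positivity)
      _ = 2 * ((∑ y ∈ L, tau d (pH d) (y - z) * rr n y ^ (-(19 / 4) : ℝ)) / (n : ℝ) ^ 2) := by ring
      _ ≤ 2 * (K * rr n z ^ (-(11 / 4) : ℝ)) := by linarith
      _ = A * rr n z ^ (-(11 / 4) : ℝ) := by rw [hA]; ring
  have hfpos : ∀ y : Zd d, 0 < fe n η y := fun y =>
    lt_of_lt_of_le (mul_pos hη (hg4 y)) (hfe η y hη.le).2.2.1
  have hgsq : ∀ y : Zd d, (rr n y ^ (-(11 / 4) : ℝ)) ^ 2 ≤ fe n η y / η := by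
    intro y
    rw [le_div_iff₀ hη]
    have b1 : (rr n y ^ (-(11 / 4) : ℝ)) ^ 2 ≤ rr n y ^ (-(19 / 4) : ℝ) := by
      rw [← Real.rpow_natCast, ← Real.rpow_mul (hrr0 y).le]
      exact Real.rpow_le_rpow_of_exponent_le (hrr1 y) (by norm_num)
    calc (rr n y ^ (-(11 / 4) : ℝ)) ^ 2 * η ≤ rr n y ^ (-(19 / 4) : ℝ) * η :=
          mul_le_mul_of_nonneg_right b1 hη.le
      _ = η * rr n y ^ (-(19 / 4) : ℝ) := by ring
      _ ≤ fe n η y := (hfe η y hη.le).2.2.1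
  have h1 := hX1 d n L (fe n η) (fun y => rr n y ^ (-(11 / 4) : ℝ)) η A 0 hn hp0 hp1 hη hA0 le_rfl
    hfpos hg0 hgsq h0 θ hθ0.le (by rw [hθ]; linarith) x hx
  have hgx := hg0 x
  refine ⟨le_trans (h0 x hx) (mul_le_mul_of_nonneg_right
    (le_trans (by linarith) (le_max_left _ _)) hgx.le), fun r => ?_⟩
  obtain ⟨hFr0, hFrs⟩ := hX2 d n L (fe n η) x hn hp0 hp1 hfe0
  have h2 := hFrs θ hθ0.le
  have h3 : Fr L n r (fe n η) x * θ ^ r ≤ Fe L n θ (fe n η) x :=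
    le_hasSum h2 r (fun i _ => mul_nonneg (hFr0 i) (pow_nonneg hθ0.le i))
  have h4 : Fr L n r (fe n η) x * θ ^ r ≤ 2 * A * rr n x ^ (-(11 / 4) : ℝ) := le_trans h3 h1
  have h5 : Fr L n r (fe n η) x ≤ 2 * A * rr n x ^ (-(11 / 4) : ℝ) * (θ⁻¹) ^ r := by
    have h6 : Fr L n r (fe n η) x = Fr L n r (fe n η) x * θ ^ r * (θ⁻¹) ^ r := by
      rw [mul_assoc, ← mul_pow, mul_inv_cancel₀ hθ0.ne', one_pow, mul_one]
    rw [h6]
    exact mul_le_mul_of_nonneg_right h4 (by positivity)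
  refine le_trans h5 ?_
  have h7 : (θ⁻¹) ^ r ≤ (max (2 * A) (θ⁻¹)) ^ r :=
    pow_le_pow_left₀ (by positivity) (le_max_right _ _) r
  have h8 : 2 * A ≤ max (2 * A) (θ⁻¹) := le_max_left _ _
  have hm0 : 0 ≤ max (2 * A) (θ⁻¹) := by linarith
  calc 2 * A * rr n x ^ (-(11 / 4) : ℝ) * (θ⁻¹) ^ r
      ≤ max (2 * A) (θ⁻¹) * rr n x ^ (-(11 / 4) : ℝ) * (max (2 * A) (θ⁻¹)) ^ r :=
        mul_le_mul (mul_le_mul_of_nonneg_right h8 hgx.le) h7 (by positivity)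
          (mul_nonneg hm0 hgx.le)
    _ = (max (2 * A) (θ⁻¹)) ^ (r + 1) * rr n x ^ (-(11 / 4) : ℝ) := by
        rw [pow_succ]; ring

end Pool.CB
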