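import Pool.Agent.Helper65.CB.StX
import Pool.Agent.Helper22.NL.M_Basic

/-! # Project CB, module X4: monotonicity and shifts of the moment functions -/

set_option autoImplicit false

open scoped BigOperators ENNReal Topology
open Pool.LE Pool.NL Pool.CL Filter MeasureTheory

namespace Pool.CB

namespace X4

private theorem ES_mono {d : ℕ} {L L' : Finset (Zd d)} (h : L ⊆ L') : ES L ⊆ ES L' := by
  unfold ES
  apply Finset.image_subset_image
  intro q hq
  rw [Finset.mem_filter, Finset.mem_product] at hq ⊢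
  exact ⟨⟨h hq.1.1, hq.1.2⟩, h hq.2⟩

private theorem clu_mono {V : Type} [DecidableEq V] {L L' : Finset V} {ω ω' : Finset (Sym2 V)}
    (hL : L ⊆ L') (hω : ω ⊆ ω') (x : V) : clu L ω x ⊆ clu L' ω' x := by
  classical
  unfold clu
  intro y hy
  rw [Finset.mem_filter] at hy ⊢
  refine ⟨hL hy.1, ?_⟩
  have h : gr ω ≤ gr ω' := by
    unfold gr
    exact SimpleGraph.fromEdgeSet_mono (by exact_mod_cast hω)
  exact SimpleGraph.Reachable.mono h hy.2

private theorem ms_nonneg {V : Type} {f : V → ℝ} (hf : ∀ y, 0 ≤ f y) (C : Finset V) :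
    0 ≤ ms f C := by
  unfold ms
  exact Finset.sum_nonneg fun y _ => hf y

private theorem ms_mono {V : Type} {f f' : V → ℝ} (hf : ∀ y, 0 ≤ f y)
    (hff : ∀ y, f y ≤ f' y) {C C' : Finset V} (hC : C ⊆ C') : ms f C ≤ ms f' C' := by
  unfold ms
  calc ∑ y ∈ C, f y ≤ ∑ y ∈ C, f' y := Finset.sum_le_sum fun y _ => hff y
    _ ≤ ∑ y ∈ C', f' y :=
        Finset.sum_le_sum_of_subset_of_nonneg hC fun y _ _ => (hf y).trans (hff y)

/-- monotonicity in the domain and in the function, for the expectations -/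
private theorem ex_mono (hTr : StTr) {d : ℕ} (hp0 : 0 ≤ pH d) (hp1 : pH d ≤ 1) (r : ℕ)
    {L L' : Finset (Zd d)} {f f' : Zd d → ℝ} (hL : L ⊆ L') (hf : ∀ y, 0 ≤ f y)
    (hff : ∀ y, f y ≤ f' y) (x : Zd d) :
    ex (ES L) (pH d) (fun ω => (ms f (clu L ω x)) ^ (r + 1)) ≤
      ex (ES L') (pH d) (fun ω => (ms f' (clu L' ω x)) ^ (r + 1)) := by
  obtain ⟨-, -, hmon, -⟩ := hTr d (pH d) hp0 hp1
  obtain ⟨hmono, -⟩ := Pool.NL.hBasic (Zd d) (ES L') (pH d) hp0 hp1
  refine (hmon (ES L) (ES L') (fun ω => (ms f (clu L ω x)) ^ (r + 1)) (ES_mono hL) ?_).trans ?_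
  · intro ω ω' hω
    exact pow_le_pow_left₀ (ms_nonneg hf _)
      (ms_mono hf (fun _ => le_refl _) (clu_mono (Finset.Subset.refl _) hω x)) _
  · apply hmono
    intro ω _
    exact pow_le_pow_left₀ (ms_nonneg hf _)
      (ms_mono hf hff (clu_mono hL (Finset.Subset.refl _) x)) _

private theorem Fr_mono (hTr : StTr) {d : ℕ} (hp0 : 0 ≤ pH d) (hp1 : pH d ≤ 1) (n r : ℕ)
    {L L' : Finset (Zd d)} {f f' : Zd d → ℝ} (hL : L ⊆ L') (hf : ∀ y, 0 ≤ f y)
    (hff : ∀ y, f y ≤ f' y) (x : Zd d) : Fr L n r f x ≤ Fr L' n r f' x := by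
  unfold Fr
  exact div_le_div_of_nonneg_right (ex_mono hTr hp0 hp1 r hL hf hff x) (by positivity)

private theorem clu_image (hTr : StTr) {d : ℕ} (hp0 : 0 ≤ pH d) (hp1 : pH d ≤ 1)
    (L : Finset (Zd d)) (ω : Finset (Sym2 (Zd d))) (a x : Zd d) :
    clu (L.image (fun y => y + a)) (trE a ω) (x + a) = (clu L ω x).image (fun y => y + a) := by
  classical
  obtain ⟨-, hcon, -, -⟩ := hTr d (pH d) hp0 hp1
  unfold clu
  ext z
  constructor
  · intro hz
    obtain ⟨h1, h2⟩ := Finset.mem_filter.1 hz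
    obtain ⟨y, hy, hyz⟩ := Finset.mem_image.1 h1
    have hyz' : y + a = z := hyz
    rw [← hyz', add_comm x a, add_comm y a, hcon] at h2
    exact Finset.mem_image.2 ⟨y, Finset.mem_filter.2 ⟨hy, h2⟩, hyz⟩
  · intro hz
    obtain ⟨y, hy, hyz⟩ := Finset.mem_image.1 hz
    obtain ⟨h1, h2⟩ := Finset.mem_filter.1 hy
    have hyz' : y + a = z := hyz
    refine Finset.mem_filter.2 ⟨Finset.mem_image.2 ⟨y, h1, hyz⟩, ?_⟩
    rw [← hyz', add_comm x a, add_comm y a, hcon]
    exact h2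

private theorem Fr_shift (hTr : StTr) {d : ℕ} (hp0 : 0 ≤ pH d) (hp1 : pH d ≤ 1) (n r : ℕ)
    (L : Finset (Zd d)) (f : Zd d → ℝ) (a x : Zd d) :
    Fr (L.image (fun y => y + a)) n r (fun y => f (y - a)) (x + a) = Fr L n r f x := by
  classical
  obtain ⟨htr, -, -, hES⟩ := hTr d (pH d) hp0 hp1
  have hL : L.image (fun y => y + a) = L.map (Equiv.addLeft a).toEmbedding := by
    ext z
    constructor
    · intro hz
      obtain ⟨y, hy, hyz⟩ := Finset.mem_image.1 hz
      refine Finset.mem_map.2 ⟨y, hy, ?_⟩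
      have hyz' : y + a = z := hyz
      rw [← hyz', add_comm]
      rfl
    · intro hz
      obtain ⟨y, hy, hyz⟩ := Finset.mem_map.1 hz
      refine Finset.mem_image.2 ⟨y, hy, ?_⟩
      have hyz' : a + y = z := hyz
      rw [← hyz', add_comm]
  unfold Fr
  have h1 : ex (ES (L.image (fun y => y + a))) (pH d)
      (fun ω => (ms (fun y => f (y - a)) (clu (L.image (fun y => y + a)) ω (x + a))) ^ (r + 1)) =
      ex (ES L) (pH d) (fun ω => (ms f (clu L ω x)) ^ (r + 1)) := by
    have h2 : ES (L.image (fun y => y + a)) = trE a (ES L) := by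
      rw [hES, hL]
    rw [h2, htr]
    have h3 : (fun ω : Finset (Sym2 (Zd d)) => (ms (fun y => f (y - a))
        (clu (L.image (fun y => y + a)) (trE a ω) (x + a))) ^ (r + 1)) =
        (fun ω => (ms f (clu L ω x)) ^ (r + 1)) := by
      funext ω
      rw [clu_image hTr hp0 hp1]
      unfold ms
      rw [Finset.sum_image]
      · simp only [add_sub_cancel_right]
      · intro y _ z _ hyz
        exact add_right_cancel hyz
    rw [h3]
  rw [h1]

end X4

open X4

theorem hX4 (hTr : StTr) (hRR : StRR) : StX4 := by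
  classical
  intro d hp0 hp1
  refine ⟨?_, ?_, ?_⟩
  · intro n r L L' f f' hL hf hff x
    exact Fr_mono hTr hp0 hp1 n r hL hf hff x
  · intro n r L f a x
    exact Fr_shift hTr hp0 hp1 n r L f a x
  · intro n N M r η a x hd hn hnN hη ha
    obtain ⟨-, -, hfe, hsh, -⟩ := hRR d n hd hn
    rw [← Fr_shift hTr hp0 hp1 n r (Lam d n M) (fe n η) a x]
    have h1 : Fr ((Lam d n M).image (fun y => y + a)) n r (fun y => fe n η (y - a)) (x + a) ≤
        Fr (Lam d N M) n r (fe N η) (x + a) := by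
      apply Fr_mono hTr hp0 hp1
      · intro z hz
        obtain ⟨y, hy, hyz⟩ := Finset.mem_image.1 hz
        have hyz' : y + a = z := hyz
        rw [← hyz']
        exact (hsh N a y hnN ha).2.2.2.2 M hy
      · intro y
        exact (hfe η (y - a) hη).1
      · intro y
        have h2 := (hsh N a (y - a) hnN ha).2.2.2.1 η hη
        rwa [sub_add_cancel] at h2
    refine h1.trans (le_of_eq ?_)
    have hn0 : (n : ℝ) ≠ 0 := by
      have : (0 : ℝ) < n := by exact_mod_cast hn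
      exact this.ne'
    have hN0 : (N : ℝ) ≠ 0 := by
      have : (0 : ℝ) < N := by exact_mod_cast lt_of_lt_of_le hn hnN
      exact this.ne'
    unfold Fr
    rw [div_pow]
    have hN1 : (N : ℝ) ^ (2 + 4 * r) ≠ 0 := pow_ne_zero _ hN0
    have hn1 : (n : ℝ) ^ (2 + 4 * r) ≠ 0 := pow_ne_zero _ hn0
    have hf1 : (r.factorial : ℝ) ≠ 0 := by exact_mod_cast (Nat.factorial_pos r).ne'
    generalize ex (ES (Lam d N M)) (pH d)
      (fun ω => (ms (fe N η) (clu (Lam d N M) ω (x + a))) ^ (r + 1)) = E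
    generalize (N : ℝ) ^ (2 + 4 * r) = P at *
    generalize (n : ℝ) ^ (2 + 4 * r) = Q at *
    field_simp

end Pool.CB
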