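import Pool.Agent.Helper65.CB.StX
import Pool.Agent.Helper58.CL.M_Un
import Pool.Agent.Helper56.WF.M_FG
import Pool.Agent.Helper84.LE.M_Box
import Pool.Agent.Helper22.NL.M_Basic
import Pool.Agent.Helper22.NL.M_Clu
import Pool.Agent.Helper22.NL.M_Hh

/-! # Project CB: truncation (module X5) -/

set_option autoImplicit false

open scoped BigOperators ENNReal Topology
open Pool.LE Pool.NL Pool.CL Filter MeasureTheory

namespace Pool.CB

namespace X5

theorem pH_nonneg (d : ℕ) : 0 ≤ pH d := Real.sSup_nonneg fun _ h => h.1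

theorem pH_le (d : ℕ) : pH d ≤ 1 := Real.sSup_le (fun _ h => h.2.1.trans (by norm_num)) zero_le_one

theorem pow_sub (a b : ℝ) (hb : 0 ≤ b) (hab : b ≤ a) (k : ℕ) :
    a ^ (k + 1) - b ^ (k + 1) ≤ ((k : ℝ) + 1) * (a ^ k * (a - b)) := by
  have ha : 0 ≤ a := hb.trans hab
  induction k with
  | zero => simp
  | succ k ih =>
    have h1 : b ^ (k + 1) ≤ a ^ (k + 1) := pow_le_pow_left₀ hb hab _
    have h2 : b ^ (k + 1) * (a - b) ≤ a ^ (k + 1) * (a - b) :=
      mul_le_mul_of_nonneg_right h1 (by linarith)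
    have h3 : a * (a ^ (k + 1) - b ^ (k + 1)) ≤ a * (((k : ℝ) + 1) * (a ^ k * (a - b))) :=
      mul_le_mul_of_nonneg_left ih ha
    have h4 : a ^ (k + 1 + 1) - b ^ (k + 1 + 1) =
        a * (a ^ (k + 1) - b ^ (k + 1)) + b ^ (k + 1) * (a - b) := by ring
    have h5 : (((k + 1 : ℕ) : ℝ) + 1) * (a ^ (k + 1) * (a - b)) =
        a * (((k : ℝ) + 1) * (a ^ k * (a - b))) + a ^ (k + 1) * (a - b) := by
      push_cast
      ring
    rw [h4, h5]
    linarith

/-- the mass of a cluster as a sum -/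
theorem ms_clu {d : ℕ} (L : Finset (Zd d)) (ω : Finset (Sym2 (Zd d))) (f : Zd d → ℝ) (x : Zd d) :
    ms f (clu L ω x) = ∑ y ∈ L, f y * ind (con ω x y) := by
  classical
  unfold ms clu
  rw [Finset.sum_filter]
  refine Finset.sum_congr rfl fun y _ => ?_
  unfold ind
  split_ifs <;> simp

end X5

open X5

theorem hX5 (hT0f : StT0f) (hX3 : StX3) (hX4 : StX4) (hRR : StRR) : StX5 := by
  classical
  have _ := hX4
  obtain ⟨da, hT⟩ := hT0f
  obtain ⟨db, hX3⟩ := hX3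
  refine ⟨max (max da db) 1, fun d hd η ε r hη hη1 hε => ?_⟩
  have hda : da ≤ d := le_trans (le_trans (le_max_left _ _) (le_max_left _ _)) hd
  have hdb : db ≤ d := le_trans (le_trans (le_max_right _ _) (le_max_left _ _)) hd
  have hd1 : 1 ≤ d := le_trans (le_max_right _ _) hd
  have hp0 := pH_nonneg d
  have hp1 := pH_le d
  obtain ⟨C, hC, hX3⟩ := hX3 d hdb η hη hη1
  have hC0 : 0 < C := by linarith
  set A : ℝ := ((2 * r).factorial : ℝ) * C ^ (2 * r + 1) with hA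
  have hA0 : 0 < A := by
    have : (0 : ℝ) < ((2 * r).factorial : ℝ) := by exact_mod_cast Nat.factorial_pos _
    positivity
  have hrf : (0 : ℝ) < (r.factorial : ℝ) := by exact_mod_cast Nat.factorial_pos _
  have hr1 : (0 : ℝ) < (r : ℝ) + 1 := by positivity
  set ε' : ℝ := (ε * (r.factorial : ℝ) / ((r : ℝ) + 1)) ^ 2 / (2 * A) with hε'
  have hε'0 : 0 < ε' := by positivity
  obtain ⟨M₀, hM₀, hT⟩ := hT d hda ε' hε'0
  refine ⟨M₀, hM₀, fun M hM => ?_⟩
  obtain ⟨n₀, hn₀, hT⟩ := hT M hM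
  refine ⟨n₀, hn₀, fun n hn L x hL hx => ?_⟩
  have hn1 : 1 ≤ n := hn₀.trans hn
  have hnR : (1 : ℝ) ≤ n := by exact_mod_cast hn1
  have hn0 : (0 : ℝ) < n := by linarith
  obtain ⟨hR1, -, hR3, -, hR5⟩ := hRR d n hd1 hn1
  have hxr : (1 : ℝ) ≤ rr n x := (hR1 x).1
  have hxΛ : x ∈ Lam d n M := ((hR5 M x).1).2 (by linarith)
  have hxL : x ∈ L := hL hxΛ
  set Λ := Lam d n M with hΛ
  have hBox := Pool.LE.hBox
  obtain ⟨hFL, -⟩ := Pool.WF.hFG hBox d L
  obtain ⟨hFΛ, -⟩ := Pool.WF.hFG hBox d Λ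
  have hsub : ES Λ ⊆ ES L := by
    unfold ES
    apply Finset.image_subset_image
    intro q hq
    rw [Finset.mem_filter, Finset.mem_product] at hq ⊢
    exact ⟨⟨hL hq.1.1, hq.1.2⟩, hL hq.2⟩
  set E := ES L with hE
  set E1 := ES Λ with hE1
  have hun := (Pool.CN.hUn (Zd d) E1 (E \ E1) (pH d) Finset.disjoint_sdiff (fun _ => 0)).2
  have hEE : E1 ∪ (E \ E1) = E := Finset.union_sdiff_of_subset hsub
  obtain ⟨hmono, -, hadd, hsubt, hsmul, hsum, hpr, -, hcs, -⟩ :=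
    Pool.NL.hBasic (Zd d) E (pH d) hp0 hp1
  obtain ⟨-, hconst2, -⟩ := Pool.NL.hBasic (Zd d) (E \ E1) (pH d) hp0 hp1
  obtain ⟨-, -, -, -, hsmul1, hsum1, -⟩ := Pool.NL.hBasic (Zd d) E1 (pH d) hp0 hp1
  have hres : ∀ g : Finset (Sym2 (Zd d)) → ℝ,
      ex E (pH d) (fun ω => g (ω ∩ E1)) = ex E1 (pH d) g := by
    intro g
    have h1 := hun g (fun _ => 1)
    rw [hEE, hconst2, mul_one] at h1
    rw [← h1]
    congr 1
    funext ω
    rw [mul_one]
  set f : Zd d → ℝ := fe n η with hf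
  have hf0 : ∀ y, 0 ≤ f y := fun y => (hR3 η y hη.le).1
  set X : Finset (Sym2 (Zd d)) → ℝ := fun ω => ms f (clu L ω x) with hX
  set Y : Finset (Sym2 (Zd d)) → ℝ := fun ω => ms f (clu Λ (ω ∩ E1) x) with hY
  have hcl : ∀ ω, ω ⊆ E → clu Λ (ω ∩ E1) x ⊆ clu L ω x := by
    intro ω hω y hy
    have hy' := hy
    unfold clu at hy'
    rw [Finset.mem_filter] at hy'
    have h1 : y ∈ clu L (ω ∩ E1) x := by
      unfold clu
      rw [Finset.mem_filter]
      exact ⟨hL hy'.1, hy'.2⟩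
    obtain ⟨-, -, -, -, hc5, -⟩ := Pool.NL.hClu (Zd d) L E (ω ∩ E1) (2 * d) hFL
      (Finset.inter_subset_left.trans hω)
    exact (hc5 ω Finset.inter_subset_left x).1 h1
  have hY0 : ∀ ω, 0 ≤ Y ω := fun ω => Finset.sum_nonneg fun y _ => hf0 y
  have hX0 : ∀ ω, 0 ≤ X ω := fun ω => Finset.sum_nonneg fun y _ => hf0 y
  have hYX : ∀ ω, ω ⊆ E → Y ω ≤ X ω := fun ω hω =>
    Finset.sum_le_sum_of_subset_of_nonneg (hcl ω hω) fun y _ _ => hf0 y
  -- the first moment
  have hcp : ∀ y, cp E1 (pH d) x y = ex E (pH d) (fun ω => ind (con (ω ∩ E1) x y)) := fun y =>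
    (hres (fun ω => ind (con ω x y))).symm
  have hcon : ∀ ω, ω ⊆ E → ∀ y, ind (con (ω ∩ E1) x y) ≤ ind (con ω x y) := by
    intro ω hω y
    by_cases h1 : con (ω ∩ E1) x y
    · have h2 : con ω x y := by
        obtain ⟨-, -, -, hc4, -, -⟩ := Pool.NL.hClu (Zd d) L E (ω ∩ E1) (2 * d) hFL
          (Finset.inter_subset_left.trans hω)
        have hyL : y ∈ L := hc4 x y hxL h1
        obtain ⟨-, -, -, -, hc5, -⟩ := Pool.NL.hClu (Zd d) L E (ω ∩ E1) (2 * d) hFL
          (Finset.inter_subset_left.trans hω)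
        have h3 : y ∈ clu L (ω ∩ E1) x := by
          unfold clu
          rw [Finset.mem_filter]
          exact ⟨hyL, h1⟩
        have h4 := (hc5 ω Finset.inter_subset_left x).1 h3
        unfold clu at h4
        exact (Finset.mem_filter.1 h4).2
      unfold ind
      rw [if_pos h1, if_pos h2]
    · unfold ind
      rw [if_neg h1]
      split_ifs <;> norm_num
  have hcpd : ∀ y, 0 ≤ cp E (pH d) x y - cp E1 (pH d) x y := by
    intro y
    have h1 : cp E1 (pH d) x y ≤ cp E (pH d) x y := by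
      rw [hcp]
      exact hmono _ _ fun ω hω => hcon ω hω y
    linarith
  have hEX : ex E (pH d) X = ∑ y ∈ L, f y * cp E (pH d) x y := by
    have h1 : X = fun ω => ∑ y ∈ L, f y * ind (con ω x y) := by
      funext ω
      exact ms_clu L ω f x
    rw [h1, hsum]
    exact Finset.sum_congr rfl fun y _ => hsmul (f y) _
  have hEY : ex E (pH d) Y = ∑ y ∈ L, f y * cp E1 (pH d) x y := by
    have h1 : ex E (pH d) Y = ex E1 (pH d) (fun ω => ms f (clu Λ ω x)) :=
      hres (fun ω => ms f (clu Λ ω x))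
    have h2 : (fun ω => ms f (clu Λ ω x)) = fun ω => ∑ y ∈ Λ, f y * ind (con ω x y) := by
      funext ω
      exact ms_clu Λ ω f x
    rw [h1, h2, hsum1]
    have h3 : ∀ y ∈ Λ, ex E1 (pH d) (fun ω => f y * ind (con ω x y)) = f y * cp E1 (pH d) x y :=
      fun y _ => hsmul1 (f y) _
    rw [Finset.sum_congr rfl h3]
    apply Finset.sum_subset hL
    intro y _ hy
    obtain ⟨-, -, -, h4, -⟩ := Pool.NL.hHh Pool.NL.hBasic Pool.NL.hClu (Zd d) Λ E1 (2 * d) (pH d)
      hFΛ hp0 hp1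
    rw [h4 x y hxΛ hy, mul_zero]
  have hD : ex E (pH d) (fun ω => X ω - Y ω) ≤ (n : ℝ) ^ 2 * (2 * ε') := by
    have h1 := hT n hn L x hL hx
    rw [div_le_iff₀ (by positivity)] at h1
    rw [hsubt, hEX, hEY, ← Finset.sum_sub_distrib]
    calc ∑ y ∈ L, (f y * cp E (pH d) x y - f y * cp E1 (pH d) x y) ≤
          ∑ y ∈ L, 2 * ((cp E (pH d) x y - cp E1 (pH d) x y) * rr n y ^ (-(19 / 4) : ℝ)) := by
          refine Finset.sum_le_sum fun y _ => ?_
          have h2 : f y ≤ 2 * rr n y ^ (-(19 / 4) : ℝ) := by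
            refine ((hR3 η y hη.le).2.2.2).trans ?_
            apply mul_le_mul_of_nonneg_right (by linarith)
            exact Real.rpow_nonneg (by have := (hR1 y).1; linarith) _
          have h3 := mul_le_mul_of_nonneg_right h2 (hcpd y)
          calc f y * cp E (pH d) x y - f y * cp E1 (pH d) x y =
                f y * (cp E (pH d) x y - cp E1 (pH d) x y) := by ring
            _ ≤ _ := h3
            _ = _ := by ring
      _ = 2 * ∑ y ∈ L, (cp E (pH d) x y - cp E1 (pH d) x y) * rr n y ^ (-(19 / 4) : ℝ) := by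
          rw [Finset.mul_sum]
      _ ≤ 2 * (ε' * (n : ℝ) ^ 2) := mul_le_mul_of_nonneg_left h1 (by norm_num)
      _ = _ := by ring
  have hD0 : 0 ≤ ex E (pH d) (fun ω => X ω - Y ω) := by
    have h1 : ex E (pH d) (fun _ => (0 : ℝ)) ≤ ex E (pH d) (fun ω => X ω - Y ω) :=
      hmono _ _ fun ω hω => by have := hYX ω hω; linarith
    have h2 : ex E (pH d) (fun _ => (0 : ℝ)) = 0 := by
      obtain ⟨-, hconst, -⟩ := Pool.NL.hBasic (Zd d) E (pH d) hp0 hp1
      exact hconst 0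
    linarith
  -- the high moment
  have hHi : ex E (pH d) (fun ω => X ω ^ (2 * r + 1)) ≤ (n : ℝ) ^ (2 + 4 * (2 * r)) * A := by
    have h1 := (hX3 n L hn1 x hxL).2 (2 * r)
    have h2 : rr n x ^ (-(11 / 4) : ℝ) ≤ 1 :=
      Real.rpow_le_one_of_one_le_of_nonpos hxr (by norm_num)
    have h3 : Fr L n (2 * r) f x ≤ C ^ (2 * r + 1) := by
      refine h1.trans ?_
      have : C ^ (2 * r + 1) * rr n x ^ (-(11 / 4) : ℝ) ≤ C ^ (2 * r + 1) * 1 :=
        mul_le_mul_of_nonneg_left h2 (by positivity)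
      linarith
    unfold Fr at h3
    have hpos : (0 : ℝ) < (n : ℝ) ^ (2 + 4 * (2 * r)) * ((2 * r).factorial : ℝ) := by
      have : (0 : ℝ) < ((2 * r).factorial : ℝ) := by exact_mod_cast Nat.factorial_pos _
      positivity
    rw [div_le_iff₀ hpos] at h3
    refine h3.trans (le_of_eq ?_)
    rw [hA]
    ring
  -- Cauchy-Schwarz
  set T := ex E (pH d) (fun ω => X ω ^ r * (X ω - Y ω)) with hTd
  have hCS : T ^ 2 ≤ ((n : ℝ) ^ (2 + 4 * r) * (ε * (r.factorial : ℝ) / ((r : ℝ) + 1))) ^ 2 := by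
    have h1 := hcs (fun ω => X ω ^ r * Real.sqrt (X ω - Y ω)) (fun ω => Real.sqrt (X ω - Y ω))
    have h2 : T = ex E (pH d) (fun ω => X ω ^ r * Real.sqrt (X ω - Y ω) *
        Real.sqrt (X ω - Y ω)) := by
      apply le_antisymm
      · apply hmono
        intro ω hω
        rw [mul_assoc, Real.mul_self_sqrt (by have := hYX ω hω; linarith)]
      · apply hmono
        intro ω hω
        rw [mul_assoc, Real.mul_self_sqrt (by have := hYX ω hω; linarith)]
    have h3 : ex E (pH d) (fun ω => (X ω ^ r * Real.sqrt (X ω - Y ω)) ^ 2) ≤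
        ex E (pH d) (fun ω => X ω ^ (2 * r + 1)) := by
      apply hmono
      intro ω hω
      rw [mul_pow, Real.sq_sqrt (by have := hYX ω hω; linarith)]
      have h4 : X ω - Y ω ≤ X ω := by have := hY0 ω; linarith
      calc (X ω ^ r) ^ 2 * (X ω - Y ω) ≤ (X ω ^ r) ^ 2 * X ω :=
            mul_le_mul_of_nonneg_left h4 (by positivity)
        _ = X ω ^ (2 * r + 1) := by ring
    have h5 : ex E (pH d) (fun ω => Real.sqrt (X ω - Y ω) ^ 2) ≤
        ex E (pH d) (fun ω => X ω - Y ω) := by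
      apply hmono
      intro ω hω
      rw [Real.sq_sqrt (by have := hYX ω hω; linarith)]
    have h6 : 0 ≤ ex E (pH d) (fun ω => Real.sqrt (X ω - Y ω) ^ 2) := by
      obtain ⟨-, hconst, -⟩ := Pool.NL.hBasic (Zd d) E (pH d) hp0 hp1
      rw [← hconst 0]
      exact hmono _ _ fun ω _ => sq_nonneg _
    rw [← h2] at h1
    have h7 : (0 : ℝ) ≤ (n : ℝ) ^ (2 + 4 * (2 * r)) * A := by positivity
    calc T ^ 2 ≤ _ := h1
      _ ≤ ((n : ℝ) ^ (2 + 4 * (2 * r)) * A) * ((n : ℝ) ^ 2 * (2 * ε')) :=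
          mul_le_mul (h3.trans hHi) (h5.trans hD) h6 h7
      _ = _ := by
          rw [hε']
          field_simp
          ring
  have hTle : T ≤ (n : ℝ) ^ (2 + 4 * r) * (ε * (r.factorial : ℝ) / ((r : ℝ) + 1)) :=
    le_of_sq_le_sq hCS (by positivity)
  have hmom : ex E (pH d) (fun ω => X ω ^ (r + 1)) - ex E (pH d) (fun ω => Y ω ^ (r + 1)) ≤
      ((r : ℝ) + 1) * T := by
    rw [← hsubt, hTd, ← hsmul]
    exact hmono _ _ fun ω hω => pow_sub (X ω) (Y ω) (hY0 ω) (hYX ω hω) r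
  have hYr : ex E (pH d) (fun ω => Y ω ^ (r + 1)) =
      ex E1 (pH d) (fun ω => (ms f (clu Λ ω x)) ^ (r + 1)) :=
    hres (fun ω => (ms f (clu Λ ω x)) ^ (r + 1))
  unfold Fr
  have hpos : (0 : ℝ) < (n : ℝ) ^ (2 + 4 * r) * (r.factorial : ℝ) := by positivity
  rw [← hYr, div_add' _ _ _ hpos.ne', div_le_div_iff_of_pos_right hpos]
  have h8 : ((r : ℝ) + 1) * T ≤ ε * ((n : ℝ) ^ (2 + 4 * r) * (r.factorial : ℝ)) := by
    calc ((r : ℝ) + 1) * T ≤ ((r : ℝ) + 1) *
          ((n : ℝ) ^ (2 + 4 * r) * (ε * (r.factorial : ℝ) / ((r : ℝ) + 1))) :=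
          mul_le_mul_of_nonneg_left hTle hr1.le
      _ = _ := by field_simp
  have h9 : ex E (pH d) (fun ω => X ω ^ (r + 1)) ≤ ex E (pH d) (fun ω => Y ω ^ (r + 1)) +
      ε * ((n : ℝ) ^ (2 + 4 * r) * (r.factorial : ℝ)) := by linarith
  exact h9

end Pool.CB
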