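import Pool.Agent.Helper65.CB.StX

set_option autoImplicit false

open scoped BigOperators ENNReal Topology
open Pool.LE Pool.NL Pool.CL Filter MeasureTheory

namespace Pool.CB

namespace X6

lemma r1 {y : ℝ} (hy : 1 ≤ y) : y ^ (-(11 / 4) : ℝ) ≤ y ^ (-(5 / 2) : ℝ) :=
  Real.rpow_le_rpow_of_exponent_le hy (by norm_num)

lemma r2 {y m S : ℝ} (hm : 1 ≤ m) (hmy : m ≤ y) (hS : S ≤ m ^ (1 / 4 : ℝ)) :
    S * y ^ (-(11 / 4) : ℝ) ≤ y ^ (-(5 / 2) : ℝ) := by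
  have hy : 0 < y := by linarith
  have e : y ^ (-(11 / 4) : ℝ) = y ^ (-(1 / 4) : ℝ) * y ^ (-(5 / 2) : ℝ) := by
    rw [← Real.rpow_add hy]
    norm_num
  have h1 : S ≤ y ^ (1 / 4 : ℝ) :=
    hS.trans (Real.rpow_le_rpow (by linarith) hmy (by norm_num))
  have h2 : S * y ^ (-(1 / 4) : ℝ) ≤ 1 := by
    rw [Real.rpow_neg hy.le, ← div_eq_mul_inv, div_le_one (Real.rpow_pos_of_pos hy _)]
    exact h1
  rw [e, ← mul_assoc]
  have h3 : 0 ≤ y ^ (-(5 / 2) : ℝ) := (Real.rpow_pos_of_pos hy _).le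
  calc S * y ^ (-(1 / 4) : ℝ) * y ^ (-(5 / 2) : ℝ) ≤ 1 * y ^ (-(5 / 2) : ℝ) :=
        mul_le_mul_of_nonneg_right h2 h3
    _ = _ := one_mul _

lemma r3 {z w : ℝ} (hz : 1 ≤ z) (h : z ≤ 2 * w) :
    w ^ (-(11 / 4) : ℝ) ≤ 8 * z ^ (-(5 / 2) : ℝ) := by
  have h0 : 0 < z / 2 := by linarith
  have h1 : z / 2 ≤ w := by linarith
  have h2 : w ^ (-(11 / 4) : ℝ) ≤ (z / 2) ^ (-(11 / 4) : ℝ) :=
    Real.rpow_le_rpow_of_nonpos h0 h1 (by norm_num)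
  have h3 : (z / 2) ^ (-(11 / 4) : ℝ) = z ^ (-(11 / 4) : ℝ) * 2 ^ (11 / 4 : ℝ) := by
    rw [Real.div_rpow (by linarith) (by norm_num), Real.rpow_neg (by norm_num : (0 : ℝ) ≤ 2),
      div_inv_eq_mul]
  have h4 : (2 : ℝ) ^ (11 / 4 : ℝ) ≤ 8 := by
    have : (2 : ℝ) ^ (11 / 4 : ℝ) ≤ (2 : ℝ) ^ (3 : ℝ) :=
      Real.rpow_le_rpow_of_exponent_le (by norm_num) (by norm_num)
    refine this.trans (le_of_eq ?_)
    norm_num
  have h5 : 0 ≤ z ^ (-(11 / 4) : ℝ) := (Real.rpow_pos_of_pos (by linarith) _).le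
  have h6 := r1 hz
  rw [h3] at h2
  nlinarith [mul_le_mul_of_nonneg_left h4 h5]

lemma r4 {z m : ℝ} (hz : 1 ≤ z) (h : z ≤ m) : m ^ (-(5 / 2) : ℝ) ≤ z ^ (-(5 / 2) : ℝ) :=
  Real.rpow_le_rpow_of_nonpos (by linarith) h (by norm_num)

lemma bern {ε q : ℝ} (h0 : 0 ≤ ε) (h1 : ε ≤ 1 / 2) (h2 : ε ≤ (q - 1) / 30) :
    (1 + 2 * ε) ^ 4 ≤ q := by
  have h3 : ε ^ 2 ≤ ε / 2 := by nlinarith
  have h4 : ε ^ 3 ≤ ε / 4 := by nlinarith [mul_nonneg h0 (mul_nonneg h0 h0)]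
  have h5 : ε ^ 4 ≤ ε / 8 := by nlinarith [mul_nonneg h0 (mul_nonneg h0 h0)]
  nlinarith

lemma choN (ε : ℝ) (n : ℕ) (h0 : 0 < ε) (h1 : ε ≤ 1 / 2) (hn1 : 1 ≤ n) (hn : 1 ≤ ε * n) :
    ∃ N : ℕ, n < N ∧ (N : ℝ) ≤ 2 * n ∧ (N : ℝ) ≤ (1 + 2 * ε) * n ∧ ε * n ≤ (N : ℝ) - n := by
  have hnR : (1 : ℝ) ≤ n := by exact_mod_cast hn1
  have hNlow : (1 + ε) * (n : ℝ) ≤ (⌈(1 + ε) * (n : ℝ)⌉₊ : ℕ) := Nat.le_ceil _
  have hNup' : ((⌈(1 + ε) * (n : ℝ)⌉₊ : ℕ) : ℝ) < (1 + ε) * (n : ℝ) + 1 :=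
    Nat.ceil_lt_add_one (by positivity)
  refine ⟨⌈(1 + ε) * (n : ℝ)⌉₊, ?_, ?_, ?_, ?_⟩
  · have : (n : ℝ) < (⌈(1 + ε) * (n : ℝ)⌉₊ : ℕ) := by linarith
    exact_mod_cast this
  · have h2 : ε * n ≤ 1 / 2 * n := mul_le_mul_of_nonneg_right h1 (by linarith)
    linarith
  · linarith
  · linarith

end X6

set_option maxHeartbeats 1000000 in
theorem hX6 (hS6 : StS6) (hL3 : StL3) (hCoM : StCoM) (hX3 : StX3) (hX4 : StX4) (hX5 : StX5)
    (hAvg : StAvg) (hRR : StRR) (hVpos : StVpos) : StX6 := by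
  obtain ⟨d3, hX3⟩ := hX3
  obtain ⟨d5, hX5⟩ := hX5
  refine ⟨max d3 d5, fun d hd C₁ B c₀ CL hE V c θ θ₂ η₁ hV hc hθ hθ2 hSF hη₁ => ?_⟩
  have hd3 : d3 ≤ d := le_trans (le_max_left _ _) hd
  have hd5 : d5 ≤ d := le_trans (le_max_right _ _) hd
  have hd21 : 21 ≤ d := hE.env.hd
  have hd1 : 1 ≤ d := by omega
  have hp0 : 0 ≤ pH d := hE.env.p0.le
  have hp1 : pH d ≤ 1 := by linarith [hE.half]
  have hVp : 0 < V := hVpos d C₁ B c₀ CL hE V hV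
  have hcp : 0 < c := hc.1
  obtain ⟨θa, hθa⟩ : ∃ θa, θa = (θ + θ₂) / 2 := ⟨_, rfl⟩
  have hθa1 : θ < θa := by linarith
  have hθa2 : θa < θ₂ := by linarith
  have hθa0 : 0 < θa := by linarith
  obtain ⟨ε₀, hε₀⟩ : ∃ ε₀, ε₀ = min (1 / 2) ((θa / θ - 1) / 30) := ⟨_, rfl⟩
  have hq : 1 < θa / θ := (one_lt_div hθ).2 hθa1
  have hε0 : 0 < ε₀ := by rw [hε₀]; exact lt_min (by norm_num) (by linarith)
  have hε1 : ε₀ ≤ 1 / 2 := by rw [hε₀]; exact min_le_left _ _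
  have hε2 : (1 + 2 * ε₀) ^ 4 ≤ θa / θ := X6.bern hε0.le hε1 (by rw [hε₀]; exact min_le_right _ _)
  have hε3 : (1 + 2 * ε₀) ^ 4 * θ ≤ θa := by
    have := mul_le_mul_of_nonneg_right hε2 hθ.le
    rwa [div_mul_cancel₀ _ hθ.ne'] at this
  obtain ⟨η, KS, hη0, hη1, hKS, hS⟩ := hS6 d V c θa θ₂ hd21 hVp hcp hθa0 hθa2 hSF (min η₁ 1)
    (lt_min hη₁ one_pos)
  have hηle1 : η ≤ 1 := hη1.trans (min_le_right _ _)
  obtain ⟨C, hC1, hC⟩ := hX3 d hd3 η hη0 hηle1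
  refine ⟨η, 32 * KS + 3, hη0, hη1.trans (min_le_left _ _), by linarith, fun r₀ => ?_⟩
  -- choice of M1
  obtain ⟨S, hSdef⟩ : ∃ S, S = ∑ r ∈ Finset.range r₀, C ^ (r + 1) * θ ^ r := ⟨_, rfl⟩
  have hS0 : 0 ≤ S := by rw [hSdef]; exact Finset.sum_nonneg fun r _ => by positivity
  obtain ⟨M1, hM1⟩ : ∃ M1 : ℕ, max 1 (S ^ 4) ≤ (M1 : ℝ) := exists_nat_ge _
  have hM1a : (1 : ℝ) ≤ M1 := (le_max_left _ _).trans hM1
  have hM1b : S ≤ (M1 : ℝ) ^ (1 / 4 : ℝ) := by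
    have h1 : S ^ 4 ≤ (M1 : ℝ) := (le_max_right _ _).trans hM1
    have h2 : (S ^ 4) ^ (1 / 4 : ℝ) ≤ (M1 : ℝ) ^ (1 / 4 : ℝ) :=
      Real.rpow_le_rpow (by positivity) h1 (by norm_num)
    have h3 : (S ^ 4) ^ (1 / 4 : ℝ) = S := by
      rw [← Real.rpow_natCast, ← Real.rpow_mul hS0]
      norm_num
    rwa [h3] at h2
  -- choice of M2
  obtain ⟨W, hW⟩ : ∃ W, W = ∑ r ∈ Finset.range r₀, (2 : ℝ) ^ (2 + 4 * r) * θ ^ r + 1 := ⟨_, rfl⟩
  have hW1 : 0 ≤ ∑ r ∈ Finset.range r₀, (2 : ℝ) ^ (2 + 4 * r) * θ ^ r :=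
    Finset.sum_nonneg fun r _ => by positivity
  have hW0 : 0 < W := by rw [hW]; linarith
  obtain ⟨δ, hδ⟩ : ∃ δ, δ = (M1 : ℝ) ^ (-(5 / 2) : ℝ) := ⟨_, rfl⟩
  have hδ0 : 0 < δ := by rw [hδ]; exact Real.rpow_pos_of_pos (by linarith) _
  obtain ⟨ε₁, hε₁⟩ : ∃ ε₁, ε₁ = δ / W := ⟨_, rfl⟩
  have hε₁0 : 0 < ε₁ := by rw [hε₁]; positivity
  choose M0 hM0a hM0 using fun r : ℕ => hX5 d hd5 η ε₁ r hη0 hηle1 hε₁0
  obtain ⟨M2, hM2⟩ : ∃ M2 : ℕ, M2 = max (2 * M1 + 2) ((Finset.range r₀).sup M0) := ⟨_, rfl⟩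
  have hM2a : 2 * M1 + 2 ≤ M2 := by rw [hM2]; exact le_max_left _ _
  have hM2b : ∀ r ∈ Finset.range r₀, M0 r ≤ M2 := fun r hr => by
    rw [hM2]
    exact (Finset.le_sup hr).trans (le_max_right _ _)
  have hM2c : 1 ≤ M2 := by omega
  obtain ⟨nS, hnS1, hnS⟩ := hS M2 hM2c
  -- the thresholds of X5
  have hthr : ∃ n5 : ℕ, ∀ n : ℕ, n5 ≤ n → ∀ r ∈ Finset.range r₀, ∀ (L : Finset (Zd d)) (x : Zd d),
      Lam d n M2 ⊆ L → 2 * rr n x ≤ M2 →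
        Fr L n r (fe n η) x ≤ Fr (Lam d n M2) n r (fe n η) x + ε₁ := by
    have h : ∀ r : ℕ, ∃ n5 : ℕ, r ∈ Finset.range r₀ → ∀ n : ℕ, n5 ≤ n → ∀ (L : Finset (Zd d))
        (x : Zd d), Lam d n M2 ⊆ L → 2 * rr n x ≤ M2 →
        Fr L n r (fe n η) x ≤ Fr (Lam d n M2) n r (fe n η) x + ε₁ := by
      intro r
      by_cases hr : r ∈ Finset.range r₀
      · obtain ⟨n₀, -, h⟩ := hM0 r M2 (hM2b r hr)
        exact ⟨n₀, fun _ => h⟩
      · exact ⟨0, fun h => absurd h hr⟩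
    choose n5 hn5 using h
    refine ⟨(Finset.range r₀).sup n5, fun n hn r hr => hn5 r hr n ((Finset.le_sup hr).trans hn)⟩
  obtain ⟨n5, hn5⟩ := hthr
  -- the comparison error
  have hgs : ∀ N : ℕ, gs N 1 0 η = (fe N η : Zd d → ℝ) := by
    intro N
    funext x
    unfold gs fe
    ring
  obtain ⟨D, hD⟩ : ∃ D : ℕ → ℕ → ℝ, D = fun r N => (∑ x ∈ Lam d N M2,
      |Fr (Lam d N M2) N r (fe N η) x - co (TS (Lam d N M2) N c) V (fe N η) r x|) / (N : ℝ) ^ d :=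
    ⟨_, rfl⟩
  have hDt : ∀ r, Tendsto (fun N => D r N) atTop (𝓝 0) := by
    intro r
    have := (hL3 d C₁ B c₀ CL hE V c hV hc M2 r 1 0 η hM2c one_pos.le le_rfl hη0.le).1
    simp only [hgs] at this
    rw [hD]
    exact this
  have hsum : Tendsto (fun N => (2 / ε₀) ^ d *
      ∑ r ∈ Finset.range r₀, (2 : ℝ) ^ (2 + 4 * r) * θ ^ r * D r N) atTop (𝓝 0) := by
    have h1 : Tendsto (fun N => ∑ r ∈ Finset.range r₀, (2 : ℝ) ^ (2 + 4 * r) * θ ^ r * D r N)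
        atTop (𝓝 (∑ r ∈ Finset.range r₀, (2 : ℝ) ^ (2 + 4 * r) * θ ^ r * 0)) :=
      tendsto_finsetSum _ fun r _ => (hDt r).const_mul _
    have h2 := h1.const_mul ((2 / ε₀) ^ d)
    simpa using h2
  obtain ⟨n6, hn6⟩ := (hsum.eventually (ge_mem_nhds hδ0)).exists_forall_of_atTop
  obtain ⟨n7, hn7⟩ := exists_nat_ge (1 / ε₀)
  refine ⟨max 1 (max nS (max n5 (max n6 n7))), le_max_left _ _, fun n hn M x hx => ?_⟩
  have hn1 : 1 ≤ n := le_trans (le_max_left _ _) hn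
  have hnb : max nS (max n5 (max n6 n7)) ≤ n := le_trans (le_max_right _ _) hn
  have hnSn : nS ≤ n := le_trans (le_max_left _ _) hnb
  have hnc : max n5 (max n6 n7) ≤ n := le_trans (le_max_right _ _) hnb
  have hn5n : n5 ≤ n := le_trans (le_max_left _ _) hnc
  have hnd : max n6 n7 ≤ n := le_trans (le_max_right _ _) hnc
  have hn6n : n6 ≤ n := le_trans (le_max_left _ _) hnd
  have hn7n : n7 ≤ n := le_trans (le_max_right _ _) hnd
  have hnR : (1 : ℝ) ≤ n := by exact_mod_cast hn1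
  have hrr1 : 1 ≤ rr n x := ((hRR d n hd1 hn1).1 x).1
  have hpos52 : 0 < rr n x ^ (-(5 / 2) : ℝ) := Real.rpow_pos_of_pos (by linarith) _
  rcases le_or_gt (M1 : ℝ) (rr n x) with hfar | hnear
  · -- far away
    have h1 : ∑ r ∈ Finset.range r₀, Fr (Lam d n M) n r (fe n η) x * θ ^ r ≤
        S * rr n x ^ (-(11 / 4) : ℝ) := by
      rw [hSdef, Finset.sum_mul]
      refine Finset.sum_le_sum fun r _ => ?_
      have := (hC n (Lam d n M) hn1 x hx).2 r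
      calc Fr (Lam d n M) n r (fe n η) x * θ ^ r ≤
          (C ^ (r + 1) * rr n x ^ (-(11 / 4) : ℝ)) * θ ^ r :=
            mul_le_mul_of_nonneg_right this (by positivity)
        _ = _ := by ring
    have h2 := X6.r2 hM1a hfar hM1b
    nlinarith
  · -- near the box
    have hεn : 1 ≤ ε₀ * n := by
      have h1 : 1 / ε₀ ≤ (n : ℝ) := hn7.trans (by exact_mod_cast hn7n)
      rw [div_le_iff₀ hε0] at h1
      linarith
    obtain ⟨N, hnN, hN2, hNup, hdiff⟩ := X6.choN ε₀ n hε0 hε1 hn1 hεn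
    have hnNR : (n : ℝ) < N := by exact_mod_cast hnN
    have hn0 : (0 : ℝ) < n := by linarith
    have hN0 : (0 : ℝ) < N := by linarith
    obtain ⟨ρ, hρ⟩ : ∃ ρ, ρ = (N : ℝ) / n := ⟨_, rfl⟩
    have hρ1 : 1 ≤ ρ := by rw [hρ, le_div_iff₀ hn0]; linarith
    have hρ2 : ρ ≤ 2 := by rw [hρ, div_le_iff₀ hn0]; linarith
    have hρ3 : ρ ^ 4 * θ ≤ θa := by
      have h1 : ρ ≤ 1 + 2 * ε₀ := by rw [hρ, div_le_iff₀ hn0]; exact hNup
      have h2 : ρ ^ 4 ≤ (1 + 2 * ε₀) ^ 4 := pow_le_pow_left₀ (by linarith) h1 4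
      exact (mul_le_mul_of_nonneg_right h2 hθ.le).trans hε3
    have hN1 : 1 ≤ N := by omega
    have hRn := hRR d n hd1 hn1
    have hxM2 : x ∈ Lam d n M2 := by
      rw [(hRn.2.2.2.2 M2 x).1]
      have : (M1 : ℝ) ≤ M2 := by exact_mod_cast (by omega : M1 ≤ M2)
      linarith
    -- the two functions
    obtain ⟨f, hf⟩ : ∃ f : Zd d → ℝ, f = fun y => ∑ r ∈ Finset.range r₀,
        ρ ^ (2 + 4 * r) * θ ^ r * Fr (Lam d N M2) N r (fe N η) y := ⟨_, rfl⟩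
    obtain ⟨g, hg⟩ : ∃ g : Zd d → ℝ, g = fun y => ∑ r ∈ Finset.range r₀,
        ρ ^ (2 + 4 * r) * θ ^ r * co (TS (Lam d N M2) N c) V (fe N η) r y := ⟨_, rfl⟩
    obtain ⟨a, ha, hfg⟩ := hAvg d n N M2 f g x hd1 hn1 hnN hxM2
    have hsh := hRn.2.2.2.1 N a x hnN.le ha
    have hxa2 : rr n x ≤ 2 * rr N (x + a) := by
      have h1 := hsh.2.1
      have hrN : 1 ≤ rr N (x + a) := ((hRR d N hd1 hN1).1 (x + a)).1
      have h2 : (N : ℝ) * rr N (x + a) ≤ 2 * n * rr N (x + a) :=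
        mul_le_mul_of_nonneg_right hN2 (by linarith)
      have h3 : (n : ℝ) * rr n x ≤ n * (2 * rr N (x + a)) := by linarith
      exact le_of_mul_le_mul_left h3 hn0
    have hxaM2 : x + a ∈ Lam d N M2 := hsh.2.2.2.2 M2 hxM2
    -- step 1: comparison of the moments
    have hsub : ∀ (m A A' : ℕ), 1 ≤ m → A ≤ A' → Lam d m A ⊆ Lam d m A' := by
      intro m A A' hm hA y hy
      have h := (hRR d m hd1 hm).2.2.2.2
      rw [(h A y).1] at hy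
      rw [(h A' y).1]
      have : (A : ℝ) ≤ A' := by exact_mod_cast hA
      linarith
    have hX4' := hX4 d hp0 hp1
    have hfe0 : ∀ (m : ℕ), 1 ≤ m → ∀ y : Zd d, 0 ≤ fe m η y := fun m hm y =>
      ((hRR d m hd1 hm).2.2.1 η y hη0.le).1
    have hstep1 : ∀ r ∈ Finset.range r₀, Fr (Lam d n M) n r (fe n η) x ≤
        ρ ^ (2 + 4 * r) * (Fr (Lam d N M2) N r (fe N η) (x + a) + ε₁) := by
      intro r hr
      have h1 : Fr (Lam d n M) n r (fe n η) x ≤ Fr (Lam d n (max M M2)) n r (fe n η) x :=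
        hX4'.1 n r _ _ _ _ (hsub n M (max M M2) hn1 (le_max_left _ _)) (hfe0 n hn1)
          (fun y => le_rfl) x
      have h2 := hX4'.2.2 n N (max M M2) r η a x hd1 hn1 hnN.le hη0.le ha
      have h3 : Fr (Lam d N (max M M2)) N r (fe N η) (x + a) ≤
          Fr (Lam d N M2) N r (fe N η) (x + a) + ε₁ := by
        refine hn5 N (by omega) r hr _ _ (hsub N M2 (max M M2) hN1 (le_max_right _ _)) ?_
        have h4 : rr N (x + a) ≤ rr n x := hsh.1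
        have h5 : (2 * M1 + 2 : ℝ) ≤ M2 := by exact_mod_cast hM2a
        linarith
      rw [hρ]
      exact h1.trans (h2.trans (mul_le_mul_of_nonneg_left h3 (by positivity)))
    have hstep2 : ∑ r ∈ Finset.range r₀, Fr (Lam d n M) n r (fe n η) x * θ ^ r ≤
        f (x + a) + δ := by
      have h1 : ∑ r ∈ Finset.range r₀, Fr (Lam d n M) n r (fe n η) x * θ ^ r ≤
          ∑ r ∈ Finset.range r₀, (ρ ^ (2 + 4 * r) * θ ^ r * Fr (Lam d N M2) N r (fe N η) (x + a) +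
            ε₁ * ((2 : ℝ) ^ (2 + 4 * r) * θ ^ r)) := by
        refine Finset.sum_le_sum fun r hr => ?_
        have h2 := mul_le_mul_of_nonneg_right (hstep1 r hr) (pow_nonneg hθ.le r)
        have h3 : ρ ^ (2 + 4 * r) ≤ (2 : ℝ) ^ (2 + 4 * r) := pow_le_pow_left₀ (by linarith) hρ2 _
        have h4 : ε₁ * (ρ ^ (2 + 4 * r) * θ ^ r) ≤ ε₁ * ((2 : ℝ) ^ (2 + 4 * r) * θ ^ r) :=
          mul_le_mul_of_nonneg_left (mul_le_mul_of_nonneg_right h3 (pow_nonneg hθ.le r)) hε₁0.le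
        calc _ ≤ _ := h2
          _ = ρ ^ (2 + 4 * r) * θ ^ r * Fr (Lam d N M2) N r (fe N η) (x + a) +
              ε₁ * (ρ ^ (2 + 4 * r) * θ ^ r) := by ring
          _ ≤ _ := by linarith
      rw [Finset.sum_add_distrib, ← Finset.mul_sum] at h1
      have h5 : ε₁ * ∑ r ∈ Finset.range r₀, (2 : ℝ) ^ (2 + 4 * r) * θ ^ r ≤ δ := by
        rw [hε₁, div_mul_eq_mul_div, div_le_iff₀ hW0]
        exact mul_le_mul_of_nonneg_left (by rw [hW]; linarith) hδ0.le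
      have h6 : f (x + a) = ∑ r ∈ Finset.range r₀,
          ρ ^ (2 + 4 * r) * θ ^ r * Fr (Lam d N M2) N r (fe N η) (x + a) := by rw [hf]
      linarith
    -- step 2: the comparison error
    have hstep3 : (∑ y ∈ Lam d N M2, |f y - g y|) / ((N : ℝ) - n) ^ d ≤ δ := by
      have h1 : ∀ y, |f y - g y| ≤ ∑ r ∈ Finset.range r₀, (2 : ℝ) ^ (2 + 4 * r) * θ ^ r *
          |Fr (Lam d N M2) N r (fe N η) y - co (TS (Lam d N M2) N c) V (fe N η) r y| := by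
        intro y
        rw [hf, hg]
        simp only
        rw [← Finset.sum_sub_distrib]
        refine (Finset.abs_sum_le_sum_abs _ _).trans (Finset.sum_le_sum fun r _ => ?_)
        rw [← mul_sub, abs_mul, abs_of_nonneg (by positivity : 0 ≤ ρ ^ (2 + 4 * r) * θ ^ r)]
        have h3 : ρ ^ (2 + 4 * r) ≤ (2 : ℝ) ^ (2 + 4 * r) := pow_le_pow_left₀ (by linarith) hρ2 _
        exact mul_le_mul_of_nonneg_right (mul_le_mul_of_nonneg_right h3 (pow_nonneg hθ.le r))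
          (abs_nonneg _)
      have hNd : (0 : ℝ) < (N : ℝ) ^ d := by positivity
      have h2 : ∑ y ∈ Lam d N M2, |f y - g y| ≤
          (N : ℝ) ^ d * ∑ r ∈ Finset.range r₀, (2 : ℝ) ^ (2 + 4 * r) * θ ^ r * D r N := by
        refine (Finset.sum_le_sum fun y _ => h1 y).trans (le_of_eq ?_)
        rw [Finset.sum_comm, Finset.mul_sum]
        refine Finset.sum_congr rfl fun r _ => ?_
        rw [← Finset.mul_sum, hD]
        field_simp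
      have hDnn : ∀ r, 0 ≤ D r N := by
        intro r
        rw [hD]
        exact div_nonneg (Finset.sum_nonneg fun y _ => abs_nonneg _) hNd.le
      have hsg : 0 ≤ ∑ r ∈ Finset.range r₀, (2 : ℝ) ^ (2 + 4 * r) * θ ^ r * D r N :=
        Finset.sum_nonneg fun r _ => mul_nonneg (by positivity) (hDnn r)
      have hNn : 0 < (N : ℝ) - n := by linarith
      have h3 : (N : ℝ) / ((N : ℝ) - n) ≤ 2 / ε₀ := by
        rw [div_le_div_iff₀ hNn hε0]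
        have := mul_le_mul_of_nonneg_right hN2 hε0.le
        linarith
      have h4 : (N : ℝ) ^ d / ((N : ℝ) - n) ^ d ≤ (2 / ε₀) ^ d := by
        rw [← div_pow]
        exact pow_le_pow_left₀ (by positivity) h3 d
      have h5 : (2 / ε₀) ^ d * ∑ r ∈ Finset.range r₀, (2 : ℝ) ^ (2 + 4 * r) * θ ^ r * D r N ≤ δ :=
        hn6 N (by omega)
      calc (∑ y ∈ Lam d N M2, |f y - g y|) / ((N : ℝ) - n) ^ d ≤
          ((N : ℝ) ^ d * ∑ r ∈ Finset.range r₀, (2 : ℝ) ^ (2 + 4 * r) * θ ^ r * D r N) /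
            ((N : ℝ) - n) ^ d := div_le_div_of_nonneg_right h2 (by positivity)
        _ = (N : ℝ) ^ d / ((N : ℝ) - n) ^ d *
            ∑ r ∈ Finset.range r₀, (2 : ℝ) ^ (2 + 4 * r) * θ ^ r * D r N := by ring
        _ ≤ (2 / ε₀) ^ d * ∑ r ∈ Finset.range r₀, (2 : ℝ) ^ (2 + 4 * r) * θ ^ r * D r N :=
            mul_le_mul_of_nonneg_right h4 hsg
        _ ≤ δ := h5
    -- step 3: the walk
    have hstep4 : g (x + a) ≤ 32 * KS * rr n x ^ (-(5 / 2) : ℝ) := by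
      have h1 := hnS N (by omega) r₀ (x + a) hxaM2
      have hco : ∀ r, 0 ≤ co (TS (Lam d N M2) N c) V (fe N η) r (x + a) := fun r =>
        (hCoM d (Lam d N M2) N r c V (fe N η) (fe N η) hd1 hcp hVp (hfe0 N hN1)
          (fun y => le_rfl) (x + a)).1
      have h2 : g (x + a) ≤ 4 * Fp (TS (Lam d N M2) N c) V (fe N η) r₀ θa (x + a) := by
        rw [hg]
        unfold Fp
        rw [Finset.mul_sum]
        refine Finset.sum_le_sum fun r _ => ?_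
        have h3 : ρ ^ (2 + 4 * r) * θ ^ r = ρ ^ 2 * (ρ ^ 4 * θ) ^ r := by
          rw [mul_pow, ← pow_mul, pow_add]
          ring
        have h4 : (ρ ^ 4 * θ) ^ r ≤ θa ^ r := pow_le_pow_left₀ (by positivity) hρ3 r
        have h5 : ρ ^ 2 ≤ 4 := (pow_le_pow_left₀ (by linarith) hρ2 2).trans (by norm_num)
        have h6 : ρ ^ 2 * (ρ ^ 4 * θ) ^ r ≤ 4 * θa ^ r :=
          mul_le_mul h5 h4 (by positivity) (by norm_num)
        rw [h3]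
        calc _ ≤ 4 * θa ^ r * co (TS (Lam d N M2) N c) V (fe N η) r (x + a) :=
              mul_le_mul_of_nonneg_right h6 (hco r)
          _ = _ := by ring
      have h7 := X6.r3 hrr1 hxa2
      have h8 := mul_le_mul_of_nonneg_left h7 hKS.le
      linarith
    have hstep5 : δ ≤ rr n x ^ (-(5 / 2) : ℝ) := by
      rw [hδ]
      exact X6.r4 hrr1 hnear.le
    have h9 : (32 * KS + 3) * rr n x ^ (-(5 / 2) : ℝ) = 32 * KS * rr n x ^ (-(5 / 2) : ℝ) +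
        3 * rr n x ^ (-(5 / 2) : ℝ) := by ring
    rw [h9]
    linarith

end Pool.CB
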