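import Pool.Agent.Helper65.CB.StX
import Pool.Agent.Helper22.NL.M_Basic

/-! # Project CB: uniform exponential moments (module X7) -/

set_option autoImplicit false

open scoped BigOperators ENNReal Topology
open Pool.LE Pool.NL Pool.CL Filter MeasureTheory

namespace Pool.CB

namespace X7

/-- splitting a power series with nonnegative coefficients -/
theorem split {a : ℕ → ℝ} {s t θ ρ S T P : ℝ} (r₀ : ℕ) (ha : ∀ r, 0 ≤ a r) (hs : 0 < s)
    (ht : 0 ≤ t) (htθ : t ≤ θ) (hρ : t ≤ ρ * s) (hρ0 : 0 ≤ ρ) (hρ1 : ρ ≤ 1)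
    (hS : HasSum (fun r => a r * s ^ r) S) (hT : HasSum (fun r => a r * t ^ r) T)
    (hP : ∑ r ∈ Finset.range r₀, a r * θ ^ r ≤ P) : T ≤ P + ρ ^ r₀ * S := by
  have h1 : HasSum (fun r => if r ∈ Finset.range r₀ then a r * θ ^ r else 0)
      (∑ r ∈ Finset.range r₀, a r * θ ^ r) := by
    have h2 : HasSum (fun r => if r ∈ Finset.range r₀ then a r * θ ^ r else 0)
        (∑ r ∈ Finset.range r₀, if r ∈ Finset.range r₀ then a r * θ ^ r else 0) :=
      hasSum_sum_of_ne_finset_zero (fun r hr => if_neg hr)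
    have h3 : ∑ r ∈ Finset.range r₀, (if r ∈ Finset.range r₀ then a r * θ ^ r else 0) =
        ∑ r ∈ Finset.range r₀, a r * θ ^ r :=
      Finset.sum_congr rfl fun r hr => if_pos hr
    rw [← h3]
    exact h2
  have h4 := h1.add (hS.mul_left (ρ ^ r₀))
  have h5 : T ≤ ∑ r ∈ Finset.range r₀, a r * θ ^ r + ρ ^ r₀ * S := by
    refine hasSum_le (fun r => ?_) hT h4
    have hr0 : 0 ≤ ρ ^ r₀ * (a r * s ^ r) := by
      have := ha r
      positivity
    by_cases hr : r ∈ Finset.range r₀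
    · simp only [if_pos hr]
      have h6 : a r * t ^ r ≤ a r * θ ^ r :=
        mul_le_mul_of_nonneg_left (pow_le_pow_left₀ ht htθ r) (ha r)
      linarith
    · simp only [if_neg hr]
      rw [Finset.mem_range, not_lt] at hr
      have h6 : t ^ r ≤ ρ ^ r₀ * s ^ r := by
        calc t ^ r ≤ (ρ * s) ^ r := pow_le_pow_left₀ ht hρ r
          _ = ρ ^ r * s ^ r := mul_pow _ _ _
          _ ≤ ρ ^ r₀ * s ^ r :=
            mul_le_mul_of_nonneg_right (pow_le_pow_of_le_one hρ0 hρ1 hr) (by positivity)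
      calc a r * t ^ r ≤ a r * (ρ ^ r₀ * s ^ r) := mul_le_mul_of_nonneg_left h6 (ha r)
        _ = 0 + ρ ^ r₀ * (a r * s ^ r) := by ring
  linarith

/-- the exponential moment is monotone in the source -/
theorem Fe_mono {d : ℕ} (L : Finset (Zd d)) (n : ℕ) {θ : ℝ} (hθ : 0 ≤ θ) (hp0 : 0 ≤ pH d)
    (hp1 : pH d ≤ 1) {f f' : Zd d → ℝ} (hf : ∀ y, 0 ≤ f y) (hff : ∀ y, f y ≤ f' y) (x : Zd d) :
    Fe L n θ f x ≤ Fe L n θ f' x := by
  unfold Fe
  obtain ⟨hmono, -⟩ := Pool.NL.hBasic (Zd d) (ES L) (pH d) hp0 hp1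
  apply div_le_div_of_nonneg_right _ (by positivity)
  apply hmono
  intro ω _
  have h1 : ms f (clu L ω x) ≤ ms f' (clu L ω x) := Finset.sum_le_sum fun y _ => hff y
  have h0 : 0 ≤ ms f (clu L ω x) := Finset.sum_nonneg fun y _ => hf y
  apply mul_le_mul h1 _ (Real.exp_pos _).le (h0.trans h1)
  apply Real.exp_le_exp.2
  apply div_le_div_of_nonneg_right _ (by positivity)
  exact mul_le_mul_of_nonneg_left h1 hθ

end X7

open X7

theorem hX7 (hX1 : StX1) (hX2 : StX2) (hX3 : StX3) (hX6 : StX6) (hRR : StRR) : StX7 := by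
  classical
  obtain ⟨da, hX3⟩ := hX3
  obtain ⟨db, hX6⟩ := hX6
  refine ⟨max da db, fun d hd C₁ B c₀ CL hE V c θ θ₂ hV hc hθ hθ₂ hSF => ?_⟩
  have hp0 : 0 ≤ pH d := hE.env.p0.le
  have hp1 : pH d ≤ 1 := hE.env.p1.trans (by norm_num)
  have hd21 := hE.env.hd
  obtain ⟨η, K, hη, hη1, hK, hX6⟩ := hX6 d (le_trans (le_max_right _ _) hd) C₁ B c₀ CL hE V c θ θ₂ 1
    hV hc hθ hθ₂ hSF one_pos
  obtain ⟨C, hC, hX3⟩ := hX3 d (le_trans (le_max_left _ _) hd) η hη hη1
  set A := max (K + 2) C with hA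
  have hA1 : 1 ≤ A := hC.trans (le_max_right _ _)
  have hAK : K + 2 ≤ A := le_max_left _ _
  have hAC : C ≤ A := le_max_right _ _
  have hA0 : 0 < A := by linarith
  set δ := η / (8 * A ^ 2) with hδ
  have hδ0 : 0 < δ := by positivity
  set ρ := (θ + δ / 2) / (θ + δ) with hρ
  have hρ0 : 0 ≤ ρ := by positivity
  have hρ1 : ρ < 1 := by
    rw [hρ, div_lt_one (by positivity)]
    linarith
  obtain ⟨r₀, hr₀⟩ := exists_pow_lt_of_lt_one (show (0 : ℝ) < 1 / (2 * A) by positivity) hρ1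
  obtain ⟨n₀, hn₀, hX6⟩ := hX6 r₀
  refine ⟨A, hA1, n₀, hn₀, fun n hn M x hx => ?_⟩
  have hn1 : 1 ≤ n := hn₀.trans hn
  obtain ⟨hR1, -, hR3, -, -⟩ := hRR d n (by omega) hn1
  set L := Lam d n M with hL
  have hrr : ∀ y : Zd d, (1 : ℝ) ≤ rr n y := fun y => (hR1 y).1
  have hrr0 : ∀ y : Zd d, (0 : ℝ) < rr n y := fun y => lt_of_lt_of_le one_pos (hrr y)
  have hfe0 : ∀ y : Zd d, 0 < fe n η y := fun y => by
    have h1 := (hR3 η y hη.le).2.2.1
    have h2 : 0 < η * rr n y ^ (-(19 / 4) : ℝ) := mul_pos hη (Real.rpow_pos_of_pos (hrr0 y) _)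
    linarith
  have hg0 : ∀ y : Zd d, 0 < rr n y ^ (-(5 / 2) : ℝ) := fun y => Real.rpow_pos_of_pos (hrr0 y) _
  have hg1 : ∀ y : Zd d, rr n y ^ (-(5 / 2) : ℝ) ≤ 1 := fun y =>
    Real.rpow_le_one_of_one_le_of_nonpos (hrr y) (by norm_num)
  have hgf : ∀ y : Zd d, (rr n y ^ (-(5 / 2) : ℝ)) ^ 2 ≤ fe n η y / η := fun y => by
    rw [le_div_iff₀ hη, ← Real.rpow_natCast, ← Real.rpow_mul (hrr0 y).le, mul_comm]
    refine le_trans ?_ (hR3 η y hη.le).2.2.1
    apply mul_le_mul_of_nonneg_left _ hη.le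
    apply Real.rpow_le_rpow_of_exponent_le (hrr y)
    norm_num
  have hg' : ∀ y : Zd d, rr n y ^ (-(11 / 4) : ℝ) ≤ rr n y ^ (-(5 / 2) : ℝ) := fun y =>
    Real.rpow_le_rpow_of_exponent_le (hrr y) (by norm_num)
  have key : ∀ j : ℕ, ∀ y ∈ L, Fe L n (min (j * (δ / 2)) θ) (fe n η) y ≤
      A * rr n y ^ (-(5 / 2) : ℝ) := by
    intro j
    induction j with
    | zero =>
      intro y hy
      have h1 : min (((0 : ℕ) : ℝ) * (δ / 2)) θ = 0 := by
        rw [Nat.cast_zero, zero_mul, min_eq_left hθ.le]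
      rw [h1]
      refine le_trans (hX3 n L hn1 y hy).1 ?_
      exact mul_le_mul hAC (hg' y) (Real.rpow_pos_of_pos (hrr0 y) _).le hA0.le
    | succ j ih =>
      intro y hy
      set θj := min ((j : ℝ) * (δ / 2)) θ with hθj
      set t := min (((j + 1 : ℕ) : ℝ) * (δ / 2)) θ with ht
      have hθj0 : 0 ≤ θj := le_min (by positivity) hθ.le
      have hθjθ : θj ≤ θ := min_le_right _ _
      have ht0 : 0 ≤ t := le_min (by positivity) hθ.le
      have htθ : t ≤ θ := min_le_right _ _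
      have ht1 : t ≤ θj + δ / 2 := by
        rcases le_total ((j : ℝ) * (δ / 2)) θ with h | h
        · have e1 : θj = (j : ℝ) * (δ / 2) := min_eq_left h
          rw [e1]
          refine (min_le_left _ _).trans ?_
          push_cast
          linarith
        · have e1 : θj = θ := min_eq_right h
          rw [e1]
          linarith
      have h2A := hX1 d n L (fe n η) (fun z => rr n z ^ (-(5 / 2) : ℝ)) η A θj hn1 hp0 hp1 hη hA0
        hθj0 hfe0 hg0 hgf ih (θj + δ) (by linarith) (by rw [hδ]) y hy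
      have h2A' : Fe L n (θj + δ) (fe n η) y ≤ 2 * A * rr n y ^ (-(5 / 2) : ℝ) := h2A
      obtain ⟨hFr, hsum⟩ := hX2 d n L (fe n η) y hn1 hp0 hp1 fun z => (hfe0 z).le
      have hs : 0 < θj + δ := by linarith
      have hts : t ≤ ρ * (θj + δ) := by
        refine le_trans ht1 ?_
        rw [hρ, div_mul_eq_mul_div, le_div_iff₀ (by positivity)]
        nlinarith
      have h3 := split r₀ hFr hs ht0 htθ hts hρ0 hρ1.le (hsum (θj + δ) hs.le) (hsum t ht0)
        (hX6 n hn M y hy)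
      have h4 : ρ ^ r₀ * Fe L n (θj + δ) (fe n η) y ≤ rr n y ^ (-(5 / 2) : ℝ) := by
        have h5 : ρ ^ r₀ * (2 * A) ≤ 1 := by
          rw [lt_div_iff₀ (by positivity)] at hr₀
          exact hr₀.le
        calc ρ ^ r₀ * Fe L n (θj + δ) (fe n η) y ≤
              ρ ^ r₀ * (2 * A * rr n y ^ (-(5 / 2) : ℝ)) :=
              mul_le_mul_of_nonneg_left h2A' (by positivity)
          _ = ρ ^ r₀ * (2 * A) * rr n y ^ (-(5 / 2) : ℝ) := by ring
          _ ≤ 1 * rr n y ^ (-(5 / 2) : ℝ) := mul_le_mul_of_nonneg_right h5 (hg0 y).le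
          _ = _ := one_mul _
      have h6 : (K + 1) * rr n y ^ (-(5 / 2) : ℝ) ≤ A * rr n y ^ (-(5 / 2) : ℝ) :=
        mul_le_mul_of_nonneg_right (by linarith) (hg0 y).le
      have h7 : (K + 1) * rr n y ^ (-(5 / 2) : ℝ) =
          K * rr n y ^ (-(5 / 2) : ℝ) + rr n y ^ (-(5 / 2) : ℝ) := by ring
      linarith
  obtain ⟨j, hj⟩ := exists_nat_ge (θ / (δ / 2))
  have hj' : θ ≤ (j : ℝ) * (δ / 2) := by
    rwa [div_le_iff₀ (by positivity)] at hj
  have hfin := key j x hx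
  rw [min_eq_right hj'] at hfin
  refine le_trans (Fe_mono L n hθ.le hp0 hp1 (fun y => ?_) (fun y => (hR3 η y hη.le).2.1) x) ?_
  · unfold sB ind
    split_ifs <;> norm_num
  · refine le_trans hfin ?_
    have := mul_le_mul_of_nonneg_left (hg1 x) hA0.le
    linarith

end Pool.CB
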