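import Pool.Agent.Helper65.CL.All
import Pool.Agent.Helper65.CB.M_FrY
import Pool.Agent.Helper65.CB.M_PolV
import Pool.Agent.Helper65.CB.M_L1
import Pool.Agent.Helper65.CB.M_Vpos
import Pool.Agent.Helper65.CB.M_GS
import Pool.Agent.Helper65.CB.M_GSt
import Pool.Agent.Helper65.CB.M_GSn
import Pool.Agent.Helper65.CB.M_GSk
import Pool.Agent.Helper65.CB.M_Cs
import Pool.Agent.Helper65.CB.M_Cmp2
import Pool.Agent.Helper65.CB.M_LamT
import Pool.Agent.Helper65.CB.M_gsC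
import Pool.Agent.Helper65.CB.M_Scl
import Pool.Agent.Helper65.CB.M_L3
import Pool.Agent.Helper65.CB.M_Mink
import Pool.Agent.Helper65.CB.M_RadP
import Pool.Agent.Helper65.CB.M_CoM
import Pool.Agent.Helper65.CB.M_SF
import Pool.Agent.Helper65.CB.M_RR
import Pool.Agent.Helper65.CB.M_X1
import Pool.Agent.Helper65.CB.M_X2
import Pool.Agent.Helper65.CB.M_X3
import Pool.Agent.Helper65.CB.M_X4
import Pool.Agent.Helper65.CB.M_X5
import Pool.Agent.Helper65.CB.M_Avg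
import Pool.Agent.Helper65.CB.M_X6
import Pool.Agent.Helper65.CB.M_X7
import Pool.Agent.Helper65.CB.M_UB
import Pool.Agent.Helper65.CB.M_Rb
import Pool.Agent.Helper65.CB.M_Bbox3
import Pool.Agent.Helper65.CB.M_Bfin
import Pool.Agent.Helper65.CB.M_BKf
import Pool.Agent.Helper65.CB.M_LB3

/-! # Project CB (MP_65faa7): the modules together -/

set_option autoImplicit false

namespace Pool.CB.A

open Pool.CL Pool.CB Pool.CL.A

theorem bFrY : StFrY := hFrY aY aMom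
theorem bPolV : StPolV := hPolV
theorem bL1 : StL1 := hL1 bFrY bPolV aCmp aAr
theorem bVpos : StVpos := hVpos bL1 aT0 BB.hX2
theorem bGS : StGS := hGS aHinv
theorem bGSt : StGSt := hGSt bGS aHinv
theorem bGSn : StGSn := hGSn bGS
theorem bGSk : StGSk := hGSk bGS
theorem bLamT : StLamT := hLamT aTr bGSt
theorem bgsC : StgsC := hgsC
theorem bScl : StScl := hScl
theorem bMink : StMink := hMink
theorem bRadP : StRadP := hRadP
theorem bCoM : StCoM := hCoM bGS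
theorem bRR : StRR := hRR
theorem bX2 : Pool.CB.StX2 := Pool.CB.hX2
theorem bX4 : StX4 := hX4 aTr bRR
theorem bAvg : StAvg := hAvg bRR

theorem bCs (hSin : StSin) (hDens : Pool.CN.StDens) : StCs := hCs hSin hDens aT0 bGS bGSn bGSk
theorem bCmp2 (hCC : StCC) : StCmp2 := hCmp2 hCC aT0 bGS bGSn
theorem bL3 (hCC : StCC) : StL3 := hL3 bL1 (bCmp2 hCC) bLamT bgsC bScl hCC BB.hBasic
theorem bSF (hCC : StCC) (hS7 : StS7) : StSF :=
  hSF (bL3 hCC) bMink bRadP bCoM hS7 bVpos bFrY bLamT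
theorem bX1 (hTGh : Pool.CM.StTGh) : StX1 := hX1 (hBKf hTGh) bRR
theorem bX3 (hTGh : Pool.CM.StTGh) (hK2 : StK2) : StX3 := hX3 (bX1 hTGh) bX2 bRR hK2 BB.wCp
theorem bX5 (hTGh : Pool.CM.StTGh) (hK2 : StK2) (hT0f : StT0f) : StX5 :=
  hX5 hT0f (bX3 hTGh hK2) bX4 bRR

section

variable (hCC : StCC) (hSin : StSin) (hDens : Pool.CN.StDens) (hTGh : Pool.CM.StTGh)
  (hK2 : StK2) (hT0f : StT0f) (hS6 : StS6) (hS7 : StS7) (hReg : StReg) (hYeq : StYeq)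
  (hLowS : Pool.CM.StLowS) (hLT : StLTd)

include hCC hTGh hK2 hT0f hS6 in
theorem bX7 : StX7 :=
  hX7 (bX1 hTGh) bX2 (bX3 hTGh hK2) (hX6 hS6 (bL3 hCC) bCoM (bX3 hTGh hK2) bX4
    (bX5 hTGh hK2 hT0f) bAvg bRR bVpos) bRR

include hCC hSin hDens hTGh hK2 hT0f hS6 hS7 hReg hYeq in
theorem bUB : StUB :=
  hUB (bX7 hCC hTGh hK2 hT0f hS6) (bSF hCC hS7) (aVf hReg) (aD1 hReg hYeq) (bCs hSin hDens)

include hCC hSin hDens hTGh hK2 hT0f hS6 hS7 hReg hYeq in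
theorem bRb : StRb :=
  hRb (bUB hCC hSin hDens hTGh hK2 hT0f hS6 hS7 hReg hYeq) (bX3 hTGh hK2) (bL3 hCC) bX4 bRR
    (aVf hReg) (aD1 hReg hYeq) (bCs hSin hDens) BB.hLow

include hCC hSin hDens hTGh hK2 hT0f hS6 hS7 hReg hYeq hLowS in
theorem bBbox : StBbox :=
  hBbox3 (bUB hCC hSin hDens hTGh hK2 hT0f hS6 hS7 hReg hYeq) (hLB3 hLowS aTr bRR)
    (bRb hCC hSin hDens hTGh hK2 hT0f hS6 hS7 hReg hYeq) (bL3 hCC)
    (bX7 hCC hTGh hK2 hT0f hS6) (bSF hCC hS7) (aVf hReg) (aD1 hReg hYeq) (bCs hSin hDens)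

include hCC hSin hDens hTGh hK2 hT0f hS6 hS7 hReg hYeq hLowS hLT in
/-- the bulk limit -/
theorem bBfin : StBfin :=
  hBfin (aEnvC hLT) (bBbox hCC hSin hDens hTGh hK2 hT0f hS6 hS7 hReg hYeq hLowS)
    BB.hLawE BB.hPc bRR

end

end Pool.CB.A
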