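import Pool.Agent.Helper65.CL.StE

/-!
# Project CB (MP_65faa7): the bulk case. Definitions
Paper proof: /team-store/MP_65faa7-bulk.md
-/

set_option autoImplicit false

open scoped BigOperators ENNReal Topology
open Pool.LE Pool.NL Pool.CL Filter MeasureTheory

namespace Pool.CB

/-- the big box `[-Mn, (M+1)n-1]^d` -/
noncomputable def Lam (d n M : ℕ) : Finset (Zd d) :=
  Fintype.piFinset fun _ => Finset.Ico (-((M * n : ℕ) : ℤ)) ((((M + 1) * n : ℕ)) : ℤ)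

/-- maximum norm distance to the box `[0,n-1]^d` -/
def dq {d : ℕ} (n : ℕ) (x : Zd d) : ℕ :=
  Finset.univ.sup fun i => (max (-x i) (x i - ((n : ℤ) - 1))).toNat

/-- rescaled distance -/
noncomputable def rr {d : ℕ} (n : ℕ) (x : Zd d) : ℝ := 1 + (dq n x : ℝ) / n

/-- the source set -/
noncomputable def sB {d : ℕ} (n : ℕ) (x : Zd d) : ℝ := ind (x ∈ Bn d n)

/-- the source field -/
noncomputable def fe {d : ℕ} (n : ℕ) (η : ℝ) (x : Zd d) : ℝ :=
  sB n x + η * rr n x ^ (-(19 / 4) : ℝ)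

/-- rescaled moment functions -/
noncomputable def Fr {d : ℕ} (L : Finset (Zd d)) (n r : ℕ) (f : Zd d → ℝ) (x : Zd d) : ℝ :=
  ex (ES L) (pH d) (fun ω => (ms f (clu L ω x)) ^ (r + 1)) /
    ((n : ℝ) ^ (2 + 4 * r) * (r.factorial : ℝ))

/-- rescaled exponential moment -/
noncomputable def Fe {d : ℕ} (L : Finset (Zd d)) (n : ℕ) (θ : ℝ) (f : Zd d → ℝ) (x : Zd d) : ℝ :=
  ex (ES L) (pH d) (fun ω => ms f (clu L ω x) *
    Real.exp (θ * ms f (clu L ω x) / (n : ℝ) ^ 4)) / (n : ℝ) ^ 2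

/-! ## simple random walk -/

/-- the kernel of `2d - J` -/
noncomputable def AS (d : ℕ) (u v : Zd d) : ℝ := 2 * d * ind (u = v) - ind (v ∈ nb u)

/-- the Green kernel of the walk killed outside `L` -/
noncomputable def GS {d : ℕ} (L : Finset (Zd d)) : Zd d → Zd d → ℝ := kinv L (AS d)

/-- the rescaled Green operator -/
noncomputable def TS {d : ℕ} (L : Finset (Zd d)) (n : ℕ) (c : ℝ) (f : Zd d → ℝ) (x : Zd d) : ℝ :=
  c / (n : ℝ) ^ 2 * ap L (GS L) f x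

/-- coefficient functions of `u = T[θ f + (V/2) u²]`: `u = ∑ co r θ^(r+1) / (r+1)` -/
noncomputable def co {d : ℕ} (T : (Zd d → ℝ) → Zd d → ℝ) (V : ℝ) (f : Zd d → ℝ) : ℕ → Zd d → ℝ
  | 0 => T f
  | r + 1 => fun x => V * T (fun v => ∑ i : Fin (r + 1),
      co T V f i v * co T V f (r - i) v / (((r - i : ℕ) : ℝ) + 1)) x

/-- partial sums of `u` -/
noncomputable def Up {d : ℕ} (T : (Zd d → ℝ) → Zd d → ℝ) (V : ℝ) (f : Zd d → ℝ) (N : ℕ) (θ : ℝ)
    (x : Zd d) : ℝ := ∑ r ∈ Finset.range N, co T V f r x * θ ^ (r + 1) / ((r : ℝ) + 1)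

/-- partial sums of the derivative -/
noncomputable def Fp {d : ℕ} (T : (Zd d → ℝ) → Zd d → ℝ) (V : ℝ) (f : Zd d → ℝ) (N : ℕ) (θ : ℝ)
    (x : Zd d) : ℝ := ∑ r ∈ Finset.range N, co T V f r x * θ ^ r

end Pool.CB
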