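import Pool.Agent.Helper65.CB.StC

/-! # Project CB, module gsC: the sources of the big boxes, seen in `Bn`, are in the class -/

set_option autoImplicit false

open scoped BigOperators ENNReal Topology
open Pool.LE Pool.NL Pool.CL Filter MeasureTheory

namespace Pool.CB

namespace gsCM

theorem lip0 (s t : ℝ) (hs : 1 ≤ s) (hst : s ≤ t) :
    |s ^ (-(19 / 4) : ℝ) - t ^ (-(19 / 4) : ℝ)| ≤ 19 / 4 * |s - t| := by
  have hs0 : 0 < s := by linarith
  have ht0 : 0 < t := by linarith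
  have hts : 0 < t / s := by positivity
  have h1 : t ^ (-(19 / 4) : ℝ) = s ^ (-(19 / 4) : ℝ) * (t / s) ^ (-(19 / 4) : ℝ) := by
    rw [← Real.mul_rpow hs0.le hts.le]
    congr 1
    field_simp
  have h1s : 1 ≤ t / s := by
    rw [le_div_iff₀ hs0]
    linarith
  have h2 : (t / s) ^ (-(19 / 4) : ℝ) ≤ 1 :=
    Real.rpow_le_one_of_one_le_of_nonpos h1s (by norm_num)
  have h3 : 1 - 19 / 4 * (t / s - 1) ≤ (t / s) ^ (-(19 / 4) : ℝ) := by
    rw [Real.rpow_def_of_pos hts]
    have h4 := Real.log_le_sub_one_of_pos hts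
    have h5 := Real.add_one_le_exp (Real.log (t / s) * (-(19 / 4)))
    linarith
  have h4 : s ^ (-(19 / 4) : ℝ) ≤ 1 := Real.rpow_le_one_of_one_le_of_nonpos hs (by norm_num)
  have h5 : 0 ≤ s ^ (-(19 / 4) : ℝ) := Real.rpow_nonneg hs0.le _
  have h6 : s ^ (-(19 / 4) : ℝ) - t ^ (-(19 / 4) : ℝ) =
      s ^ (-(19 / 4) : ℝ) * (1 - (t / s) ^ (-(19 / 4) : ℝ)) := by
    rw [h1]
    ring
  have h7 : t / s - 1 ≤ t - s := by
    have h8 : t / s - 1 = (t - s) / s := by
      field_simp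
    rw [h8, div_le_iff₀ hs0]
    nlinarith
  rw [h6, abs_of_nonneg (mul_nonneg h5 (by linarith)), abs_of_nonpos (by linarith)]
  calc s ^ (-(19 / 4) : ℝ) * (1 - (t / s) ^ (-(19 / 4) : ℝ))
      ≤ 1 * (1 - (t / s) ^ (-(19 / 4) : ℝ)) := by
        refine mul_le_mul_of_nonneg_right h4 (by linarith)
    _ ≤ 19 / 4 * -(s - t) := by linarith

theorem lip (s t : ℝ) (hs : 1 ≤ s) (ht : 1 ≤ t) :
    |s ^ (-(19 / 4) : ℝ) - t ^ (-(19 / 4) : ℝ)| ≤ 19 / 4 * |s - t| := by
  rcases le_total s t with h | h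
  · exact lip0 s t hs h
  · rw [abs_sub_comm, abs_sub_comm s t]
    exact lip0 t s ht h

/-- the distance in rescaled coordinates -/
noncomputable def dz {d : ℕ} (M : ℕ) (z : Fin d → ℝ) : ℝ :=
  ‖(fun i => max 0 (max ((M : ℝ) - (2 * M + 1) * z i) ((2 * M + 1) * z i - (M + 1))) : Fin d → ℝ)‖

theorem dz_cont (d M : ℕ) : Continuous (dz (d := d) M) := by
  unfold dz
  refine continuous_norm.comp (continuous_pi fun i => ?_)
  exact continuous_const.max (((continuous_const.sub (continuous_const.mul (continuous_apply i)))).max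
    ((continuous_const.mul (continuous_apply i)).sub continuous_const))

theorem dz_nonneg {d : ℕ} (M : ℕ) (z : Fin d → ℝ) : 0 ≤ dz M z := norm_nonneg _

theorem dq_le {d : ℕ} (n m : ℕ) (x : Zd d) :
    dq n x ≤ m ↔ ∀ i, -(m : ℤ) ≤ x i ∧ x i < (n : ℤ) + m := by
  unfold dq
  rw [Finset.sup_le_iff]
  refine ⟨fun h i => ?_, fun h i _ => ?_⟩
  · have h1 := h i (Finset.mem_univ _)
    rw [Int.toNat_le] at h1
    have h2 := (max_le_iff.1 h1)
    constructor <;> linarith [h2.1, h2.2]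
  · rw [Int.toNat_le]
    have h2 := h i
    refine max_le ?_ ?_ <;> linarith [h2.1, h2.2]

theorem dq_zero {d : ℕ} (n : ℕ) (x : Zd d) : dq n x = 0 ↔ x ∈ Bn d n := by
  rw [← Nat.le_zero, dq_le]
  unfold Bn
  rw [Fintype.mem_piFinset]
  simp

theorem toNat_real (a : ℤ) : ((a.toNat : ℕ) : ℝ) = max 0 (a : ℝ) := by
  rcases le_total 0 a with h | h
  · rw [max_eq_right (by exact_mod_cast h)]
    have := Int.toNat_of_nonneg h
    exact_mod_cast this
  · rw [max_eq_left (by exact_mod_cast h), Int.toNat_of_nonpos h]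
    simp

theorem dq_norm {d : ℕ} (hd : 1 ≤ d) (n : ℕ) (x : Zd d) : (dq n x : ℝ) / n =
    ‖(fun i => ((max (-x i) (x i - ((n : ℤ) - 1))).toNat : ℝ) / n : Fin d → ℝ)‖ := by
  have : Nonempty (Fin d) := ⟨⟨0, hd⟩⟩
  apply le_antisymm
  · obtain ⟨i, -, hi⟩ := Finset.exists_mem_eq_sup (Finset.univ : Finset (Fin d))
      Finset.univ_nonempty (fun i => (max (-x i) (x i - ((n : ℤ) - 1))).toNat)
    have h1 : dq n x = (max (-x i) (x i - ((n : ℤ) - 1))).toNat := hi
    rw [h1]
    have h2 := norm_le_pi_norm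
      (fun i => ((max (-x i) (x i - ((n : ℤ) - 1))).toNat : ℝ) / n : Fin d → ℝ) i
    refine le_trans ?_ h2
    exact le_abs_self _
  · rw [pi_norm_le_iff_of_nonneg (by positivity)]
    intro i
    rw [Real.norm_of_nonneg (by positivity)]
    have h1 : (max (-x i) (x i - ((n : ℤ) - 1))).toNat ≤ dq n x :=
      Finset.le_sup (f := fun i => (max (-x i) (x i - ((n : ℤ) - 1))).toNat) (Finset.mem_univ i)
    have h2 : ((max (-x i) (x i - ((n : ℤ) - 1))).toNat : ℝ) ≤ (dq n x : ℝ) := by exact_mod_cast h1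
    gcongr

/-- the two distances are close -/
theorem dq_dz {d : ℕ} (hd : 1 ≤ d) (M N n : ℕ) (hn : 1 ≤ n) (hN : (2 * M + 1) * n ≤ N)
    (hN' : N < (2 * M + 1) * n + (2 * M + 1)) (y : Zd d) (hy : y ∈ Bn d N) :
    |(dq n (fun i => y i - (M * n : ℕ)) : ℝ) / n - dz M (fun i => ((y i : ℝ) + 1) / ((N : ℝ) + 1))| ≤
      (2 * M + 2) / n := by
  have hn0 : (0 : ℝ) < n := by exact_mod_cast hn
  rw [dq_norm hd]
  unfold dz
  refine (abs_norm_sub_norm_le _ _).trans ?_
  rw [pi_norm_le_iff_of_nonneg (by positivity)]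
  intro i
  rw [Real.norm_eq_abs]
  unfold Bn at hy
  rw [Fintype.mem_piFinset] at hy
  have hyi := Finset.mem_Ico.1 (hy i)
  have hy0 : (0 : ℝ) ≤ y i := by exact_mod_cast hyi.1
  have hy1 : (y i : ℝ) + 1 ≤ N := by
    have := hyi.2
    exact_mod_cast this
  have hNr : (2 * (M : ℝ) + 1) * n ≤ N := by exact_mod_cast hN
  have hNr' : (N : ℝ) + 1 ≤ (2 * (M : ℝ) + 1) * n + (2 * M + 1) := by
    have : N + 1 ≤ (2 * M + 1) * n + (2 * M + 1) := hN'
    exact_mod_cast this
  have hM0 : (0 : ℝ) ≤ M := by positivity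
  set A : ℝ := 2 * (M : ℝ) + 1 with hA
  have hN1 : (0 : ℝ) < (N : ℝ) + 1 := by positivity
  -- the rescaled coordinate
  have hz : |(y i : ℝ) / n - A * (((y i : ℝ) + 1) / ((N : ℝ) + 1))| ≤ A / n := by
    have e1 : (y i : ℝ) / n - A * (((y i : ℝ) + 1) / ((N : ℝ) + 1)) =
        ((y i : ℝ) * ((N : ℝ) + 1 - A * n)) / (n * ((N : ℝ) + 1)) - A / ((N : ℝ) + 1) := by
      field_simp
      ring
    have h2 : 0 ≤ ((y i : ℝ) * ((N : ℝ) + 1 - A * n)) / (n * ((N : ℝ) + 1)) := by
      have : 0 ≤ (N : ℝ) + 1 - A * n := by linarith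
      positivity
    have h3 : ((y i : ℝ) * ((N : ℝ) + 1 - A * n)) / (n * ((N : ℝ) + 1)) ≤ A / n := by
      rw [div_le_div_iff₀ (by positivity) hn0]
      have h4 : (y i : ℝ) * ((N : ℝ) + 1 - A * n) ≤ ((N : ℝ) + 1) * A := by
        refine mul_le_mul (by linarith) (by linarith) (by linarith) hN1.le
      calc (y i : ℝ) * ((N : ℝ) + 1 - A * n) * n ≤ (((N : ℝ) + 1) * A) * n := by
            exact mul_le_mul_of_nonneg_right h4 hn0.le
        _ = A * (n * ((N : ℝ) + 1)) := by ring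
    have h5 : 0 ≤ A / ((N : ℝ) + 1) := by positivity
    have h6 : A / ((N : ℝ) + 1) ≤ A / n := by
      refine div_le_div_of_nonneg_left (by positivity) hn0 ?_
      have : (n : ℝ) ≤ A * n := by
        rw [hA]
        nlinarith
      linarith
    rw [e1, abs_le]
    constructor <;> linarith
  have hx : ((max (-(y i - (M * n : ℕ))) ((y i - (M * n : ℕ)) - ((n : ℤ) - 1))).toNat : ℝ) / n =
      max 0 (max ((M : ℝ) - (y i : ℝ) / n) ((y i : ℝ) / n - (M + 1) + 1 / n)) := by
    rw [toNat_real]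
    push_cast
    rw [← max_div_div_right hn0.le, ← max_div_div_right hn0.le, zero_div]
    congr 2
    · field_simp
      ring
    · field_simp
      ring
  show |((max (-(y i - (M * n : ℕ))) ((y i - (M * n : ℕ)) - ((n : ℤ) - 1))).toNat : ℝ) / n -
    max 0 (max ((M : ℝ) - A * (((y i : ℝ) + 1) / ((N : ℝ) + 1)))
      (A * (((y i : ℝ) + 1) / ((N : ℝ) + 1)) - (M + 1)))| ≤ (2 * M + 2) / n
  rw [hx]
  have hAn : A / n + 1 / n = (2 * M + 2) / n := by
    rw [hA]
    ring
  have h1n : 0 < 1 / (n : ℝ) := by positivity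
  refine (abs_max_sub_max_le_max _ _ _ _).trans (max_le ?_ ?_)
  · rw [sub_zero, abs_zero]
    positivity
  · refine (abs_max_sub_max_le_max _ _ _ _).trans (max_le ?_ ?_)
    · rw [← hAn]
      have h2 : (M : ℝ) - (y i : ℝ) / n - ((M : ℝ) - A * (((y i : ℝ) + 1) / ((N : ℝ) + 1))) =
        -((y i : ℝ) / n - A * (((y i : ℝ) + 1) / ((N : ℝ) + 1))) := by ring
      rw [h2, abs_neg]
      linarith
    · rw [← hAn]
      have h2 : (y i : ℝ) / n - (M + 1) + 1 / n - (A * (((y i : ℝ) + 1) / ((N : ℝ) + 1)) - (M + 1)) =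
        ((y i : ℝ) / n - A * (((y i : ℝ) + 1) / ((N : ℝ) + 1))) + 1 / n := by ring
      rw [h2]
      refine (abs_add_le _ _).trans ?_
      rw [abs_of_pos h1n]
      linarith

open Classical in
/-- number of points near the small box -/
theorem near_card {d : ℕ} (M N n m : ℕ) :
    ∑ y ∈ Bn d N, (if 0 < dq n (fun i => y i - (M * n : ℕ)) ∧
      dq n (fun i => y i - (M * n : ℕ)) ≤ m then (1 : ℝ) else 0) ≤
      ((n : ℝ) + 2 * m) ^ d - (n : ℝ) ^ d := by
  let P : ℕ → Finset (Zd d) := fun m => Fintype.piFinset fun _ =>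
    Finset.Ico (((M * n : ℕ) : ℤ) - (m : ℤ)) (((M * n : ℕ) : ℤ) + (n : ℤ) + m)
  have hP : ∀ (m : ℕ) (y : Zd d), y ∈ P m ↔ dq n (fun i => y i - (M * n : ℕ)) ≤ m := by
    intro m y
    rw [dq_le, Fintype.mem_piFinset]
    refine forall_congr' fun i => ?_
    rw [Finset.mem_Ico]
    constructor <;> intro h <;> constructor <;> linarith [h.1, h.2]
  have hc : ∀ m : ℕ, (P m).card = (n + 2 * m) ^ d := by
    intro m
    simp only [P, Fintype.card_piFinset, Int.card_Ico, Finset.prod_const, Finset.card_univ,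
      Fintype.card_fin]
    congr 1
    omega
  rw [← Finset.sum_filter, Finset.sum_const, nsmul_one]
  have hsub : (Bn d N).filter (fun y => 0 < dq n (fun i => y i - (M * n : ℕ)) ∧
      dq n (fun i => y i - (M * n : ℕ)) ≤ m) ⊆ P m \ P 0 := by
    intro y hy
    rw [Finset.mem_filter] at hy
    rw [Finset.mem_sdiff, hP, hP]
    exact ⟨hy.2.2, by omega⟩
  have h0 : P 0 ⊆ P m := by
    intro y hy
    rw [hP] at hy ⊢
    omega
  have h1 := Finset.card_sdiff_add_card_eq_card h0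
  have h2 := Finset.card_le_card hsub
  rw [hc, hc] at h1
  have h3 : ((P m \ P 0).card : ℝ) + (n : ℝ) ^ d = ((n : ℝ) + 2 * m) ^ d := by
    have h4 : (((P m \ P 0).card + (n + 2 * 0) ^ d : ℕ) : ℝ) = (((n + 2 * m) ^ d : ℕ) : ℝ) := by
      rw [h1]
    push_cast at h4
    simpa using h4
  have h4 : (((Bn d N).filter (fun y => 0 < dq n (fun i => y i - (M * n : ℕ)) ∧
      dq n (fun i => y i - (M * n : ℕ)) ≤ m)).card : ℝ) ≤ ((P m \ P 0).card : ℝ) := by
    exact_mod_cast h2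
  linarith

theorem rr_ge {d : ℕ} (n : ℕ) (x : Zd d) : 1 ≤ rr n x := by
  unfold rr
  have : 0 ≤ (dq n x : ℝ) / n := by positivity
  linarith

theorem sB_mem {d : ℕ} (n : ℕ) (x : Zd d) : 0 ≤ sB n x ∧ sB n x ≤ 1 := by
  unfold sB ind
  split_ifs <;> norm_num

theorem gs_mem {d : ℕ} (n : ℕ) (α β γ : ℝ) (hα : 0 ≤ α) (hβ : 0 ≤ β) (hγ : 0 ≤ γ)
    (hs : α + β + γ ≤ 1) (x : Zd d) : 0 ≤ gs n α β γ x ∧ gs n α β γ x ≤ 1 := by
  unfold gs
  have h1 := sB_mem n x
  have h2 := rr_ge n x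
  have h3 : rr n x ^ (-(19 / 4) : ℝ) ≤ 1 :=
    Real.rpow_le_one_of_one_le_of_nonpos h2 (by norm_num)
  have h4 : 0 ≤ rr n x ^ (-(19 / 4) : ℝ) := Real.rpow_nonneg (by linarith) _
  have h5 : α * sB n x ≤ α := mul_le_of_le_one_right hα h1.2
  have h6 : γ * rr n x ^ (-(19 / 4) : ℝ) ≤ γ := mul_le_of_le_one_right hγ h3
  have h7 : 0 ≤ α * sB n x := mul_nonneg hα h1.1
  have h8 : 0 ≤ γ * rr n x ^ (-(19 / 4) : ℝ) := mul_nonneg hγ h4
  constructor <;> linarith

/-- pointwise comparison with the limit function -/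
theorem point {d : ℕ} (n m : ℕ) (α β γ δ e z : ℝ) (hα : 0 ≤ α) (hγ : 0 ≤ γ) (hα1 : α ≤ 1)
    (hγ1 : γ ≤ 1) (hδ : 0 < δ) (he : 0 ≤ e) (hz : 0 ≤ z) (x : Zd d) (hn : 1 ≤ n)
    (hm : δ + e ≤ (m : ℝ) / n) (hx : |(dq n x : ℝ) / n - z| ≤ e) :
    |gs n α β γ x - (α * max 0 (1 - z / δ) + β + γ * (1 + z) ^ (-(19 / 4) : ℝ))| ≤
      (e / δ + 19 / 4 * e) + (if 0 < dq n x ∧ dq n x ≤ m then (1 : ℝ) else 0) := by
  have hn0 : (0 : ℝ) < n := by exact_mod_cast hn
  have h1 : |sB n x - max 0 (1 - z / δ)| ≤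
      e / δ + (if 0 < dq n x ∧ dq n x ≤ m then (1 : ℝ) else 0) := by
    have hed : 0 ≤ e / δ := by positivity
    have hzd : 0 ≤ z / δ := by positivity
    by_cases h0 : dq n x = 0
    · have hs : sB n x = 1 := by
        unfold sB ind
        rw [if_pos ((dq_zero n x).1 h0)]
      rw [hs, if_neg (by omega), add_zero]
      rw [h0] at hx
      simp only [Nat.cast_zero, zero_div, zero_sub, abs_neg] at hx
      have hze : z / δ ≤ e / δ := by
        have := (le_abs_self z).trans hx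
        gcongr
      rw [abs_le]
      constructor
      · have : max 0 (1 - z / δ) ≤ 1 := max_le (by norm_num) (by linarith)
        linarith
      · have : 1 - z / δ ≤ max 0 (1 - z / δ) := le_max_right _ _
        linarith
    · have hs : sB n x = 0 := by
        unfold sB ind
        rw [if_neg (fun h => h0 ((dq_zero n x).2 h))]
      rw [hs, zero_sub, abs_neg, abs_of_nonneg (le_max_left _ _)]
      by_cases hmm : dq n x ≤ m
      · rw [if_pos ⟨Nat.pos_of_ne_zero h0, hmm⟩]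
        refine max_le (by linarith) (by linarith)
      · rw [if_neg (fun h => hmm h.2), add_zero]
        have h2 : (m : ℝ) / n < (dq n x : ℝ) / n := by
          have : (m : ℝ) < dq n x := by exact_mod_cast not_le.1 hmm
          gcongr
        have h3 := (abs_le.1 hx).2
        have h4 : δ ≤ z := by linarith
        have h5 : 1 ≤ z / δ := by
          rw [le_div_iff₀ hδ]
          linarith
        refine max_le hed (by linarith)
  have h2 : |rr n x ^ (-(19 / 4) : ℝ) - (1 + z) ^ (-(19 / 4) : ℝ)| ≤ 19 / 4 * e := by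
    refine (lip _ _ (rr_ge n x) (by linarith)).trans ?_
    have h3 : rr n x - (1 + z) = (dq n x : ℝ) / n - z := by
      unfold rr
      ring
    rw [h3]
    linarith
  have h3 : gs n α β γ x - (α * max 0 (1 - z / δ) + β + γ * (1 + z) ^ (-(19 / 4) : ℝ)) =
      α * (sB n x - max 0 (1 - z / δ)) +
        γ * (rr n x ^ (-(19 / 4) : ℝ) - (1 + z) ^ (-(19 / 4) : ℝ)) := by
    unfold gs
    ring
  rw [h3]
  refine (abs_add_le _ _).trans ?_
  rw [abs_mul, abs_mul, abs_of_nonneg hα, abs_of_nonneg hγ]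
  have h4 : α * |sB n x - max 0 (1 - z / δ)| ≤ 1 * |sB n x - max 0 (1 - z / δ)| := by gcongr
  have h5 : γ * |rr n x ^ (-(19 / 4) : ℝ) - (1 + z) ^ (-(19 / 4) : ℝ)| ≤
      1 * |rr n x ^ (-(19 / 4) : ℝ) - (1 + z) ^ (-(19 / 4) : ℝ)| := by gcongr
  linarith

end gsCM

open gsCM

theorem hgsC : StgsC := by
  classical
  intro d M α β γ hd hM hα hβ hγ hs
  refine ⟨fun N y => gs (N / (2 * M + 1)) α β γ (fun i => y i - (M * (N / (2 * M + 1)) : ℕ)),
    fun N y => gs_mem _ α β γ hα hβ hγ hs _, ⟨⟨1, fun N y => ?_⟩, fun ε hε => ?_⟩, fun n hn y => ?_⟩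
  · have h := gs_mem (N / (2 * M + 1)) α β γ hα hβ hγ hs
      (fun i => y i - (M * (N / (2 * M + 1)) : ℕ))
    rw [abs_of_nonneg h.1]
    exact h.2
  · have hd0 : (0 : ℝ) < d := by exact_mod_cast hd
    -- the width
    set δ : ℝ := Real.log (1 + ε / 4) / (4 * d) with hδdef
    have hδ : 0 < δ := by
      have : 0 < Real.log (1 + ε / 4) := Real.log_pos (by linarith)
      positivity
    have hδd : (1 + 4 * δ) ^ d ≤ 1 + ε / 4 := by
      have h1 : 1 + 4 * δ ≤ Real.exp (4 * δ) := by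
        have := Real.add_one_le_exp (4 * δ)
        linarith
      calc (1 + 4 * δ) ^ d ≤ (Real.exp (4 * δ)) ^ d := by gcongr
        _ = Real.exp (d * (4 * δ)) := by rw [Real.exp_nat_mul]
        _ = 1 + ε / 4 := by
          have h2 : (d : ℝ) * (4 * δ) = Real.log (1 + ε / 4) := by
            rw [hδdef]
            field_simp
          rw [h2, Real.exp_log (by linarith)]
    obtain ⟨n₁, hn₁⟩ := exists_nat_ge (max (max ((2 * M + 2) / δ / (ε / 4))
      (19 / 4 * (2 * M + 2) / (ε / 4))) (max ((2 * M + 3) / δ) 1))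
    have hg : Continuous (fun z : Fin d → ℝ => α * max 0 (1 - dz M z / δ) + β +
        γ * (1 + dz M z) ^ (-(19 / 4) : ℝ)) := by
      have hc := dz_cont d M
      refine ((continuous_const.mul (continuous_const.max
        (continuous_const.sub (hc.div_const _)))).add continuous_const).add
        (continuous_const.mul ((continuous_const.add hc).rpow_const fun z => Or.inl ?_))
      have h := dz_nonneg M z
      show (1 : ℝ) + dz M z ≠ 0
      exact ne_of_gt (by linarith)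
    refine ⟨_, hg, (2 * M + 1) * n₁, fun N hN => ?_⟩
    set n : ℕ := N / (2 * M + 1) with hndef
    have hn₁n : n₁ ≤ n := by
      rw [hndef, Nat.le_div_iff_mul_le (by omega)]
      linarith
    have hn : (max (max ((2 * M + 2) / δ / (ε / 4)) (19 / 4 * (2 * M + 2) / (ε / 4)))
        (max ((2 * M + 3) / δ) 1) : ℝ) ≤ n := hn₁.trans (by exact_mod_cast hn₁n)
    have ha := (le_max_left _ _).trans ((le_max_left _ _).trans hn)
    have hb := (le_max_right _ _).trans ((le_max_left _ _).trans hn)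
    have hc := (le_max_left _ _).trans ((le_max_right _ _).trans hn)
    have hone := (le_max_right _ _).trans ((le_max_right _ _).trans hn)
    have hn1 : 1 ≤ n := by exact_mod_cast hone
    have hn0 : (0 : ℝ) < n := by linarith
    have hNn : (2 * M + 1) * n ≤ N := Nat.mul_div_le N (2 * M + 1)
    have hNn' : N < (2 * M + 1) * n + (2 * M + 1) := Nat.lt_mul_div_succ N (by omega)
    have hnN : n ≤ N := Nat.div_le_self _ _
    have hnN' : (n : ℝ) ≤ N := by exact_mod_cast hnN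
    have hN0 : (0 : ℝ) < N := by linarith
    set e : ℝ := (2 * M + 2) / n with he
    have he0 : 0 ≤ e := by positivity
    set m : ℕ := ⌈δ * n⌉₊ + (2 * M + 2) with hm
    have hm1 : δ + e ≤ (m : ℝ) / n := by
      rw [he, hm, le_div_iff₀ hn0, add_mul, div_mul_cancel₀ _ hn0.ne']
      push_cast
      have := Nat.le_ceil (δ * n)
      linarith
    have hm2 : (m : ℝ) / n ≤ 2 * δ := by
      rw [hm, div_le_iff₀ hn0]
      push_cast
      have h1 := (Nat.ceil_lt_add_one (show 0 ≤ δ * n by positivity)).le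
      rw [div_le_iff₀ hδ] at hc
      linarith
    have hE1 : e / δ ≤ ε / 4 := by
      rw [he, div_right_comm, div_le_iff₀ hn0]
      rw [div_le_iff₀ (by positivity)] at ha
      linarith
    have hE2 : 19 / 4 * e ≤ ε / 4 := by
      rw [he, ← mul_div_assoc, div_le_iff₀ hn0]
      rw [div_le_iff₀ (by positivity)] at hb
      linarith
    have hsum : ∑ y ∈ Bn d N, |gs n α β γ (fun i => y i - (M * n : ℕ)) -
        (α * max 0 (1 - dz M (fun i => ((y i : ℝ) + 1) / ((N : ℝ) + 1)) / δ) + β +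
          γ * (1 + dz M (fun i => ((y i : ℝ) + 1) / ((N : ℝ) + 1))) ^ (-(19 / 4) : ℝ))| ≤
        (N : ℝ) ^ d * (e / δ + 19 / 4 * e) + (((n : ℝ) + 2 * m) ^ d - (n : ℝ) ^ d) := by
      calc _ ≤ ∑ y ∈ Bn d N, ((e / δ + 19 / 4 * e) +
            (if 0 < dq n (fun i => y i - (M * n : ℕ)) ∧
              dq n (fun i => y i - (M * n : ℕ)) ≤ m then (1 : ℝ) else 0)) := by
            refine Finset.sum_le_sum fun y hy => ?_
            exact point n m α β γ δ e _ hα hγ (by linarith) (by linarith) hδ he0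
              (dz_nonneg M _) _ hn1 hm1 (dq_dz hd M N n hn1 hNn hNn' y hy)
        _ ≤ _ := by
            rw [Finset.sum_add_distrib, Finset.sum_const, nsmul_eq_mul]
            have hcard : ((Bn d N).card : ℝ) = (N : ℝ) ^ d := by
              unfold Bn
              rw [Fintype.card_piFinset]
              simp
            rw [hcard]
            have := near_card (d := d) M N n m
            linarith
    have hlast : ((n : ℝ) + 2 * m) ^ d - (n : ℝ) ^ d ≤ ε / 4 * (N : ℝ) ^ d := by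
      have h1 : (n : ℝ) + 2 * m ≤ n * (1 + 4 * δ) := by
        rw [div_le_iff₀ hn0] at hm2
        nlinarith
      have h2 : ((n : ℝ) + 2 * m) ^ d ≤ (n : ℝ) ^ d * (1 + ε / 4) := by
        calc ((n : ℝ) + 2 * m) ^ d ≤ (n * (1 + 4 * δ)) ^ d := by gcongr
          _ = (n : ℝ) ^ d * (1 + 4 * δ) ^ d := mul_pow _ _ _
          _ ≤ (n : ℝ) ^ d * (1 + ε / 4) := by gcongr
      have h3 : (n : ℝ) ^ d ≤ (N : ℝ) ^ d := by gcongr
      have h4 : ε / 4 * (n : ℝ) ^ d ≤ ε / 4 * (N : ℝ) ^ d := by gcongr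
      linarith
    unfold av
    have hNd : (0 : ℝ) < (N : ℝ) ^ d := by positivity
    rw [div_le_iff₀ hNd]
    refine hsum.trans ?_
    have h1 : (N : ℝ) ^ d * (e / δ + 19 / 4 * e) ≤ (N : ℝ) ^ d * (ε / 4 + ε / 4) := by
      gcongr
    nlinarith [mul_pos hε hNd]
  · show gs ((2 * M + 1) * n / (2 * M + 1)) α β γ
      (fun i => y i - (M * ((2 * M + 1) * n / (2 * M + 1)) : ℕ)) = _
    rw [Nat.mul_div_cancel_left n (by omega)]

end Pool.CB
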