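import Pool.Agent.Helper65.CB.StI
import Pool.Agent.Helper26.CL.OutB

/-!
# Project CB (MP_65faa7): statements, comparison of the moment functions with the walk
-/

set_option autoImplicit false

open scoped BigOperators ENNReal Topology
open Pool.LE Pool.NL Pool.CL Filter MeasureTheory

namespace Pool.CB

/-! ## moment functions of the box `Bn` and the coefficient functions -/

/-- pointwise expansion of `y_θ` -/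
def StFrY : Prop := ∀ (d : ℕ) (C₁ B c₀ CL : ℝ), EnvC d C₁ B c₀ CL → ∃ K : ℝ, 1 ≤ K ∧
  ∀ (n : ℕ) (ψ : Zd d → ℝ), 1 ≤ n → U01 ψ → ∀ x ∈ Bn d n,
    (∀ r : ℕ, 0 ≤ Fr (Bn d n) n r ψ x ∧ Fr (Bn d n) n r ψ x ≤ K ^ (r + 1)) ∧
    (∀ (N : ℕ) (θ : ℝ), 0 ≤ θ → θ ≤ 1 →
      |yx d n θ ψ x - ∑ r ∈ Finset.range N, (-θ) ^ r * Fr (Bn d n) n r ψ x| ≤ K * (K * θ) ^ N)

/-- small polynomials have small coefficients, in the average norm -/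
def StPolV : Prop := ∀ (d : ℕ) (b : ℕ → ℕ → Zd d → ℝ) (K : ℝ), 1 ≤ K →
  (∀ r n, av d n (fun x => |b r n x|) ≤ K ^ (r + 1)) →
  (∀ N : ℕ, 1 ≤ N → ∀ ε : ℝ, 0 < ε → ∃ n₀ : ℕ, ∀ n : ℕ, n₀ ≤ n → ∀ θ : ℝ, 0 ≤ θ → K * θ ≤ 1 →
    av d n (fun x => |∑ r ∈ Finset.range N, θ ^ r * b r n x|) ≤ K * (K * θ) ^ N + ε) →
      ∀ r : ℕ, Tendsto (fun n => av d n (fun x => |b r n x|)) atTop (𝓝 0)

/-- the moment functions are asymptotically the coefficient functions -/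
def StL1 : Prop := ∀ (d : ℕ) (C₁ B c₀ CL : ℝ), EnvC d C₁ B c₀ CL → ∀ V : ℝ, isEq d V →
  ∀ ψ : ℕ → Zd d → ℝ, (∀ n, U01 (ψ n)) → ∀ r : ℕ,
    Tendsto (fun n : ℕ => av d n (fun x =>
      |Fr (Bn d n) n r (ψ n) x - co (T0 d n) V (ψ n) r x|)) atTop (𝓝 0)

/-- the vertex factor is positive -/
def StVpos : Prop := ∀ (d : ℕ) (C₁ B c₀ CL : ℝ), EnvC d C₁ B c₀ CL → ∀ V : ℝ, isEq d V → 0 < V

/-! ## simple random walk -/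

/-- basic facts on the Green kernel of the walk -/
def StGS : Prop := ∀ (d : ℕ), 1 ≤ d → ∀ L : Finset (Zd d),
  (∀ u v, 0 ≤ GS L u v) ∧ (∀ u v, GS L u v = GS L v u) ∧ (∀ u v, u ∉ L ∨ v ∉ L → GS L u v = 0) ∧
  (∀ (f : Zd d → ℝ), ∀ u ∈ L,
    2 * d * ap L (GS L) f u - ∑ b ∈ nb u, ap L (GS L) f b = f u) ∧
  (∀ (w f : Zd d → ℝ), (∀ u, u ∉ L → 0 ≤ w u) → (∀ u ∈ L, f u ≤ 2 * d * w u - ∑ b ∈ nb u, w b) →
    ∀ u ∈ L, ap L (GS L) f u ≤ w u)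

/-- translations and monotonicity in the domain -/
def StGSt : Prop := ∀ (d : ℕ), 1 ≤ d → ∀ L : Finset (Zd d),
  (∀ (a u v : Zd d), GS (L.image (fun x => x + a)) (u + a) (v + a) = GS L u v) ∧
  (∀ L' : Finset (Zd d), L ⊆ L' → ∀ u v, GS L u v ≤ GS L' u v)

/-- row sums of the Green kernel of the box -/
def StGSn : Prop := ∀ (d n : ℕ), 1 ≤ d → ∀ u : Zd d, ∑ v ∈ Bn d n, GS (Bn d n) u v ≤ (n + 1 : ℝ) ^ 2

/-- sines are eigenfunctions -/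
def StGSk : Prop := ∀ (d n : ℕ) (k : Fin d → ℕ), 1 ≤ d → 1 ≤ n → (∀ i, 1 ≤ k i ∧ k i ≤ n) →
  ∀ x ∈ Bn d n, ap (Bn d n) (GS (Bn d n)) (phk d n k) x =
    phk d n k x / (2 * d * (1 - Dh (fun i => Real.pi * (k i : ℝ) / ((n : ℝ) + 1))))

/-- the constant of the walk -/
def isCs (d : ℕ) (c : ℝ) : Prop := 0 < c ∧ ∀ f : ℕ → Zd d → ℝ, CC d f →
  Tendsto (fun n : ℕ => av d n (fun x => |T0 d n (f n) x - TS (Bn d n) n c (f n) x|)) atTop (𝓝 0)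

/-- comparison of the two Green operators -/
def StCs : Prop := ∀ (d : ℕ) (C₁ B c₀ CL : ℝ), EnvC d C₁ B c₀ CL → ∃ c : ℝ, isCs d c

/-- comparison of the coefficient functions -/
def StCmp2 : Prop := ∀ (d : ℕ) (C₁ B c₀ CL : ℝ), EnvC d C₁ B c₀ CL → ∀ V c : ℝ, isCs d c →
  ∀ ψ : ℕ → Zd d → ℝ, CC d ψ → ∀ r : ℕ,
    CC d (fun n => co (T0 d n) V (ψ n) r) ∧ CC d (fun n => co (TS (Bn d n) n c) V (ψ n) r) ∧
    Tendsto (fun n : ℕ => av d n (fun x =>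
      |co (T0 d n) V (ψ n) r x - co (TS (Bn d n) n c) V (ψ n) r x|)) atTop (𝓝 0)

/-! ## the big boxes -/

/-- translation of the big box to `Bn`, scaling -/
def StLamT : Prop := ∀ (d n M : ℕ), 1 ≤ n →
  (∀ x : Zd d, x ∈ Lam d n M ↔ (fun i => x i + (M * n : ℕ)) ∈ Bn d ((2 * M + 1) * n)) ∧
  (∀ (f : Zd d → ℝ) (r : ℕ) (x : Zd d), Fr (Lam d n M) n r f x =
    ((2 * M + 1 : ℕ) : ℝ) ^ (2 + 4 * r) * Fr (Bn d ((2 * M + 1) * n)) ((2 * M + 1) * n) r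
      (fun y => f (fun i => y i - (M * n : ℕ))) (fun i => x i + (M * n : ℕ))) ∧
  (∀ (c V : ℝ) (f : Zd d → ℝ) (r : ℕ) (x : Zd d), 1 ≤ d → x ∈ Lam d n M →
    co (TS (Lam d n M) n c) V f r x =
    ((2 * M + 1 : ℕ) : ℝ) ^ (2 + 4 * r) *
      co (TS (Bn d ((2 * M + 1) * n)) ((2 * M + 1) * n) c) V
      (fun y => f (fun i => y i - (M * n : ℕ))) r (fun i => x i + (M * n : ℕ)))

/-- general sources -/
noncomputable def gs {d : ℕ} (n : ℕ) (α β γ : ℝ) (x : Zd d) : ℝ :=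
  α * sB n x + β + γ * rr n x ^ (-(19 / 4) : ℝ)

/-- the sources of the big boxes, seen in `Bn`, are in the class -/
def StgsC : Prop := ∀ (d M : ℕ) (α β γ : ℝ), 1 ≤ d → 1 ≤ M → 0 ≤ α → 0 ≤ β → 0 ≤ γ → α + β + γ ≤ 1 →
  ∃ ψ : ℕ → Zd d → ℝ, (∀ N, U01 (ψ N)) ∧ CC d ψ ∧
    ∀ n : ℕ, 1 ≤ n → ∀ y : Zd d,
      ψ ((2 * M + 1) * n) y = gs n α β γ (fun i => y i - (M * n : ℕ))

/-- scaling of the source -/
def StScl : Prop := ∀ (d : ℕ) (L : Finset (Zd d)) (n r : ℕ) (t : ℝ) (f : Zd d → ℝ) (x : Zd d),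
  Fr L n r (fun y => t * f y) x = t ^ (r + 1) * Fr L n r f x ∧
  ∀ c V : ℝ, co (TS L n c) V (fun y => t * f y) r x = t ^ (r + 1) * co (TS L n c) V f r x

/-- **comparison in the big boxes** -/
def StL3 : Prop := ∀ (d : ℕ) (C₁ B c₀ CL : ℝ), EnvC d C₁ B c₀ CL → ∀ V c : ℝ, isEq d V → isCs d c →
  ∀ (M r : ℕ) (α β γ : ℝ), 1 ≤ M → 0 ≤ α → 0 ≤ β → 0 ≤ γ →
    Tendsto (fun n : ℕ => (∑ x ∈ Lam d n M, |Fr (Lam d n M) n r (gs n α β γ) x -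
      co (TS (Lam d n M) n c) V (gs n α β γ) r x|) / (n : ℝ) ^ d) atTop (𝓝 0) ∧
    ∃ cl : ℝ, 0 ≤ cl ∧ Tendsto (fun n : ℕ => (∑ x ∈ Lam d n M,
      Fr (Lam d n M) n r (gs n α β γ) x) / (n : ℝ) ^ d) atTop (𝓝 cl)

/-- Minkowski inequality for the moments -/
def StMink : Prop := ∀ (d : ℕ) (L : Finset (Zd d)) (n r : ℕ) (η : ℝ) (f g : Zd d → ℝ), 1 ≤ n →
  0 ≤ pH d → pH d ≤ 1 → 0 ≤ η → (∀ y, 0 ≤ f y) → (∀ y, 0 ≤ g y) →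
    (∑ x ∈ L, Fr L n r (fun y => f y + η * g y) x) ^ (1 / ((r : ℝ) + 1)) ≤
      (∑ x ∈ L, Fr L n r f x) ^ (1 / ((r : ℝ) + 1)) +
        η * (∑ x ∈ L, Fr L n r g x) ^ (1 / ((r : ℝ) + 1))

/-- perturbation of the radius of convergence -/
def StRadP : Prop := ∀ (a b : ℕ → ℝ) (K θ θ' : ℝ), 0 < θ → θ < θ' → (∀ r, 0 ≤ a r) →
  (∀ r, 0 ≤ b r ∧ b r ≤ K ^ (r + 1)) → Summable (fun r => a r * θ' ^ r) →
  ∃ η₁ : ℝ, 0 < η₁ ∧ ∀ (η : ℝ) (e : ℕ → ℝ), 0 < η → η ≤ η₁ → (∀ r, 0 ≤ e r) →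
    (∀ r : ℕ, (e r) ^ (1 / ((r : ℝ) + 1)) ≤ (a r) ^ (1 / ((r : ℝ) + 1)) +
      η * (b r) ^ (1 / ((r : ℝ) + 1))) → Summable (fun r => e r * θ ^ r)

/-- monotonicity of the coefficient functions in the source -/
def StCoM : Prop := ∀ (d : ℕ) (L : Finset (Zd d)) (n r : ℕ) (c V : ℝ) (f g : Zd d → ℝ), 1 ≤ d →
  0 < c → 0 < V → (∀ y, 0 ≤ f y) → (∀ y, f y ≤ g y) → ∀ x,
    0 ≤ co (TS L n c) V f r x ∧ co (TS L n c) V f r x ≤ co (TS L n c) V g r x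

/-- the condition on `θ`: for every `M` the limit series with source `1_B` converges beyond `θ` -/
def RadC (d : ℕ) (θ : ℝ) : Prop := ∀ M : ℕ, 1 ≤ M → ∃ (θ' : ℝ) (cl : ℕ → ℝ), θ < θ' ∧
  (∀ r, Tendsto (fun n : ℕ => (∑ x ∈ Lam d n M, Fr (Lam d n M) n r (sB n) x) / (n : ℝ) ^ d)
    atTop (𝓝 (cl r))) ∧ Summable (fun r => cl r * θ' ^ r)

/-- below all radii the problem for the walk has finite solutions -/
def StSF : Prop := ∀ (d : ℕ) (C₁ B c₀ CL : ℝ), EnvC d C₁ B c₀ CL → ∀ V c θ : ℝ, isEq d V → isCs d c →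
  0 < θ → RadC d θ → SFin d V c θ

end Pool.CB
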