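import Pool.Agent.Helper65.CB.StC

/-!
# Project CB (MP_65faa7): statements, the extension argument and the bulk limit
-/

set_option autoImplicit false

open scoped BigOperators ENNReal Topology
open Pool.LE Pool.NL Pool.CL Filter MeasureTheory

namespace Pool.CB

/-- elementary facts on `rr`, `sB`, `fe` -/
def StRR : Prop := ∀ (d n : ℕ), 1 ≤ d → 1 ≤ n →
  (∀ x : Zd d, 1 ≤ rr n x ∧ (x ∈ Bn d n → rr n x = 1) ∧ (rr n x = 1 → x ∈ Bn d n)) ∧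
  (∀ x b : Zd d, b ∈ nb x → rr n b ≤ 2 * rr n x) ∧
  (∀ (η : ℝ) (x : Zd d), 0 ≤ η → 0 ≤ fe n η x ∧ sB n x ≤ fe n η x ∧
    η * rr n x ^ (-(19 / 4) : ℝ) ≤ fe n η x ∧ fe n η x ≤ (1 + η) * rr n x ^ (-(19 / 4) : ℝ)) ∧
  (∀ (N : ℕ) (a x : Zd d), n ≤ N → (∀ i, 0 ≤ a i ∧ a i ≤ (N : ℤ) - n) →
    rr N (x + a) ≤ rr n x ∧ (n : ℝ) * rr n x ≤ N * rr N (x + a) ∧ sB n x ≤ sB N (x + a) ∧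
    (∀ η : ℝ, 0 ≤ η → fe n η x ≤ fe N η (x + a)) ∧
    ∀ M : ℕ, x ∈ Lam d n M → x + a ∈ Lam d N M) ∧
  (∀ (M : ℕ) (x : Zd d), (x ∈ Lam d n M ↔ rr n x ≤ M + 1) ∧ (Lam d n M).card = ((2 * M + 1) * n) ^ d)

/-- one step of the extension in `θ` -/
def StX1 : Prop := ∀ (d n : ℕ) (L : Finset (Zd d)) (f g : Zd d → ℝ) (κ A θ₀ : ℝ), 1 ≤ n →
  0 ≤ pH d → pH d ≤ 1 → 0 < κ → 0 < A → 0 ≤ θ₀ → (∀ x, 0 < f x) → (∀ x, 0 < g x) →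
  (∀ x, g x ^ 2 ≤ f x / κ) → (∀ x ∈ L, Fe L n θ₀ f x ≤ A * g x) →
    ∀ θ : ℝ, θ₀ ≤ θ → θ ≤ θ₀ + κ / (8 * A ^ 2) → ∀ x ∈ L, Fe L n θ f x ≤ 2 * A * g x

/-- expansion of the exponential moment -/
def StX2 : Prop := ∀ (d n : ℕ) (L : Finset (Zd d)) (f : Zd d → ℝ) (x : Zd d), 1 ≤ n → 0 ≤ pH d →
  pH d ≤ 1 → (∀ y, 0 ≤ f y) → (∀ r, 0 ≤ Fr L n r f x) ∧ ∀ θ : ℝ, 0 ≤ θ →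
    HasSum (fun r => Fr L n r f x * θ ^ r) (Fe L n θ f x)

/-- uniform bounds for small `θ` -/
def StX3 : Prop := ∃ d₁ : ℕ, ∀ d : ℕ, d₁ ≤ d → ∀ η : ℝ, 0 < η → η ≤ 1 → ∃ C : ℝ, 1 ≤ C ∧
  ∀ (n : ℕ) (L : Finset (Zd d)), 1 ≤ n → ∀ x ∈ L,
    Fe L n 0 (fe n η) x ≤ C * rr n x ^ (-(11 / 4) : ℝ) ∧
    ∀ r : ℕ, Fr L n r (fe n η) x ≤ C ^ (r + 1) * rr n x ^ (-(11 / 4) : ℝ)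

/-- monotonicity and shifts -/
def StX4 : Prop := ∀ (d : ℕ), 0 ≤ pH d → pH d ≤ 1 →
  (∀ (n r : ℕ) (L L' : Finset (Zd d)) (f f' : Zd d → ℝ), L ⊆ L' → (∀ y, 0 ≤ f y) →
    (∀ y, f y ≤ f' y) → ∀ x, Fr L n r f x ≤ Fr L' n r f' x) ∧
  (∀ (n r : ℕ) (L : Finset (Zd d)) (f : Zd d → ℝ) (a x : Zd d),
    Fr (L.image (fun y => y + a)) n r (fun y => f (y - a)) (x + a) = Fr L n r f x) ∧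
  (∀ (n N M r : ℕ) (η : ℝ) (a x : Zd d), 1 ≤ d → 1 ≤ n → n ≤ N → 0 ≤ η →
    (∀ i, 0 ≤ a i ∧ a i ≤ (N : ℤ) - n) →
      Fr (Lam d n M) n r (fe n η) x ≤
        ((N : ℝ) / n) ^ (2 + 4 * r) * Fr (Lam d N M) N r (fe N η) (x + a))

/-- truncation -/
def StX5 : Prop := ∃ d₁ : ℕ, ∀ d : ℕ, d₁ ≤ d → ∀ (η ε : ℝ) (r : ℕ), 0 < η → η ≤ 1 → 0 < ε →
  ∃ M₀ : ℕ, 1 ≤ M₀ ∧ ∀ M : ℕ, M₀ ≤ M → ∃ n₀ : ℕ, 1 ≤ n₀ ∧ ∀ n : ℕ, n₀ ≤ n →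
    ∀ (L : Finset (Zd d)) (x : Zd d), Lam d n M ⊆ L → 2 * rr n x ≤ M →
      Fr L n r (fe n η) x ≤ Fr (Lam d n M) n r (fe n η) x + ε

/-- local averages -/
def StAvg : Prop := ∀ (d n N M : ℕ) (f g : Zd d → ℝ) (x : Zd d), 1 ≤ d → 1 ≤ n → n < N →
  x ∈ Lam d n M → ∃ a : Zd d, (∀ i, 0 ≤ a i ∧ a i ≤ (N : ℤ) - n) ∧
    f (x + a) ≤ g (x + a) + (∑ y ∈ Lam d N M, |f y - g y|) / ((N : ℝ) - n) ^ d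

/-- a bound for finitely many moments, uniform in `M` -/
def StX6 : Prop := ∃ d₁ : ℕ, ∀ d : ℕ, d₁ ≤ d → ∀ (C₁ B c₀ CL : ℝ), EnvC d C₁ B c₀ CL →
  ∀ V c θ θ₂ η₁ : ℝ, isEq d V → isCs d c → 0 < θ → θ < θ₂ → SFin d V c θ₂ → 0 < η₁ →
    ∃ η K : ℝ, 0 < η ∧ η ≤ η₁ ∧ 1 ≤ K ∧ ∀ r₀ : ℕ, ∃ n₀ : ℕ, 1 ≤ n₀ ∧ ∀ n : ℕ, n₀ ≤ n →
      ∀ (M : ℕ), ∀ x ∈ Lam d n M, ∑ r ∈ Finset.range r₀, Fr (Lam d n M) n r (fe n η) x * θ ^ r ≤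
        K * rr n x ^ (-(5 / 2) : ℝ)

/-- uniform exponential moments -/
def StX7 : Prop := ∃ d₁ : ℕ, ∀ d : ℕ, d₁ ≤ d → ∀ (C₁ B c₀ CL : ℝ), EnvC d C₁ B c₀ CL →
  ∀ V c θ θ₂ : ℝ, isEq d V → isCs d c → 0 < θ → θ < θ₂ → SFin d V c θ₂ →
    ∃ K : ℝ, 1 ≤ K ∧ ∃ n₀ : ℕ, 1 ≤ n₀ ∧ ∀ n : ℕ, n₀ ≤ n → ∀ (M : ℕ), ∀ x ∈ Lam d n M,
      Fe (Lam d n M) n θ (sB n) x ≤ K

/-- **upper bound** -/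
def StUB : Prop := ∃ d₁ : ℕ, ∀ d : ℕ, d₁ ≤ d → ∀ (C₁ B c₀ CL : ℝ), EnvC d C₁ B c₀ CL →
  ∀ θ θ₂ : ℝ, 0 < θ → θ < θ₂ → RadC d θ₂ → ∀ a : ℝ, ((d : ℝ) - 6) / θ < a → ∀ ε : ℝ, 0 < ε →
    ∃ n₀ : ℕ, ∀ n : ℕ, n₀ ≤ n → ∀ M : ℕ,
      pr (ES (Lam d n M)) (pH d) (fun ω => ∃ x ∈ Bn d n,
        a * (n : ℝ) ^ 4 * Real.log n ≤ ms (sB n) (clu (Lam d n M) ω x)) ≤ ε

/-- **lower bound in a fixed big box** (helper22) -/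
def StLB : Prop := ∃ d₁ : ℕ, ∀ d : ℕ, d₁ ≤ d → ∀ (C₁ B c₀ CL : ℝ), EnvC d C₁ B c₀ CL →
  ∀ (M : ℕ) (cl : ℕ → ℝ) (θ : ℝ), 1 ≤ M → 0 < θ →
  (∀ r, Tendsto (fun n : ℕ => (∑ x ∈ Lam d n M, Fr (Lam d n M) n r (sB n) x) / (n : ℝ) ^ d)
    atTop (𝓝 (cl r))) → ¬ Summable (fun r => cl r * θ ^ r) →
    ∀ a : ℝ, a < ((d : ℝ) - 6) / θ → Tendsto (fun n : ℕ => pr (ES (Lam d n M)) (pH d)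
      (fun ω => ∃ x ∈ Bn d n, a * (n : ℝ) ^ 4 * Real.log n ≤ ms (sB n) (clu (Lam d n M) ω x)))
        atTop (𝓝 1)

/-- the threshold of the bulk problem -/
def StRb : Prop := ∃ d₁ : ℕ, ∀ d : ℕ, d₁ ≤ d → ∀ (C₁ B c₀ CL : ℝ), EnvC d C₁ B c₀ CL →
  ∃ R : ℝ, 0 < R ∧ (∀ θ : ℝ, 0 < θ → θ < R → RadC d θ) ∧ ∀ θ : ℝ, R < θ → ¬ RadC d θ

/-- the bulk limit in finite boxes -/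
def StBbox : Prop := ∃ d₁ : ℕ, ∀ d : ℕ, d₁ ≤ d → ∀ (C₁ B c₀ CL : ℝ), EnvC d C₁ B c₀ CL →
  ∃ a : ℝ, 0 < a ∧ ∀ ε : ℝ, 0 < ε →
    (∀ ε' : ℝ, 0 < ε' → ∃ n₀ : ℕ, ∀ n : ℕ, n₀ ≤ n → ∀ M : ℕ,
      pr (ES (Lam d n M)) (pH d) (fun ω => ∃ x ∈ Bn d n,
        (a + ε) * (n : ℝ) ^ 4 * Real.log n ≤ ms (sB n) (clu (Lam d n M) ω x)) ≤ ε') ∧
    (∃ M : ℕ, Tendsto (fun n : ℕ => pr (ES (Lam d n M)) (pH d) (fun ω => ∃ x ∈ Bn d n,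
      (a - ε) * (n : ℝ) ^ 4 * Real.log n ≤ ms (sB n) (clu (Lam d n M) ω x))) atTop (𝓝 1))

/-- **the bulk limit** -/
def StBfin : Prop := ∃ d₀ : ℕ, ∀ d : ℕ, d₀ ≤ d → ∃ a : ℝ, 0 < a ∧ ∀ ε : ℝ, 0 < ε →
  Tendsto (fun n : ℕ => PU d {ω | |(maxB d n (pcU d) ω : ℝ) / ((n : ℝ) ^ 4 * Real.log n) - a| < ε})
    atTop (𝓝 1)

end Pool.CB
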