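import Pool.Agent.Helper65.CB.StX

/-!
# Project CB (MP_65faa7): the lower bound with two thresholds (replaces `StLB`)
-/

set_option autoImplicit false

open scoped BigOperators ENNReal Topology
open Pool.LE Pool.NL Pool.CL Filter MeasureTheory

namespace Pool.CB

/-- **lower bound in a fixed big box, two thresholds** (follows from helper22's lower bound
for general source sets): below `R1` the exponential moments are bounded, above `R2` the limit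
series diverges -/
def StLB2 : Prop := ∃ d₁ : ℕ, ∀ d : ℕ, d₁ ≤ d → ∀ (C₁ B c₀ CL : ℝ), EnvC d C₁ B c₀ CL →
  ∃ C0 : ℝ, 0 < C0 ∧ ∀ (M : ℕ) (cl : ℕ → ℝ) (R1 R2 : ℝ), 1 ≤ M → 0 < R1 → R1 ≤ R2 →
  (∀ r, Tendsto (fun n : ℕ => (∑ x ∈ Lam d n M, Fr (Lam d n M) n r (sB n) x) / (n : ℝ) ^ d)
    atTop (𝓝 (cl r))) →
  (∀ θ : ℝ, 0 < θ → θ < R1 → ∃ K : ℝ, ∃ n₀ : ℕ, 1 ≤ n₀ ∧ ∀ n : ℕ, n₀ ≤ n → ∀ x ∈ Lam d n M,
    Fe (Lam d n M) n θ (sB n) x ≤ K) →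
  (∀ θ : ℝ, R2 < θ → ¬ Summable (fun r => cl r * θ ^ r)) →
    ∀ a : ℝ, 0 < a → a * (R2 + C0 * (R2 - R1)) < (d : ℝ) - 6 →
      Tendsto (fun n : ℕ => pr (ES (Lam d n M)) (pH d)
        (fun ω => ∃ x ∈ Bn d n, a * (n : ℝ) ^ 4 * Real.log n ≤ ms (sB n) (clu (Lam d n M) ω x)))
          atTop (𝓝 1)

/-- **lower bound in a fixed big box, two thresholds** which are close to each other; this is the
form which follows from `Pool.CM.StLowS` -/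
def StLB3 : Prop := ∃ d₁ : ℕ, ∀ d : ℕ, d₁ ≤ d → ∀ (C₁ B c₀ CL : ℝ), EnvC d C₁ B c₀ CL →
  ∀ (M : ℕ) (cl : ℕ → ℝ) (R1 R2 : ℝ), 1 ≤ M → 0 < R1 → R1 ≤ R2 → 2 * (R2 - R1) ≤ R2 →
  (∀ r, Tendsto (fun n : ℕ => (∑ x ∈ Lam d n M, Fr (Lam d n M) n r (sB n) x) / (n : ℝ) ^ d)
    atTop (𝓝 (cl r))) →
  (∀ θ : ℝ, 0 < θ → θ < R1 → ∃ K : ℝ, ∃ n₀ : ℕ, 1 ≤ n₀ ∧ ∀ n : ℕ, n₀ ≤ n → ∀ x ∈ Lam d n M,
    Fe (Lam d n M) n θ (sB n) x ≤ K) →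
  (∀ θ : ℝ, R2 < θ → ¬ Summable (fun r => cl r * θ ^ r)) →
    ∀ a : ℝ, 0 < a → a * (R2 + 71 * (R2 - R1)) < (d : ℝ) - 6 →
      Tendsto (fun n : ℕ => pr (ES (Lam d n M)) (pH d)
        (fun ω => ∃ x ∈ Bn d n, a * (n : ℝ) ^ 4 * Real.log n ≤ ms (sB n) (clu (Lam d n M) ω x)))
          atTop (𝓝 1)

end Pool.CB
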